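import Pool.Agent.K3G.SmoothDef

/-!
# The surfaces `S_b` are smooth and `ω_S` is generated by the three forms `η_{i+1} ∧ η_{i+2}`

`D_b ⊂ E₀ × E₁ × E₂` is given in the space `V = ℂ⁹` of homogeneous coordinates `(W, X, Y)`
(outside `W_i = X_i = 0`) by four equations `eqs b`; their differentials are linearly independent at every
point (`smooth`), and `-1` has no fixed point on `D_b` (`free`).  The regular differential `η_i = dx_i / y_i` of
`E_i` is given on tangent vectors by `IsEta`; the three `2`-forms `η_{i+1} ∧ η_{i+2}` (invariant under `-1`) have no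
common zero on `D_b` (`no_common_zero`).
-/

set_option autoImplicit false

noncomputable section
namespace Pool.Agent.K3G

open TripleBurger

theorem eqs_def (b : Param) (p : V9) : eqs b p =
    (fun i => p.2.2 i ^ 2 - quartic b i (p.1 i) (p.2.1 i),
      p.2.1 0 * p.2.1 2 * p.1 1 - b 4 * p.2.1 1 * p.1 0 * p.1 2) := rfl

theorem eqs_coord (p : Cone) : eqs p.b (coord p) = 0 := by
  have h := p.2
  refine Prod.ext ?_ ?_
  · funext i
    have := h.2.2.1 i
    simp only [eqs, eqC, coord, Cone.Y, Cone.W, Cone.X, Cone.b, Prod.fst_zero, Pi.zero_apply]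
    rw [this]; ring
  · have := h.2.2.2
    simp only [eqs, eqR, coord, Cone.W, Cone.X, Cone.b, Prod.snd_zero]
    rw [this]; ring

theorem qW_eq (b : Param) (i : Fin 3) (W X : ℂ) : qW b i W X =
  -(root b i 0) * ((X - root b i 1 * W) * (X - root b i 2 * W) * (X - root b i 3 * W))
  -(root b i 1) * ((X - root b i 0 * W) * (X - root b i 2 * W) * (X - root b i 3 * W))
  -(root b i 2) * ((X - root b i 0 * W) * (X - root b i 1 * W) * (X - root b i 3 * W))
  -(root b i 3) * ((X - root b i 0 * W) * (X - root b i 1 * W) * (X - root b i 2 * W)) := by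
  have e0 : (Finset.univ.erase (0 : Fin 4)) = {1, 2, 3} := by decide
  have e1 : (Finset.univ.erase (1 : Fin 4)) = {0, 2, 3} := by decide
  have e2 : (Finset.univ.erase (2 : Fin 4)) = {0, 1, 3} := by decide
  have e3 : (Finset.univ.erase (3 : Fin 4)) = {0, 1, 2} := by decide
  simp only [qW, Fin.sum_univ_four, e0, e1, e2, e3]
  simp [lin]
  ring

theorem qX_eq (b : Param) (i : Fin 3) (W X : ℂ) : qX b i W X =
  (X - root b i 1 * W) * (X - root b i 2 * W) * (X - root b i 3 * W)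
  + (X - root b i 0 * W) * (X - root b i 2 * W) * (X - root b i 3 * W)
  + (X - root b i 0 * W) * (X - root b i 1 * W) * (X - root b i 3 * W)
  + (X - root b i 0 * W) * (X - root b i 1 * W) * (X - root b i 2 * W) := by
  have e0 : (Finset.univ.erase (0 : Fin 4)) = {1, 2, 3} := by decide
  have e1 : (Finset.univ.erase (1 : Fin 4)) = {0, 2, 3} := by decide
  have e2 : (Finset.univ.erase (2 : Fin 4)) = {0, 1, 3} := by decide
  have e3 : (Finset.univ.erase (3 : Fin 4)) = {0, 1, 2} := by decide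
  simp only [qX, Fin.sum_univ_four, e0, e1, e2, e3]
  simp [lin]
  ring

theorem hasDerivAt_quartic (b : Param) (i : Fin 3) (W X dW dX : ℂ) :
    HasDerivAt (fun ε : ℂ => quartic b i (W + ε * dW) (X + ε * dX))
      (qW b i W X * dW + qX b i W X * dX) 0 := by
  have h : ∀ j : Fin 4, HasDerivAt (fun ε : ℂ => (X + ε * dX) - root b i j * (W + ε * dW))
      (dX - root b i j * dW) 0 := by
    intro j
    have h1 : HasDerivAt (fun ε : ℂ => X + ε * dX) dX 0 := by
      simpa using ((hasDerivAt_id (0:ℂ)).mul_const dX).const_add X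
    have h2 : HasDerivAt (fun ε : ℂ => W + ε * dW) dW 0 := by
      simpa using ((hasDerivAt_id (0:ℂ)).mul_const dW).const_add W
    exact h1.sub (h2.const_mul _)
  have h3 := ((h 0).mul (h 1)).mul ((h 2).mul (h 3))
  have e : (fun ε : ℂ => quartic b i (W + ε * dW) (X + ε * dX)) =
      ((fun ε : ℂ => (X + ε * dX) - root b i 0 * (W + ε * dW)) *
       (fun ε : ℂ => (X + ε * dX) - root b i 1 * (W + ε * dW))) *
      ((fun ε : ℂ => (X + ε * dX) - root b i 2 * (W + ε * dW)) *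
       (fun ε : ℂ => (X + ε * dX) - root b i 3 * (W + ε * dW))) := by
    funext ε
    simp only [quartic, Fin.prod_univ_four, Pi.mul_apply]
    ring
  rw [e]
  refine h3.congr_deriv ?_
  simp only [Pi.mul_apply, zero_mul, add_zero, qW_eq, qX_eq]
  ring

/-- Euler's relation -/
theorem euler (b : Param) (i : Fin 3) (W X : ℂ) :
    W * qW b i W X + X * qX b i W X = 4 * quartic b i W X := by
  simp only [quartic, Fin.prod_univ_four, qW_eq, qX_eq]
  ring

/-- the differential of the equations -/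
def deqs (b : Param) (p u : V9) : (Fin 3 → ℂ) × ℂ :=
  (fun i => 2 * p.2.2 i * u.2.2 i - (qW b i (p.1 i) (p.2.1 i) * u.1 i + qX b i (p.1 i) (p.2.1 i) * u.2.1 i),
    u.2.1 0 * p.2.1 2 * p.1 1 + p.2.1 0 * u.2.1 2 * p.1 1 + p.2.1 0 * p.2.1 2 * u.1 1
      - b 4 * (u.2.1 1 * p.1 0 * p.1 2 + p.2.1 1 * u.1 0 * p.1 2 + p.2.1 1 * p.1 0 * u.1 2))

theorem differentiable_eqs (b : Param) : Differentiable ℂ (eqs b) := by
  unfold eqs eqC eqR quartic
  simp only [Fin.prod_univ_four]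
  fun_prop

theorem fderiv_eqs (b : Param) (p u : V9) : fderiv ℂ (eqs b) p u = deqs b p u := by
  rw [← (differentiable_eqs b p).lineDeriv_eq_fderiv]
  unfold lineDeriv
  apply HasDerivAt.deriv
  have hl : ∀ a c : ℂ, HasDerivAt (fun ε : ℂ => a + ε * c) c 0 := fun a c => by
    simpa using ((hasDerivAt_id (0:ℂ)).mul_const c).const_add a
  refine HasDerivAt.prodMk ?_ ?_
  · rw [hasDerivAt_pi]
    intro i
    have h1 := (hl (p.2.2 i) (u.2.2 i)).pow 2
    have h2 := hasDerivAt_quartic b i (p.1 i) (p.2.1 i) (u.1 i) (u.2.1 i)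
    refine ((h1.sub h2).congr_deriv ?_)
    simp
  · have h1 := ((hl (p.2.1 0) (u.2.1 0)).mul (hl (p.2.1 2) (u.2.1 2))).mul (hl (p.1 1) (u.1 1))
    have h2 := ((((hl (p.2.1 1) (u.2.1 1)).mul (hl (p.1 0) (u.1 0))).mul (hl (p.1 2) (u.1 2)))).const_mul (b 4)
    have h2' : HasDerivAt (fun ε : ℂ => b 4 * (p + ε • u).2.1 1 * (p + ε • u).1 0 * (p + ε • u).1 2)
        (b 4 * (u.2.1 1 * p.1 0 * p.1 2 + p.2.1 1 * u.1 0 * p.1 2 + p.2.1 1 * p.1 0 * u.1 2)) 0 := by
      refine (h2.congr_of_eventuallyEq ?_).congr_deriv ?_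
      · refine Filter.Eventually.of_forall fun ε => ?_
        simp only [Pi.mul_apply, Prod.snd_add, Prod.fst_add, Prod.smul_fst, Prod.smul_snd, Pi.add_apply, Pi.smul_apply,
          smul_eq_mul]
        ring
      · simp only [Pi.mul_apply, zero_mul, add_zero]
        ring
    refine ((h1.sub h2').congr_deriv ?_)
    simp
    ring

/-! ### Points of the cone -/

section
variable (p : Cone)

theorem cone_ne (i : Fin 3) : p.W i ≠ 0 ∨ p.X i ≠ 0 := p.2.2.1 i
theorem cone_curve (i : Fin 3) : p.Y i ^ 2 = quartic p.b i (p.W i) (p.X i) := p.2.2.2.1 i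
theorem cone_rel : p.X 0 * p.X 2 * p.W 1 = p.b 4 * p.X 1 * p.W 0 * p.W 2 := p.2.2.2.2
theorem cone_base : p.b ∈ BaseSet := p.2.1

theorem Y_ne_of_W {i : Fin 3} (h : p.W i = 0) : p.Y i ≠ 0 := by
  intro hY
  have h1 := cone_curve p i
  rw [hY, h] at h1
  have hX : p.X i ≠ 0 := (cone_ne p i).resolve_left (fun h2 => h2 h)
  simp only [quartic, Fin.prod_univ_four, mul_zero, sub_zero] at h1
  have : p.X i ^ 4 = 0 := by linear_combination -h1
  exact hX (pow_eq_zero_iff (by norm_num) |>.mp this)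

theorem Y_ne_of_X {i : Fin 3} (h : p.X i = 0) : p.Y i ≠ 0 := by
  intro hY
  have h1 := cone_curve p i
  rw [hY, h] at h1
  have hW : p.W i ≠ 0 := (cone_ne p i).resolve_right (fun h2 => h2 h)
  simp only [quartic, Fin.prod_univ_four] at h1
  have h2 : root p.b i 0 * root p.b i 1 * root p.b i 2 * root p.b i 3 * p.W i ^ 4 = 0 := by
    linear_combination -h1
  have h3 := (cone_base p).2.1
  exact (mul_ne_zero (mul_ne_zero (mul_ne_zero (mul_ne_zero (h3 i 0) (h3 i 1)) (h3 i 2)) (h3 i 3))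
    (pow_ne_zero 4 hW)) h2

/-- a point of `E_i` with `Y_i = 0` is a branch point -/
theorem exists_root {i : Fin 3} (h : p.Y i = 0) : ∃ j, p.X i = root p.b i j * p.W i := by
  have h1 := cone_curve p i
  rw [h] at h1
  have h2 : ∏ j : Fin 4, (p.X i - root p.b i j * p.W i) = 0 := by
    simp only [quartic] at h1
    rw [← h1]; norm_num
  obtain ⟨j, -, hj⟩ := Finset.prod_eq_zero_iff.mp h2
  exact ⟨j, sub_eq_zero.mp hj⟩

/-- at a branch point `∂q/∂X ≠ 0` -/
theorem qX_ne {i : Fin 3} (h : p.Y i = 0) : qX p.b i (p.W i) (p.X i) ≠ 0 := by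
  obtain ⟨j, hj⟩ := exists_root p h
  have hW : p.W i ≠ 0 := fun hW => Y_ne_of_W p hW h
  have hinj := (cone_base p).1 i
  have hne : ∀ k l : Fin 4, k ≠ l → root p.b i k - root p.b i l ≠ 0 := fun k l hkl =>
    sub_ne_zero.mpr (fun h => hkl (hinj h))
  have key : ∀ a c d : ℂ, root p.b i j - a ≠ 0 → root p.b i j - c ≠ 0 → root p.b i j - d ≠ 0 →
      (p.X i - a * p.W i) * (p.X i - c * p.W i) * (p.X i - d * p.W i) ≠ 0 := by
    intro a c d ha hc hd
    rw [hj]
    have : (root p.b i j * p.W i - a * p.W i) * (root p.b i j * p.W i - c * p.W i) *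
        (root p.b i j * p.W i - d * p.W i) = (root p.b i j - a) * (root p.b i j - c) *
        (root p.b i j - d) * p.W i ^ 3 := by ring
    rw [this]
    exact mul_ne_zero (mul_ne_zero (mul_ne_zero ha hc) hd) (pow_ne_zero 3 hW)
  have hz : p.X i - root p.b i j * p.W i = 0 := sub_eq_zero.mpr hj
  rw [qX_eq]
  fin_cases j
  · simp only [Fin.zero_eta, Fin.isValue] at hz key ⊢
    rw [hz]
    simpa using key _ _ _ (hne 0 1 (by decide)) (hne 0 2 (by decide)) (hne 0 3 (by decide))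
  · simp only [Fin.mk_one, Fin.isValue] at hz key ⊢
    rw [hz]
    simpa using key _ _ _ (hne 1 0 (by decide)) (hne 1 2 (by decide)) (hne 1 3 (by decide))
  · simp only [Fin.reduceFinMk, Fin.isValue] at hz key ⊢
    rw [hz]
    simpa using key _ _ _ (hne 2 0 (by decide)) (hne 2 1 (by decide)) (hne 2 3 (by decide))
  · simp only [Fin.reduceFinMk, Fin.isValue] at hz key ⊢
    rw [hz]
    simpa using key _ _ _ (hne 3 0 (by decide)) (hne 3 1 (by decide)) (hne 3 2 (by decide))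

/-- not all three `Y_i` vanish -/
theorem exists_Y_ne : ∃ i, p.Y i ≠ 0 := by
  by_contra h
  push_neg at h
  obtain ⟨j, hj⟩ := exists_root p (h 0)
  obtain ⟨k, hk⟩ := exists_root p (h 1)
  obtain ⟨l, hl⟩ := exists_root p (h 2)
  have hW : ∀ i, p.W i ≠ 0 := fun i hW => Y_ne_of_W p hW (h i)
  have h1 := cone_rel p
  rw [hj, hk, hl] at h1
  have h2 : (root p.b 0 j * root p.b 2 l - p.b 4 * root p.b 1 k) * (p.W 0 * p.W 1 * p.W 2) = 0 := by
    linear_combination h1
  have h3 := (mul_eq_zero.mp h2).resolve_right (mul_ne_zero (mul_ne_zero (hW 0) (hW 1)) (hW 2))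
  exact (cone_base p).2.2.2 j k l (sub_eq_zero.mp h3)

/-- `-1` has no fixed point on `D_b` -/
theorem free : ¬ ∃ c : Fin 3 → ℂ, (∀ i, c i ≠ 0) ∧
    ∀ i, p.W i = c i * p.W i ∧ p.X i = c i * p.X i ∧ p.Y i = -(c i ^ 2 * p.Y i) := by
  rintro ⟨c, -, hc⟩
  obtain ⟨i, hi⟩ := exists_Y_ne p
  obtain ⟨h1, h2, h3⟩ := hc i
  have hc1 : c i = 1 := by
    rcases cone_ne p i with h | h
    · exact mul_right_cancel₀ h (by rw [← h1, one_mul])
    · exact mul_right_cancel₀ h (by rw [← h2, one_mul])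
  rw [hc1] at h3
  apply hi
  have : 2 * p.Y i = 0 := by linear_combination h3
  simpa using this

/-- the coefficients of the differential of the relation in terms of `W_i dX_i - X_i dW_i` -/
theorem exists_lam : ∃ lam : Fin 3 → ℂ,
    (p.X 2 * p.W 1 = lam 0 * p.W 0 ∧ p.b 4 * p.X 1 * p.W 2 = lam 0 * p.X 0) ∧
    (p.X 0 * p.X 2 = lam 1 * p.X 1 ∧ p.b 4 * p.W 0 * p.W 2 = lam 1 * p.W 1) ∧
    (p.X 0 * p.W 1 = lam 2 * p.W 2 ∧ p.b 4 * p.X 1 * p.W 0 = lam 2 * p.X 2) ∧
    ∃ i, lam i * p.Y i ≠ 0 := by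
  have hrel := cone_rel p
  have gen : ∀ (i : Fin 3) (A B : ℂ), A * p.X i = B * p.W i →
      ∃ l : ℂ, A = l * p.W i ∧ B = l * p.X i := by
    intro i A B h
    rcases cone_ne p i with hi | hi
    · refine ⟨A / p.W i, by field_simp, ?_⟩
      field_simp
      exact h.symm
    · refine ⟨B / p.X i, ?_, by field_simp⟩
      field_simp
      exact h
  obtain ⟨l0, h0, h0'⟩ := gen 0 (p.X 2 * p.W 1) (p.b 4 * p.X 1 * p.W 2) (by linear_combination hrel)
  obtain ⟨l1, h1', h1⟩ := gen 1 (p.b 4 * p.W 0 * p.W 2) (p.X 0 * p.X 2) (by linear_combination -hrel)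
  obtain ⟨l2, h2, h2'⟩ := gen 2 (p.X 0 * p.W 1) (p.b 4 * p.X 1 * p.W 0) (by linear_combination hrel)
  refine ⟨![l0, l1, l2], ⟨h0, h0'⟩, ⟨h1, h1'⟩, ⟨h2, h2'⟩, ?_⟩
  have hmu : p.b 4 ≠ 0 := (cone_base p).2.2.1
  have n0 := cone_ne p 0
  have n1 := cone_ne p 1
  have n2 := cone_ne p 2
  have yW : ∀ i, p.W i = 0 → p.Y i ≠ 0 := fun i => Y_ne_of_W p
  have yX : ∀ i, p.X i = 0 → p.Y i ≠ 0 := fun i => Y_ne_of_X p
  have w0 : p.W 0 = 0 → p.X 0 = 0 → False := fun a b => n0.elim (fun h => h a) (fun h => h b)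
  have w1 : p.W 1 = 0 → p.X 1 = 0 → False := fun a b => n1.elim (fun h => h a) (fun h => h b)
  have w2 : p.W 2 = 0 → p.X 2 = 0 → False := fun a b => n2.elim (fun h => h a) (fun h => h b)
  have c0 : l0 = 0 → (p.W 1 = 0 ∧ p.W 2 = 0) ∨ (p.X 1 = 0 ∧ p.X 2 = 0) := by
    rintro rfl
    simp only [zero_mul, mul_eq_zero, hmu, false_or] at h0 h0'
    rcases h0 with h | h <;> rcases h0' with h' | h'
    · exact Or.inr ⟨h', h⟩
    · exact (w2 h' h).elim
    · exact (w1 h h').elim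
    · exact Or.inl ⟨h, h'⟩
  have c1 : l1 = 0 → (p.X 0 = 0 ∧ p.W 2 = 0) ∨ (p.W 0 = 0 ∧ p.X 2 = 0) := by
    rintro rfl
    simp only [zero_mul, mul_eq_zero, hmu, false_or] at h1 h1'
    rcases h1 with h | h <;> rcases h1' with h' | h'
    · exact (w0 h' h).elim
    · exact Or.inl ⟨h, h'⟩
    · exact Or.inr ⟨h', h⟩
    · exact (w2 h' h).elim
  have c2 : l2 = 0 → (p.W 0 = 0 ∧ p.W 1 = 0) ∨ (p.X 0 = 0 ∧ p.X 1 = 0) := by
    rintro rfl
    simp only [zero_mul, mul_eq_zero, hmu, false_or] at h2 h2'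
    rcases h2 with h | h <;> rcases h2' with h' | h'
    · exact Or.inr ⟨h, h'⟩
    · exact (w0 h' h).elim
    · exact (w1 h h').elim
    · exact Or.inl ⟨h', h⟩
  -- not all `l` vanish: two of them vanish only if ...
  have c01 : l0 = 0 → l1 ≠ 0 ∨ l2 ≠ 0 := by
    intro e0
    by_contra hc
    push_neg at hc
    rcases c0 e0 with ⟨a, a'⟩ | ⟨a, a'⟩ <;> rcases c2 hc.2 with ⟨b, b'⟩ | ⟨b, b'⟩ <;>
      rcases c1 hc.1 with ⟨d, d'⟩ | ⟨d, d'⟩
    · exact w0 b d
    · exact w2 a' d'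
    · exact w1 a b'
    · exact w1 a b'
    · exact w1 b' a
    · exact w1 b' a
    · exact w2 d' a'
    · exact w0 d b
  have y0 : l0 = 0 → p.Y 1 ≠ 0 ∧ p.Y 2 ≠ 0 := fun e => by
    rcases c0 e with ⟨a, a'⟩ | ⟨a, a'⟩
    · exact ⟨yW 1 a, yW 2 a'⟩
    · exact ⟨yX 1 a, yX 2 a'⟩
  have y1 : l1 = 0 → p.Y 0 ≠ 0 ∧ p.Y 2 ≠ 0 := fun e => by
    rcases c1 e with ⟨a, a'⟩ | ⟨a, a'⟩
    · exact ⟨yX 0 a, yW 2 a'⟩
    · exact ⟨yW 0 a, yX 2 a'⟩
  have y2 : l2 = 0 → p.Y 0 ≠ 0 ∧ p.Y 1 ≠ 0 := fun e => by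
    rcases c2 e with ⟨a, a'⟩ | ⟨a, a'⟩
    · exact ⟨yW 0 a, yW 1 a'⟩
    · exact ⟨yX 0 a, yX 1 a'⟩
  obtain ⟨i, hi⟩ := exists_Y_ne p
  by_contra hcon
  push_neg at hcon
  have e0 : l0 * p.Y 0 = 0 := by simpa using hcon 0
  have e1 : l1 * p.Y 1 = 0 := by simpa using hcon 1
  have e2 : l2 * p.Y 2 = 0 := by simpa using hcon 2
  -- all `l` vanish
  have all : l0 = 0 ∧ l1 = 0 ∧ l2 = 0 := by
    fin_cases i
    · have f0 : l0 = 0 := (mul_eq_zero.mp e0).resolve_right hi
      have := y0 f0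
      exact ⟨f0, (mul_eq_zero.mp e1).resolve_right this.1, (mul_eq_zero.mp e2).resolve_right this.2⟩
    · have f1 : l1 = 0 := (mul_eq_zero.mp e1).resolve_right hi
      have := y1 f1
      exact ⟨(mul_eq_zero.mp e0).resolve_right this.1, f1, (mul_eq_zero.mp e2).resolve_right this.2⟩
    · have f2 : l2 = 0 := (mul_eq_zero.mp e2).resolve_right hi
      have := y2 f2
      exact ⟨(mul_eq_zero.mp e0).resolve_right this.1, (mul_eq_zero.mp e1).resolve_right this.2, f2⟩
  rcases c01 all.1 with h | h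
  · exact h all.2.1
  · exact h all.2.2

/-- the tangent space of the cone over `D_b` at a point (dimension `9 - 4 = 5`; the cone is a bundle with fibres
`(ℂ^×)³` over the surface `D_b`) -/
def Tan : Submodule ℂ V9 := LinearMap.ker (fderiv ℂ (eqs p.b) (coord p)).toLinearMap

theorem mem_Tan {u : V9} : u ∈ Tan p ↔ deqs p.b (coord p) u = 0 := by
  rw [Tan, LinearMap.mem_ker]
  exact Eq.congr_left (fderiv_eqs _ _ _)

theorem eta_unique {i : Fin 3} {u : V9} {t t' : ℂ} (h : IsEta p i u t) (h' : IsEta p i u t') :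
    t = t' := by
  by_cases hY : p.Y i = 0
  · exact mul_left_cancel₀ (qX_ne p hY) (h.2.1.trans h'.2.1.symm)
  · exact mul_left_cancel₀ hY (h.1.trans h'.1.symm)

/-- the regular differential has a value at every tangent vector -/
theorem exists_eta {u : V9} (hu : u ∈ Tan p) (i : Fin 3) : ∃ t : ℂ, IsEta p i u t := by
  rw [mem_Tan] at hu
  have h1 : 2 * p.Y i * u.2.2 i = qW p.b i (p.W i) (p.X i) * u.1 i + qX p.b i (p.W i) (p.X i) * u.2.1 i := by
    have := congrFun (congrArg Prod.fst hu) i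
    simpa [deqs, coord, sub_eq_zero] using this
  have h2 := cone_curve p i
  have h3 := euler p.b i (p.W i) (p.X i)
  rw [← h2] at h3
  by_cases hY : p.Y i = 0
  · have hq := qX_ne p hY
    rw [hY] at h1 h3
    have hW : p.W i ≠ 0 := fun hW => Y_ne_of_W p hW hY
    refine ⟨2 * (p.W i * u.2.2 i) / qX p.b i (p.W i) (p.X i), ?_, ?_, ?_⟩
    · rw [hY]
      have : qX p.b i (p.W i) (p.X i) * (p.W i * u.2.1 i - p.X i * u.1 i) = 0 := by
        linear_combination (-p.W i) * h1 - u.1 i * h3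
      rcases mul_eq_zero.mp this with h | h
      · exact absurd h hq
      · rw [h, zero_mul]
    · rw [hY]
      field_simp
      ring
    · rw [hY]
      field_simp
      linear_combination (u.2.2 i) * h3
  · refine ⟨(p.W i * u.2.1 i - p.X i * u.1 i) / p.Y i, ?_, ?_, ?_⟩
    · field_simp
    · field_simp
      linear_combination (-p.W i) * h1 - u.1 i * h3
    · field_simp
      linear_combination (p.X i) * h1 + u.2.1 i * h3

/-- a tangent vector of the cone of `E_i` with `η_i = 1` -/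
theorem exists_block (i : Fin 3) : ∃ a b c : ℂ,
    2 * p.Y i * c = qW p.b i (p.W i) (p.X i) * a + qX p.b i (p.W i) (p.X i) * b ∧
    p.Y i = p.W i * b - p.X i * a ∧
    qX p.b i (p.W i) (p.X i) = 2 * (p.W i * c - 2 * p.Y i * a) ∧
    qW p.b i (p.W i) (p.X i) = -(2 * (p.X i * c - 2 * p.Y i * b)) := by
  have h2 := cone_curve p i
  have h3 := euler p.b i (p.W i) (p.X i)
  rw [← h2] at h3
  obtain ⟨A, B, hAB⟩ : ∃ A B : ℂ, p.W i * B - p.X i * A = 1 := by
    rcases cone_ne p i with h | h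
    · exact ⟨0, (p.W i)⁻¹, by field_simp; ring⟩
    · exact ⟨-(p.X i)⁻¹, 0, by field_simp; ring⟩
  refine ⟨p.Y i * A, p.Y i * B, (A * qW p.b i (p.W i) (p.X i) + B * qX p.b i (p.W i) (p.X i)) / 2, ?_, ?_, ?_, ?_⟩
  · ring
  · linear_combination (-p.Y i) * hAB
  · linear_combination (-qX p.b i (p.W i) (p.X i)) * hAB - A * h3
  · linear_combination (-qW p.b i (p.W i) (p.X i)) * hAB + B * h3

/-- the differential of the curve equation is not zero -/
theorem exists_grad (i : Fin 3) : ∃ a b c : ℂ,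
    2 * p.Y i * c - (qW p.b i (p.W i) (p.X i) * a + qX p.b i (p.W i) (p.X i) * b) = 1 := by
  by_cases hY : p.Y i = 0
  · have hq := qX_ne p hY
    exact ⟨0, -(qX p.b i (p.W i) (p.X i))⁻¹, 0, by field_simp; ring⟩
  · exact ⟨0, 0, (2 * p.Y i)⁻¹, by field_simp; ring⟩

/-- the differential of the relation in terms of `W_i dX_i - X_i dW_i` -/
theorem deqs_snd {lam : Fin 3 → ℂ}
    (h0 : p.X 2 * p.W 1 = lam 0 * p.W 0 ∧ p.b 4 * p.X 1 * p.W 2 = lam 0 * p.X 0)
    (h1 : p.X 0 * p.X 2 = lam 1 * p.X 1 ∧ p.b 4 * p.W 0 * p.W 2 = lam 1 * p.W 1)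
    (h2 : p.X 0 * p.W 1 = lam 2 * p.W 2 ∧ p.b 4 * p.X 1 * p.W 0 = lam 2 * p.X 2) (u : V9) :
    (deqs p.b (coord p) u).2 = lam 0 * (p.W 0 * u.2.1 0 - p.X 0 * u.1 0)
      - lam 1 * (p.W 1 * u.2.1 1 - p.X 1 * u.1 1) + lam 2 * (p.W 2 * u.2.1 2 - p.X 2 * u.1 2) := by
  simp only [deqs, coord]
  linear_combination u.2.1 0 * h0.1 - u.1 0 * h0.2 + u.1 1 * h1.1 - u.2.1 1 * h1.2 + u.2.1 2 * h2.1
    - u.1 2 * h2.2

/-- the sign with which `lam i` occurs in `deqs_snd` -/
def sgn (i : Fin 3) : ℂ := if i = 1 then -1 else 1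

theorem sgn_mul_self (i : Fin 3) : sgn i * sgn i = 1 := by
  unfold sgn; split_ifs <;> norm_num

/-- a vector supported in the block `i` -/
def blk (i : Fin 3) (a b c : ℂ) : V9 := (Pi.single i a, Pi.single i b, Pi.single i c)

theorem deqs_blk {lam : Fin 3 → ℂ}
    (h0 : p.X 2 * p.W 1 = lam 0 * p.W 0 ∧ p.b 4 * p.X 1 * p.W 2 = lam 0 * p.X 0)
    (h1 : p.X 0 * p.X 2 = lam 1 * p.X 1 ∧ p.b 4 * p.W 0 * p.W 2 = lam 1 * p.W 1)
    (h2 : p.X 0 * p.W 1 = lam 2 * p.W 2 ∧ p.b 4 * p.X 1 * p.W 0 = lam 2 * p.X 2) (i : Fin 3)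
    {a b c : ℂ} (he : 2 * p.Y i * c = qW p.b i (p.W i) (p.X i) * a + qX p.b i (p.W i) (p.X i) * b)
    (he1 : p.Y i = p.W i * b - p.X i * a) :
    deqs p.b (coord p) (blk i a b c) = (0, sgn i * (lam i * p.Y i)) := by
  refine Prod.ext ?_ ?_
  · funext j
    by_cases hj : j = i
    · subst hj
      simp only [deqs, coord, blk, Pi.single_eq_same, Pi.zero_apply]
      linear_combination he
    · simp [deqs, coord, blk, hj]
  · rw [deqs_snd p h0 h1 h2]
    simp only [blk]
    rw [he1]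
    fin_cases i
    · simp [sgn]
    · simp [sgn]
    · simp [sgn]

/-- **Smoothness**: the differentials of the four equations are linearly independent at every point of the cone over
`D_b`, in the direction of the fibre (so `D_b` is smooth of dimension `9 - 4 - 3 = 2`, and the family is smooth over
`B`). -/
theorem smooth : Function.Surjective (fderiv ℂ (eqs p.b) (coord p)) := by
  obtain ⟨lam, h0, h1, h2, i, hi⟩ := exists_lam p
  choose ga gb gc hg using exists_grad p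
  obtain ⟨ea, eb, ec, he, he1, -, -⟩ := exists_block p i
  intro τ
  -- first solve the curve equations, then correct by a multiple of the block vector `i`
  let g : V9 := (fun j => τ.1 j * ga j, fun j => τ.1 j * gb j, fun j => τ.1 j * gc j)
  have hdg : (deqs p.b (coord p) g).1 = τ.1 := by
    funext j
    simp only [deqs, coord, g]
    linear_combination (τ.1 j) * hg j
  let c : ℂ := sgn i * (τ.2 - (deqs p.b (coord p) g).2) / (lam i * p.Y i)
  have h5 : c * (lam i * p.Y i) = sgn i * (τ.2 - (deqs p.b (coord p) g).2) := by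
    simp only [c]
    exact div_mul_cancel₀ _ hi
  refine ⟨g + c • blk i ea eb ec, ?_⟩
  rw [map_add, map_smul, fderiv_eqs, fderiv_eqs, deqs_blk p h0 h1 h2 i he he1]
  refine Prod.ext ?_ ?_
  · rw [Prod.fst_add, hdg]
    simp
  · rw [Prod.snd_add, Prod.smul_snd, smul_eq_mul]
    linear_combination sgn i * h5 + (τ.2 - (deqs p.b (coord p) g).2) * sgn_mul_self i

/-- **`ω` is generated by the three forms**: at every point of `D_b` one of the three `2`-forms
`η_{i+1} ∧ η_{i+2}` (regular on `D_b`, invariant under `-1`) does not vanish. -/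
theorem no_common_zero : ∃ i : Fin 3, ∃ u ∈ Tan p, ∃ v ∈ Tan p, ∃ s t : Fin 3 → ℂ,
    (∀ j, IsEta p j u (s j)) ∧ (∀ j, IsEta p j v (t j)) ∧
    s (i + 1) * t (i + 2) - s (i + 2) * t (i + 1) ≠ 0 := by
  obtain ⟨lam, h0, h1, h2, i, hi⟩ := exists_lam p
  choose ea eb ec he he1 he2 he3 using exists_block p
  -- the vector with `η = s`
  let vec : (Fin 3 → ℂ) → V9 := fun s => (fun j => s j * ea j, fun j => s j * eb j, fun j => s j * ec j)
  have hη : ∀ s j, IsEta p j (vec s) (s j) := by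
    intro s j
    refine ⟨?_, ?_, ?_⟩
    · simp only [vec]; linear_combination s j * he1 j
    · simp only [vec]; linear_combination s j * he2 j
    · simp only [vec]; linear_combination s j * he3 j
  have hT : ∀ s : Fin 3 → ℂ, lam 0 * p.Y 0 * s 0 - lam 1 * p.Y 1 * s 1 + lam 2 * p.Y 2 * s 2 = 0 →
      vec s ∈ Tan p := by
    intro s hs
    rw [mem_Tan]
    refine Prod.ext ?_ ?_
    · funext j
      simp only [deqs, coord, vec, Prod.fst_zero, Pi.zero_apply]
      linear_combination s j * he j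
    · rw [deqs_snd p h0 h1 h2]
      simp only [vec, Prod.snd_zero]
      linear_combination hs - lam 0 * s 0 * he1 0 + lam 1 * s 1 * he1 1 - lam 2 * s 2 * he1 2
  refine ⟨i, ?_⟩
  fin_cases i
  · simp only [Fin.zero_eta, Fin.isValue] at hi ⊢
    refine ⟨vec ![lam 1 * p.Y 1 / (lam 0 * p.Y 0), 1, 0], hT _ ?_,
      vec ![-(lam 2 * p.Y 2) / (lam 0 * p.Y 0), 0, 1], hT _ ?_, _, _, hη _, hη _, ?_⟩
    · simp; field_simp; simp; right; rw [div_self hi]; ring
    · simp; field_simp; simp; right; rw [div_self hi]; ring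
    · simp
  · simp only [Fin.mk_one, Fin.isValue] at hi ⊢
    refine ⟨vec ![0, lam 2 * p.Y 2 / (lam 1 * p.Y 1), 1], hT _ ?_,
      vec ![1, lam 0 * p.Y 0 / (lam 1 * p.Y 1), 0], hT _ ?_, _, _, hη _, hη _, ?_⟩
    · simp; field_simp; simp; right; rw [div_self hi]; ring
    · simp; field_simp; simp; right; rw [div_self hi]; ring
    · simp [(by decide : (1 : Fin 3) + 1 = 2), (by decide : (1 : Fin 3) + 2 = 0)]
  · simp only [Fin.reduceFinMk, Fin.isValue] at hi ⊢
    refine ⟨vec ![1, 0, -(lam 0 * p.Y 0) / (lam 2 * p.Y 2)], hT _ ?_,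
      vec ![0, 1, lam 1 * p.Y 1 / (lam 2 * p.Y 2)], hT _ ?_, _, _, hη _, hη _, ?_⟩
    · simp; field_simp; simp; right; rw [div_self hi]; ring
    · simp; field_simp; simp; right; rw [div_self hi]; ring
    · simp [(by decide : (2 : Fin 3) + 1 = 0), (by decide : (2 : Fin 3) + 2 = 1)]

end

end Pool.Agent.K3G
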