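import Pool.Agent.K3G.Exist
import Pool.Agent.K3G.Smooth
import Pool.Agent.helper10.K3S.NoRat
import Pool.Agent.helper10.K3S.LinkAlg
import Pool.Agent.helper10.K3S.Canon

/-!
# `S_b` is a triple K3 burger

`IsBurger b` collects the properties of the fibre `S_b` of the family over `b`; `isBurger` proves them for
every `b` in the base.
-/

set_option autoImplicit false

noncomputable section
namespace Pool.Agent.K3G

open TripleBurger TripleBurger.Canon Exist

/-- `K` with the automorphisms `σ₀, σ₁, σ₂` is the function field of a triple K3 burger: a minimal surface `S` of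
general type with `q = 0`, `p_g = 3` and pairwise commuting involutions whose quotients are birational to K3
surfaces, such that `H⁰(S, ω_S)` is the direct sum of the three subspaces of `σⱼ`-invariant forms (equivalently, by
duality, `⊕ H²(S/σⱼ, 𝒪) → H²(S, 𝒪)` is bijective). -/
structure IsBurgerFieldWith (K : Type*) [Field K] [Algebra ℂ K] (σ : Fin 3 → (K ≃ₐ[ℂ] K)) : Prop
    extends IsSurfaceField K where
  q : FK1 K = ⊥
  pg : Module.finrank ℂ (FKM K 1) = 3
  gt : GeneralType K
  ne_one : ∀ i, σ i ≠ 1
  sq : ∀ i, σ i * σ i = 1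
  comm : ∀ i j, σ i * σ j = σ j * σ i
  k3 : ∀ i, IsK3Field (IntermediateField.fixedField (Subgroup.zpowers (σ i)) : IntermediateField ℂ K)
  internal : DirectSum.IsInternal (fun i => Inv (σ i))

/-- `σ` is induced by the change of sign of `y_j`: it fixes the `x i` and `w j`, and changes the sign of
`w i`, `i ≠ j` (`w i = y_{i+1} y_{i+2}`) -/
def IsFlip {K : Type*} [Field K] [Algebra ℂ K] (x w : Fin 3 → K) (j : Fin 3) (σ : K ≃ₐ[ℂ] K) : Prop :=
  (∀ i, σ (x i) = x i) ∧ ∀ i, σ (w i) = if i = j then w i else -w i

theorem exists_flips {b : Param} (hb : b ∈ BaseSet) {K : Type*} [Field K] [Algebra ℂ K]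
    {x w : Fin 3 → K} (h : IsFunctionField b K x w) :
    ∃ σ : Fin 3 → (K ≃ₐ[ℂ] K), (∀ j, IsFlip x w j (σ j)) ∧ IsBurgerFieldWith K σ := by
  obtain ⟨D, rfl, rfl⟩ := exists_burgerData' hb h
  refine ⟨D.σ, fun j => ⟨fun i => D.σ_x j i, fun i => ?_⟩, ?_⟩
  · split_ifs with hij
    · rw [hij]; exact D.σ_w_self j
    · exact D.σ_w_of_ne (Ne.symm hij)
  · exact { toIsSurfaceField := D.isSurfaceField
            q := D.fk1_eq_bot
            pg := D.finrank_fkm_one
            gt := D.generalType
            ne_one := D.σ_ne_one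
            sq := D.σ_mul_self
            comm := D.σ_comm
            k3 := D.isK3_fixed
            internal := D.isInternal }

/-- **The surface `S_b` is a triple K3 burger.**

* `domain`, `field`: the coordinate ring `CoordRing b` of the affine chart `W_i ≠ 0` of `S_b` is a domain, and its
  field of fractions, with the involutions given by `y_j ↦ - y_j` (`j = 0, 1, 2`), is the function field of a triple
  K3 burger (`IsBurgerFieldWith`: finitely generated of transcendence degree `2`, `q = 0`, `p_g = 3`, general type,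
  three commuting involutions with fixed fields of K3 surfaces, `H⁰(ω)` the direct sum of the three invariant
  subspaces);
* `smooth`: Jacobian criterion at every point of the cone over `D_b` (`S_b = D_b / (-1)`), in the direction of the
  fibre;  `free`: `-1` has no fixed point on `D_b`;
* `generated`: at every point one of the three global `2`-forms `η_{i+1} ∧ η_{i+2}` does not vanish, so `K_S` is nef
  and `S_b` is minimal;  `canonical`: the canonical map `S_b → ℙ²` given by these forms is finite, so `K_S` is even
  ample;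
* `noRat`: `S_b` contains no rational curve (so no `(-1)`-curve). -/
structure IsBurger (b : Param) : Prop where
  domain : IsDomain (CoordRing b)
  field : ∀ (K : Type) [Field K] [Algebra ℂ K] [Algebra (CoordRing b) K] [IsScalarTower ℂ (CoordRing b) K]
    [IsFractionRing (CoordRing b) K], ∃ σ : Fin 3 → (K ≃ₐ[ℂ] K),
      (∀ j, IsFlip (fun i => algebraMap (CoordRing b) K (cx b i))
        (fun i => algebraMap (CoordRing b) K (cw b i)) j (σ j)) ∧ IsBurgerFieldWith K σ
  smooth : ∀ p : Cone, p.b = b → Function.Surjective (fderiv ℂ (eqs b) (coord p))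
  free : ∀ p : Cone, p.b = b → ¬ ∃ c : Fin 3 → ℂ, (∀ i, c i ≠ 0) ∧
    ∀ i, p.W i = c i * p.W i ∧ p.X i = c i * p.X i ∧ p.Y i = -(c i ^ 2 * p.Y i)
  generated : ∀ p : Cone, p.b = b → ∃ i : Fin 3, ∃ u ∈ Tan p, ∃ v ∈ Tan p, ∃ s t : Fin 3 → ℂ,
    (∀ j, IsEta p j u (s j)) ∧ (∀ j, IsEta p j v (t j)) ∧
    s (i + 1) * t (i + 2) - s (i + 2) * t (i + 1) ≠ 0
  canonical : (∀ p : Cone, p.b = b → ∃ v : Fin 3 → ℂ, v ≠ 0 ∧ IsCanonicalImage p v) ∧
    ∀ v : Fin 3 → ℂ, {P : Total | ∃ p : Cone, Total.mk p = P ∧ p.b = b ∧ IsCanonicalImage p v}.Finite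
  noRat : ∀ W V T : Fin 3 → RatFunc ℂ, IsRatPoint b W V T →
    ∃ p : Cone, p.b = b ∧ ∃ c : Fin 3 → RatFunc ℂ, (∀ i, c i ≠ 0) ∧
      ∀ i, W i = c i * algebraMap ℂ (RatFunc ℂ) (p.W i) ∧
        V i = c i * algebraMap ℂ (RatFunc ℂ) (p.X i) ∧
        T i = (c (i + 1) * c (i + 2)) ^ 2 *
          algebraMap ℂ (RatFunc ℂ) (p.Y (i + 1) * p.Y (i + 2))

/-- the field of fractions of the coordinate ring is the function field in the sense of `IsFunctionField` -/
theorem isFunctionField_of_isFractionRing {b : Param} (hb : b ∈ BaseSet) (K : Type) [Field K] [Algebra ℂ K]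
    [Algebra (CoordRing b) K] [IsScalarTower ℂ (CoordRing b) K] [IsFractionRing (CoordRing b) K] :
    IsFunctionField b K (fun i => algebraMap (CoordRing b) K (cx b i))
      (fun i => algebraMap (CoordRing b) K (cw b i)) := by
  haveI := coordRing_isDomain hb
  have hclass : ∀ P : P6, MvPolynomial.aeval (Sum.elim (fun i => algebraMap (CoordRing b) K (cx b i))
      (fun i => algebraMap (CoordRing b) K (cw b i))) P =
      algebraMap (CoordRing b) K (Ideal.Quotient.mk (relIdeal b) P) := by
    intro P
    have h : (MvPolynomial.aeval (Sum.elim (fun i => algebraMap (CoordRing b) K (cx b i))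
        (fun i => algebraMap (CoordRing b) K (cw b i))) : P6 →ₐ[ℂ] K) =
        (IsScalarTower.toAlgHom ℂ (CoordRing b) K).comp (Ideal.Quotient.mkₐ ℂ (relIdeal b)) := by
      apply MvPolynomial.algHom_ext
      rintro (i | i)
      · rw [MvPolynomial.aeval_X]; rfl
      · rw [MvPolynomial.aeval_X]; rfl
    exact DFunLike.congr_fun h P
  refine ⟨?_, ?_⟩
  · rw [eq_top_iff]
    intro z _
    obtain ⟨a, c, hc, rfl⟩ := IsFractionRing.div_surjective (A := CoordRing b) z
    obtain ⟨P, rfl⟩ := Ideal.Quotient.mk_surjective a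
    obtain ⟨Q, rfl⟩ := Ideal.Quotient.mk_surjective c
    have hmem : ∀ P : P6, algebraMap (CoordRing b) K (Ideal.Quotient.mk (relIdeal b) P) ∈
        IntermediateField.adjoin ℂ (Set.range (fun i => algebraMap (CoordRing b) K (cx b i)) ∪
          Set.range (fun i => algebraMap (CoordRing b) K (cw b i))) := by
      intro P
      rw [← hclass]
      induction P using MvPolynomial.induction_on with
      | C a => rw [MvPolynomial.aeval_C]; exact IntermediateField.algebraMap_mem _ _
      | add p q hp hq => rw [map_add]; exact add_mem hp hq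
      | mul_X p i hp =>
        rw [map_mul, MvPolynomial.aeval_X]
        refine mul_mem hp (IntermediateField.subset_adjoin _ _ ?_)
        rcases i with i | i
        · exact Or.inl ⟨i, rfl⟩
        · exact Or.inr ⟨i, rfl⟩
    exact div_mem (hmem P) (hmem Q)
  · intro P
    rw [hclass, ← mem_relIdeal_iff hb, ← Ideal.Quotient.eq_zero_iff_mem]
    constructor
    · intro h
      exact IsFractionRing.injective (CoordRing b) K (h.trans (map_zero _).symm)
    · intro h
      rw [h, map_zero]

/-- **Every fibre of the family is a triple K3 burger.** -/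
theorem isBurger {b : Param} (hb : b ∈ BaseSet) : IsBurger b where
  domain := coordRing_isDomain hb
  field K _ _ _ _ _ := exists_flips hb (isFunctionField_of_isFractionRing hb K)
  smooth := by
    rintro p rfl
    exact Pool.Agent.K3G.smooth p
  free p _ := Pool.Agent.K3G.free p
  generated p _ := no_common_zero p
  canonical := ⟨fun p _ => exists_canonicalImage p, fun v => canonical_finite b v⟩
  noRat _ _ _ h := no_rational_curve hb h

end Pool.Agent.K3G
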