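import Pool.Agent.K3G.Laurent

/-!
# Squares in `κ((τ))`
-/

set_option autoImplicit false

noncomputable section
namespace Pool.Agent.K3G

open Polynomial

/-- a power series over an algebraically closed field of characteristic zero with non-zero constant
coefficient is a square (Hensel's lemma) -/
private theorem powerSeries_isSquare_aux (f : PowerSeries κ)
    (hf : PowerSeries.constantCoeff f ≠ 0) : ∃ g : PowerSeries κ, f = g * g := by
  obtain ⟨c, hc⟩ := IsAlgClosed.exists_pow_nat_eq (PowerSeries.constantCoeff f)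
    (n := 2) (by norm_num)
  have hc0 : c ≠ 0 := by
    rintro rfl
    apply hf
    rw [← hc]
    simp
  let I : Ideal (PowerSeries κ) := Ideal.span {PowerSeries.X}
  let P : (PowerSeries κ)[X] := Polynomial.X ^ 2 - Polynomial.C f
  have hP : P.Monic := by
    apply Polynomial.monic_X_pow_sub_C
    norm_num
  have h1 : P.eval (PowerSeries.C c) ∈ I := by
    rw [Ideal.mem_span_singleton, PowerSeries.X_dvd_iff]
    simp [P, hc]
  have hu : IsUnit (P.derivative.eval (PowerSeries.C c)) := by
    rw [PowerSeries.isUnit_iff_constantCoeff]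
    simp [P, hc0]
  obtain ⟨g, hg, -⟩ := HenselianRing.is_henselian (I := I) P hP (PowerSeries.C c) h1
    (hu.map (Ideal.Quotient.mk I))
  refine ⟨g, ?_⟩
  have h2 : g ^ 2 - f = 0 := by
    have := hg
    simpa [P, Polynomial.IsRoot] using this
  rw [← sq]
  exact (sub_eq_zero.mp h2).symm

/-- An element of even order is a square.  Proof: `a = τ²ᵏ c u` with `u ∈ 1 + τ κ[[τ]]`, `c` is a square;
`u` is a square: binomial series `(1 + X)^(1/2)` (`PowerSeries.binomialSeries`, `binomialSeries_add`) with
`PowerSeries.subst`, or Hensel, or a direct recursion. -/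
theorem isSquare_of_ord {a : LK} {k : ℤ} (h : ord a = ((2 * k : ℤ) : WithTop ℤ)) : IsSquare a := by
  have ha : a ≠ 0 := by
    rintro rfl
    rw [ord, HahnSeries.orderTop_zero] at h
    exact WithTop.top_ne_coe h
  have ho : a.order = 2 * k := by
    have h2 : ((a.order : ℤ) : WithTop ℤ) = a.orderTop := HahnSeries.order_eq_orderTop_of_ne_zero ha
    have h3 : ((a.order : ℤ) : WithTop ℤ) = ((2 * k : ℤ) : WithTop ℤ) := h2.trans h
    exact_mod_cast h3
  obtain ⟨g, hg⟩ := powerSeries_isSquare_aux (LaurentSeries.powerSeriesPart a) (by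
    rw [← PowerSeries.coeff_zero_eq_constantCoeff_apply, LaurentSeries.powerSeriesPart_coeff]
    simpa using HahnSeries.coeff_order_eq_zero.not.mpr ha)
  refine ⟨HahnSeries.single k (1 : κ) * HahnSeries.ofPowerSeries ℤ κ g, ?_⟩
  have h1 := LaurentSeries.single_order_mul_powerSeriesPart a
  have h4 : HahnSeries.single k (1 : κ) * HahnSeries.ofPowerSeries ℤ κ g *
      (HahnSeries.single k (1 : κ) * HahnSeries.ofPowerSeries ℤ κ g)
      = (HahnSeries.single (2 * k) (1 : κ) : LK) * HahnSeries.ofPowerSeries ℤ κ (g * g) := by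
    rw [map_mul]
    have h5 : (HahnSeries.single (2 * k) (1 : κ) : LK)
        = HahnSeries.single k 1 * HahnSeries.single k 1 := by
      rw [HahnSeries.single_mul_single, mul_one, two_mul]
    rw [h5]
    ring
  rw [h4, ← hg, ← ho]
  exact h1.symm

theorem not_isSquare_of_ord {a : LK} {k : ℤ} (h : ord a = ((2 * k + 1 : ℤ) : WithTop ℤ)) :
    ¬ IsSquare a := by
  rintro ⟨b, rfl⟩
  have hb : b ≠ 0 := by
    rintro rfl
    rw [mul_zero, ord, HahnSeries.orderTop_zero] at h
    exact WithTop.top_ne_coe h
  have h2 : ((b.order : ℤ) : WithTop ℤ) = b.orderTop := HahnSeries.order_eq_orderTop_of_ne_zero hb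
  rw [ord_mul, ord, ← h2] at h
  have h3 : b.order + b.order = 2 * k + 1 := by exact_mod_cast h
  omega

/-- constants `con c`, `c ∈ κ`, are squares -/
theorem isSquare_con (c : κ) : IsSquare (con c) := by
  obtain ⟨d, hd⟩ := IsAlgClosed.exists_pow_nat_eq c (n := 2) (by norm_num)
  refine ⟨con d, ?_⟩
  rw [← map_mul, ← sq, hd]

end Pool.Agent.K3G
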