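import Pool.Agent.K3G.Emb
import Pool.Agent.K3G.Sq

/-!
# Embeddings for the biquadratic field
-/

set_option autoImplicit false

noncomputable section
namespace Pool.Agent.K3G

open Polynomial

/-- how the third coordinate depends on the two others -/
def ThirdRel {K : Type*} [Field K] [Algebra ℂ K] (x z y : K) : Prop :=
  ∃ c : ℂ, c ≠ 0 ∧ (y = algebraMap ℂ K c * (x * z) ∨ y * z = algebraMap ℂ K c * x ∨
    y * x = algebraMap ℂ K c * z)

theorem ThirdRel.symm {K : Type*} [Field K] [Algebra ℂ K] {x z y : K} (h : ThirdRel x z y) :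
    ThirdRel z x y := by
  obtain ⟨c, hc, h⟩ := h
  refine ⟨c, hc, ?_⟩
  rcases h with h | h | h
  · left; rw [h, mul_comm x z]
  · right; right; exact h
  · right; left; exact h

/-- the coordinate or its inverse -/
private def embB_pw (e : Bool) (Y : LK) : LK := if e then Y else Y⁻¹

private def embB_pk (e : Bool) (Y : κ) : κ := if e then Y else Y⁻¹

private theorem embB_sq0 {a : LK} (h : ord a = 0) : IsSquare a :=
  isSquare_of_ord (k := 0) (by rw [h]; rfl)

private theorem embB_sq2 {a : LK} (h : ord a = ((2 : ℕ) : WithTop ℤ)) : IsSquare a :=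
  isSquare_of_ord (k := 1) (by rw [h]; rfl)

private theorem embB_sq4 {a : LK} (h : ord a = ((-(4 * (1 : ℕ)) : ℤ) : WithTop ℤ)) : IsSquare a :=
  isSquare_of_ord (k := -2) (by rw [h]; norm_num)

private theorem embB_ord_pt {ξ : κ} (hξ : ξ ≠ 0) {n : ℕ} (hn : 0 < n) : ord (pt ξ n) = 0 := by
  have h1 : ord (tau ^ n) = n := by rw [ord_pow, ord_tau, nsmul_one]
  rw [pt, ord_add_eq, ord_con hξ]
  rw [ord_con hξ, h1]
  exact_mod_cast hn

private theorem embB_third_ord {ξ c' : κ} (hξ : ξ ≠ 0) (hc : c' ≠ 0) {n : ℕ} (hn : 0 < n)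
    (e : Bool) :
    ord (con c' * embB_pw e (pt ξ n) - con (c' * embB_pk e ξ)) = n := by
  have hY0 : pt ξ n ≠ 0 := by
    intro h
    have h1 := embB_ord_pt hξ hn
    rw [h, ord_zero] at h1
    exact absurd h1 (by simp)
  have hcξ : con ξ ≠ 0 := by
    intro h
    have h1 := ord_con hξ
    rw [h, ord_zero] at h1
    exact absurd h1 (by simp)
  cases e with
  | true =>
    have e1 : con c' * embB_pw true (pt ξ n) - con (c' * embB_pk true ξ) =
        con c' * (pt ξ n - con ξ) := by
      simp only [embB_pw, embB_pk, if_true, map_mul]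
      ring
    rw [e1, ord_mul, ord_con hc, ord_pt_sub, zero_add]
  | false =>
    have hi : ord (pt ξ n)⁻¹ = 0 := by
      rw [ord_inv (k := 0) (by rw [embB_ord_pt hξ hn]; rfl)]; simp
    have e1 : con c' * embB_pw false (pt ξ n) - con (c' * embB_pk false ξ) =
        con (c' * ξ⁻¹) * (-(pt ξ n - con ξ) * (pt ξ n)⁻¹) := by
      simp only [embB_pw, embB_pk, Bool.false_eq_true, if_false, map_mul, map_inv₀]
      field_simp
      ring
    rw [e1, ord_mul, ord_con (mul_ne_zero hc (inv_ne_zero hξ)), ord_mul, ord_neg, ord_pt_sub, hi,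
      zero_add, add_zero]

/-- the value of the third coordinate -/
private theorem embB_third {K : Type*} [Field K] [Algebra ℂ K] {x z y : K}
    (hx0 : x ≠ 0) (hz0 : z ≠ 0) (hy : ThirdRel x z y) :
    y ∈ IntermediateField.adjoin ℂ ({x, z} : Set K) ∧
    ∃ (c' : κ) (e : Bool), c' ≠ 0 ∧ (∀ a b : ℂ, b ≠ 0 → c' * algebraMap ℂ κ b ≠ algebraMap ℂ κ a) ∧
      ∀ (Y : LK) (φ : IntermediateField.adjoin ℂ ({x, z} : Set K) →ₐ[ℂ] LK),
        (∀ h : x ∈ IntermediateField.adjoin ℂ ({x, z} : Set K), φ ⟨x, h⟩ = Y) →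
        (∀ h : z ∈ IntermediateField.adjoin ℂ ({x, z} : Set K), φ ⟨z, h⟩ = con s) →
        ∀ h : y ∈ IntermediateField.adjoin ℂ ({x, z} : Set K),
          φ ⟨y, h⟩ = con c' * embB_pw e Y := by
  obtain ⟨c, hc, hy⟩ := hy
  have hx : x ∈ IntermediateField.adjoin ℂ ({x, z} : Set K) :=
    IntermediateField.subset_adjoin _ _ (by simp)
  have hz : z ∈ IntermediateField.adjoin ℂ ({x, z} : Set K) :=
    IntermediateField.subset_adjoin _ _ (by simp)
  have hcm : algebraMap ℂ K c ∈ IntermediateField.adjoin ℂ ({x, z} : Set K) :=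
    IntermediateField.algebraMap_mem _ c
  have hs0 : s ≠ 0 := by
    intro h
    apply s_transcendental
    rw [h]
    exact isAlgebraic_zero
  have hcs0 : con s ≠ 0 := by
    intro h
    have h1 := ord_con hs0
    rw [h, ord_zero] at h1
    exact absurd h1 (by simp)
  have hck : algebraMap ℂ κ c ≠ 0 := by
    rw [Ne, map_eq_zero_iff _ (algebraMap ℂ κ).injective]; exact hc
  have htr : ∀ a b : ℂ, b ≠ 0 → algebraMap ℂ κ c * s * algebraMap ℂ κ b ≠ algebraMap ℂ κ a := by
    intro a b hb h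
    apply s_transcendental
    have hbk : algebraMap ℂ κ b ≠ 0 := by
      rw [Ne, map_eq_zero_iff _ (algebraMap ℂ κ).injective]; exact hb
    have e : s = algebraMap ℂ κ (a * c⁻¹ * b⁻¹) := by
      rw [map_mul, map_mul, map_inv₀, map_inv₀, ← h]
      field_simp
    rw [e]
    exact isAlgebraic_algebraMap _
  have htr' : ∀ a b : ℂ, b ≠ 0 →
      algebraMap ℂ κ c * s⁻¹ * algebraMap ℂ κ b ≠ algebraMap ℂ κ a := by
    intro a b hb h
    apply s_transcendental
    have hbk : algebraMap ℂ κ b ≠ 0 := by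
      rw [Ne, map_eq_zero_iff _ (algebraMap ℂ κ).injective]; exact hb
    have ha : a ≠ 0 := by
      rintro rfl
      rw [map_zero] at h
      exact mul_ne_zero (mul_ne_zero hck (inv_ne_zero hs0)) hbk h
    have hak : algebraMap ℂ κ a ≠ 0 := by
      rw [Ne, map_eq_zero_iff _ (algebraMap ℂ κ).injective]; exact ha
    have e : s = algebraMap ℂ κ (c * b * a⁻¹) := by
      rw [map_mul, map_mul, map_inv₀, ← h]
      field_simp
    rw [e]
    exact isAlgebraic_algebraMap _
  rcases hy with hy | hy | hy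
  · refine ⟨by rw [hy]; exact mul_mem hcm (mul_mem hx hz), algebraMap ℂ κ c * s, true,
      mul_ne_zero hck hs0, htr, ?_⟩
    intro Y φ h1 h2 h
    have e : (⟨y, h⟩ : IntermediateField.adjoin ℂ ({x, z} : Set K)) =
        algebraMap ℂ _ c * (⟨x, hx⟩ * ⟨z, hz⟩) := Subtype.ext hy
    rw [e, map_mul, map_mul, h1, h2, AlgHom.commutes, ← con_algebraMap, map_mul]
    simp only [embB_pw, if_true]
    ring
  · have hy' : y = algebraMap ℂ K c * x * z⁻¹ := by
      rw [← hy]; field_simp
    refine ⟨by rw [hy']; exact mul_mem (mul_mem hcm hx) (inv_mem hz), algebraMap ℂ κ c * s⁻¹, true,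
      mul_ne_zero hck (inv_ne_zero hs0), htr', ?_⟩
    intro Y φ h1 h2 h
    have e : (⟨y, h⟩ : IntermediateField.adjoin ℂ ({x, z} : Set K)) * ⟨z, hz⟩ =
        algebraMap ℂ _ c * ⟨x, hx⟩ := Subtype.ext hy
    have e2 := congrArg φ e
    rw [map_mul, map_mul, h1, h2, AlgHom.commutes, ← con_algebraMap] at e2
    rw [map_mul, map_inv₀]
    simp only [embB_pw, if_true]
    field_simp
    rw [← e2]
  · have hy' : y = algebraMap ℂ K c * z * x⁻¹ := by
      rw [← hy]; field_simp
    refine ⟨by rw [hy']; exact mul_mem (mul_mem hcm hz) (inv_mem hx), algebraMap ℂ κ c * s, false,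
      mul_ne_zero hck hs0, htr, ?_⟩
    intro Y φ h1 h2 h
    have e : (⟨y, h⟩ : IntermediateField.adjoin ℂ ({x, z} : Set K)) * ⟨x, hx⟩ =
        algebraMap ℂ _ c * ⟨z, hz⟩ := Subtype.ext hy
    have hY : Y ≠ 0 := by
      rw [← h1 hx, Ne, map_eq_zero_iff φ φ.injective]
      intro h0
      exact hx0 (congrArg Subtype.val h0)
    have e2 := congrArg φ e
    rw [map_mul, map_mul, h1, h2, AlgHom.commutes, ← con_algebraMap] at e2
    rw [map_mul]
    simp only [embB_pw, Bool.false_eq_true, if_false]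
    field_simp
    rw [← e2]

/-- reduction to squares -/
private theorem embB_main {K : Type*} [Field K] [Algebra ℂ K] {x z y w₁ w₂ : K}
    (hb : IsTranscendenceBasis ℂ ![x, z]) {f g h : ℂ[X]}
    (hym : y ∈ IntermediateField.adjoin ℂ ({x, z} : Set K))
    (hw₁ : w₁ ^ 2 = aeval x f * aeval z g) (hw₂ : w₂ ^ 2 = aeval x f * aeval y h)
    (hgen : IntermediateField.adjoin ℂ ({x, z, w₁, w₂} : Set K) = ⊤)
    {c' : κ} {e : Bool}
    (ht : ∀ (Y : LK) (φ : IntermediateField.adjoin ℂ ({x, z} : Set K) →ₐ[ℂ] LK),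
        (∀ h : x ∈ IntermediateField.adjoin ℂ ({x, z} : Set K), φ ⟨x, h⟩ = Y) →
        (∀ h : z ∈ IntermediateField.adjoin ℂ ({x, z} : Set K), φ ⟨z, h⟩ = con s) →
        ∀ h : y ∈ IntermediateField.adjoin ℂ ({x, z} : Set K),
          φ ⟨y, h⟩ = con c' * embB_pw e Y)
    {Y : LK} (hY : Y ∉ con.range) (h1 : IsSquare (aeval Y f))
    (h2 : IsSquare (aeval (con c' * embB_pw e Y) h)) :
    ∃ Φ : K →ₐ[ℂ] LK, IsEmb x z Y Φ := by
  have hx : x ∈ IntermediateField.adjoin ℂ ({x, z} : Set K) :=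
    IntermediateField.subset_adjoin _ _ (by simp)
  have hz : z ∈ IntermediateField.adjoin ℂ ({x, z} : Set K) :=
    IntermediateField.subset_adjoin _ _ (by simp)
  have hmem : ∀ (a : K) (ha : a ∈ IntermediateField.adjoin ℂ ({x, z} : Set K)) (p : ℂ[X]),
      aeval a p = ((aeval (⟨a, ha⟩ : IntermediateField.adjoin ℂ ({x, z} : Set K)) p :
        IntermediateField.adjoin ℂ ({x, z} : Set K)) : K) := by
    intro a ha p
    exact aeval_algHom_apply (IntermediateField.adjoin ℂ ({x, z} : Set K)).val ⟨a, ha⟩ p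
  refine exists_emb hb {w₁, w₂} ?_ hY ?_
  · rw [← hgen]
    congr 1
    ext a
    simp only [Set.mem_union, Set.mem_insert_iff, Set.mem_singleton_iff]
    tauto
  · intro w hw
    rcases hw with rfl | hw
    · have e1 : w ^ 2 = ((aeval (⟨x, hx⟩ : IntermediateField.adjoin ℂ ({x, z} : Set K)) f *
        aeval (⟨z, hz⟩ : IntermediateField.adjoin ℂ ({x, z} : Set K)) g :
        IntermediateField.adjoin ℂ ({x, z} : Set K)) : K) := by
        rw [hw₁, hmem x hx, hmem z hz]; rfl
      refine ⟨by rw [e1]; exact Subtype.mem _, ?_⟩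
      intro φ hφ1 hφ2 hm
      have e2 : (⟨w ^ 2, hm⟩ : IntermediateField.adjoin ℂ ({x, z} : Set K)) =
        aeval (⟨x, hx⟩ : IntermediateField.adjoin ℂ ({x, z} : Set K)) f *
        aeval (⟨z, hz⟩ : IntermediateField.adjoin ℂ ({x, z} : Set K)) g := Subtype.ext e1
      rw [e2, map_mul, ← aeval_algHom_apply, ← aeval_algHom_apply, hφ1, hφ2, aeval_con]
      exact h1.mul (isSquare_con _)
    · rw [Set.mem_singleton_iff] at hw
      subst hw
      have e1 : w ^ 2 = ((aeval (⟨x, hx⟩ : IntermediateField.adjoin ℂ ({x, z} : Set K)) f *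
        aeval (⟨y, hym⟩ : IntermediateField.adjoin ℂ ({x, z} : Set K)) h :
        IntermediateField.adjoin ℂ ({x, z} : Set K)) : K) := by
        rw [hw₂, hmem x hx, hmem y hym]; rfl
      refine ⟨by rw [e1]; exact Subtype.mem _, ?_⟩
      intro φ hφ1 hφ2 hm
      have e2 : (⟨w ^ 2, hm⟩ : IntermediateField.adjoin ℂ ({x, z} : Set K)) =
        aeval (⟨x, hx⟩ : IntermediateField.adjoin ℂ ({x, z} : Set K)) f *
        aeval (⟨y, hym⟩ : IntermediateField.adjoin ℂ ({x, z} : Set K)) h := Subtype.ext e1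
      rw [e2, map_mul, ← aeval_algHom_apply, ← aeval_algHom_apply, hφ1, ht Y φ hφ1 hφ2]
      exact h1.mul h2

private theorem embB_neg {c' : κ} (hc : c' ≠ 0) {h : ℂ[X]} (hh : Quartic h) :
    IsSquare (aeval (con c' * tau⁻¹) h) := by
  have e : ord (con c' * tau⁻¹) = ((-(1 : ℕ) : ℤ) : WithTop ℤ) := by
    rw [ord_mul, ord_con hc, ord_inv_tau, zero_add]; rfl
  exact embB_sq4 (hh.ord_of_neg one_pos e)

private theorem embB_pos {c' : κ} (hc : c' ≠ 0) {h : ℂ[X]} (hh : Quartic h)
    (hh0 : h.eval 0 ≠ 0) : IsSquare (aeval (con c' * tau) h) := by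
  apply embB_sq0
  apply hh.ord_of_ne (η := 0)
  · rw [map_zero, sub_zero, ord_mul, ord_con hc, ord_tau, zero_add]
    exact zero_lt_one
  · intro h0
    apply hh0
    have : (0 : κ) = algebraMap ℂ κ 0 := (map_zero _).symm
    rw [this, aeval_algebraMap_apply, coe_aeval_eq_eval] at h0
    exact (algebraMap ℂ κ).injective h0

/-- **Embeddings for the biquadratic field.**
`exists_emb` with `W = {w₁, w₂}`.  `Φ(y) = con c · Y` or `con c · Y⁻¹` with `c = c₀ s^{±1} ∈ κ \ ℂ`
(`c₀ s`, `c₀ s⁻¹` resp. `c₀ s`).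
`w₁² = f(x) g(z)`: `g(s) ∈ κ` is a square; `w₂² = f(x) h(y)`; so it suffices that `f(Y)` and `h(Φ y)` have even order
(`isSquare_of_ord`; a product of squares is a square).
* `Y = τ⁻¹`: `ord f(Y) = -4`; `h(con c τ⁻¹)` has order `-4`, `h(con c τ)` has order `0` since `h(0) ≠ 0`.
* `ξ = 0` (`f(0) ≠ 0`), `Y = τ`: `f(Y)` order `0`, `h(con c τ)` order `0`, `h(con c τ⁻¹)` order `-4`.
* `ξ ≠ 0`: `Y = ξ + τⁿ`, `Φ(y) ≡ η := c ξ^{±1}`, `ord (Φ(y) - con η) = n`.  If `f(ξ) = 0` then `ξ ∈ ℂ^×`, so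
  `η ∉ ℂ` and `h(η) ≠ 0` (`Quartic.root_mem`): take `n = 2`: orders `2` and `0`.  If `f(ξ) ≠ 0` and `h(η) ≠ 0`
  take `n = 1`: orders `0, 0`.  If `f(ξ) ≠ 0`, `h(η) = 0`: `n = 2`: orders `0, 2` (third alternative). -/
theorem hasEmb_burger {K : Type*} [Field K] [Algebra ℂ K] {x z y w₁ w₂ : K}
    (hb : IsTranscendenceBasis ℂ ![x, z]) {f g h : ℂ[X]} (hf : Quartic f) (hh : Quartic h)
    (hf0 : f.eval 0 ≠ 0) (hh0 : h.eval 0 ≠ 0) (hy : ThirdRel x z y)
    (hw₁ : w₁ ^ 2 = aeval x f * aeval z g) (hw₂ : w₂ ^ 2 = aeval x f * aeval y h)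
    (hgen : IntermediateField.adjoin ℂ ({x, z, w₁, w₂} : Set K) = ⊤) : HasEmb x z f True := by
  have hx0 : x ≠ 0 := by
    intro hx
    have := hb.1.transcendental 0
    apply this
    simp [hx, isAlgebraic_zero]
  have hz0 : z ≠ 0 := by
    intro hz
    have := hb.1.transcendental 1
    apply this
    simp [hz, isAlgebraic_zero]
  obtain ⟨hym, c', e, hc0, htr, ht⟩ := embB_third hx0 hz0 hy
  have hmain : ∀ {Y : LK}, Y ∉ con.range → IsSquare (aeval Y f) →
      IsSquare (aeval (con c' * embB_pw e Y) h) → ∃ Φ : K →ₐ[ℂ] LK, IsEmb x z Y Φ :=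
    fun hY h1 h2 => embB_main hb hym hw₁ hw₂ hgen ht hY h1 h2
  have hfz : aeval (0 : κ) f ≠ 0 := by
    intro h0
    apply hf0
    have : (0 : κ) = algebraMap ℂ κ 0 := (map_zero _).symm
    rw [this, aeval_algebraMap_apply, coe_aeval_eq_eval] at h0
    exact (algebraMap ℂ κ).injective h0
  refine ⟨?_, ?_⟩
  · intro ξ
    by_cases hξ : ξ = 0
    · subst hξ
      left
      refine ⟨hfz, hmain (pt_not_mem one_pos) ?_ ?_⟩
      · apply embB_sq0
        refine hf.ord_of_ne (η := 0) ?_ hfz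
        rw [ord_pt_sub]
        norm_num
      · have ept : pt 0 1 = tau := by rw [pt, map_zero, zero_add, pow_one]
        rw [ept]
        cases e with
        | true => simpa [embB_pw] using embB_pos hc0 hh hh0
        | false => simpa [embB_pw] using embB_neg hc0 hh
    · have key : ∀ n : ℕ, 0 < n → 
          ord (con c' * embB_pw e (pt ξ n) - con (c' * embB_pk e ξ)) = n :=
        fun n hn => embB_third_ord hξ hc0 hn e
      have hpos : ∀ n : ℕ, 0 < n → (0 : WithTop ℤ) < (n : WithTop ℤ) := by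
        intro n hn
        exact_mod_cast hn
      by_cases hfξ : aeval ξ f = 0
      · right; left
        refine ⟨hfξ, hmain (pt_not_mem two_pos) ?_ ?_⟩
        · exact embB_sq2 (hf.ord_of_root two_pos ord_pt_sub hfξ)
        · apply embB_sq0
          refine hh.ord_of_ne (η := c' * embB_pk e ξ) ?_ ?_
          · rw [key 2 two_pos]; exact hpos 2 two_pos
          · intro h0
            obtain ⟨a, ha⟩ := hf.root_mem hfξ
            obtain ⟨b, hb'⟩ := hh.root_mem h0
            have ha0 : a ≠ 0 := by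
              rintro rfl
              rw [map_zero] at ha
              exact hξ ha.symm
            cases e with
            | true =>
              refine htr b a ha0 ?_
              rw [hb', ← ha]
              simp [embB_pk]
            | false =>
              refine htr b a⁻¹ (inv_ne_zero ha0) ?_
              rw [hb', ← ha]
              simp [embB_pk]
      · by_cases hhη : aeval (c' * embB_pk e ξ) h = 0
        · right; right
          refine ⟨trivial, hfξ, hmain (pt_not_mem two_pos) ?_ ?_⟩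
          · apply embB_sq0
            refine hf.ord_of_ne (η := ξ) ?_ hfξ
            rw [ord_pt_sub]; exact hpos 2 two_pos
          · exact embB_sq2 (hh.ord_of_root two_pos (key 2 two_pos) hhη)
        · left
          refine ⟨hfξ, hmain (pt_not_mem one_pos) ?_ ?_⟩
          · apply embB_sq0
            refine hf.ord_of_ne (η := ξ) ?_ hfξ
            rw [ord_pt_sub]; exact hpos 1 one_pos
          · apply embB_sq0
            refine hh.ord_of_ne (η := c' * embB_pk e ξ) ?_ hhη
            rw [key 1 one_pos]; exact hpos 1 one_pos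
  · refine hmain inv_tau_not_mem ?_ ?_
    · exact embB_sq4 (hf.ord_of_neg one_pos (by rw [ord_inv_tau]; rfl))
    · cases e with
      | true => simpa [embB_pw] using embB_neg hc0 hh
      | false => simpa [embB_pw] using embB_pos hc0 hh hh0

end Pool.Agent.K3G
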