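import Pool.Agent.K3G.K3Field
import Pool.Agent.K3G.HasEmbB

/-!
# The biquadratic field of a triple K3 burger: algebra

`K ⊇ ℂ(x₀, x₂)`, `x₀ x₂ = μ x₁`, `w i = y_{i+1} y_{i+2}` with `y_i² = f_i(x_i)`; indices modulo `3`.
-/

set_option autoImplicit false

noncomputable section
namespace Pool.Agent.K3G

open Polynomial

/-- generators and relations of the function field of the surface `S_b` -/
structure BurgerData (K : Type*) [Field K] [Algebra ℂ K] where
  f : Fin 3 → ℂ[X]
  x : Fin 3 → K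
  w : Fin 3 → K
  μ : ℂ
  μ_ne : μ ≠ 0
  quartic : ∀ i, Quartic (f i)
  f_zero : ∀ i, (f i).eval 0 ≠ 0
  rel : x 0 * x 2 = algebraMap ℂ K μ * x 1
  tb : IsTranscendenceBasis ℂ ![x 0, x 2]
  hw : ∀ i, w i ^ 2 = aeval (x (i + 1)) (f (i + 1)) * aeval (x (i + 2)) (f (i + 2))
  hww : ∀ i, w (i + 1) * w (i + 2) = aeval (x i) (f i) * w i
  gen : IntermediateField.adjoin ℂ (Set.range x ∪ Set.range w) = ⊤

namespace BurgerData

variable {K : Type*} [Field K] [Algebra ℂ K] (D : BurgerData K)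

/-- the field `ℂ(x₀, x₁, x₂)` -/
def F : IntermediateField ℂ K := IntermediateField.adjoin ℂ (Set.range D.x)

theorem x_mem (i : Fin 3) : D.x i ∈ D.F :=
  IntermediateField.subset_adjoin _ _ ⟨i, rfl⟩

private theorem burgA_11 (i : Fin 3) : i + 1 + 1 = i + 2 := by revert i; decide
private theorem burgA_12 (i : Fin 3) : i + 1 + 2 = i := by revert i; decide
private theorem burgA_21 (i : Fin 3) : i + 2 + 1 = i := by revert i; decide
private theorem burgA_22 (i : Fin 3) : i + 2 + 2 = i + 1 := by revert i; decide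
private theorem burgA_cases (i j : Fin 3) : j = i ∨ j = i + 1 ∨ j = i + 2 := by revert i j; decide

private theorem burgA_mu : algebraMap ℂ K D.μ ≠ 0 :=
  (map_ne_zero_iff _ (algebraMap ℂ K).injective).2 D.μ_ne

private theorem burgA_transc (j : Fin 2) : Transcendental ℂ (![D.x 0, D.x 2] j) :=
  D.tb.1.transcendental j

private theorem burgA_x0 : D.x 0 ≠ 0 := by
  intro h
  have h1 := D.burgA_transc 0
  simp only [Matrix.cons_val_zero] at h1
  rw [h] at h1
  exact h1 (isAlgebraic_zero (R := ℂ))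

private theorem burgA_x2 : D.x 2 ≠ 0 := by
  intro h
  have h1 := D.burgA_transc 1
  simp only [Matrix.cons_val_one] at h1
  rw [h] at h1
  exact h1 (isAlgebraic_zero (R := ℂ))

private theorem burgA_x1 : D.x 1 ≠ 0 := by
  intro h
  have h1 := D.rel
  rw [h, mul_zero] at h1
  exact mul_ne_zero D.burgA_x0 D.burgA_x2 h1

theorem x_ne (i : Fin 3) : D.x i ≠ 0 := by
  fin_cases i
  · exact D.burgA_x0
  · exact D.burgA_x1
  · exact D.burgA_x2

theorem thirdRel (i : Fin 3) : ThirdRel (D.x (i + 1)) (D.x (i + 2)) (D.x i) := by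
  have hmu := D.burgA_mu
  have hrel := D.rel
  fin_cases i
  · refine ⟨D.μ, D.μ_ne, Or.inr (Or.inl ?_)⟩
    exact hrel
  · refine ⟨D.μ⁻¹, inv_ne_zero D.μ_ne, Or.inl ?_⟩
    change D.x 1 = algebraMap ℂ K D.μ⁻¹ * (D.x 2 * D.x 0)
    rw [mul_comm (D.x 2), hrel, map_inv₀, inv_mul_cancel_left₀ hmu]
  · refine ⟨D.μ, D.μ_ne, Or.inr (Or.inr ?_)⟩
    change D.x 2 * D.x 0 = algebraMap ℂ K D.μ * D.x 1
    rw [mul_comm, hrel]

/-- the third coordinate is in the field generated by the two others -/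
private theorem burgA_third {x z y : K} (h : ThirdRel x z y) (hx : x ≠ 0) (hz : z ≠ 0)
    (L : IntermediateField ℂ K) (hxL : x ∈ L) (hzL : z ∈ L) : y ∈ L := by
  obtain ⟨c, hc, h | h | h⟩ := h
  · rw [h]
    exact mul_mem (L.algebraMap_mem c) (mul_mem hxL hzL)
  · rw [eq_div_of_mul_eq hz h]
    exact div_mem (mul_mem (L.algebraMap_mem c) hxL) hzL
  · rw [eq_div_of_mul_eq hx h]
    exact div_mem (mul_mem (L.algebraMap_mem c) hzL) hxL

private theorem burgA_x_mem (i : Fin 3) (L : IntermediateField ℂ K) (h1 : D.x (i + 1) ∈ L)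
    (h2 : D.x (i + 2) ∈ L) (j : Fin 3) : D.x j ∈ L := by
  have h3 : D.x i ∈ L := burgA_third (D.thirdRel i) (D.x_ne _) (D.x_ne _) L h1 h2
  rcases burgA_cases i j with rfl | rfl | rfl
  · exact h3
  · exact h1
  · exact h2

/-- any two of the coordinates generate `F` -/
theorem F_eq (i : Fin 3) : FF2 (D.x (i + 1)) (D.x (i + 2)) = D.F := by
  apply le_antisymm
  · rw [FF2, IntermediateField.adjoin_le_iff]
    rintro a (rfl | rfl)
    · exact D.x_mem _
    · exact D.x_mem _
  · rw [F, IntermediateField.adjoin_le_iff]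
    rintro a ⟨j, rfl⟩
    exact D.burgA_x_mem i _ (IntermediateField.subset_adjoin _ _ (by simp))
      (IntermediateField.subset_adjoin _ _ (by simp)) j
theorem F_eq' (i : Fin 3) : FF2 (D.x (i + 2)) (D.x (i + 1)) = D.F := by
  rw [← D.F_eq i, FF2, FF2, Set.pair_comm]

/-- any two of the coordinates form a transcendence basis (generating set of the right cardinality) -/
private theorem burgA_alg : Algebra.IsAlgebraic D.F K := by
  have h := D.tb.isAlgebraic_field
  have e : IntermediateField.adjoin ℂ (Set.range ![D.x 0, D.x 2]) = D.F := by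
    rw [← D.F_eq' 1, Matrix.range_cons, Matrix.range_cons, Matrix.range_empty, Set.union_empty,
      Set.singleton_union]
    rfl
  rwa [e] at h

open scoped IntermediateField.algebraAdjoinAdjoin in
private theorem burgA_tb {a b : K} (h : FF2 a b = D.F) : IsTranscendenceBasis ℂ ![a, b] := by
  have hr : Set.range ![a, b] = {a, b} := by
    rw [Matrix.range_cons, Matrix.range_cons, Matrix.range_empty, Set.union_empty,
      Set.singleton_union]
  have h1 : Algebra.IsAlgebraic (IntermediateField.adjoin ℂ (Set.range ![a, b])) K := by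
    have h2 := D.burgA_alg
    rw [← h] at h2
    rwa [hr]
  have h3 : Algebra.IsAlgebraic (Algebra.adjoin ℂ (Set.range ![a, b])) K :=
    (IsFractionRing.comap_isAlgebraic_iff (A := Algebra.adjoin ℂ (Set.range ![a, b]))
      (K := IntermediateField.adjoin ℂ (Set.range ![a, b])) (C := K)).2 h1
  refine Algebra.IsAlgebraic.isTranscendenceBasis_of_lift_le_trdeg_of_finite ℂ _ ?_
  exact D.tb.lift_cardinalMk_eq_trdeg.le

theorem tb' (i : Fin 3) : IsTranscendenceBasis ℂ ![D.x (i + 1), D.x (i + 2)] :=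
  D.burgA_tb (D.F_eq i)
theorem tb'' (i : Fin 3) : IsTranscendenceBasis ℂ ![D.x (i + 2), D.x (i + 1)] :=
  D.burgA_tb (D.F_eq' i)

theorem f_ne (i : Fin 3) : D.f i ≠ 0 := (D.quartic i).sep.ne_zero
private theorem burgA_x_transc (i : Fin 3) : Transcendental ℂ (D.x i) := by
  have h := (D.tb' (i + 2)).1.transcendental 0
  simp only [Matrix.cons_val_zero, burgA_21] at h
  exact h
theorem aeval_f_ne (i : Fin 3) : aeval (D.x i) (D.f i) ≠ 0 := fun h =>
  D.burgA_x_transc i ⟨D.f i, D.f_ne i, h⟩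
theorem w_ne (i : Fin 3) : D.w i ≠ 0 := by
  intro h
  have h1 := D.hw i
  rw [h, zero_pow two_ne_zero] at h1
  exact mul_ne_zero (D.aeval_f_ne _) (D.aeval_f_ne _) h1.symm
private theorem burgA_aeval_mem (L : IntermediateField ℂ K) {u : K} (hu : u ∈ L) (p : ℂ[X]) :
    aeval u p ∈ L := by
  have h : ((aeval (⟨u, hu⟩ : L) p : L) : K) = aeval u p :=
    (Polynomial.aeval_algHom_apply L.val (⟨u, hu⟩ : L) p).symm
  rw [← h]
  exact Subtype.prop _
theorem w_sq_mem (i : Fin 3) : D.w i ^ 2 ∈ D.F := by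
  rw [D.hw i]
  exact mul_mem (burgA_aeval_mem _ (D.x_mem _) _) (burgA_aeval_mem _ (D.x_mem _) _)
theorem w_not_mem (i : Fin 3) : D.w i ∉ D.F := by
  rw [← D.F_eq i]
  exact K3G.w_not_mem (D.tb' i) (D.quartic (i + 1)) (D.f_ne (i + 2)) (D.hw i)

/-- generation by two coordinates and two of the `w`s -/
private theorem burgA_gen (i : Fin 3) (S : Set K) (h1 : D.x (i + 1) ∈ S) (h2 : D.x (i + 2) ∈ S)
    (h3 : D.w i ∈ S) (h4 : D.w (i + 1) ∈ S ∨ D.w (i + 2) ∈ S) :
    IntermediateField.adjoin ℂ S = ⊤ := by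
  rw [eq_top_iff, ← D.gen, IntermediateField.adjoin_le_iff]
  have hx : ∀ j, D.x j ∈ IntermediateField.adjoin ℂ S :=
    D.burgA_x_mem i _ (IntermediateField.subset_adjoin _ _ h1)
      (IntermediateField.subset_adjoin _ _ h2)
  have h3' : D.w i ∈ IntermediateField.adjoin ℂ S := IntermediateField.subset_adjoin _ _ h3
  have key : D.w (i + 1) ∈ IntermediateField.adjoin ℂ S ∧
      D.w (i + 2) ∈ IntermediateField.adjoin ℂ S := by
    have hf : aeval (D.x i) (D.f i) * D.w i ∈ IntermediateField.adjoin ℂ S :=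
      mul_mem (burgA_aeval_mem _ (hx i) _) h3'
    rcases h4 with h | h
    · have h' : D.w (i + 1) ∈ IntermediateField.adjoin ℂ S :=
        IntermediateField.subset_adjoin _ _ h
      refine ⟨h', ?_⟩
      have e : D.w (i + 2) = aeval (D.x i) (D.f i) * D.w i / D.w (i + 1) := by
        rw [← D.hww i, mul_div_cancel_left₀ _ (D.w_ne _)]
      rw [e]
      exact div_mem hf h'
    · have h' : D.w (i + 2) ∈ IntermediateField.adjoin ℂ S :=
        IntermediateField.subset_adjoin _ _ h
      refine ⟨?_, h'⟩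
      have e : D.w (i + 1) = aeval (D.x i) (D.f i) * D.w i / D.w (i + 2) := by
        rw [← D.hww i, mul_div_cancel_right₀ _ (D.w_ne _)]
      rw [e]
      exact div_mem hf h'
  rintro a (⟨j, rfl⟩ | ⟨j, rfl⟩)
  · exact hx j
  · rcases burgA_cases i j with rfl | rfl | rfl
    · exact h3'
    · exact key.1
    · exact key.2

/-- enough embeddings in all six directions (`hasEmb_burger`) -/
theorem hasEmb (i : Fin 3) : HasEmb (D.x (i + 1)) (D.x (i + 2)) (D.f (i + 1)) True := by
  have h2 : D.w (i + 2) ^ 2 = aeval (D.x (i + 1)) (D.f (i + 1)) * aeval (D.x i) (D.f i) := by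
    have h := D.hw (i + 2)
    rw [burgA_21, burgA_22] at h
    rw [h, mul_comm]
  exact hasEmb_burger (D.tb' i) (D.quartic (i + 1)) (D.quartic i) (D.f_zero _) (D.f_zero _)
    (D.thirdRel i) (D.hw i) h2 (D.burgA_gen i _ (by simp) (by simp) (by simp) (Or.inr (by simp)))
theorem hasEmb' (i : Fin 3) : HasEmb (D.x (i + 2)) (D.x (i + 1)) (D.f (i + 2)) True := by
  have h1 : D.w i ^ 2 = aeval (D.x (i + 2)) (D.f (i + 2)) * aeval (D.x (i + 1)) (D.f (i + 1)) := by
    rw [D.hw i, mul_comm]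
  have h2 : D.w (i + 1) ^ 2 = aeval (D.x (i + 2)) (D.f (i + 2)) * aeval (D.x i) (D.f i) := by
    have h := D.hw (i + 1)
    rwa [burgA_11, burgA_12] at h
  exact hasEmb_burger (D.tb'' i) (D.quartic (i + 2)) (D.quartic i) (D.f_zero _) (D.f_zero _)
    (D.thirdRel i).symm h1 h2
    (D.burgA_gen i _ (by simp) (by simp) (by simp) (Or.inl (by simp)))

/-- the subfield `F(w i)` -/
def E (i : Fin 3) : IntermediateField ℂ K :=
  IntermediateField.adjoin ℂ ({D.x (i + 1), D.x (i + 2), D.w i} : Set K)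

end BurgerData

end Pool.Agent.K3G
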