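import Pool.Agent.K3G.BurgerAlg

/-!
# The biquadratic field of a triple K3 burger: the involutions
-/

set_option autoImplicit false

noncomputable section
namespace Pool.Agent.K3G

open Polynomial

/-- elements of a quadratic extension -/
private theorem aut_decomp {K : Type*} [Field K] [Algebra ℂ K] (E : IntermediateField ℂ K) {w : K}
    (hw2 : w ^ 2 ∈ E) {a : K} (ha : a ∈ E ⊔ IntermediateField.adjoin ℂ {w}) :
    ∃ p ∈ E, ∃ q ∈ E, a = p + q * w := by
  by_cases hw : w ∈ E
  · have h1 : E ⊔ IntermediateField.adjoin ℂ {w} ≤ E := by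
      refine sup_le le_rfl ?_
      rw [IntermediateField.adjoin_le_iff]
      intro b hb
      rw [Set.mem_singleton_iff] at hb
      rw [hb]
      exact hw
    exact ⟨a, h1 ha, 0, zero_mem E, by ring⟩
  · let S : Subalgebra ℂ K :=
      { carrier := {a | ∃ p ∈ E, ∃ q ∈ E, a = p + q * w}
        mul_mem' := by
          rintro _ _ ⟨p, hp, q, hq, rfl⟩ ⟨p', hp', q', hq', rfl⟩
          exact ⟨p * p' + q * q' * w ^ 2, add_mem (mul_mem hp hp') (mul_mem (mul_mem hq hq') hw2),
            p * q' + p' * q, add_mem (mul_mem hp hq') (mul_mem hp' hq), by ring⟩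
        add_mem' := by
          rintro _ _ ⟨p, hp, q, hq, rfl⟩ ⟨p', hp', q', hq', rfl⟩
          exact ⟨p + p', add_mem hp hp', q + q', add_mem hq hq', by ring⟩
        algebraMap_mem' := fun c => ⟨algebraMap ℂ K c, E.algebraMap_mem c, 0, zero_mem E, by ring⟩ }
    let L : IntermediateField ℂ K := S.toIntermediateField (by
      rintro _ ⟨p, hp, q, hq, rfl⟩
      by_cases hn : p ^ 2 - q ^ 2 * w ^ 2 = 0
      · by_cases hq0 : q = 0
        · subst hq0
          have hp0 : p = 0 := by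
            have : p ^ 2 = 0 := by linear_combination hn
            exact pow_eq_zero_iff (by norm_num) |>.mp this
          subst hp0
          exact ⟨0, zero_mem E, 0, zero_mem E, by simp⟩
        · exfalso
          have h1 : w ^ 2 = (p / q) ^ 2 := by
            field_simp
            linear_combination -hn
          apply hw
          rcases sq_eq_sq_iff_eq_or_eq_neg.mp h1 with h | h
          · rw [h]; exact div_mem hp hq
          · rw [h]; exact neg_mem (div_mem hp hq)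
      · have hn' : p ^ 2 - q ^ 2 * w ^ 2 ∈ E := sub_mem (pow_mem hp 2) (mul_mem (pow_mem hq 2) hw2)
        refine ⟨p / (p ^ 2 - q ^ 2 * w ^ 2), div_mem hp hn', -(q / (p ^ 2 - q ^ 2 * w ^ 2)),
          neg_mem (div_mem hq hn'), ?_⟩
        apply inv_eq_of_mul_eq_one_right
        field_simp
        ring)
    have hEL : E ≤ L := fun b hb => ⟨b, hb, 0, zero_mem E, by ring⟩
    have hwL : w ∈ L := ⟨0, zero_mem E, 1, one_mem E, by ring⟩
    have h1 : E ⊔ IntermediateField.adjoin ℂ {w} ≤ L := by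
      refine sup_le hEL ?_
      rw [IntermediateField.adjoin_le_iff]
      intro b hb
      rw [Set.mem_singleton_iff] at hb
      rw [hb]
      exact hwL
    exact h1 ha

namespace BurgerData

variable {K : Type*} [Field K] [Algebra ℂ K] (D : BurgerData K)

private theorem ba_11 (i : Fin 3) : i + 1 + 1 = i + 2 := by revert i; decide
private theorem ba_12 (i : Fin 3) : i + 1 + 2 = i := by revert i; decide
private theorem ba_21 (i : Fin 3) : i + 2 + 1 = i := by revert i; decide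
private theorem ba_22 (i : Fin 3) : i + 2 + 2 = i + 1 := by revert i; decide
private theorem ba_cases (i j : Fin 3) : j = i ∨ j = i + 1 ∨ j = i + 2 := by revert i j; decide

private theorem ba_charZero : CharZero K := charZero_of_injective_algebraMap (algebraMap ℂ K).injective

theorem F_le_E (i : Fin 3) : D.F ≤ D.E i := by
  rw [← D.F_eq i]
  refine IntermediateField.adjoin.mono ℂ _ _ ?_
  intro a ha
  rcases ha with ha | ha
  · exact Or.inl ha
  · exact Or.inr (Or.inl ha)

theorem w_mem_E (i : Fin 3) : D.w i ∈ D.E i :=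
  IntermediateField.subset_adjoin _ _ (Or.inr (Or.inr rfl))

theorem E_eq (i : Fin 3) : D.E i = D.F ⊔ IntermediateField.adjoin ℂ {D.w i} := by
  apply le_antisymm
  · unfold E
    rw [IntermediateField.adjoin_le_iff]
    have h1 : D.F ≤ D.F ⊔ IntermediateField.adjoin ℂ {D.w i} := le_sup_left
    have h2 : IntermediateField.adjoin ℂ {D.w i} ≤ D.F ⊔ IntermediateField.adjoin ℂ {D.w i} :=
      le_sup_right
    rintro a (rfl | rfl | rfl)
    · exact h1 (D.x_mem _)
    · exact h1 (D.x_mem _)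
    · exact h2 (IntermediateField.mem_adjoin_simple_self ℂ _)
  · refine sup_le (D.F_le_E i) ?_
    rw [IntermediateField.adjoin_le_iff]
    rintro a rfl
    exact D.w_mem_E i

theorem E_decomp (i : Fin 3) {a : K} (ha : a ∈ D.E i) : ∃ p ∈ D.F, ∃ q ∈ D.F, a = p + q * D.w i := by
  rw [D.E_eq i] at ha
  exact aut_decomp D.F (D.w_sq_mem i) ha

private theorem ba_aeval_mem (L : IntermediateField ℂ K) {u : K} (hu : u ∈ L) (p : ℂ[X]) :
    aeval u p ∈ L := by
  have h : ((aeval (⟨u, hu⟩ : L) p : L) : K) = aeval u p := (aeval_algHom_apply L.val _ _).symm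
  rw [← h]
  exact SetLike.coe_mem _

private theorem ba_aeval_coe (L : IntermediateField ℂ K) {u : K} (hu : u ∈ L) (p : ℂ[X]) :
    ((aeval (⟨u, hu⟩ : L) p : L) : K) = aeval u p := (aeval_algHom_apply L.val _ _).symm

private theorem ba_ne (i : Fin 3) : i + 1 ≠ i := by revert i; decide

/-- `w (i+1) ∉ F(w i)`: if `w (i+1) = p + q w i` with `p, q ∈ F`, squaring gives `2 p q w i ∈ F`, so `p = 0` or
`q = 0`; `q = 0` contradicts `w_not_mem`; `p = 0` gives `w (i+1) w i = q (w i)² ∈ F` but by `hww` it is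
`f (x (i+2)) · w (i+2)`, again a contradiction -/
theorem w_not_mem_E (i : Fin 3) : D.w (i + 1) ∉ D.E i := by
  have := @ba_charZero K _ _
  intro h
  obtain ⟨p, hp, q, hq, hpq⟩ := D.E_decomp i h
  have h1 : (2 * (p * q)) * D.w i = D.w (i + 1) ^ 2 - p ^ 2 - q ^ 2 * D.w i ^ 2 := by
    rw [hpq]; ring
  have h2 : (2 * (p * q)) * D.w i ∈ D.F := by
    rw [h1]
    exact sub_mem (sub_mem (D.w_sq_mem _) (pow_mem hp 2)) (mul_mem (pow_mem hq 2) (D.w_sq_mem _))
  have h2m : (2 * (p * q)) ∈ D.F := mul_mem (ofNat_mem D.F 2) (mul_mem hp hq)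
  by_cases hpq0 : p * q = 0
  · rcases mul_eq_zero.mp hpq0 with h0 | h0
    · -- `w (i+1) = q w i`
      have h3 := D.hww (i + 2)
      rw [ba_21, ba_22] at h3
      have h4 : D.w (i + 2) = q * D.w i ^ 2 / aeval (D.x (i + 2)) (D.f (i + 2)) := by
        rw [eq_div_iff (D.aeval_f_ne _)]
        rw [mul_comm, ← h3, hpq, h0]
        ring
      apply D.w_not_mem (i + 2)
      rw [h4]
      exact div_mem (mul_mem hq (D.w_sq_mem i)) (ba_aeval_mem D.F (D.x_mem _) _)
    · apply D.w_not_mem (i + 1)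
      rw [hpq, h0, zero_mul, add_zero]
      exact hp
  · apply D.w_not_mem i
    have h5 : (2 * (p * q)) ≠ 0 := mul_ne_zero two_ne_zero hpq0
    have h6 : D.w i = ((2 * (p * q)) * D.w i) / (2 * (p * q)) := (mul_div_cancel_left₀ _ h5).symm
    rw [h6]
    exact div_mem h2 h2m

theorem E_sup (i : Fin 3) : D.E i ⊔ IntermediateField.adjoin ℂ {D.w (i + 1)} = ⊤ := by
  rw [eq_top_iff, ← D.gen, IntermediateField.adjoin_le_iff]
  have h1 : D.E i ≤ D.E i ⊔ IntermediateField.adjoin ℂ {D.w (i + 1)} := le_sup_left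
  have h2 : IntermediateField.adjoin ℂ {D.w (i + 1)} ≤
      D.E i ⊔ IntermediateField.adjoin ℂ {D.w (i + 1)} := le_sup_right
  have hw1 := h2 (IntermediateField.mem_adjoin_simple_self ℂ (D.w (i + 1)))
  rintro a (⟨j, rfl⟩ | ⟨j, rfl⟩)
  · exact h1 (D.F_le_E i (D.x_mem j))
  · rcases ba_cases i j with rfl | rfl | rfl
    · exact h1 (D.w_mem_E _)
    · exact hw1
    · have h3 := D.hww i
      have h4 : D.w (i + 2) = aeval (D.x i) (D.f i) * D.w i / D.w (i + 1) := by
        rw [eq_div_iff (D.w_ne _), mul_comm]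
        exact h3
      change D.w (i + 2) ∈ _
      rw [h4]
      exact div_mem (mul_mem (h1 (D.F_le_E i (ba_aeval_mem D.F (D.x_mem _) _))) (h1 (D.w_mem_E i))) hw1

/-- **The involutions.** `σ i` fixes `F(w i)` and changes the signs of `w (i+1)`, `w (i+2)`
(`exists_quad_aut` for `E i`) -/
theorem exists_sigma (i : Fin 3) : ∃ σ : K ≃ₐ[ℂ] K, σ * σ = 1 ∧ (∀ a, σ a = a ↔ a ∈ D.E i) ∧
    σ (D.w (i + 1)) = -D.w (i + 1) ∧ σ (D.w (i + 2)) = -D.w (i + 2) := by
  obtain ⟨σ, h1, h2, h3⟩ := exists_quad_aut (D.E i) (D.w_not_mem_E i)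
    (D.F_le_E i (D.w_sq_mem (i + 1))) (D.E_sup i)
  refine ⟨σ, h3, h2, h1, ?_⟩
  have h4 := congrArg σ (D.hww i)
  have h5 : σ (aeval (D.x i) (D.f i) * D.w i) = aeval (D.x i) (D.f i) * D.w i :=
    (h2 _).2 (mul_mem (D.F_le_E i (ba_aeval_mem D.F (D.x_mem _) _)) (D.w_mem_E i))
  rw [h5, map_mul, h1, ← D.hww i] at h4
  have h6 : D.w (i + 1) * (σ (D.w (i + 2)) + D.w (i + 2)) = 0 := by linear_combination -h4
  have h7 := (mul_eq_zero.mp h6).resolve_left (D.w_ne _)
  exact eq_neg_of_add_eq_zero_left h7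

/-- the involution `σ i` -/
def σ (i : Fin 3) : K ≃ₐ[ℂ] K := (D.exists_sigma i).choose

theorem σ_mul_self (i : Fin 3) : D.σ i * D.σ i = 1 := (D.exists_sigma i).choose_spec.1
theorem σ_eq_iff (i : Fin 3) (a : K) : D.σ i a = a ↔ a ∈ D.E i :=
  (D.exists_sigma i).choose_spec.2.1 a
theorem σ_w_self (i : Fin 3) : D.σ i (D.w i) = D.w i := (D.σ_eq_iff i _).2 (D.w_mem_E i)
theorem σ_w_one (i : Fin 3) : D.σ i (D.w (i + 1)) = -D.w (i + 1) :=
  (D.exists_sigma i).choose_spec.2.2.1
theorem σ_w_two (i : Fin 3) : D.σ i (D.w (i + 2)) = -D.w (i + 2) :=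
  (D.exists_sigma i).choose_spec.2.2.2
theorem σ_w_of_ne {i j : Fin 3} (h : i ≠ j) : D.σ i (D.w j) = -D.w j := by
  rcases ba_cases i j with rfl | rfl | rfl
  · exact absurd rfl h
  · exact D.σ_w_one i
  · exact D.σ_w_two i
theorem σ_x (i j : Fin 3) : D.σ i (D.x j) = D.x j := (D.σ_eq_iff i _).2 (D.F_le_E i (D.x_mem j))
theorem σ_ne_one (i : Fin 3) : D.σ i ≠ 1 := by
  have := @ba_charZero K _ _
  intro h
  have h1 := D.σ_w_one i
  rw [h] at h1
  have h2 : (2 : K) * D.w (i + 1) = 0 := by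
    have h3 : D.w (i + 1) = -D.w (i + 1) := h1
    linear_combination h3
  exact D.w_ne _ ((mul_eq_zero.mp h2).resolve_left two_ne_zero)
/-- the product of two of the involutions is the third (`aut_ext` on the generators) -/
theorem σ_mul (i : Fin 3) : D.σ (i + 1) * D.σ (i + 2) = D.σ i := by
  refine aut_ext D.gen ?_
  rintro a (⟨j, rfl⟩ | ⟨j, rfl⟩)
  · rw [AlgEquiv.mul_apply, D.σ_x, D.σ_x, D.σ_x]
  · rw [AlgEquiv.mul_apply]
    rcases ba_cases i j with rfl | rfl | rfl
    · rw [D.σ_w_of_ne (by revert j; decide), map_neg, D.σ_w_of_ne (by revert j; decide), neg_neg, D.σ_w_self]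
    · rw [D.σ_w_of_ne (by revert i; decide), map_neg, D.σ_w_self, D.σ_w_one]
    · rw [D.σ_w_self, D.σ_w_of_ne (by revert i; decide), D.σ_w_two]
theorem σ_comm (i j : Fin 3) : D.σ i * D.σ j = D.σ j * D.σ i := by
  refine aut_ext D.gen ?_
  rintro a (⟨k, rfl⟩ | ⟨k, rfl⟩)
  · rw [AlgEquiv.mul_apply, AlgEquiv.mul_apply, D.σ_x, D.σ_x, D.σ_x]
  · rw [AlgEquiv.mul_apply, AlgEquiv.mul_apply]
    by_cases hi : i = k <;> by_cases hj : j = k
    · rw [hi, hj]
    · rw [D.σ_w_of_ne hj, hi, map_neg, D.σ_w_self, D.σ_w_of_ne hj]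
    · rw [D.σ_w_of_ne hi, hj, map_neg, D.σ_w_self, D.σ_w_of_ne hi]
    · rw [D.σ_w_of_ne hi, D.σ_w_of_ne hj, map_neg, map_neg, D.σ_w_of_ne hi, D.σ_w_of_ne hj]

/-- `F` is the fixed field of all three: `E i ⊓ E (i+1) = F` (write `a = p + q w i`, `p, q ∈ F`; then
`σ (i+1) a = p - q w i`) -/
theorem mem_F (i : Fin 3) {a : K} (h1 : D.σ i a = a) (h2 : D.σ (i + 1) a = a) : a ∈ D.F := by
  have := @ba_charZero K _ _
  obtain ⟨p, hp, q, hq, rfl⟩ := D.E_decomp i ((D.σ_eq_iff i a).1 h1)
  have hp' : D.σ (i + 1) p = p := (D.σ_eq_iff _ _).2 (D.F_le_E _ hp)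
  have hq' : D.σ (i + 1) q = q := (D.σ_eq_iff _ _).2 (D.F_le_E _ hq)
  rw [map_add, map_mul, hp', hq', D.σ_w_of_ne (ba_ne i)] at h2
  have h3 : (2 : K) * (q * D.w i) = 0 := by linear_combination -h2
  rw [(mul_eq_zero.mp h3).resolve_left two_ne_zero, add_zero]
  exact hp

include D in
/-- `K` is a surface field -/
theorem isSurfaceField : IsSurfaceField K := by
  classical
  refine isSurfaceField_of D.tb (Finset.univ.image D.x ∪ Finset.univ.image D.w) ?_
  rw [← D.gen]
  congr 1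
  simp

/-- the fixed fields are K3 fields: the fixed field is `E i` (`fixedField_zpowers`), and `E i` is generated by
`x (i+1), x (i+2), w i` (inside the type `↥(E i)`), so `isK3Field_of` applies -/
theorem isK3_fixed (i : Fin 3) :
    IsK3Field (IntermediateField.fixedField (Subgroup.zpowers (D.σ i)) : IntermediateField ℂ K) := by
  rw [fixedField_zpowers (D.σ i) (D.E i) (D.σ_eq_iff i)]
  have hx : D.x (i + 1) ∈ D.E i := D.F_le_E i (D.x_mem _)
  have hz : D.x (i + 2) ∈ D.E i := D.F_le_E i (D.x_mem _)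
  have hw := D.w_mem_E i
  refine isK3Field_of (x := (⟨D.x (i + 1), hx⟩ : D.E i)) (z := ⟨D.x (i + 2), hz⟩) (w := ⟨D.w i, hw⟩)
    ?_ (D.quartic (i + 1)) (D.quartic (i + 2)) ?_ ?_
  · refine IsTranscendenceBasis.of_comp (D.E i).val (D.E i).val.injective ?_
    have h1 := D.tb' i
    convert h1 using 1
    funext j
    fin_cases j <;> rfl
  · apply Subtype.ext
    have h1 := D.hw i
    rw [IntermediateField.coe_mul, ba_aeval_coe, ba_aeval_coe, IntermediateField.coe_pow]
    exact h1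
  · apply IntermediateField.lift_injective
    rw [IntermediateField.lift_adjoin, IntermediateField.lift_top]
    unfold E
    congr 1
    ext a
    simp only [Set.mem_image, Set.mem_insert_iff, Set.mem_singleton_iff]
    constructor
    · rintro ⟨b, rfl | rfl | rfl, rfl⟩
      · exact Or.inl rfl
      · exact Or.inr (Or.inl rfl)
      · exact Or.inr (Or.inr rfl)
    · rintro (rfl | rfl | rfl)
      · exact ⟨_, Or.inl rfl, rfl⟩
      · exact ⟨_, Or.inr (Or.inl rfl), rfl⟩
      · exact ⟨_, Or.inr (Or.inr rfl), rfl⟩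

end BurgerData

end Pool.Agent.K3G
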