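import Pool.Agent.K3G.FormDef
import Pool.Agent.helper10.K3S.NoRatDef
import Pool.Agent.helper10.K3S.CanonDef

/-!
# Triple K3 burgers (statement file)

`IsBurger b` collects the properties of the fibre `S_b` of the family over `b`.
-/

set_option autoImplicit false

noncomputable section
namespace Pool.Agent.K3G.BurgerDef

open TripleBurger Pool.Agent.K3G.FormDef

section
variable {K : Type} [Field K] [Algebra ℂ K]

/-- the value at `(x, w)` of a polynomial in six variables -/
def value (x w : Fin 3 → K) (P : MvPolynomial (Fin 3 ⊕ Fin 3) ℂ) : K := MvPolynomial.aeval (Sum.elim x w) P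

/-- the polynomial `P` vanishes, as a function of `x_i = X_i` and `w_i = Y_{i+1} Y_{i+2}`, at all points of the
affine chart `W_i = 1` of the fibre over `b` (`w_i` is a function on `S_b`: it is invariant under `Y ↦ -Y`) -/
def Vanishes (b : Param) (P : MvPolynomial (Fin 3 ⊕ Fin 3) ℂ) : Prop :=
  ∀ p : Cone, p.b = b → (∀ i, p.W i = 1) → value p.X (fun i => p.Y (i + 1) * p.Y (i + 2)) P = 0

/-- `K`, generated over `ℂ` by the elements `x i` and `w i`, is the field of rational functions of `S_b`: a
polynomial in the `x i` and `w i` is zero in `K` if and only if it vanishes at all points of the chart of `S_b`. -/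
def IsFunctionField (b : Param) (x w : Fin 3 → K) : Prop :=
  IntermediateField.adjoin ℂ (Set.range (Sum.elim x w)) = ⊤ ∧ ∀ P, value x w P = 0 ↔ Vanishes b P

/-- `σ` is induced by the change of sign of `Y_j`: it fixes the `x i` and `w j`, and changes the sign of
`w i`, `i ≠ j` (`w i = Y_{i+1} Y_{i+2}`) -/
def IsFlip (x w : Fin 3 → K) (j : Fin 3) (σ : K → K) : Prop :=
  (∀ i, σ (x i) = x i) ∧ ∀ i, σ (w i) = if i = j then w i else -w i

end

/-- the field of rational functions of `S_b`, with the three involutions induced by `Y_j ↦ -Y_j`, is the function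
field of a triple K3 burger -/
def HasBurgerField (b : Param) : Prop :=
  ∃ (K : Type) (_ : Field K) (_ : Algebra ℂ K) (x w : Fin 3 → K) (σ : Fin 3 → K → K),
    IsFunctionField b x w ∧ (∀ j, IsFlip x w j (σ j)) ∧ IsBurgerField σ

/-- the point of `E₀ × E₁ × E₂` with homogeneous coordinates `p` is fixed by `Y ↦ -Y` -/
def IsFixed (p : Cone) : Prop := ∃ c : Fin 3 → ℂ, (∀ i, c i ≠ 0) ∧
  ∀ i, p.W i = c i * p.W i ∧ p.X i = c i * p.X i ∧ p.Y i = -(c i ^ 2 * p.Y i)

/-- **The surface `S_b` is a triple K3 burger.**

* `field`: the field of rational functions of `S_b`, with the involutions given by `Y_j ↦ - Y_j`, is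
  finitely generated of transcendence degree `2`, with `q = 0`, `p_g = 3`, of general type, the fixed fields of
  the three commuting involutions are function fields of K3 surfaces, and `H⁰(ω)` is the direct sum of the three
  invariant subspaces;
* `smooth`: the Jacobian criterion at every point of the cone over `D_b` (`S_b = D_b / (-1)`);
  `free`: `-1` has no fixed point on `D_b`;
* `canonical`: at every point one of the three global `2`-forms `η_{i+1} ∧ η_{i+2}` does not vanish, so `K_S` is nef
  and `S_b` is minimal; the canonical map `S_b → ℙ²` given by these forms is finite, so `K_S` is ample;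
* `noRat`: `S_b` contains no rational curve (in particular no `(-1)`-curve). -/
structure IsBurger (b : Param) : Prop where
  field : HasBurgerField b
  smooth : ∀ p : Cone, p.b = b → IsSmoothAt p
  free : ∀ p : Cone, p.b = b → ¬ IsFixed p
  canonical : Canon.FiniteCanonicalMap b
  noRat : NoRationalCurve b

end Pool.Agent.K3G.BurgerDef
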