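import Pool.Agent.K3G.BurgerAut

/-!
# The biquadratic field of a triple K3 burger: forms of the first kind
-/

set_option autoImplicit false

noncomputable section
namespace Pool.Agent.K3G

open Polynomial

/-- the action of an automorphism on 2-forms as a linear map -/
def bfActL {K : Type*} [Field K] [Algebra ℂ K] (σ : K ≃ₐ[ℂ] K) :
    (VF K → VF K → K) →ₗ[ℂ] (VF K → VF K → K) where
  toFun := actM σ
  map_add' a b := by funext Y Z; simp [actM]
  map_smul' c a := by funext Y Z; simp [actM]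

/-- the action of an automorphism on 1-forms as a linear map -/
def bfActL1 {K : Type*} [Field K] [Algebra ℂ K] (σ : K ≃ₐ[ℂ] K) :
    (VF K → K) →ₗ[ℂ] (VF K → K) where
  toFun := act1 σ
  map_add' a b := by funext Y; simp [act1]
  map_smul' c a := by funext Y; simp [act1]

theorem bf_conj_mul {K : Type*} [Field K] [Algebra ℂ K] (σ τ : K ≃ₐ[ℂ] K) (Y : VF K) :
    conj τ.symm (conj σ.symm Y) = conj (σ * τ).symm Y := by
  ext a
  rfl

theorem bf_actM_mul {K : Type*} [Field K] [Algebra ℂ K] (σ τ : K ≃ₐ[ℂ] K) (ω : VF K → VF K → K) :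
    bfActL σ (bfActL τ ω) = bfActL (σ * τ) ω := by
  funext Y Z
  change σ (τ (ω (conj τ.symm (conj σ.symm Y)) (conj τ.symm (conj σ.symm Z)))) =
    (σ * τ) (ω (conj (σ * τ).symm Y) (conj (σ * τ).symm Z))
  rw [bf_conj_mul, bf_conj_mul, AlgEquiv.mul_apply]

theorem bf_act1_mul {K : Type*} [Field K] [Algebra ℂ K] (σ τ : K ≃ₐ[ℂ] K) (ω : VF K → K) :
    bfActL1 σ (bfActL1 τ ω) = bfActL1 (σ * τ) ω := by
  funext Y
  change σ (τ (ω (conj τ.symm (conj σ.symm Y)))) = (σ * τ) (ω (conj (σ * τ).symm Y))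
  rw [bf_conj_mul, AlgEquiv.mul_apply]

theorem bf_actM_one {K : Type*} [Field K] [Algebra ℂ K] (ω : VF K → VF K → K) :
    bfActL (1 : K ≃ₐ[ℂ] K) ω = ω := by
  funext Y Z
  change (1 : K ≃ₐ[ℂ] K) (ω (conj (1 : K ≃ₐ[ℂ] K).symm Y) (conj (1 : K ≃ₐ[ℂ] K).symm Z)) = ω Y Z
  have h : ∀ V : VF K, conj (1 : K ≃ₐ[ℂ] K).symm V = V := fun V => by
    ext a
    rfl
  rw [h, h, AlgEquiv.one_apply]

theorem bf_act1_one {K : Type*} [Field K] [Algebra ℂ K] (ω : VF K → K) :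
    bfActL1 (1 : K ≃ₐ[ℂ] K) ω = ω := by
  funext Y
  change (1 : K ≃ₐ[ℂ] K) (ω (conj (1 : K ≃ₐ[ℂ] K).symm Y)) = ω Y
  have h : ∀ V : VF K, conj (1 : K ≃ₐ[ℂ] K).symm V = V := fun V => by
    ext a
    rfl
  rw [h, AlgEquiv.one_apply]

namespace BurgerData

variable {K : Type*} [Field K] [Algebra ℂ K] (D : BurgerData K)

/-- the 2-forms `α i = dx_{i+1} ∧ dx_{i+2} / w i` -/
def α (i : Fin 3) : VF K → VF K → K :=
  fun X Y => (D.w i)⁻¹ * (X (D.x (i + 1)) * Y (D.x (i + 2)) - X (D.x (i + 2)) * Y (D.x (i + 1)))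

theorem α_locGen (i : Fin 3) : LocGen (D.α i) :=
  locGen_quartic (D.quartic _) (D.quartic _) (D.hw i) (D.w_ne i)

theorem α_mem (i : Fin 3) : D.α i ∈ FKM K 1 := mem_FKM_one (D.α_locGen i)

theorem bf_σ_conj_x (i j : Fin 3) (Y : VF K) :
    D.σ i (conj (D.σ i).symm Y (D.x j)) = Y (D.x j) := by
  rw [conj_apply, AlgEquiv.symm_symm, D.σ_x, AlgEquiv.apply_symm_apply]

theorem actM_α_self (i : Fin 3) : actM (D.σ i) (D.α i) = D.α i := by
  funext Y Z
  simp only [actM, α, map_mul, map_sub, map_inv₀, D.bf_σ_conj_x, D.σ_w_self]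
theorem actM_α_of_ne {i j : Fin 3} (h : i ≠ j) : actM (D.σ i) (D.α j) = -D.α j := by
  funext Y Z
  simp only [actM, α, map_mul, map_sub, map_inv₀, D.bf_σ_conj_x, D.σ_w_of_ne h, Pi.neg_apply,
    inv_neg, neg_mul]

theorem bf_ne_one (i : Fin 3) : i + 1 ≠ i := by
  revert i; decide

/-- **A `2`-form of the first kind in the `w i`-eigenspace is a multiple of `α i`.**
`G := ω(∂_{x (i+1)}, ∂_{x (i+2)})`, `G · w i` is fixed by all involutions, so it is in `F = ℂ(x_{i+1}, x_{i+2})`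
(`mem_F`, `F_eq`); `two_form_const` (`m = 1`, `third = True`) in both directions (`hasEmb`, `hasEmb'`), `Coord.mem_const`,
`Coord.fkm_ext`. -/
theorem eigen_two {ω : VF K → VF K → K} (hω : ω ∈ FKM K 1) (i : Fin 3)
    (h0 : actM (D.σ i) ω = ω) (h1 : actM (D.σ (i + 1)) ω = -ω) : ∃ c : ℂ, ω = c • D.α i := by
  obtain ⟨dx, dz, c⟩ := exists_coord (D.tb' i)
  have e0 : D.σ i (ω dx dz) = ω dx dz := by
    rw [← c.actM_dxdz (D.σ i) (D.σ_x _ _) (D.σ_x _ _) ω, h0]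
  have e1 : D.σ (i + 1) (ω dx dz) = -ω dx dz := by
    rw [← c.actM_dxdz (D.σ (i + 1)) (D.σ_x _ _) (D.σ_x _ _) ω, h1]; rfl
  have hA : ω dx dz * D.w i ∈ D.F := by
    refine D.mem_F i ?_ ?_
    · rw [map_mul, e0, D.σ_w_self]
    · rw [map_mul, e1, D.σ_w_of_ne (bf_ne_one i), neg_mul_neg]
  have hsw : ω dz dx = -ω dx dz := by
    rw [c.fkm_apply hω dz dx, c.zx, c.zz, c.xx, c.xz]; ring
  have hA' : -(ω dx dz * D.w i) ∈ D.F := neg_mem hA
  have k1 : dx (ω dx dz * D.w i) = 0 :=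
    two_form_const c (D.quartic (i + 1)) (D.f_ne (i + 2)) (D.hw i) (D.hasEmb i) (m := 1)
      (fun _ => rfl) (by rw [D.F_eq i]; exact hA) hω (by rw [pow_one])
  have k2 : dz (-(ω dx dz * D.w i)) = 0 :=
    two_form_const c.symm (D.quartic (i + 2)) (D.f_ne (i + 1)) (by rw [D.hw i, mul_comm])
      (D.hasEmb' i) (m := 1) (fun _ => rfl) (by rw [D.F_eq' i]; exact hA') hω
      (by rw [pow_one, hsw, neg_mul])
  rw [map_neg, neg_eq_zero] at k2
  obtain ⟨a, ha⟩ := c.mem_const k1 k2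
  refine ⟨a, c.fkm_ext hω (Submodule.smul_mem _ a (D.α_mem i)) ?_⟩
  change ω dx dz = a • D.α i dx dz
  simp only [α]
  rw [c.xx, c.zz, c.xz, c.zx, Algebra.smul_def, ha, mul_assoc, mul_one, zero_mul, sub_zero,
    mul_one, mul_inv_cancel₀ (D.w_ne i), mul_one]

/-- **An invariant `2`-form of the first kind is `0`** (`two_form_zero` with `r = 0`) -/
theorem inv_two {ω : VF K → VF K → K} (hω : ω ∈ FKM K 1)
    (h : ∀ i, actM (D.σ i) ω = ω) : ω = 0 := by
  obtain ⟨dx, dz, c⟩ := exists_coord (D.tb' 0)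
  have e : ∀ i, D.σ i (ω dx dz) = ω dx dz := fun i => by
    rw [← c.actM_dxdz (D.σ i) (D.σ_x _ _) (D.σ_x _ _) ω, h]
  have hA : ω dx dz ∈ D.F := D.mem_F 0 (e _) (e _)
  have k1 : ω dx dz = 0 :=
    two_form_zero c (D.quartic _) (D.f_ne _) (D.hw 0) (D.hasEmb 0) (r := 0)
      (fun _ => rfl) (by rw [D.F_eq 0]; exact hA) hω (by rw [pow_zero, mul_one])
  exact c.fkm_ext hω (Submodule.zero_mem _) k1

/-- **A `1`-form of the first kind in the `w i`-eigenspace is `0`** (`one_form_zero1` in both directions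
`x (i+1)`, `x (i+2)`) -/
theorem eigen_one {ω : VF K → K} (hω : ω ∈ FK1 K) (i : Fin 3)
    (h0 : act1 (D.σ i) ω = ω) (h1 : act1 (D.σ (i + 1)) ω = -ω) : ω = 0 := by
  obtain ⟨dx, dz, c⟩ := exists_coord (D.tb' i)
  have a0 := c.act1_dx (D.σ i) (D.σ_x _ _) (D.σ_x _ _) ω
  have a1 := c.act1_dx (D.σ (i + 1)) (D.σ_x _ _) (D.σ_x _ _) ω
  rw [h0] at a0
  rw [h1] at a1
  have hA : ω dx * D.w i ∈ D.F := by
    refine D.mem_F i ?_ ?_
    · rw [map_mul, ← a0.1, D.σ_w_self]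
    · rw [map_mul, ← a1.1, D.σ_w_of_ne (bf_ne_one i), Pi.neg_apply, neg_mul_neg]
  have hC : ω dz * D.w i ∈ D.F := by
    refine D.mem_F i ?_ ?_
    · rw [map_mul, ← a0.2, D.σ_w_self]
    · rw [map_mul, ← a1.2, D.σ_w_of_ne (bf_ne_one i), Pi.neg_apply, neg_mul_neg]
  have k1 : ω dz = 0 :=
    one_form_zero1 c (D.quartic (i + 1)) (D.f_ne (i + 2)) (D.hw i) (D.hasEmb i) hω
      (by rw [D.F_eq i]; exact hA) (by rw [D.F_eq i]; exact hC)
  have k2 : ω dx = 0 :=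
    one_form_zero1 c.symm (D.quartic (i + 2)) (D.f_ne (i + 1)) (by rw [D.hw i, mul_comm])
      (D.hasEmb' i) hω (by rw [D.F_eq' i]; exact hC) (by rw [D.F_eq' i]; exact hA)
  exact c.fk1_eq_zero hω k2 k1

/-- **An invariant `1`-form of the first kind is `0`** (`one_form_zero0` in both directions) -/
theorem inv_one {ω : VF K → K} (hω : ω ∈ FK1 K)
    (h : ∀ i, act1 (D.σ i) ω = ω) : ω = 0 := by
  obtain ⟨dx, dz, c⟩ := exists_coord (D.tb' 0)
  have e : ∀ i, ω dx = D.σ i (ω dx) ∧ ω dz = D.σ i (ω dz) := fun i => by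
    have := c.act1_dx (D.σ i) (D.σ_x _ _) (D.σ_x _ _) ω
    rwa [h] at this
  have hA : ω dx ∈ D.F := D.mem_F 0 (e _).1.symm (e _).1.symm
  have hC : ω dz ∈ D.F := D.mem_F 0 (e _).2.symm (e _).2.symm
  have k1 : ω dx = 0 :=
    one_form_zero0 c (D.hasEmb 0) hω (by rw [D.F_eq 0]; exact hA)
  have k2 : ω dz = 0 :=
    one_form_zero0 c.symm (D.hasEmb' 0) hω (by rw [D.F_eq' 0]; exact hC)
  exact c.fk1_eq_zero hω k1 k2

theorem bf_m01 : D.σ 0 * D.σ 1 = D.σ 2 := D.σ_mul 2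
theorem bf_m12 : D.σ 1 * D.σ 2 = D.σ 0 := D.σ_mul 0
theorem bf_m20 : D.σ 2 * D.σ 0 = D.σ 1 := D.σ_mul 1
theorem bf_m10 : D.σ 1 * D.σ 0 = D.σ 2 := by rw [D.σ_comm, D.bf_m01]
theorem bf_m21 : D.σ 2 * D.σ 1 = D.σ 0 := by rw [D.σ_comm, D.bf_m12]
theorem bf_m02 : D.σ 0 * D.σ 2 = D.σ 1 := by rw [D.σ_comm, D.bf_m20]

/-- every 2-form of the first kind is a combination of the `α i`:
`4 ω = (ω + Σ σᵢ ω) + Σᵢ (ω + σᵢ ω - σ_{i+1} ω - σ_{i+2} ω)` and the pieces are in the eigenspaces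
(`σ_{i+1} σ_{i+2} = σ_i`) -/
theorem exists_comb {ω : VF K → VF K → K} (hω : ω ∈ FKM K 1) :
    ∃ c : Fin 3 → ℂ, ω = ∑ i, c i • D.α i := by
  have m0 : bfActL (D.σ 0) ω ∈ FKM K 1 := actM_mem _ hω
  have m1 : bfActL (D.σ 1) ω ∈ FKM K 1 := actM_mem _ hω
  have m2 : bfActL (D.σ 2) ω ∈ FKM K 1 := actM_mem _ hω
  -- the invariant part
  have hA : ω + bfActL (D.σ 0) ω + bfActL (D.σ 1) ω + bfActL (D.σ 2) ω = 0 := by
    refine D.inv_two (add_mem (add_mem (add_mem hω m0) m1) m2) fun i => ?_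
    fin_cases i
    · change bfActL (D.σ 0) _ = _
      simp only [map_add, bf_actM_mul, D.σ_mul_self, D.bf_m01, D.bf_m02, bf_actM_one]
      abel
    · change bfActL (D.σ 1) _ = _
      simp only [map_add, bf_actM_mul, D.σ_mul_self, D.bf_m10, D.bf_m12, bf_actM_one]
      abel
    · change bfActL (D.σ 2) _ = _
      simp only [map_add, bf_actM_mul, D.σ_mul_self, D.bf_m20, D.bf_m21, bf_actM_one]
      abel
  obtain ⟨c0, h0⟩ : ∃ c : ℂ, ω + bfActL (D.σ 0) ω - bfActL (D.σ 1) ω - bfActL (D.σ 2) ω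
      = c • D.α 0 := by
    refine D.eigen_two (sub_mem (sub_mem (add_mem hω m0) m1) m2) 0 ?_ ?_
    · change bfActL (D.σ 0) _ = _
      simp only [map_add, map_sub, bf_actM_mul, D.σ_mul_self, D.bf_m01, D.bf_m02, bf_actM_one]
      abel
    · change bfActL (D.σ 1) _ = _
      simp only [map_add, map_sub, bf_actM_mul, D.σ_mul_self, D.bf_m10, D.bf_m12, bf_actM_one]
      abel
  obtain ⟨c1, h1⟩ : ∃ c : ℂ, ω - bfActL (D.σ 0) ω + bfActL (D.σ 1) ω - bfActL (D.σ 2) ω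
      = c • D.α 1 := by
    refine D.eigen_two (sub_mem (add_mem (sub_mem hω m0) m1) m2) 1 ?_ ?_
    · change bfActL (D.σ 1) _ = _
      simp only [map_add, map_sub, bf_actM_mul, D.σ_mul_self, D.bf_m10, D.bf_m12, bf_actM_one]
      abel
    · change bfActL (D.σ 2) _ = _
      simp only [map_add, map_sub, bf_actM_mul, D.σ_mul_self, D.bf_m20, D.bf_m21, bf_actM_one]
      abel
  obtain ⟨c2, h2⟩ : ∃ c : ℂ, ω - bfActL (D.σ 0) ω - bfActL (D.σ 1) ω + bfActL (D.σ 2) ω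
      = c • D.α 2 := by
    refine D.eigen_two (add_mem (sub_mem (sub_mem hω m0) m1) m2) 2 ?_ ?_
    · change bfActL (D.σ 2) _ = _
      simp only [map_add, map_sub, bf_actM_mul, D.σ_mul_self, D.bf_m20, D.bf_m21, bf_actM_one]
      abel
    · change bfActL (D.σ 0) _ = _
      simp only [map_add, map_sub, bf_actM_mul, D.σ_mul_self, D.bf_m01, D.bf_m02, bf_actM_one]
      abel
  refine ⟨![c0 / 4, c1 / 4, c2 / 4], ?_⟩
  have h4 : (4 : ℂ) • ω = c0 • D.α 0 + c1 • D.α 1 + c2 • D.α 2 := by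
    rw [← h0, ← h1, ← h2]
    have e : (4 : ℂ) • ω = (ω + bfActL (D.σ 0) ω + bfActL (D.σ 1) ω + bfActL (D.σ 2) ω) +
      (ω + bfActL (D.σ 0) ω - bfActL (D.σ 1) ω - bfActL (D.σ 2) ω) +
      (ω - bfActL (D.σ 0) ω + bfActL (D.σ 1) ω - bfActL (D.σ 2) ω) +
      (ω - bfActL (D.σ 0) ω - bfActL (D.σ 1) ω + bfActL (D.σ 2) ω) := by module
    rw [e, hA]
    abel
  have h5 : ω = (4 : ℂ)⁻¹ • ((4 : ℂ) • ω) := by
    rw [smul_smul, inv_mul_cancel₀ (by norm_num), one_smul]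
  rw [Fin.sum_univ_three]
  rw [h5, h4]
  simp only [Matrix.cons_val_zero, Matrix.cons_val_one, Matrix.cons_val]
  module

include D in
/-- **irregularity 0** -/
theorem fk1_eq_bot : FK1 K = ⊥ := by
  rw [Submodule.eq_bot_iff]
  intro ω hω
  have m0 : bfActL1 (D.σ 0) ω ∈ FK1 K := act1_mem _ hω
  have m1 : bfActL1 (D.σ 1) ω ∈ FK1 K := act1_mem _ hω
  have m2 : bfActL1 (D.σ 2) ω ∈ FK1 K := act1_mem _ hω
  -- the invariant part
  have hA : ω + bfActL1 (D.σ 0) ω + bfActL1 (D.σ 1) ω + bfActL1 (D.σ 2) ω = 0 := by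
    refine D.inv_one (add_mem (add_mem (add_mem hω m0) m1) m2) fun i => ?_
    fin_cases i
    · change bfActL1 (D.σ 0) _ = _
      simp only [map_add, bf_act1_mul, D.σ_mul_self, D.bf_m01, D.bf_m02, bf_act1_one]
      abel
    · change bfActL1 (D.σ 1) _ = _
      simp only [map_add, bf_act1_mul, D.σ_mul_self, D.bf_m10, D.bf_m12, bf_act1_one]
      abel
    · change bfActL1 (D.σ 2) _ = _
      simp only [map_add, bf_act1_mul, D.σ_mul_self, D.bf_m20, D.bf_m21, bf_act1_one]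
      abel
  have h0 : ω + bfActL1 (D.σ 0) ω - bfActL1 (D.σ 1) ω - bfActL1 (D.σ 2) ω = 0 := by
    refine D.eigen_one (sub_mem (sub_mem (add_mem hω m0) m1) m2) 0 ?_ ?_
    · change bfActL1 (D.σ 0) _ = _
      simp only [map_add, map_sub, bf_act1_mul, D.σ_mul_self, D.bf_m01, D.bf_m02, bf_act1_one]
      abel
    · change bfActL1 (D.σ 1) _ = _
      simp only [map_add, map_sub, bf_act1_mul, D.σ_mul_self, D.bf_m10, D.bf_m12, bf_act1_one]
      abel
  have h1 : ω - bfActL1 (D.σ 0) ω + bfActL1 (D.σ 1) ω - bfActL1 (D.σ 2) ω = 0 := by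
    refine D.eigen_one (sub_mem (add_mem (sub_mem hω m0) m1) m2) 1 ?_ ?_
    · change bfActL1 (D.σ 1) _ = _
      simp only [map_add, map_sub, bf_act1_mul, D.σ_mul_self, D.bf_m10, D.bf_m12, bf_act1_one]
      abel
    · change bfActL1 (D.σ 2) _ = _
      simp only [map_add, map_sub, bf_act1_mul, D.σ_mul_self, D.bf_m20, D.bf_m21, bf_act1_one]
      abel
  have h2 : ω - bfActL1 (D.σ 0) ω - bfActL1 (D.σ 1) ω + bfActL1 (D.σ 2) ω = 0 := by
    refine D.eigen_one (add_mem (sub_mem (sub_mem hω m0) m1) m2) 2 ?_ ?_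
    · change bfActL1 (D.σ 2) _ = _
      simp only [map_add, map_sub, bf_act1_mul, D.σ_mul_self, D.bf_m20, D.bf_m21, bf_act1_one]
      abel
    · change bfActL1 (D.σ 0) _ = _
      simp only [map_add, map_sub, bf_act1_mul, D.σ_mul_self, D.bf_m01, D.bf_m02, bf_act1_one]
      abel
  have e : (4 : ℂ) • ω = (ω + bfActL1 (D.σ 0) ω + bfActL1 (D.σ 1) ω + bfActL1 (D.σ 2) ω) +
      (ω + bfActL1 (D.σ 0) ω - bfActL1 (D.σ 1) ω - bfActL1 (D.σ 2) ω) +
      (ω - bfActL1 (D.σ 0) ω + bfActL1 (D.σ 1) ω - bfActL1 (D.σ 2) ω) +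
      (ω - bfActL1 (D.σ 0) ω - bfActL1 (D.σ 1) ω + bfActL1 (D.σ 2) ω) := by module
  rw [hA, h0, h1, h2, add_zero, add_zero, add_zero] at e
  exact (smul_eq_zero.1 e).resolve_left (by norm_num)

theorem bf_α_ne (i : Fin 3) : D.α i ≠ 0 := by
  intro h
  obtain ⟨dx, dz, c⟩ := exists_coord (D.tb' i)
  have e : D.α i dx dz = 0 := by rw [h]; rfl
  simp only [α] at e
  rw [c.xx, c.zz, c.xz, c.zx, zero_mul, sub_zero, mul_one, mul_one] at e
  exact inv_ne_zero (D.w_ne i) e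

theorem bf_act_self (i : Fin 3) : bfActL (D.σ i) (D.α i) = D.α i := D.actM_α_self i
theorem bf_act_of_ne {i j : Fin 3} (h : i ≠ j) : bfActL (D.σ i) (D.α j) = -D.α j :=
  D.actM_α_of_ne h

/-- adding the image under `σ i` isolates the `i`-th coefficient -/
theorem bf_add_act (g : Fin 3 → ℂ) (i : Fin 3) :
    (∑ j, g j • D.α j) + bfActL (D.σ i) (∑ j, g j • D.α j) = (2 * g i) • D.α i := by
  have n01 : (0 : Fin 3) ≠ 1 := by decide
  have n02 : (0 : Fin 3) ≠ 2 := by decide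
  have n12 : (1 : Fin 3) ≠ 2 := by decide
  rw [Fin.sum_univ_three]
  fin_cases i
  · change _ + bfActL (D.σ 0) _ = (2 * g 0) • D.α 0
    simp only [map_add, map_smul, D.bf_act_self, D.bf_act_of_ne n01, D.bf_act_of_ne n02]
    module
  · change _ + bfActL (D.σ 1) _ = (2 * g 1) • D.α 1
    simp only [map_add, map_smul, D.bf_act_self, D.bf_act_of_ne n01.symm, D.bf_act_of_ne n12]
    module
  · change _ + bfActL (D.σ 2) _ = (2 * g 2) • D.α 2
    simp only [map_add, map_smul, D.bf_act_self, D.bf_act_of_ne n02.symm,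
      D.bf_act_of_ne n12.symm]
    module

/-- the `α i` are linearly independent (apply `σ`'s; `α i ≠ 0` as its value on the dual vector fields of
`x (i+1), x (i+2)` is `(w i)⁻¹`) -/
theorem α_linInd : LinearIndependent ℂ D.α := by
  rw [Fintype.linearIndependent_iff]
  intro g hg i
  have h := D.bf_add_act g i
  rw [hg, map_zero, add_zero] at h
  rcases smul_eq_zero.1 h.symm with h | h
  · simpa using h
  · exact absurd h (D.bf_α_ne i)

theorem bf_span : FKM K 1 = Submodule.span ℂ (Set.range D.α) := by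
  refine le_antisymm ?_ ?_
  · intro ω hω
    obtain ⟨c, rfl⟩ := D.exists_comb hω
    exact Submodule.sum_mem _ fun i _ =>
      Submodule.smul_mem _ _ (Submodule.subset_span ⟨i, rfl⟩)
  · rw [Submodule.span_le]
    rintro _ ⟨i, rfl⟩
    exact D.α_mem i

include D in
/-- **geometric genus 3** -/
theorem finrank_fkm_one : Module.finrank ℂ (FKM K 1) = 3 := by
  rw [D.bf_span, finrank_span_eq_card D.α_linInd, Fintype.card_fin]

/-- the generators of the invariant subspaces -/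
def bfB (i : Fin 3) : FKM K 1 := ⟨D.α i, D.α_mem i⟩

theorem bf_B_linInd : LinearIndependent ℂ D.bfB :=
  LinearIndependent.of_comp (FKM K 1).subtype D.α_linInd

theorem bf_inv_eq (i : Fin 3) : Inv (D.σ i) = Submodule.span ℂ {D.bfB i} := by
  refine le_antisymm ?_ ?_
  · rintro ⟨ω, hω⟩ h
    obtain ⟨g, hg⟩ := D.exists_comb hω
    have h' : bfActL (D.σ i) ω = ω := h
    have e := D.bf_add_act g i
    rw [← hg, h'] at e
    rw [Submodule.mem_span_singleton]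
    refine ⟨g i, Subtype.ext ?_⟩
    change g i • D.α i = ω
    have e2 : (2 : ℂ) • (g i • D.α i) = (2 : ℂ) • ω := by
      rw [smul_smul, ← e, two_smul]
    exact smul_right_injective _ (two_ne_zero : (2 : ℂ) ≠ 0) e2
  · rw [Submodule.span_singleton_le_iff_mem]
    exact D.actM_α_self i

/-- **`H⁰(ω)` is the direct sum of the three invariant subspaces** -/
theorem isInternal : DirectSum.IsInternal (fun i => Inv (D.σ i)) := by
  have e : (fun i => Inv (D.σ i)) = fun i => Submodule.span ℂ {D.bfB i} :=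
    funext D.bf_inv_eq
  rw [e]
  refine DirectSum.isInternal_submodule_of_iSupIndep_of_iSup_eq_top
    D.bf_B_linInd.iSupIndep_span_singleton ?_
  rw [← Submodule.span_range_eq_iSup, eq_top_iff]
  rintro ⟨ω, hω⟩ -
  obtain ⟨g, hg⟩ := D.exists_comb hω
  have : (⟨ω, hω⟩ : FKM K 1) = ∑ i, g i • D.bfB i := by
    refine Subtype.ext ?_
    rw [Submodule.coe_sum]
    exact hg
  rw [this]
  exact Submodule.sum_mem _ fun i _ =>
    Submodule.smul_mem _ _ (Submodule.subset_span ⟨i, rfl⟩)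

end BurgerData

end Pool.Agent.K3G
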