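import Mathlib

/-!
# Forms of the first kind on a function field (statement file)

`K` is a field extension of `ℂ`.  Vector fields are the `ℂ`-derivations of `K`; a `1`-form is a function of a
vector field, a `2`-form (more generally an `m`-canonical form) is a function of two vector fields.
The form `∑ cᵢ daᵢ` is `X ↦ ∑ cᵢ X(aᵢ)`; the `m`-canonical form `∑ cᵢ ∏ⱼ daᵢⱼ ∧ dbᵢⱼ` is
`(X, Y) ↦ ∑ cᵢ ∏ⱼ (X(aᵢⱼ) Y(bᵢⱼ) - X(bᵢⱼ) Y(aᵢⱼ))`.  It is *regular* at a valuation ring `O ⊇ ℂ` of `K` if the
`cᵢ, aᵢⱼ, bᵢⱼ` can be chosen in `O`, and it is of the *first kind* if it is regular at every valuation ring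
of `K` which contains `ℂ`.  For a smooth projective model `S` of `K` the forms of the first kind are the
global sections of `Ω^1_S`, resp. of `ω_S^{⊗ m}`.
-/

set_option autoImplicit false

noncomputable section
namespace Pool.Agent.K3G.FormDef

universe u

section
variable (K : Type u) [Field K] [Algebra ℂ K]

/-- vector fields: the `ℂ`-derivations of `K` -/
def Vec : Type u := Derivation ℂ K K

variable {K}

/-- the derivative `X(a)` of a function `a` along the vector field `X` -/
def ap (X : Vec K) (a : K) : K := (show Derivation ℂ K K from X) a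

/-- the constants of `K` -/
def cst (K : Type u) [Field K] [Algebra ℂ K] (c : ℂ) : K := algebraMap ℂ K c

/-- `ω` is a `1`-form regular at `O` -/
def IsReg1 (O : ValuationSubring K) (ω : Vec K → K) : Prop :=
  ∃ (n : ℕ) (c a : Fin n → K), (∀ i, c i ∈ O ∧ a i ∈ O) ∧ ∀ X, ω X = ∑ i, c i * ap X (a i)

/-- `ω` is an `m`-canonical form regular at `O` -/
def IsReg (O : ValuationSubring K) (m : ℕ) (ω : Vec K → Vec K → K) : Prop :=
  ∃ (n : ℕ) (c : Fin n → K) (a b : Fin n → Fin m → K), (∀ i, c i ∈ O ∧ ∀ j, a i j ∈ O ∧ b i j ∈ O) ∧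
    ∀ X Y, ω X Y = ∑ i, c i * ∏ j, (ap X (a i j) * ap Y (b i j) - ap X (b i j) * ap Y (a i j))

/-- `ω` is a `1`-form of the first kind -/
def FirstKind1 (ω : Vec K → K) : Prop := ∀ O : ValuationSubring K, (∀ c, cst K c ∈ O) → IsReg1 O ω

/-- `ω` is an `m`-canonical form of the first kind -/
def FirstKind (m : ℕ) (ω : Vec K → Vec K → K) : Prop :=
  ∀ O : ValuationSubring K, (∀ c, cst K c ∈ O) → IsReg O m ω

variable (K)

/-- `K / ℂ` is finitely generated of transcendence degree `2`, and every `1`-form of the first kind is zero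
(irregularity `q = 0`) -/
structure IsRegularSurface : Prop where
  fg : (⊤ : IntermediateField ℂ K).FG
  trdeg : Algebra.trdeg ℂ K = 2
  q : ∀ ω : Vec K → K, FirstKind1 ω → ∀ X, ω X = 0

/-- the `m`-th plurigenus is `n`: the space of `m`-canonical forms of the first kind has a basis with `n` elements -/
def HasPlurigenus (m n : ℕ) : Prop :=
  ∃ ω : Fin n → Vec K → Vec K → K, (∀ i, FirstKind m (ω i)) ∧
    ∀ η, FirstKind m η → ∃! c : Fin n → ℂ, ∀ X Y, η X Y = ∑ i, cst K (c i) * ω i X Y

/-- the `m`-th plurigenus is at least `n`: there are `n` linearly independent `m`-canonical forms of the first kind -/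
def PlurigenusGE (m n : ℕ) : Prop :=
  ∃ ω : Fin n → Vec K → Vec K → K, (∀ i, FirstKind m (ω i)) ∧
    ∀ c : Fin n → ℂ, (∀ X Y, ∑ i, cst K (c i) * ω i X Y = 0) → ∀ i, c i = 0

/-- `K` is of general type: the plurigenera grow like `m ^ 2` -/
def GeneralType : Prop :=
  ∃ c : ℝ, 0 < c ∧ ∀ m : ℕ, 1 ≤ m → ∃ n : ℕ, c * (m : ℝ) ^ 2 ≤ n ∧ PlurigenusGE K m n

/-- `K` is the function field of a K3 surface: irregularity `0` and all plurigenera `1`
(equivalent by the classification of surfaces) -/
def IsK3Field : Prop := IsRegularSurface K ∧ ∀ m : ℕ, 1 ≤ m → HasPlurigenus K m 1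

variable {K}

/-- `σ` is an automorphism of order `2` of `K / ℂ` -/
structure IsInvolution (σ : K → K) : Prop where
  add : ∀ a b, σ (a + b) = σ a + σ b
  mul : ∀ a b, σ (a * b) = σ a * σ b
  const : ∀ c, σ (cst K c) = cst K c
  sq : ∀ a, σ (σ a) = a
  ne : ∃ a, σ a ≠ a

/-- the `2`-form `ω` is `σ`-invariant (the vector fields `X`, `X'` with `X' ∘ σ = σ ∘ X` correspond to each other) -/
def Invariant (σ : K → K) (ω : Vec K → Vec K → K) : Prop :=
  ∀ X X' Y Y' : Vec K, (∀ a, ap X' (σ a) = σ (ap X a)) → (∀ a, ap Y' (σ a) = σ (ap Y a)) →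
    ω X' Y' = σ (ω X Y)

/-- the field of `σ`-invariant elements is the function field of a K3 surface -/
def HasK3Quotient (σ : K → K) : Prop :=
  ∃ (L : Type u) (_ : Field L) (_ : Algebra ℂ L) (f : L →ₐ[ℂ] K),
    (∀ a, σ a = a ↔ ∃ l, f l = a) ∧ IsK3Field L

/-- every `2`-form of the first kind is in a unique way a sum `w 0 + w 1 + w 2` of forms of the first kind, `w i`
invariant under `σ i` -/
def Splits (σ : Fin 3 → K → K) : Prop :=
  ∀ ω : Vec K → Vec K → K, FirstKind 1 ω → ∃! w : Fin 3 → Vec K → Vec K → K,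
    (∀ i, FirstKind 1 (w i) ∧ Invariant (σ i) (w i)) ∧ ∀ X Y, ω X Y = ∑ i, w i X Y

/-- `K` with the automorphisms `σ 0, σ 1, σ 2` is the function field of a triple K3 burger: a surface `S` of
general type with `q = 0`, `p_g = 3` and pairwise commuting involutions whose quotients are birational to K3
surfaces, such that `H⁰(S, ω_S)` is the direct sum of the three subspaces of `σⱼ`-invariant forms (equivalently, by
duality, `⊕ H²(S/σⱼ, 𝒪) → H²(S, 𝒪)` is bijective). -/
structure IsBurgerField (σ : Fin 3 → K → K) : Prop where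
  surface : IsRegularSurface K
  pg : HasPlurigenus K 1 3
  gt : GeneralType K
  inv : ∀ i, IsInvolution (σ i)
  comm : ∀ i j a, σ i (σ j a) = σ j (σ i a)
  k3 : ∀ i, HasK3Quotient (σ i)
  splits : Splits σ

end

end Pool.Agent.K3G.FormDef
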