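import Pool.Agent.K3G.Defs
import Pool.Agent.K3G.FormDef

/-!
# The two formulations of the forms of the first kind agree
-/

set_option autoImplicit false

noncomputable section
namespace Pool.Agent.K3G.FormBridge

open Pool.Agent.K3G

universe u

section
variable {K : Type u} [Field K] [Algebra ℂ K]

theorem ap_eq (X : VF K) (a : K) : FormDef.ap (K := K) X a = X a := rfl

theorem isReg1_iff {O : ValuationSubring K} {ω : VF K → K} :
    FormDef.IsReg1 (K := K) O ω ↔ ω ∈ Reg1 O := by
  constructor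
  · rintro ⟨n, c, a, h, hω⟩
    have : ω = ∑ i, (fun X : VF K => c i * X (a i)) := by
      funext X
      rw [Finset.sum_apply]
      exact hω X
    rw [this]
    exact sum_mem fun i _ => AddSubgroup.subset_closure ⟨c i, (h i).1, a i, (h i).2, rfl⟩
  · intro h
    induction h using AddSubgroup.closure_induction with
    | mem ω h =>
      obtain ⟨c, hc, a, ha, rfl⟩ := h
      refine ⟨1, fun _ => c, fun _ => a, fun _ => ⟨hc, ha⟩, fun X => ?_⟩
      rw [Fin.sum_univ_one]
      rfl
    | zero =>
      refine ⟨0, fun _ => 0, fun _ => 0, fun i => i.elim0, fun X => ?_⟩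
      rw [Fin.sum_univ_zero]
      rfl
    | add x y _ _ hx hy =>
      obtain ⟨n, c, a, h, hω⟩ := hx
      obtain ⟨n', c', a', h', hω'⟩ := hy
      refine ⟨n + n', Fin.append c c', Fin.append a a', fun i => ?_, fun X => ?_⟩
      · refine Fin.addCases (fun i => ?_) (fun i => ?_) i
        · rw [Fin.append_left, Fin.append_left]; exact h i
        · rw [Fin.append_right, Fin.append_right]; exact h' i
      · rw [Fin.sum_univ_add]
        simp only [Fin.append_left, Fin.append_right]
        exact congrArg₂ (· + ·) (hω X) (hω' X)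
    | neg x _ hx =>
      obtain ⟨n, c, a, h, hω⟩ := hx
      refine ⟨n, fun i => -c i, a, fun i => ⟨O.neg_mem _ (h i).1, (h i).2⟩, fun X => ?_⟩
      simp only [neg_mul, Finset.sum_neg_distrib]
      exact congrArg Neg.neg (hω X)

theorem isReg_iff {O : ValuationSubring K} {m : ℕ} {ω : VF K → VF K → K} :
    FormDef.IsReg (K := K) O m ω ↔ ω ∈ RegM O m := by
  constructor
  · rintro ⟨n, c, a, b, h, hω⟩
    have : ω = ∑ i, (fun X Y : VF K => c i * ∏ j, (X (a i j) * Y (b i j) - X (b i j) * Y (a i j))) := by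
      funext X Y
      rw [Finset.sum_apply, Finset.sum_apply]
      exact hω X Y
    rw [this]
    exact sum_mem fun i _ => AddSubgroup.subset_closure
      ⟨c i, (h i).1, a i, b i, fun j => ((h i).2 j).1, fun j => ((h i).2 j).2, rfl⟩
  · intro h
    induction h using AddSubgroup.closure_induction with
    | mem ω h =>
      obtain ⟨c, hc, a, b, ha, hb, rfl⟩ := h
      refine ⟨1, fun _ => c, fun _ => a, fun _ => b, fun _ => ⟨hc, fun j => ⟨ha j, hb j⟩⟩, fun X Y => ?_⟩
      rw [Fin.sum_univ_one]
      rfl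
    | zero =>
      refine ⟨0, fun _ => 0, fun _ => 0, fun _ => 0, fun i => i.elim0, fun X Y => ?_⟩
      rw [Fin.sum_univ_zero]
      rfl
    | add x y _ _ hx hy =>
      obtain ⟨n, c, a, b, h, hω⟩ := hx
      obtain ⟨n', c', a', b', h', hω'⟩ := hy
      refine ⟨n + n', Fin.append c c', Fin.append a a', Fin.append b b', fun i => ?_, fun X Y => ?_⟩
      · refine Fin.addCases (fun i => ?_) (fun i => ?_) i
        · rw [Fin.append_left, Fin.append_left, Fin.append_left]; exact h i
        · rw [Fin.append_right, Fin.append_right, Fin.append_right]; exact h' i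
      · rw [Fin.sum_univ_add]
        simp only [Fin.append_left, Fin.append_right]
        exact congrArg₂ (· + ·) (hω X Y) (hω' X Y)
    | neg x _ hx =>
      obtain ⟨n, c, a, b, h, hω⟩ := hx
      refine ⟨n, fun i => -c i, a, b, fun i => ⟨O.neg_mem _ (h i).1, (h i).2⟩, fun X Y => ?_⟩
      simp only [neg_mul, Finset.sum_neg_distrib]
      exact congrArg Neg.neg (hω X Y)

theorem firstKind1_iff {ω : VF K → K} : FormDef.FirstKind1 (K := K) ω ↔ ω ∈ FK1 K :=
  ⟨fun h O hO => isReg1_iff.1 (h O hO), fun h O hO => isReg1_iff.2 (h O hO)⟩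

theorem firstKind_iff {m : ℕ} {ω : VF K → VF K → K} :
    FormDef.FirstKind (K := K) m ω ↔ ω ∈ FKM K m :=
  ⟨fun h O hO => isReg_iff.1 (h O hO), fun h O hO => isReg_iff.2 (h O hO)⟩

theorem coe_sum_apply {m n : ℕ} (v : Fin n → FKM K m) (c : Fin n → ℂ) (X Y : VF K) :
    ((∑ i, c i • v i : FKM K m) : VF K → VF K → K) X Y = ∑ i, FormDef.cst K (c i) * (v i).1 X Y := by
  rw [AddSubmonoidClass.coe_finset_sum, Finset.sum_apply, Finset.sum_apply]
  refine Finset.sum_congr rfl fun i _ => ?_
  change c i • (v i).1 X Y = _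
  rw [Algebra.smul_def]
  rfl

theorem hasPlurigenus_of {m n : ℕ} (hn : n ≠ 0) (h : Module.finrank ℂ (FKM K m) = n) :
    FormDef.HasPlurigenus K m n := by
  haveI : Module.Finite ℂ (FKM K m) := Module.finite_of_finrank_pos (by omega)
  let B := Module.finBasisOfFinrankEq ℂ (FKM K m) h
  refine ⟨fun i => (B i).1, fun i => firstKind_iff.2 (B i).2, fun η hη => ?_⟩
  let e : FKM K m := ⟨η, firstKind_iff.1 hη⟩
  refine ⟨fun i => B.repr e i, fun X Y => ?_, fun c hc => ?_⟩
  · have h2 := coe_sum_apply B (fun i => B.repr e i) X Y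
    rw [B.sum_repr] at h2
    exact h2
  · have h1 : e = ∑ i, c i • B i := by
      apply Subtype.ext
      funext X Y
      rw [coe_sum_apply]
      exact hc X Y
    funext i
    rw [h1, B.repr_sum_self]

theorem plurigenusGE_of {m n : ℕ} (h : (n : Cardinal) ≤ Module.rank ℂ (FKM K m)) :
    FormDef.PlurigenusGE K m n := by
  obtain ⟨s, hs, hl⟩ := le_rank_iff_exists_linearIndependent_finset.1 h
  let e : Fin n ≃ s := (s.equivFinOfCardEq hs).symm
  have hl' : LinearIndependent ℂ (fun i : Fin n => ((e i : s) : FKM K m)) := hl.comp e e.injective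
  refine ⟨fun i => ((e i : s) : FKM K m).1, fun i => firstKind_iff.2 ((e i : s) : FKM K m).2,
    fun c hc => ?_⟩
  refine Fintype.linearIndependent_iff.1 hl' c ?_
  apply Subtype.ext
  funext X Y
  rw [coe_sum_apply]
  exact hc X Y

theorem isRegularSurface_of (h : IsSurfaceField K) (hq : FK1 K = ⊥) : FormDef.IsRegularSurface K where
  fg := h.fg
  trdeg := h.trdeg
  q ω hω X := by
    have h1 := firstKind1_iff.1 hω
    rw [hq] at h1
    exact congrFun ((Submodule.mem_bot ℂ).1 h1) X

theorem generalType_of (h : GeneralType K) : FormDef.GeneralType K := by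
  obtain ⟨c, hc, h⟩ := h
  refine ⟨c, hc, fun m hm => ?_⟩
  obtain ⟨n, hn, hr⟩ := h m hm
  exact ⟨n, hn, plurigenusGE_of hr⟩

theorem isK3Field_of (h : IsK3Field K) : FormDef.IsK3Field K :=
  ⟨isRegularSurface_of h.toIsSurfaceField h.q, fun m hm => hasPlurigenus_of one_ne_zero (h.P m hm)⟩

theorem isInvolution_of {σ : K ≃ₐ[ℂ] K} (h1 : σ ≠ 1) (h2 : σ * σ = 1) :
    FormDef.IsInvolution (K := K) σ where
  add := map_add σ
  mul := map_mul σ
  const c := σ.commutes c
  sq a := by
    have := DFunLike.congr_fun h2 a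
    simpa using this
  ne := by
    by_contra h
    push Not at h
    exact h1 (AlgEquiv.ext fun a => h a)

theorem invariant_iff {σ : K ≃ₐ[ℂ] K} {ω : VF K → VF K → K} :
    FormDef.Invariant (K := K) σ ω ↔ actM σ ω = ω := by
  constructor
  · intro h
    funext X Y
    exact (h (conj σ.symm X) X (conj σ.symm Y) Y (fun a => by simp [ap_eq]) (fun a => by simp [ap_eq])).symm
  · intro h X X' Y Y' hX hY
    have aux : ∀ Z Z' : VF K, (∀ a, Z' (σ a) = σ (Z a)) → conj σ.symm Z' = Z := by
      intro Z Z' hZ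
      apply Derivation.ext
      intro a
      rw [conj_apply]
      change σ.symm (Z' (σ a)) = Z a
      rw [hZ a, AlgEquiv.symm_apply_apply]
    have e1 := aux X X' hX
    have e2 := aux Y Y' hY
    have := congrFun (congrFun h X') Y'
    rw [← this]
    simp only [actM]
    rw [e1, e2]

theorem hasK3Quotient_of {σ : K ≃ₐ[ℂ] K}
    (h : IsK3Field (IntermediateField.fixedField (Subgroup.zpowers σ) : IntermediateField ℂ K)) :
    FormDef.HasK3Quotient (K := K) σ := by
  refine ⟨(IntermediateField.fixedField (Subgroup.zpowers σ) : IntermediateField ℂ K), inferInstance,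
    inferInstance, IntermediateField.val _, fun a => ?_, isK3Field_of h⟩
  constructor
  · intro ha
    refine ⟨⟨a, ?_⟩, rfl⟩
    rw [IntermediateField.mem_fixedField_iff]
    intro g hg
    obtain ⟨k, rfl⟩ := Subgroup.mem_zpowers_iff.1 hg
    have key : ∀ k : ℤ, σ ^ k ∈ MulAction.stabilizer (K ≃ₐ[ℂ] K) a := fun k =>
      zpow_mem (MulAction.mem_stabilizer_iff.2 ha) k
    exact MulAction.mem_stabilizer_iff.1 (key k)
  · rintro ⟨l, rfl⟩
    have := l.2
    rw [IntermediateField.mem_fixedField_iff] at this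
    exact this σ (Subgroup.mem_zpowers σ)

theorem splits_of {σ : Fin 3 → (K ≃ₐ[ℂ] K)} (h : DirectSum.IsInternal (fun i => Inv (σ i))) :
    FormDef.Splits (K := K) (fun i => σ i) := by
  classical
  intro ω hω
  have hval : ∀ (x : DirectSum (Fin 3) (fun i => Inv (σ i))) (X Y : VF K),
      (DirectSum.coeAddMonoidHom (fun i => Inv (σ i)) x).1 X Y = ∑ i, (x i).1.1 X Y := by
    intro x X Y
    rw [DirectSum.coeAddMonoidHom_eq_dfinsuppSum, DFinsupp.sum_eq_sum_fintype _ (fun _ => rfl),
      AddSubmonoidClass.coe_finset_sum, Finset.sum_apply, Finset.sum_apply]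
    rfl
  obtain ⟨x, hx⟩ := h.2 (⟨ω, firstKind_iff.1 hω⟩ : FKM K 1)
  refine ⟨fun i => (x i).1.1, ⟨fun i => ⟨firstKind_iff.2 (x i).1.2, invariant_iff.2 (x i).2⟩,
    fun X Y => ?_⟩, ?_⟩
  · have h2 := hval x X Y
    rw [hx] at h2
    exact h2
  · rintro w ⟨hw, hsum⟩
    let y : DirectSum (Fin 3) (fun i => Inv (σ i)) :=
      DirectSum.mk _ Finset.univ (fun i => ⟨⟨w i.1, firstKind_iff.1 (hw i.1).1⟩, invariant_iff.1 (hw i.1).2⟩)
    have hy : ∀ i, (y i).1.1 = w i := by
      intro i
      rw [DirectSum.mk_apply_of_mem (Finset.mem_univ i)]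
    have hxy : x = y := by
      apply h.1
      rw [hx]
      apply Subtype.ext
      funext X Y
      rw [hval]
      simp only [hy]
      exact hsum X Y
    funext i
    rw [← hy i, hxy]

end

end Pool.Agent.K3G.FormBridge
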