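import Pool.Agent.K3G.Smooth

/-!
# Directional derivatives and the Fréchet derivative

The statements about `S_b` are formulated with directional derivatives (`HasDir`, `HasDirs`, `IsTan`,
`IsSmoothAt`); here they are translated to the Fréchet derivative used in `Smooth.lean`.
-/

set_option autoImplicit false

noncomputable section
namespace Pool.Agent.K3G

open TripleBurger

theorem line_eq (p : Cone) (u : V9) (ε : ℂ) : line p u ε = coord p + ε • u := rfl

theorem hasDir_iff {f : V9 → ℂ} (hf : Differentiable ℂ f) (p : Cone) (u : V9) (c : ℂ) :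
    HasDir f p u c ↔ fderiv ℂ f (coord p) u = c := by
  have h : HasDerivAt (fun ε : ℂ => f (line p u ε)) (fderiv ℂ f (coord p) u) 0 := by
    exact ((hf (coord p)).hasFDerivAt.hasLineDerivAt u : HasLineDerivAt ℂ f _ (coord p) u)
  constructor
  · intro h'
    exact h.unique h'
  · rintro rfl
    exact h

theorem hasDirs_iff (p : Cone) (u : V9) (τ : Fin 3 → ℂ) (ρ : ℂ) :
    HasDirs p u τ ρ ↔ fderiv ℂ (eqs p.b) (coord p) u = (τ, ρ) := by
  have hd := differentiable_eqs p.b
  have h1 : ∀ i, Differentiable ℂ (fun q => eqC p.b q i) := fun i =>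
    (differentiable_pi.mp hd.fst) i
  have h2 : Differentiable ℂ (eqR p.b) := by
    have h3 : Differentiable ℂ (fun q => (eqs p.b q).2) := hd.snd
    exact h3
  have e1 : ∀ i, fderiv ℂ (fun q => eqC p.b q i) (coord p) u = (fderiv ℂ (eqs p.b) (coord p) u).1 i := by
    intro i
    have h3 : HasFDerivAt (eqs p.b) (fderiv ℂ (eqs p.b) (coord p)) (coord p) := (hd _).hasFDerivAt
    have h4 := (hasFDerivAt_pi'.mp h3.fst) i
    exact congrArg (fun L => L u) h4.fderiv
  have e2 : fderiv ℂ (eqR p.b) (coord p) u = (fderiv ℂ (eqs p.b) (coord p) u).2 := by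
    have h3 : HasFDerivAt (eqs p.b) (fderiv ℂ (eqs p.b) (coord p)) (coord p) := (hd _).hasFDerivAt
    exact congrArg (fun L => L u) h3.snd.fderiv
  constructor
  · rintro ⟨h, h'⟩
    refine Prod.ext (funext fun i => ?_) ?_
    · rw [← e1]
      exact (hasDir_iff (h1 i) p u _).mp (h i)
    · rw [← e2]
      exact (hasDir_iff h2 p u _).mp h'
  · intro h
    refine ⟨fun i => (hasDir_iff (h1 i) p u _).mpr ?_, (hasDir_iff h2 p u _).mpr ?_⟩
    · rw [e1, h]
    · rw [e2, h]

theorem isTan_iff {p : Cone} {u : V9} : IsTan p u ↔ u ∈ Tan p := by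
  have h : u ∈ Tan p ↔ fderiv ℂ (eqs p.b) (coord p) u = 0 := by
    rw [Tan, LinearMap.mem_ker]
    rfl
  rw [h]
  exact hasDirs_iff p u _ _

/-- **Smoothness**: the differentials of the four equations are linearly independent at every point. -/
theorem isSmoothAt (p : Cone) : IsSmoothAt p := by
  intro τ ρ
  obtain ⟨u, hu⟩ := smooth p (τ, ρ)
  exact ⟨u, (hasDirs_iff p u τ ρ).mpr hu⟩

end Pool.Agent.K3G
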