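import Pool.Agent.K3G.Burger
import Pool.Agent.K3G.BurgerDef
import Pool.Agent.K3G.FormBridge
import Pool.Agent.K3G.SmoothBridge

/-!
# Every fibre of the family is a triple K3 burger
-/

set_option autoImplicit false

noncomputable section
namespace Pool.Agent.K3G.BurgerDef

open TripleBurger Pool.Agent.K3G Exist

theorem isBurgerField_of {K : Type} [Field K] [Algebra ℂ K] {σ : Fin 3 → (K ≃ₐ[ℂ] K)}
    (h : IsBurgerFieldWith K σ) : FormDef.IsBurgerField (fun i => ((σ i : K ≃ₐ[ℂ] K) : K → K)) where
  surface := FormBridge.isRegularSurface_of h.toIsSurfaceField h.q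
  pg := FormBridge.hasPlurigenus_of (by norm_num) h.pg
  gt := FormBridge.generalType_of h.gt
  inv i := FormBridge.isInvolution_of (h.ne_one i) (h.sq i)
  comm i j a := DFunLike.congr_fun (h.comm i j) a
  k3 i := FormBridge.hasK3Quotient_of (h.k3 i)
  splits := FormBridge.splits_of h.internal

theorem hasBurgerField {b : Param} (hb : b ∈ BaseSet) : HasBurgerField b := by
  obtain ⟨K, _, _, x, w, h⟩ := exists_functionField hb
  obtain ⟨σ, h1, h2⟩ := exists_flips hb h
  refine ⟨K, inferInstance, inferInstance, x, w, fun i => σ i, ⟨?_, fun P => ?_⟩, h1,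
    isBurgerField_of h2⟩
  · rw [Set.Sum.elim_range]
    exact h.gen
  · rw [value, h.zero_iff]
    refine forall_congr' fun p => forall_congr' fun _ => forall_congr' fun _ => ?_
    rw [value, aev]

/-- **Every fibre of the family is a triple K3 burger.** -/
theorem isBurger {b : Param} (hb : b ∈ BaseSet) : IsBurger b where
  field := hasBurgerField hb
  smooth p _ := isSmoothAt p
  free p _ := Pool.Agent.K3G.free p
  canonical := Canon.finiteCanonicalMap b
  noRat := noRationalCurve hb

end Pool.Agent.K3G.BurgerDef
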