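import Mathlib

/-!
# Extension of derivations along algebraic (separable) field extensions

`C ⊆ F ⊆ L` fields, `L / F` algebraic, characteristic zero (or `L / F` separable), `M` an
`L`-vector space.  Every `C`-derivation `F → M` extends uniquely to a `C`-derivation `L → M`.
-/

open TensorProduct

namespace K3G

section

variable {C F L M : Type*} [Field C] [Field F] [Field L] [Algebra C F] [Algebra F L]
  [Algebra C L] [IsScalarTower C F L] [AddCommGroup M] [Module L M] [Module F M] [Module C M]
  [IsScalarTower F L M] [IsScalarTower C L M]

omit [Algebra C F] [IsScalarTower C F L] [IsScalarTower C L M] in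
/-- A `C`-derivation `L → M` which vanishes on `F` is zero, if `L / F` is separable. -/
theorem der_eq_zero_of_separable [Algebra.IsSeparable F L] (D : Derivation C L M)
    (h : ∀ x : F, D (algebraMap F L x) = 0) : D = 0 := by
  have hun : Algebra.FormallyUnramified F L := Algebra.FormallyUnramified.of_isSeparable F L
  have hss : Subsingleton (Ω[L⁄F]) := inferInstance
  let D' : Derivation F L M :=
    { toFun := D
      map_add' := fun x y => map_add D x y
      map_smul' := by
        intro a y
        have h1 : a • y = algebraMap F L a * y := Algebra.smul_def a y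
        rw [RingHom.id_apply, h1, D.leibniz, h a, smul_zero, add_zero, algebraMap_smul]
      map_one_eq_zero' := D.map_one_eq_zero
      leibniz' := fun x y => D.leibniz x y }
  have h0 : D' = 0 := by
    have h1 : D'.liftKaehlerDifferential = 0 := by
      ext x
      have h2 : KaehlerDifferential.D F L x = 0 := Subsingleton.elim _ _
      simp [h2]
    have h3 := D'.liftKaehlerDifferential_comp
    rw [← h3, h1]
    ext x
    simp
  ext x
  have h1 : D' x = 0 := by rw [h0]; rfl
  exact h1

omit [Algebra C F] [IsScalarTower C F L] [IsScalarTower C L M] in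
/-- Two `C`-derivations `L → M` which agree on `F` are equal, if `L / F` is separable. -/
theorem der_ext_of_separable [Algebra.IsSeparable F L] {D₁ D₂ : Derivation C L M}
    (h : ∀ x : F, D₁ (algebraMap F L x) = D₂ (algebraMap F L x)) : D₁ = D₂ := by
  rw [← sub_eq_zero]
  exact der_eq_zero_of_separable (F := F) (D₁ - D₂) (fun x => by
    rw [Derivation.sub_apply, h x, sub_self])

/-- Every `C`-derivation `F → M` extends uniquely to a `C`-derivation `L → M`, if `L / F` is
separable. -/
theorem existsUnique_der_of_separable [Algebra.IsSeparable F L] (d : Derivation C F M) :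
    ∃! D : Derivation C L M, ∀ x : F, D (algebraMap F L x) = d x := by
  have hsc : IsScalarTower C F M := ⟨fun c a m => by
    rw [← algebraMap_smul L (c • a) m, ← algebraMap_smul L a m, ← algebraMap_smul L c
      (algebraMap F L a • m), smul_smul, Algebra.smul_def, map_mul,
      ← IsScalarTower.algebraMap_apply C F L]⟩
  have het : Algebra.FormallyEtale F L := Algebra.FormallyEtale.of_isSeparable F L
  let e := KaehlerDifferential.tensorKaehlerEquivOfFormallyEtale C F L
  let φ : L ⊗[F] Ω[F⁄C] →ₗ[L] M := LinearMap.liftBaseChange L d.liftKaehlerDifferential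
  let ψ : Ω[L⁄C] →ₗ[L] M := φ ∘ₗ e.symm.toLinearMap
  refine ⟨ψ.compDer (KaehlerDifferential.D C L), ?_, ?_⟩
  · intro x
    have h1 : e.symm (KaehlerDifferential.D C L (algebraMap F L x)) =
        1 ⊗ₜ KaehlerDifferential.D C F x :=
      KaehlerDifferential.tensorKaehlerEquivOfFormallyEtale_symm_D_algebraMap C F L x
    change φ (e.symm (KaehlerDifferential.D C L (algebraMap F L x))) = d x
    rw [h1]
    simp [φ]
  · intro D hD
    refine der_ext_of_separable (F := F) ?_
    intro x
    rw [hD x]
    have h1 : e.symm (KaehlerDifferential.D C L (algebraMap F L x)) =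
        1 ⊗ₜ KaehlerDifferential.D C F x :=
      KaehlerDifferential.tensorKaehlerEquivOfFormallyEtale_symm_D_algebraMap C F L x
    change d x = φ (e.symm (KaehlerDifferential.D C L (algebraMap F L x)))
    rw [h1]
    simp [φ]

/-- **Main statement.**  `C ⊆ F ⊆ L` fields of characteristic zero, `L / F` algebraic: every
`C`-derivation `F → M` extends uniquely to a `C`-derivation `L → M`. -/
theorem existsUnique_der [CharZero F] [Algebra.IsAlgebraic F L] (d : Derivation C F M) :
    ∃! D : Derivation C L M, ∀ x : F, D (algebraMap F L x) = d x :=
  existsUnique_der_of_separable d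

/-- Existence part of `existsUnique_der`. -/
theorem exists_der [CharZero F] [Algebra.IsAlgebraic F L] (d : Derivation C F M) :
    ∃ D : Derivation C L M, ∀ x : F, D (algebraMap F L x) = d x :=
  (existsUnique_der d).exists

omit [Algebra C F] [IsScalarTower C F L] [IsScalarTower C L M] in
/-- Uniqueness part of `existsUnique_der`. -/
theorem der_ext [CharZero F] [Algebra.IsAlgebraic F L] {D₁ D₂ : Derivation C L M}
    (h : ∀ x : F, D₁ (algebraMap F L x) = D₂ (algebraMap F L x)) : D₁ = D₂ :=
  der_ext_of_separable (F := F) h

end

end K3G
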