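import Pool.Agent.K3G.Defs
import Pool.Agent.K3G.DerExt

/-!
# The test field: Laurent series over an algebraically closed differential field

`κ` = algebraic closure of `ℂ(s)`, `LK = κ((τ))`, the order `ord`, the valuation ring `R = κ[[τ]]`,
the derivations `Dt = d/dτ` and `Dd` (coefficientwise `δ = d/ds`).
-/

set_option autoImplicit false

noncomputable section
namespace Pool.Agent.K3G

/-- the constants: an algebraic closure of `ℂ(s)` -/
abbrev κ : Type := AlgebraicClosure (RatFunc ℂ)

/-- Laurent series in `τ` over `κ` -/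
abbrev LK : Type := HahnSeries ℤ κ

/-- the coefficientwise algebra structure of `κ((τ))`.  High priority: otherwise the instance
`HahnSeries.powerSeriesAlgebra` is found, which is not definitionally equal to it and does not match
`HahnSeries.instModule`. -/
instance (priority := 5000) algLK : Algebra ℂ LK := HahnSeries.instAlgebra

/-- the element `s` of `κ` -/
def s : κ := algebraMap (RatFunc ℂ) κ RatFunc.X

/-- constants `κ → LK` -/
def con : κ →+* LK := HahnSeries.C

/-- the variable `τ` -/
def tau : LK := HahnSeries.single (1 : ℤ) (1 : κ)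

/-- the order of a Laurent series (`⊤` for `0`) -/
def ord (a : LK) : WithTop ℤ := a.orderTop

/-- `s` is transcendental over `ℂ` -/
theorem s_transcendental : Transcendental ℂ s := by
  unfold s
  rw [transcendental_algebraMap_iff (algebraMap (RatFunc ℂ) κ).injective]
  exact RatFunc.transcendental_X

/-- there is a derivation `d/ds` of `κ`.
Proof: `s` alone is a transcendence basis of `κ / ℂ`; `Dual.lean` gives the derivation (or: mkDerivation on
polynomials, extended to `RatFunc ℂ` and then by `K3G.exists_der` to `κ`). -/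
theorem exists_delta : ∃ δ : Derivation ℂ κ κ, δ s = 1 := by
  have h1 : Algebra.FormallyEtale (Polynomial ℂ) (RatFunc ℂ) :=
    Algebra.FormallyEtale.of_isLocalization (nonZeroDivisors (Polynomial ℂ))
  have h2 : Algebra.FormallyEtale (RatFunc ℂ) κ := Algebra.FormallyEtale.of_isSeparable _ _
  have het : Algebra.FormallyEtale (Polynomial ℂ) κ :=
    Algebra.FormallyEtale.comp (Polynomial ℂ) (RatFunc ℂ) κ
  let d : Derivation ℂ (Polynomial ℂ) κ := Polynomial.mkDerivation ℂ (1 : κ)
  let e := KaehlerDifferential.tensorKaehlerEquivOfFormallyEtale ℂ (Polynomial ℂ) κ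
  let φ := LinearMap.liftBaseChange κ d.liftKaehlerDifferential
  let ψ := φ ∘ₗ e.symm.toLinearMap
  refine ⟨ψ.compDer (KaehlerDifferential.D ℂ κ), ?_⟩
  have h3 : s = algebraMap (Polynomial ℂ) κ Polynomial.X := by
    rw [IsScalarTower.algebraMap_apply (Polynomial ℂ) (RatFunc ℂ) κ]
    rw [RatFunc.algebraMap_X]
    rfl
  have h4 : e.symm (KaehlerDifferential.D ℂ κ (algebraMap (Polynomial ℂ) κ Polynomial.X)) =
      1 ⊗ₜ KaehlerDifferential.D ℂ (Polynomial ℂ) Polynomial.X :=
    KaehlerDifferential.tensorKaehlerEquivOfFormallyEtale_symm_D_algebraMap ℂ (Polynomial ℂ) κ _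
  rw [h3]
  change φ (e.symm (KaehlerDifferential.D ℂ κ (algebraMap (Polynomial ℂ) κ Polynomial.X))) = 1
  rw [h4]
  simp [φ, d]

/-- the derivation `d/ds` of `κ` -/
def δ : Derivation ℂ κ κ := exists_delta.choose

@[simp] theorem δ_s : δ s = 1 := exists_delta.choose_spec

@[simp] theorem δ_algebraMap (c : ℂ) : δ (algebraMap ℂ κ c) = 0 := δ.map_algebraMap c

theorem con_algebraMap (c : ℂ) : con (algebraMap ℂ κ c) = algebraMap ℂ LK c := rfl

/-- the coefficientwise operator with the weights `t` -/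
def coefLin (t : ℤ → κ →ₗ[ℂ] κ) : LK →ₗ[ℂ] LK where
  toFun a :=
    { coeff := fun n => t n (a.coeff n)
      isPWO_support' := a.isPWO_support.mono (fun n hn => by
        simp only [Function.mem_support, ne_eq] at hn
        intro h0
        exact hn (by rw [h0, map_zero])) }
  map_add' a b := by
    ext n
    simp
  map_smul' c a := by
    ext n
    simp

theorem coefLin_coeff (t : ℤ → κ →ₗ[ℂ] κ) (a : LK) (n : ℤ) :
    (coefLin t a).coeff n = t n (a.coeff n) := rfl

theorem coefLin_support (t : ℤ → κ →ₗ[ℂ] κ) (a : LK) : (coefLin t a).support ⊆ a.support := by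
  intro n hn
  rw [HahnSeries.mem_support] at hn ⊢
  intro h0
  exact hn (by rw [coefLin_coeff, h0, map_zero])

/-- a coefficientwise operator with a Leibniz rule is a derivation -/
def coefDer (t : ℤ → κ →ₗ[ℂ] κ) (ht : ∀ i j a b, t (i + j) (a * b) = a * t j b + b * t i a) :
    Derivation ℂ LK LK :=
  Derivation.mk' (coefLin t) (by
    intro a b
    ext n
    rw [smul_eq_mul, smul_eq_mul, mul_comm b (coefLin t a), HahnSeries.coeff_add,
      HahnSeries.coeff_mul_left' a.isPWO_support (coefLin_support t a),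
      HahnSeries.coeff_mul_right' b.isPWO_support (coefLin_support t b), coefLin_coeff,
      HahnSeries.coeff_mul, map_sum, ← Finset.sum_add_distrib]
    refine Finset.sum_congr rfl fun ij hij => ?_
    have h1 : ij.1 + ij.2 = n := by
      simpa using (Finset.mem_antidiagonal.1 hij).2.2
    rw [← h1, ht, coefLin_coeff, coefLin_coeff]
    ring)

theorem coefDer_coeff (t : ℤ → κ →ₗ[ℂ] κ)
    (ht : ∀ i j a b, t (i + j) (a * b) = a * t j b + b * t i a) (a : LK) (n : ℤ) :
    (coefDer t ht a).coeff n = t n (a.coeff n) := rfl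

/-- the Euler operator `∑ aₙ τⁿ ↦ ∑ n aₙ τⁿ` -/
def Eul : Derivation ℂ LK LK :=
  coefDer (fun n => (n : ℤ) • LinearMap.id) (by
    intro i j a b
    rw [LinearMap.smul_apply, LinearMap.smul_apply, LinearMap.smul_apply, LinearMap.id_apply,
      LinearMap.id_apply, LinearMap.id_apply, zsmul_eq_mul, zsmul_eq_mul, zsmul_eq_mul]
    push_cast
    ring)

theorem Eul_coeff (a : LK) (n : ℤ) : (Eul a).coeff n = (n : κ) * a.coeff n := by
  unfold Eul
  rw [coefDer_coeff, LinearMap.smul_apply, LinearMap.id_apply, zsmul_eq_mul]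

/-- `d/dτ` : `∑ aₙ τⁿ ↦ ∑ n aₙ τⁿ⁻¹`.  Leibniz rule by comparing coefficients
(`HahnSeries.coeff_mul`), or via `LaurentSeries.derivative`. -/
def Dt : Derivation ℂ LK LK := (HahnSeries.single (-1 : ℤ) (1 : κ) : LK) • Eul

/-- `d/ds` on coefficients : `∑ aₙ τⁿ ↦ ∑ δ(aₙ) τⁿ` (Leibniz rule by comparing coefficients). -/
def Dd : Derivation ℂ LK LK :=
  coefDer (fun _ => (δ : κ →ₗ[ℂ] κ)) (by
    intro i j a b
    change δ (a * b) = _
    rw [Derivation.leibniz, smul_eq_mul, smul_eq_mul]
    rfl)

theorem Dd_coeff (a : LK) (n : ℤ) : (Dd a).coeff n = δ (a.coeff n) := rfl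

theorem Dt_apply (a : LK) : Dt a = HahnSeries.single (-1 : ℤ) (1 : κ) * Eul a := rfl

theorem Dt_coeff (a : LK) (n : ℤ) : (Dt a).coeff n = ((n + 1 : ℤ) : κ) * a.coeff (n + 1) := by
  rw [Dt_apply]
  have h := HahnSeries.coeff_single_mul_add (r := (1 : κ)) (x := Eul a) (a := n + 1) (b := (-1 : ℤ))
  rw [show n + 1 + -1 = n by ring, one_mul] at h
  rw [h, Eul_coeff]

@[simp] theorem Dt_tau : Dt tau = 1 := by
  ext n
  rw [Dt_coeff, tau, HahnSeries.coeff_single, HahnSeries.coeff_one]
  by_cases h : n = 0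
  · subst h; simp
  · rw [if_neg h, if_neg (by omega), mul_zero]

@[simp] theorem Dt_con (c : κ) : Dt (con c) = 0 := by
  ext n
  rw [Dt_coeff, con, HahnSeries.C_apply, HahnSeries.coeff_single, HahnSeries.coeff_zero]
  split_ifs with h
  · rw [h]; simp
  · rw [mul_zero]

@[simp] theorem Dd_tau : Dd tau = 0 := by
  ext n
  rw [Dd_coeff, tau, HahnSeries.coeff_single, HahnSeries.coeff_zero]
  split_ifs with h
  · exact Derivation.map_one_eq_zero δ
  · exact map_zero δ

@[simp] theorem Dd_con (c : κ) : Dd (con c) = con (δ c) := by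
  ext n
  rw [Dd_coeff, con, HahnSeries.C_apply, HahnSeries.C_apply, HahnSeries.coeff_single,
    HahnSeries.coeff_single]
  split_ifs with h
  · rfl
  · exact map_zero δ

@[simp] theorem ord_zero : ord 0 = ⊤ := HahnSeries.orderTop_zero
@[simp] theorem ord_one : ord 1 = 0 := HahnSeries.orderTop_one
theorem ord_eq_top {a : LK} : ord a = ⊤ ↔ a = 0 := HahnSeries.orderTop_eq_top

theorem ord_eq_addVal (a : LK) : ord a = HahnSeries.addVal ℤ κ a := HahnSeries.addVal_apply.symm

theorem ord_mul (a b : LK) : ord (a * b) = ord a + ord b := by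
  simp only [ord_eq_addVal]; exact AddValuation.map_mul _ a b
theorem ord_pow (a : LK) (n : ℕ) : ord (a ^ n) = n • ord a := by
  simp only [ord_eq_addVal]; exact AddValuation.map_pow _ a n
theorem ord_add (a b : LK) : min (ord a) (ord b) ≤ ord (a + b) :=
  HahnSeries.min_orderTop_le_orderTop_add
theorem ord_neg (a : LK) : ord (-a) = ord a := HahnSeries.orderTop_neg
theorem ord_add_eq {a b : LK} (h : ord a < ord b) : ord (a + b) = ord a :=
  HahnSeries.orderTop_add_eq_left h
theorem ord_con {c : κ} (hc : c ≠ 0) : ord (con c) = 0 := HahnSeries.orderTop_single hc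
@[simp] theorem ord_tau : ord tau = 1 := HahnSeries.orderTop_single one_ne_zero
theorem tau_ne_zero : tau ≠ 0 := HahnSeries.single_ne_zero one_ne_zero

/-- every non-zero element has a finite order -/
theorem exists_ord {a : LK} (h : a ≠ 0) : ∃ k : ℤ, ord a = k := by
  have h1 : ord a ≠ ⊤ := fun h0 => h (ord_eq_top.1 h0)
  exact ⟨(ord a).untop h1, (WithTop.coe_untop _ h1).symm⟩

/-- the order of an inverse -/
theorem ord_inv {a : LK} {k : ℤ} (h : ord a = k) : ord a⁻¹ = ((-k : ℤ) : WithTop ℤ) := by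
  have ha : a ≠ 0 := by
    intro h0
    rw [h0, ord_zero] at h
    exact WithTop.coe_ne_top h.symm
  obtain ⟨l, hl⟩ := exists_ord (inv_ne_zero ha)
  have h1 := ord_mul a a⁻¹
  rw [mul_inv_cancel₀ ha, ord_one, h, hl] at h1
  have h2 : (0 : ℤ) = k + l := by exact_mod_cast h1
  rw [hl]
  congr 1
  omega

/-- the valuation ring `κ[[τ]]` -/
def R : ValuationSubring LK where
  carrier := {a | 0 ≤ ord a}
  mul_mem' {a b} ha hb := by
    simp only [Set.mem_ofPred_eq] at ha hb ⊢
    rw [ord_mul]
    exact add_nonneg ha hb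
  one_mem' := by
    simp only [Set.mem_ofPred_eq, ord_one]
    exact le_refl _
  add_mem' {a b} ha hb := by
    simp only [Set.mem_ofPred_eq] at ha hb ⊢
    exact le_trans (le_min ha hb) (ord_add a b)
  zero_mem' := by
    simp only [Set.mem_ofPred_eq, ord_zero]
    exact le_top
  neg_mem' {a} ha := by
    simp only [Set.mem_ofPred_eq] at ha ⊢
    rwa [ord_neg]
  mem_or_inv_mem' a := by
    by_cases ha : a = 0
    · left
      simp only [Set.mem_ofPred_eq, ha, ord_zero]
      exact le_top
    · obtain ⟨k, hk⟩ := exists_ord ha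
      rcases le_total 0 k with h | h
      · left
        simp only [Set.mem_ofPred_eq, hk]
        exact_mod_cast h
      · right
        simp only [Set.mem_ofPred_eq, ord_inv hk]
        exact_mod_cast (by omega : (0 : ℤ) ≤ -k)

theorem mem_R {a : LK} : a ∈ R ↔ 0 ≤ ord a := Iff.rfl

theorem con_mem_R (c : κ) : con c ∈ R := by
  rw [mem_R]
  by_cases hc : c = 0
  · rw [hc, map_zero, ord_zero]; exact le_top
  · rw [ord_con hc]
theorem tau_mem_R : tau ∈ R := by
  rw [mem_R, ord_tau]; exact zero_le_one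

theorem mem_R_iff_coeff {a : LK} : a ∈ R ↔ ∀ n : ℤ, n < 0 → a.coeff n = 0 := by
  rw [mem_R]
  unfold ord
  rw [HahnSeries.le_orderTop_iff_forall]
  constructor
  · intro h n hn
    exact h n (by exact_mod_cast hn)
  · intro h n hn
    exact h n (by exact_mod_cast hn)

/-- `d/dτ` preserves `κ[[τ]]` -/
theorem Dt_mem_R {a : LK} (h : a ∈ R) : Dt a ∈ R := by
  rw [mem_R_iff_coeff] at h ⊢
  intro n hn
  rw [Dt_coeff]
  by_cases h0 : n + 1 = 0
  · rw [h0]; simp
  · rw [h (n + 1) (by omega), mul_zero]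
/-- `d/ds` preserves `κ[[τ]]` -/
theorem Dd_mem_R {a : LK} (h : a ∈ R) : Dd a ∈ R := by
  rw [mem_R_iff_coeff] at h ⊢
  intro n hn
  rw [Dd_coeff, h n hn]
  exact map_zero δ

/-- an element of `κ[[τ]]` has a residue `η`: `ord (a - η) > 0` -/
theorem exists_residue {a : LK} (h : a ∈ R) : ∃ η : κ, 0 < ord (a - con η) := by
  refine ⟨a.coeff 0, ?_⟩
  rw [mem_R_iff_coeff] at h
  have h1 : ((1 : ℤ) : WithTop ℤ) ≤ ord (a - con (a.coeff 0)) := by
    unfold ord
    rw [HahnSeries.le_orderTop_iff_forall]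
    intro n hn
    have hn' : n < 1 := by exact_mod_cast hn
    rw [HahnSeries.coeff_sub, con, HahnSeries.C_apply, HahnSeries.coeff_single]
    by_cases h0 : n = 0
    · rw [if_pos h0, h0, sub_self]
    · rw [if_neg h0, h n (by omega), sub_zero]
  refine lt_of_lt_of_le ?_ h1
  exact_mod_cast zero_lt_one

end Pool.Agent.K3G
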