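import Pool.Agent.K3G.Dual
import Pool.Agent.K3G.Laurent

/-!
# Pushing derivations and forms along an embedding `K → κ((τ))` with `z ↦ s`
-/

set_option autoImplicit false

noncomputable section
namespace Pool.Agent.K3G

variable {K : Type*} [Field K] [Algebra ℂ K]

/-- `d/dτ (Φ a) = Φ(∂a/∂x) · d/dτ (Φ x)`.
Proof: both sides are derivations over `Φ` that agree at `x` and `z` (`semi_der_ext`). -/
theorem push_Dt {x z : K} {dx dz : VF K} (c : Coord x z dx dz) {Φ : K →ₐ[ℂ] LK}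
    (hz : Φ z = con s) (a : K) : Dt (Φ a) = Φ (dx a) * Dt (Φ x) := by
  let D₁ : K →ₗ[ℂ] LK := (Dt : LK →ₗ[ℂ] LK) ∘ₗ Φ.toLinearMap
  let D₂ : K →ₗ[ℂ] LK := (LinearMap.mulRight ℂ (Dt (Φ x))) ∘ₗ Φ.toLinearMap ∘ₗ (dx : K →ₗ[ℂ] K)
  have h : D₁ = D₂ := by
    refine semi_der_ext Φ c.tb D₁ D₂ ?_ ?_ ?_ ?_
    · intro a b
      change Dt (Φ (a * b)) = Φ a * Dt (Φ b) + Φ b * Dt (Φ a)
      rw [map_mul, Derivation.leibniz, smul_eq_mul, smul_eq_mul]
    · intro a b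
      change Φ (dx (a * b)) * Dt (Φ x) = Φ a * (Φ (dx b) * Dt (Φ x)) + Φ b * (Φ (dx a) * Dt (Φ x))
      rw [Derivation.leibniz, map_add, smul_eq_mul, smul_eq_mul, map_mul, map_mul]
      ring
    · change Dt (Φ x) = Φ (dx x) * Dt (Φ x)
      rw [c.xx, map_one, one_mul]
    · change Dt (Φ z) = Φ (dx z) * Dt (Φ x)
      rw [c.xz, map_zero, zero_mul, hz, Dt_con]
  exact LinearMap.congr_fun h a

/-- `δ(Φ a) = Φ(∂a/∂x) · δ(Φ x) + Φ(∂a/∂z)` -/
theorem push_Dd {x z : K} {dx dz : VF K} (c : Coord x z dx dz) {Φ : K →ₐ[ℂ] LK}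
    (hz : Φ z = con s) (a : K) : Dd (Φ a) = Φ (dx a) * Dd (Φ x) + Φ (dz a) := by
  let D₁ : K →ₗ[ℂ] LK := (Dd : LK →ₗ[ℂ] LK) ∘ₗ Φ.toLinearMap
  let D₂ : K →ₗ[ℂ] LK := (LinearMap.mulRight ℂ (Dd (Φ x))) ∘ₗ Φ.toLinearMap ∘ₗ (dx : K →ₗ[ℂ] K)
    + Φ.toLinearMap ∘ₗ (dz : K →ₗ[ℂ] K)
  have h : D₁ = D₂ := by
    refine semi_der_ext Φ c.tb D₁ D₂ ?_ ?_ ?_ ?_
    · intro a b
      change Dd (Φ (a * b)) = Φ a * Dd (Φ b) + Φ b * Dd (Φ a)
      rw [map_mul, Derivation.leibniz, smul_eq_mul, smul_eq_mul]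
    · intro a b
      change Φ (dx (a * b)) * Dd (Φ x) + Φ (dz (a * b)) =
        Φ a * (Φ (dx b) * Dd (Φ x) + Φ (dz b)) + Φ b * (Φ (dx a) * Dd (Φ x) + Φ (dz a))
      rw [Derivation.leibniz, Derivation.leibniz, map_add, map_add]
      simp only [smul_eq_mul, map_mul]
      ring
    · change Dd (Φ x) = Φ (dx x) * Dd (Φ x) + Φ (dz x)
      rw [c.xx, c.zx, map_one, one_mul, map_zero, add_zero]
    · change Dd (Φ z) = Φ (dx z) * Dd (Φ x) + Φ (dz z)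
      rw [c.xz, c.zz, map_zero, zero_mul, hz, Dd_con, δ_s, zero_add, map_one, map_one]
  exact LinearMap.congr_fun h a

/-- the pull-back of the valuation ring `κ[[τ]]` -/
def pull (Φ : K →ₐ[ℂ] LK) : ValuationSubring K := R.comap Φ.toRingHom

theorem mem_pull {Φ : K →ₐ[ℂ] LK} {a : K} : a ∈ pull Φ ↔ Φ a ∈ R := Iff.rfl

theorem hasC_pull (Φ : K →ₐ[ℂ] LK) : HasC (pull Φ) := by
  intro a
  rw [mem_pull, AlgHom.commutes, ← con_algebraMap]
  exact con_mem_R _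

/-- Proof: closure induction (addition: `R` is closed under addition).  For a generator
`c ∏ (∂x aᵢ ∂z bᵢ - ∂x bᵢ ∂z aᵢ)`: `Φ` of the `i`-th factor times `Dt(Φ x)` is
`Dt(Φ aᵢ) Dd(Φ bᵢ) - Dd(Φ aᵢ) Dt(Φ bᵢ) ∈ R` (substitute `push_Dt`, `push_Dd`; the terms with
`Dd (Φ x)` cancel). -/
theorem fkm_push {x z : K} {dx dz : VF K} (c : Coord x z dx dz) {Φ : K →ₐ[ℂ] LK}
    (hz : Φ z = con s) {m : ℕ} {ω : VF K → VF K → K} (hω : ω ∈ FKM K m) :
    Φ (ω dx dz) * (Dt (Φ x)) ^ m ∈ R := by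
  have h := hω (pull Φ) (hasC_pull Φ)
  clear hω
  induction h using AddSubgroup.closure_induction with
  | mem ω h =>
    obtain ⟨e, he, a, b, ha, hb, rfl⟩ := h
    have key : Φ (e * ∏ i, (dx (a i) * dz (b i) - dx (b i) * dz (a i))) * Dt (Φ x) ^ m =
        Φ e * ∏ i, (Dt (Φ (a i)) * Dd (Φ (b i)) - Dd (Φ (a i)) * Dt (Φ (b i))) := by
      rw [map_mul, map_prod, mul_assoc]
      congr 1
      have : Dt (Φ x) ^ m = ∏ _i : Fin m, Dt (Φ x) := by simp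
      rw [this, ← Finset.prod_mul_distrib]
      refine Finset.prod_congr rfl fun i _ => ?_
      rw [map_sub, map_mul, map_mul, push_Dt c hz (a i), push_Dt c hz (b i), push_Dd c hz (a i),
        push_Dd c hz (b i)]
      ring
    rw [key]
    refine R.mul_mem _ _ he (prod_mem fun i _ => sub_mem (R.mul_mem _ _ (Dt_mem_R (ha i))
      (Dd_mem_R (hb i))) (R.mul_mem _ _ (Dd_mem_R (ha i)) (Dt_mem_R (hb i))))
  | zero =>
    simp only [Pi.zero_apply, map_zero, zero_mul]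
    exact R.zero_mem
  | add ω ω' _ _ h1 h2 =>
    simp only [Pi.add_apply, map_add, add_mul]
    exact R.add_mem _ _ h1 h2
  | neg ω _ h1 =>
    simp only [Pi.neg_apply, map_neg, neg_mul]
    exact R.neg_mem _ h1

/-- same proof with one-forms: generator `c da ↦ Φ(c) Dt(Φ a)`, resp. `Φ(c) Dd(Φ a)` -/
theorem fk1_push {x z : K} {dx dz : VF K} (c : Coord x z dx dz) {Φ : K →ₐ[ℂ] LK}
    (hz : Φ z = con s) {ω : VF K → K} (hω : ω ∈ FK1 K) :
    Φ (ω dx) * Dt (Φ x) ∈ R ∧ Φ (ω dx) * Dd (Φ x) + Φ (ω dz) ∈ R := by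
  have h := hω (pull Φ) (hasC_pull Φ)
  clear hω
  induction h using AddSubgroup.closure_induction with
  | mem ω h =>
    obtain ⟨e, he, a, ha, rfl⟩ := h
    constructor
    · have key : Φ (e * dx a) * Dt (Φ x) = Φ e * Dt (Φ a) := by
        rw [map_mul, push_Dt c hz a, mul_assoc]
      rw [key]
      exact R.mul_mem _ _ he (Dt_mem_R ha)
    · have key : Φ (e * dx a) * Dd (Φ x) + Φ (e * dz a) = Φ e * Dd (Φ a) := by
        rw [map_mul, map_mul, push_Dd c hz a]; ring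
      rw [key]
      exact R.mul_mem _ _ he (Dd_mem_R ha)
  | zero =>
    simp only [Pi.zero_apply, map_zero, zero_mul, add_zero]
    exact ⟨R.zero_mem, R.zero_mem⟩
  | add ω ω' _ _ h1 h2 =>
    simp only [Pi.add_apply, map_add, add_mul]
    refine ⟨R.add_mem _ _ h1.1 h2.1, ?_⟩
    have := R.add_mem _ _ h1.2 h2.2
    convert this using 1
    ring
  | neg ω _ h1 =>
    simp only [Pi.neg_apply, map_neg, neg_mul]
    refine ⟨R.neg_mem _ h1.1, ?_⟩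
    have := R.neg_mem _ h1.2
    convert this using 1
    ring

end Pool.Agent.K3G
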