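import Pool.Agent.K3G.Ord
import Pool.Agent.K3G.Push

/-!
# Poles of elements of `ℂ(x, z)` seen through embeddings `K → κ((τ))`
-/

set_option autoImplicit false

noncomputable section
namespace Pool.Agent.K3G

open Polynomial

variable {K : Type*} [Field K] [Algebra ℂ K]

/-- `Φ` is an embedding with `x ↦ Y` and `z ↦ s` -/
def IsEmb (x z : K) (Y : LK) (Φ : K →ₐ[ℂ] LK) : Prop := Φ x = Y ∧ Φ z = con s

/-- `P ∈ ℂ[x, z]` as a polynomial in `x` over `κ` (`z = s`) -/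
private def coreHat : MvPolynomial (Fin 2) ℂ →ₐ[ℂ] κ[X] :=
  MvPolynomial.aeval ![(X : κ[X]), C s]

private theorem coreHat_eval (Y : LK) (p : MvPolynomial (Fin 2) ℂ) :
    (coreHat p).eval₂ con Y = MvPolynomial.aeval ![Y, con s] p := by
  have h : (Polynomial.eval₂RingHom con Y).comp coreHat.toRingHom
      = (MvPolynomial.aeval (R := ℂ) ![Y, con s]).toRingHom := by
    apply MvPolynomial.ringHom_ext
    · intro c
      simp only [coreHat, AlgHom.toRingHom_eq_coe, RingHom.comp_apply, RingHom.coe_coe,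
        MvPolynomial.aeval_C, coe_eval₂RingHom]
      rw [Polynomial.algebraMap_apply, eval₂_C, con_algebraMap]
    · intro i
      fin_cases i
      · simp [coreHat]
      · simp [coreHat]
  exact RingHom.congr_fun h p

private theorem coreHat_ne_zero {p : MvPolynomial (Fin 2) ℂ} (hp : p ≠ 0) : coreHat p ≠ 0 := by
  intro h
  apply hp
  have h1 := coreHat_eval tau⁻¹ p
  rw [h, eval₂_zero] at h1
  exact (algebraicIndependent_iff.1 (algInd_of_not_mem inv_tau_not_mem)) p h1.symm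

private theorem core_map_aeval {x z : K} (Φ : K →ₐ[ℂ] LK) (hz : Φ z = con s)
    (p : MvPolynomial (Fin 2) ℂ) :
    Φ (MvPolynomial.aeval ![x, z] p) = (coreHat p).eval₂ con (Φ x) := by
  rw [coreHat_eval]
  have h : (Φ.comp (MvPolynomial.aeval ![x, z])) = MvPolynomial.aeval ![Φ x, con s] := by
    apply MvPolynomial.algHom_ext
    intro i
    fin_cases i
    · simp
    · simp [hz]
  exact AlgHom.congr_fun h p

/-- The image of `A ∈ ℂ(x, z)` is `P(Φ x) / Q(Φ x)` with coprime `P, Q ∈ κ[T]` independent of `Φ`.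
Proof: `A = P₀(x,z)/Q₀(x,z)` with `P₀, Q₀` polynomials over `ℂ`, `Q₀ ≠ 0` (induction on
`IntermediateField.adjoin` or `IntermediateField.mem_adjoin_iff_div` / `mem_adjoin_range_iff`).  Put
`P̂₀ = P₀(T, s)`, `Q̂₀ = Q₀(T, s) ≠ 0` (`s` transcendental) and divide by the gcd `D` of the two;
`D(Φ x) ≠ 0` by `eval₂_ne_zero`. -/
theorem exists_PQ {x z A : K} (hb : IsTranscendenceBasis ℂ ![x, z])
    (hA : A ∈ IntermediateField.adjoin ℂ ({x, z} : Set K)) :
    ∃ P Q : κ[X], IsCoprime P Q ∧ Q ≠ 0 ∧ ∀ Φ : K →ₐ[ℂ] LK, Φ z = con s → Φ x ∉ con.range →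
      Φ A * Q.eval₂ con (Φ x) = P.eval₂ con (Φ x) := by
  classical
  have hr : Set.range ![x, z] = ({x, z} : Set K) := by
    ext a
    simp only [Set.mem_range, Fin.exists_fin_two, Set.mem_insert_iff, Set.mem_singleton_iff,
      Matrix.cons_val_zero, Matrix.cons_val_one]
    exact or_congr eq_comm eq_comm
  rw [← hr, IntermediateField.mem_adjoin_range_iff] at hA
  obtain ⟨r, q, hrq⟩ := hA
  by_cases hq : q = 0
  · refine ⟨0, 1, isCoprime_one_right, one_ne_zero, fun Φ _ _ => ?_⟩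
    rw [hrq, hq]
    simp
  · have hQ0 : coreHat q ≠ 0 := coreHat_ne_zero hq
    have hq0 : MvPolynomial.aeval ![x, z] q ≠ 0 := by
      intro h0
      exact hq ((algebraicIndependent_iff.1 hb.1) q h0)
    let _ : GCDMonoid κ[X] := EuclideanDomain.gcdMonoid κ[X]
    obtain ⟨P, Q, h1, h2, h3⟩ := extract_gcd (coreHat r) (coreHat q)
    obtain ⟨D, hDd⟩ : ∃ D, D = gcd (coreHat r) (coreHat q) := ⟨_, rfl⟩
    rw [← hDd] at h1 h2
    have hD : D ≠ 0 := by
      intro h0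
      rw [h0, zero_mul] at h2
      exact hQ0 h2
    refine ⟨P, Q, ?_, ?_, fun Φ hz hx => ?_⟩
    · exact (gcd_isUnit_iff P Q).1 h3
    · intro h0
      rw [h0, mul_zero] at h2
      exact hQ0 h2
    · have hDY : D.eval₂ con (Φ x) ≠ 0 := eval₂_ne_zero hx hD
      have h4 : A * MvPolynomial.aeval ![x, z] q = MvPolynomial.aeval ![x, z] r := by
        rw [hrq, div_mul_cancel₀ _ hq0]
      have h5 := congrArg Φ h4
      rw [map_mul, core_map_aeval Φ hz, core_map_aeval Φ hz] at h5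
      rw [h1, h2, eval₂_mul, eval₂_mul] at h5
      apply mul_left_cancel₀ hDY
      linear_combination h5

/-- common part of `core_const`, `core_zero`: `A` is a polynomial -/
private theorem core_pol {x z A : K} (hb : IsTranscendenceBasis ℂ ![x, z])
    (hA : A ∈ IntermediateField.adjoin ℂ ({x, z} : Set K))
    (h1 : ∀ ξ : κ, ∃ n : ℕ, 0 < n ∧ ∃ Φ, IsEmb x z (pt ξ n) Φ ∧
      ((-n : ℤ) : WithTop ℤ) < ord (Φ A)) :
    ∃ P : κ[X], ∀ Φ : K →ₐ[ℂ] LK, Φ z = con s → Φ x ∉ con.range →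
      Φ A = P.eval₂ con (Φ x) := by
  obtain ⟨P, Q, hPQ, hQ, h⟩ := exists_PQ hb hA
  have hroot : ∀ ξ : κ, Q.eval ξ ≠ 0 := by
    intro ξ hξ
    obtain ⟨n, hn, Φ, ⟨hx, hz⟩, ho⟩ := h1 ξ
    have hP : P.eval ξ ≠ 0 := by
      intro hP
      obtain ⟨a, b, hab⟩ := hPQ
      have := congrArg (Polynomial.eval ξ) hab
      rw [eval_add, eval_mul, eval_mul, hP, hξ] at this
      simp at this
    have hnr : Φ x ∉ con.range := by rw [hx]; exact pt_not_mem hn
    have e := h Φ hz hnr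
    rw [hx] at e
    have hY : 0 < ord (pt ξ n - con ξ) := by
      rw [ord_pt_sub]; exact_mod_cast hn
    have e1 : ord (P.eval₂ con (pt ξ n)) = 0 := ord_eval_of_ne hY hP
    have e2 : (n : WithTop ℤ) ≤ ord (Q.eval₂ con (pt ξ n)) :=
      le_ord_eval_of_root hn ord_pt_sub.ge hξ
    have e3 := congrArg ord e
    rw [ord_mul, e1] at e3
    have hA0 : Φ A ≠ 0 := by
      intro h0
      rw [h0, ord_zero, WithTop.top_add] at e3
      exact WithTop.top_ne_zero e3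
    have hQ0 : Q.eval₂ con (pt ξ n) ≠ 0 := by
      intro h0
      rw [h0, ord_zero, WithTop.add_top] at e3
      exact WithTop.top_ne_zero e3
    obtain ⟨a, ha⟩ := exists_ord hA0
    obtain ⟨b, hb'⟩ := exists_ord hQ0
    rw [ha] at ho e3
    rw [hb'] at e2 e3
    have k1 : -(n : ℤ) < a := by exact_mod_cast ho
    have k2 : (n : ℤ) ≤ b := by exact_mod_cast e2
    have k3 : a + b = 0 := by exact_mod_cast e3
    omega
  have hdeg : Q.degree = 0 := by
    by_contra hd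
    obtain ⟨ξ, hξ⟩ := IsAlgClosed.exists_root Q hd
    exact hroot ξ hξ
  obtain ⟨q0, hq0⟩ : ∃ q0 : κ, Q = C q0 := ⟨_, eq_C_of_degree_eq_zero hdeg⟩
  have hq0' : q0 ≠ 0 := by
    intro h0
    rw [hq0, h0, map_zero] at hQ
    exact hQ rfl
  refine ⟨C q0⁻¹ * P, fun Φ hz hx => ?_⟩
  have e := h Φ hz hx
  rw [hq0, eval₂_C] at e
  rw [eval₂_mul, eval₂_C, ← e]
  have : con q0⁻¹ * con q0 = 1 := by rw [← map_mul, inv_mul_cancel₀ hq0', map_one]
  linear_combination (-(Φ A)) * this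

/-- If `A` has no pole over any `ξ ∈ κ` and none over `∞` then it is constant in the direction `x`.
Proof: with `P, Q` from `exists_PQ`: a root `ξ` of `Q` is not a root of `P`, so for the given `n, Φ` we have
`ord (Φ A) = ord P(Y) - ord Q(Y) ≤ 0 - n` (`ord_eval_of_ne`, `le_ord_eval_of_root`), a contradiction.  So `Q` is
constant, and `ord (Φ A) = - deg P` for `Φ x = τ⁻¹` shows that `P` is constant. -/
theorem core_const {x z A : K} (hb : IsTranscendenceBasis ℂ ![x, z])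
    (hA : A ∈ IntermediateField.adjoin ℂ ({x, z} : Set K))
    (h1 : ∀ ξ : κ, ∃ n : ℕ, 0 < n ∧ ∃ Φ, IsEmb x z (pt ξ n) Φ ∧
      ((-n : ℤ) : WithTop ℤ) < ord (Φ A))
    (h2 : ∃ Φ, IsEmb x z tau⁻¹ Φ ∧ 0 ≤ ord (Φ A)) :
    ∃ c : κ, ∀ Φ : K →ₐ[ℂ] LK, Φ z = con s → Φ x ∉ con.range → Φ A = con c := by
  obtain ⟨P, hP⟩ := core_pol hb hA h1
  obtain ⟨Φ, ⟨hx, hz⟩, ho⟩ := h2
  by_cases hP0 : P = 0
  · refine ⟨0, fun Ψ hz' hx' => ?_⟩
    rw [hP Ψ hz' hx', hP0, eval₂_zero, map_zero]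
  · have e := hP Φ hz (by rw [hx]; exact inv_tau_not_mem)
    rw [hx] at e
    rw [e, ord_eval_neg one_pos ord_inv_tau hP0] at ho
    have hd : P.natDegree = 0 := by
      have : (0 : ℤ) ≤ -((1 : ℕ) * P.natDegree : ℤ) := by exact_mod_cast ho
      push_cast at this
      omega
    refine ⟨P.coeff 0, fun Ψ hz' hx' => ?_⟩
    rw [hP Ψ hz' hx', eq_C_of_natDegree_eq_zero hd, eval₂_C, coeff_C_zero]

/-- in the situation of `core_const`, `∂A/∂x = 0`: `0 = Dt(con c) = Φ(∂A/∂x) Dt(Φ x)` with `Φ x = τ⁻¹` -/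
theorem core_dx {x z A : K} {dx dz : VF K} (c : Coord x z dx dz)
    (hA : A ∈ IntermediateField.adjoin ℂ ({x, z} : Set K))
    (h1 : ∀ ξ : κ, ∃ n : ℕ, 0 < n ∧ ∃ Φ, IsEmb x z (pt ξ n) Φ ∧
      ((-n : ℤ) : WithTop ℤ) < ord (Φ A))
    (h2 : ∃ Φ, IsEmb x z tau⁻¹ Φ ∧ 0 ≤ ord (Φ A)) : dx A = 0 := by
  obtain ⟨k, hk⟩ := core_const c.tb hA h1 h2
  obtain ⟨Φ, ⟨hx, hz⟩, -⟩ := h2
  have e := hk Φ hz (by rw [hx]; exact inv_tau_not_mem)
  have e1 := push_Dt c hz A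
  rw [e, Dt_con, hx] at e1
  have h0 : Dt tau⁻¹ ≠ 0 := by
    intro h0
    have h3 := ord_Dt_inv_tau
    rw [h0, ord_zero] at h3
    exact WithTop.top_ne_coe h3
  have h4 : Φ (dx A) = 0 := (mul_eq_zero.1 e1.symm).resolve_right h0
  exact (map_eq_zero_iff Φ Φ.injective).1 h4

/-- If `A` has no pole over `ξ ∈ κ`, vanishes at the points of `S` and `ord_∞ A > - |S|` then `A = 0`.
Proof: as before `Q` is constant and `P` vanishes on `S`; if `P ≠ 0` then `deg P ≥ |S|`, but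
`ord (Φ A) = - deg P > - |S|` over `∞`. -/
theorem core_zero {x z A : K} (hb : IsTranscendenceBasis ℂ ![x, z])
    (hA : A ∈ IntermediateField.adjoin ℂ ({x, z} : Set K))
    (h1 : ∀ ξ : κ, ∃ n : ℕ, 0 < n ∧ ∃ Φ, IsEmb x z (pt ξ n) Φ ∧
      ((-n : ℤ) : WithTop ℤ) < ord (Φ A))
    (S : Finset κ)
    (hS : ∀ ξ ∈ S, ∃ n : ℕ, 0 < n ∧ ∃ Φ, IsEmb x z (pt ξ n) Φ ∧ 0 < ord (Φ A))
    (h2 : ∃ Φ, IsEmb x z tau⁻¹ Φ ∧ ((-(S.card : ℤ) : ℤ) : WithTop ℤ) < ord (Φ A)) : A = 0 := by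
  obtain ⟨P, hP⟩ := core_pol hb hA h1
  have hroot : ∀ ξ ∈ S, P.IsRoot ξ := by
    intro ξ hξ
    obtain ⟨n, hn, Φ, ⟨hx, hz⟩, ho⟩ := hS ξ hξ
    by_contra hne
    have e := hP Φ hz (by rw [hx]; exact pt_not_mem hn)
    rw [hx] at e
    have hY : 0 < ord (pt ξ n - con ξ) := by
      rw [ord_pt_sub]; exact_mod_cast hn
    rw [e, ord_eval_of_ne hY hne] at ho
    exact lt_irrefl _ ho
  obtain ⟨Φ, ⟨hx, hz⟩, ho⟩ := h2
  have e := hP Φ hz (by rw [hx]; exact inv_tau_not_mem)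
  rw [hx] at e
  have hP0 : P = 0 := by
    by_contra hP0
    rw [e, ord_eval_neg one_pos ord_inv_tau hP0] at ho
    have hd : P.natDegree < S.card := by
      have : -(S.card : ℤ) < -((1 : ℕ) * P.natDegree : ℤ) := by exact_mod_cast ho
      push_cast at this
      omega
    have hle : S.card ≤ P.natDegree := by
      have h5 : S.val ≤ P.roots :=
        (Multiset.le_iff_subset S.nodup).2 fun ξ hξ =>
          (mem_roots hP0).2 (hroot ξ hξ)
      exact le_trans (Multiset.card_le_card h5) (card_roots' P)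
    omega
  rw [hP0, eval₂_zero] at e
  exact (map_eq_zero_iff Φ Φ.injective).1 e

/-- enough embeddings in the direction `x`; `third` allows extra ramification outside the roots of `f` -/
structure HasEmb (x z : K) (f : ℂ[X]) (third : Prop) : Prop where
  fin : ∀ ξ : κ, (aeval ξ f ≠ 0 ∧ ∃ Φ, IsEmb x z (pt ξ 1) Φ) ∨
    (aeval ξ f = 0 ∧ ∃ Φ, IsEmb x z (pt ξ 2) Φ) ∨
    (third ∧ aeval ξ f ≠ 0 ∧ ∃ Φ, IsEmb x z (pt ξ 2) Φ)
  inf : ∃ Φ, IsEmb x z tau⁻¹ Φ

end Pool.Agent.K3G
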