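import Mathlib

/-!
# Forms of the first kind on a function field (definitions)

`K` is a field extension of `ℂ` (in the applications finitely generated of transcendence degree
`1`, `2`).  Vector fields are the `ℂ`-derivations of `K`; a `1`-form is a `K`-linear combination of
the functions `X ↦ X a` on vector fields, an `m`-canonical form (`m = 1`: a `2`-form) is a
`K`-linear combination of the functions `(X, Y) ↦ ∏ i, (X aᵢ * Y bᵢ - X bᵢ * Y aᵢ)`, i.e. of
the products `∏ i, daᵢ ∧ dbᵢ`.  A form is *regular* at a valuation ring `O ⊇ ℂ` of `K` if it is a combination with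
coefficients in `O` of such products with `aᵢ, bᵢ ∈ O`, and it is of the *first kind* if it is
regular at every valuation ring of `K` which contains `ℂ`.  For a smooth projective model `X`
of `K` the forms of the first kind are the global sections of `Ω^1_X`, resp. of `ω_X^{⊗ m}`
(a valuation ring has a centre on `X`; conversely one only needs the prime divisors of `X`).
-/

set_option autoImplicit false

noncomputable section
namespace Pool.Agent.K3G

universe u

section
variable (K : Type u) [Field K] [Algebra ℂ K]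

/-- vector fields: the `ℂ`-derivations of `K` -/
abbrev VF : Type u := Derivation ℂ K K

variable {K}

/-- the valuation ring `O` contains the constants -/
def HasC (O : ValuationSubring K) : Prop := ∀ c : ℂ, algebraMap ℂ K c ∈ O

/-- the `1`-forms regular at `O` -/
def Reg1 (O : ValuationSubring K) : AddSubgroup (VF K → K) :=
  AddSubgroup.closure {ω | ∃ c ∈ O, ∃ a ∈ O, ω = fun X => c * X a}

/-- the `m`-canonical forms regular at `O` -/
def RegM (O : ValuationSubring K) (m : ℕ) : AddSubgroup (VF K → VF K → K) :=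
  AddSubgroup.closure {ω | ∃ c ∈ O, ∃ a b : Fin m → K, (∀ i, a i ∈ O) ∧ (∀ i, b i ∈ O) ∧
    ω = fun X Y => c * ∏ i, (X (a i) * Y (b i) - X (b i) * Y (a i))}

theorem smul_mem_reg1 {O : ValuationSubring K} (hO : HasC O) (c : ℂ) {ω : VF K → K}
    (h : ω ∈ Reg1 O) : c • ω ∈ Reg1 O := by
  induction h using AddSubgroup.closure_induction with
  | mem ω h =>
    obtain ⟨c', hc', a, ha, rfl⟩ := h
    refine AddSubgroup.subset_closure ⟨algebraMap ℂ K c * c', O.mul_mem _ _ (hO c) hc', a, ha, ?_⟩
    funext X
    simp [Algebra.smul_def, mul_assoc]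
  | zero => rw [smul_zero]; exact zero_mem _
  | add x y _ _ hx hy => rw [smul_add]; exact add_mem hx hy
  | neg x _ hx => rw [smul_neg]; exact neg_mem hx

theorem smul_mem_regM {O : ValuationSubring K} (hO : HasC O) (m : ℕ) (c : ℂ) {ω : VF K → VF K → K}
    (h : ω ∈ RegM O m) : c • ω ∈ RegM O m := by
  induction h using AddSubgroup.closure_induction with
  | mem ω h =>
    obtain ⟨c', hc', a, b, ha, hb, rfl⟩ := h
    refine AddSubgroup.subset_closure ⟨algebraMap ℂ K c * c', O.mul_mem _ _ (hO c) hc', a, b, ha, hb, ?_⟩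
    funext X Y
    simp [Algebra.smul_def, mul_assoc]
  | zero => rw [smul_zero]; exact zero_mem _
  | add x y _ _ hx hy => rw [smul_add]; exact add_mem hx hy
  | neg x _ hx => rw [smul_neg]; exact neg_mem hx

variable (K)

/-- the `1`-forms of the first kind of `K / ℂ` -/
def FK1 : Submodule ℂ (VF K → K) where
  carrier := {ω | ∀ O : ValuationSubring K, HasC O → ω ∈ Reg1 O}
  add_mem' h1 h2 O hO := add_mem (h1 O hO) (h2 O hO)
  zero_mem' _ _ := zero_mem _
  smul_mem' c _ h O hO := smul_mem_reg1 hO c (h O hO)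

/-- the `m`-canonical forms of the first kind of `K / ℂ` (for `m = 1`: the `2`-forms) -/
def FKM (m : ℕ) : Submodule ℂ (VF K → VF K → K) where
  carrier := {ω | ∀ O : ValuationSubring K, HasC O → ω ∈ RegM O m}
  add_mem' h1 h2 O hO := add_mem (h1 O hO) (h2 O hO)
  zero_mem' _ _ := zero_mem _
  smul_mem' c _ h O hO := smul_mem_regM hO m c (h O hO)

variable {K}

/-- transport of a vector field by an automorphism -/
def conj (σ : K ≃ₐ[ℂ] K) (X : VF K) : VF K :=
  Derivation.mk' (σ.toLinearMap ∘ₗ (X : K →ₗ[ℂ] K) ∘ₗ σ.symm.toLinearMap) (by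
    intro a b
    simp [map_mul, map_add, smul_eq_mul])

@[simp] theorem conj_apply (σ : K ≃ₐ[ℂ] K) (X : VF K) (a : K) : conj σ X a = σ (X (σ.symm a)) := rfl

/-- the action of an automorphism on `1`-forms: `c da ↦ σ(c) dσ(a)` -/
def act1 (σ : K ≃ₐ[ℂ] K) (ω : VF K → K) : VF K → K := fun X => σ (ω (conj σ.symm X))

/-- the action of an automorphism on `m`-canonical forms: `c da ∧ db ↦ σ(c) dσ(a) ∧ dσ(b)` -/
def actM (σ : K ≃ₐ[ℂ] K) (ω : VF K → VF K → K) : VF K → VF K → K :=
  fun X Y => σ (ω (conj σ.symm X) (conj σ.symm Y))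

/-- the `σ`-invariant `2`-forms of the first kind -/
def Inv (σ : K ≃ₐ[ℂ] K) : Submodule ℂ (FKM K 1) where
  carrier := {ω | actM σ ω.1 = ω.1}
  add_mem' {a b} h1 h2 := by
    funext X Y
    have e1 := congrFun (congrFun h1 X) Y
    have e2 := congrFun (congrFun h2 X) Y
    simp only [actM] at e1 e2 ⊢
    simp only [Submodule.coe_add, Pi.add_apply, map_add, e1, e2]
  zero_mem' := by funext X Y; simp [actM]
  smul_mem' c a h := by
    funext X Y
    have e1 := congrFun (congrFun h X) Y
    simp only [actM] at e1 ⊢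
    simp only [SetLike.val_smul, Pi.smul_apply, map_smul, e1]

variable (K)

/-- `K / ℂ` is finitely generated of transcendence degree `2` -/
structure IsSurfaceField : Prop where
  fg : (⊤ : IntermediateField ℂ K).FG
  trdeg : Algebra.trdeg ℂ K = 2

/-- `K` is the function field of a K3 surface: irregularity `0` and all plurigenera `1`
(equivalent by the classification of surfaces) -/
structure IsK3Field : Prop extends IsSurfaceField K where
  q : FK1 K = ⊥
  P : ∀ m : ℕ, 1 ≤ m → Module.finrank ℂ (FKM K m) = 1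

/-- `K` is of general type: the plurigenera grow like `m ^ 2` -/
def GeneralType : Prop := ∃ c : ℝ, 0 < c ∧ ∀ m : ℕ, 1 ≤ m → ∃ n : ℕ, c * (m : ℝ) ^ 2 ≤ n ∧
  (n : Cardinal) ≤ Module.rank ℂ (FKM K m)

/-- `K` is the function field of a triple K3 burger: a minimal surface `S` of general type with `q = 0`,
`p_g = 3` and pairwise commuting involutions `σ₀, σ₁, σ₂` whose quotients are birational to K3 surfaces, such that
`H⁰(S, ω_S)` is the direct sum of the three subspaces of `σⱼ`-invariant forms (equivalently, by duality,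
`⊕ H²(S/σⱼ, 𝒪) → H²(S, 𝒪)` is bijective). -/
structure IsTripleK3BurgerField : Prop extends IsSurfaceField K where
  q : FK1 K = ⊥
  pg : Module.finrank ℂ (FKM K 1) = 3
  gt : GeneralType K
  inv : ∃ σ : Fin 3 → (K ≃ₐ[ℂ] K), (∀ i, σ i ≠ 1) ∧ (∀ i, σ i * σ i = 1) ∧
    (∀ i j, σ i * σ j = σ j * σ i) ∧
    (∀ i, IsK3Field (IntermediateField.fixedField (Subgroup.zpowers (σ i)) : IntermediateField ℂ K)) ∧
    DirectSum.IsInternal (fun i => Inv (σ i))

end

end Pool.Agent.K3G
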