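import Pool.Agent.K3G.Core

/-!
# Forms of the first kind in one direction

`K ⊇ ℂ(x, z)`, `w² = f(x) g(z)`, `f` a quartic with simple roots, and enough embeddings in the direction `x`.
-/

set_option autoImplicit false

noncomputable section
namespace Pool.Agent.K3G

open Polynomial

variable {K : Type*} [Field K] [Algebra ℂ K]

/-- the field `ℂ(x, z)` -/
abbrev FF2 (x z : K) : IntermediateField ℂ K := IntermediateField.adjoin ℂ ({x, z} : Set K)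

/-- Orders of `w`, `w² = f(x) g(z)`: `2 ord Φ(w) = ord f(Y) + 0`. -/
theorem ord_w {x z w : K} {f g : ℂ[X]} (hg : g ≠ 0)
    (hw : w ^ 2 = aeval x f * aeval z g) {Y : LK} {Φ : K →ₐ[ℂ] LK} (hΦ : IsEmb x z Y Φ) {k : ℤ}
    (hk : ord (aeval Y f) = ((2 * k : ℤ) : WithTop ℤ)) : ord (Φ w) = (k : WithTop ℤ) := by
  obtain ⟨hx, hz⟩ := hΦ
  have e : (Φ w) ^ 2 = aeval Y f * con (aeval s g) := by
    rw [← map_pow, hw, map_mul, ← Polynomial.aeval_algHom_apply, ← Polynomial.aeval_algHom_apply, hx, hz,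
      aeval_con]
  have e2 : ord ((Φ w) ^ 2) = ((2 * k : ℤ) : WithTop ℤ) := by
    rw [e, ord_mul, hk, ord_con (aeval_s_ne_zero hg), add_zero]
  have hne : Φ w ≠ 0 := by
    intro h0
    rw [h0, zero_pow two_ne_zero, ord_zero] at e2
    exact WithTop.top_ne_coe e2
  obtain ⟨j, hj⟩ := exists_ord hne
  rw [ord_pow, hj] at e2
  rw [hj]
  have e3 : ((2 • j : ℤ) : WithTop ℤ) = ((2 * k : ℤ) : WithTop ℤ) := by
    rw [← e2]; rfl
  have e4 : (2 • j : ℤ) = 2 * k := WithTop.coe_injective e3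
  have : j = k := by
    rw [nsmul_eq_mul] at e4; push_cast at e4; linarith
  rw [this]

/-- bookkeeping for products: `B * C ∈ R`, order of `C` known -/
private theorem dir_lower {B C W : LK} {d k b : ℤ} (hR : 0 ≤ ord (B * C)) (hC : ord C = (d : WithTop ℤ))
    (hW : ord W = (k : WithTop ℤ)) (hb : b ≤ k - d) : (b : WithTop ℤ) ≤ ord (B * W) := by
  by_cases hB : B = 0
  · rw [hB, zero_mul, ord_zero]; exact le_top
  · obtain ⟨j, hj⟩ := exists_ord hB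
    rw [ord_mul, hj, hC, ← WithTop.coe_add] at hR
    have hR' : (0 : ℤ) ≤ j + d := by exact_mod_cast hR
    rw [ord_mul, hj, hW, ← WithTop.coe_add]
    have : b ≤ j + k := by linarith
    exact_mod_cast this

private theorem dir_pow {C : LK} {d : ℤ} (m : ℕ) (hC : ord C = (d : WithTop ℤ)) :
    ord (C ^ m) = ((m * d : ℤ) : WithTop ℤ) := by
  rw [ord_pow, hC]
  have : ((m • d : ℤ) : WithTop ℤ) = m • (d : WithTop ℤ) := WithTop.coe_nsmul d m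
  rw [← this, nsmul_eq_mul]

private theorem dir_ord_pt_pos (ξ : κ) {n : ℕ} (hn : 0 < n) : 0 < ord (pt ξ n - con ξ) := by
  rw [ord_pt_sub]; exact_mod_cast hn

private theorem dir_Dt1 (ξ : κ) : ord (Dt (pt ξ 1)) = ((0 : ℤ) : WithTop ℤ) := by
  rw [ord_Dt_pt one_pos]; rfl

private theorem dir_Dt2 (ξ : κ) : ord (Dt (pt ξ 2)) = ((1 : ℤ) : WithTop ℤ) := by
  rw [ord_Dt_pt two_pos]; rfl

/-- the order of `w` at a point with `f(ξ) ≠ 0` -/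
private theorem dir_w0 {x z w : K} {f g : ℂ[X]} (hf : Quartic f) (hg : g ≠ 0)
    (hw : w ^ 2 = aeval x f * aeval z g) {ξ : κ} (hξ : aeval ξ f ≠ 0) {n : ℕ} (hn : 0 < n)
    {Φ : K →ₐ[ℂ] LK} (hΦ : IsEmb x z (pt ξ n) Φ) : ord (Φ w) = ((0 : ℤ) : WithTop ℤ) := by
  refine ord_w hg hw hΦ (k := 0) ?_
  rw [hf.ord_of_ne (dir_ord_pt_pos ξ hn) hξ]; rfl

/-- the order of `w` at a root of `f` -/
private theorem dir_w1 {x z w : K} {f g : ℂ[X]} (hf : Quartic f) (hg : g ≠ 0)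
    (hw : w ^ 2 = aeval x f * aeval z g) {ξ : κ} (hξ : aeval ξ f = 0)
    {Φ : K →ₐ[ℂ] LK} (hΦ : IsEmb x z (pt ξ 2) Φ) : ord (Φ w) = ((1 : ℤ) : WithTop ℤ) := by
  refine ord_w hg hw hΦ (k := 1) ?_
  rw [hf.ord_of_root two_pos ord_pt_sub hξ]; rfl

/-- the order of `w` at infinity -/
private theorem dir_wi {x z w : K} {f g : ℂ[X]} (hf : Quartic f) (hg : g ≠ 0)
    (hw : w ^ 2 = aeval x f * aeval z g)
    {Φ : K →ₐ[ℂ] LK} (hΦ : IsEmb x z tau⁻¹ Φ) : ord (Φ w) = ((-2 : ℤ) : WithTop ℤ) := by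
  refine ord_w hg hw hΦ (k := -2) ?_
  rw [hf.ord_of_neg one_pos ord_inv_tau]; rfl

/-- **2-forms, the exponent `m`.**  `ω = A w⁻ᵐ (dx ∧ dz)ᵐ` of the first kind, `A ∈ ℂ(x, z)` implies `∂A/∂x = 0`.
Proof (`core_dx`): let `Φ` be an embedding with `x ↦ Y`.  `fkm_push`: `ord Φ(A) - m ord Φ(w) + m ord Dt(Y) ≥ 0`.
`Y = ξ + τ`, `f(ξ) ≠ 0`: `ord w = 0`, `ord Dt Y = 0`, so `ord Φ(A) ≥ 0 > -1`.
`Y = ξ + τ²`, `f(ξ) = 0`: `ord f(Y) = 2`, `ord w = 1`, `ord Dt Y = 1`: `ord Φ(A) ≥ 0 > -2`.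
third: `Y = ξ + τ²`, `f(ξ) ≠ 0`, `m = 1`: `ord w = 0`, `ord Dt Y = 1`: `ord Φ(A) ≥ -1 > -2`.
`Y = τ⁻¹`: `ord f(Y) = -4`, `ord w = -2`, `ord Dt Y = -2`: `ord Φ(A) ≥ 0`. -/
theorem two_form_const {x z w A : K} {dx dz : VF K} (c : Coord x z dx dz) {f g : ℂ[X]} (hf : Quartic f)
    (hg : g ≠ 0) (hw : w ^ 2 = aeval x f * aeval z g) {third : Prop} (hE : HasEmb x z f third)
    {m : ℕ} (hm : third → m = 1) (hA : A ∈ FF2 x z) {ω : VF K → VF K → K} (hω : ω ∈ FKM K m)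
    (h : ω dx dz * w ^ m = A) : dx A = 0 := by
  have key : ∀ {Y : LK} {Φ : K →ₐ[ℂ] LK}, IsEmb x z Y Φ → ∀ {d k b : ℤ},
      ord (Dt Y) = (d : WithTop ℤ) → ord (Φ w) = (k : WithTop ℤ) → b ≤ m * k - m * d →
      (b : WithTop ℤ) ≤ ord (Φ A) := by
    intro Y Φ hΦ d k b hd hk hb
    have hR := fkm_push c hΦ.2 hω
    rw [hΦ.1, mem_R] at hR
    have e : Φ A = Φ (ω dx dz) * (Φ w) ^ m := by rw [← h, map_mul, map_pow]
    rw [e]
    exact dir_lower hR (dir_pow m hd) (dir_pow m hk) hb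
  refine core_dx c hA ?_ ?_
  · intro ξ
    rcases hE.fin ξ with ⟨hξ, Φ, hΦ⟩ | ⟨hξ, Φ, hΦ⟩ | ⟨ht, hξ, Φ, hΦ⟩
    · refine ⟨1, one_pos, Φ, hΦ, ?_⟩
      have := key hΦ (dir_Dt1 ξ) (dir_w0 hf hg hw hξ one_pos hΦ) (b := 0) (by simp)
      refine lt_of_lt_of_le ?_ this
      exact_mod_cast (by norm_num : (-1 : ℤ) < 0)
    · refine ⟨2, two_pos, Φ, hΦ, ?_⟩
      have := key hΦ (dir_Dt2 ξ) (dir_w1 hf hg hw hξ hΦ) (b := 0) (by simp)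
      refine lt_of_lt_of_le ?_ this
      exact_mod_cast (by norm_num : (-2 : ℤ) < 0)
    · refine ⟨2, two_pos, Φ, hΦ, ?_⟩
      have hm1 := hm ht
      have := key hΦ (dir_Dt2 ξ) (dir_w0 hf hg hw hξ two_pos hΦ) (b := -1) (by rw [hm1]; norm_num)
      refine lt_of_lt_of_le ?_ this
      exact_mod_cast (by norm_num : (-2 : ℤ) < -1)
  · obtain ⟨Φ, hΦ⟩ := hE.inf
    refine ⟨Φ, hΦ, ?_⟩
    have := key hΦ ord_Dt_inv_tau (dir_wi hf hg hw hΦ) (b := 0) (by simp)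
    exact_mod_cast this

/-- **2-forms, the exponent `m - 1`.**  `ω = A w^{-r} (dx ∧ dz)^{r+1}` of the first kind, `A ∈ ℂ(x,z)` implies
`A = 0`.
Proof (`core_zero`, `S = ∅`): `ord Φ(A) - r ord Φ(w) + (r+1) ord Dt(Y) ≥ 0`.
`Y = ξ + τ`, `f(ξ) ≠ 0`: `ord Φ(A) ≥ 0`.  `Y = ξ + τ²`, `f(ξ) = 0`: `ord Φ(A) - r + r + 1 ≥ 0`, so `≥ -1 > -2`.
third, `r = 0`: `ord Φ(A) ≥ -1 > -2`.  `Y = τ⁻¹`: `ord Φ(A) + 2 r - 2 (r+1) ≥ 0`, so `ord Φ(A) ≥ 2 > 0`.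
(`w` is only used through `w ^ r`; `w ≠ 0` since `ord_w`.) -/
theorem two_form_zero {x z w A : K} {dx dz : VF K} (c : Coord x z dx dz) {f g : ℂ[X]} (hf : Quartic f)
    (hg : g ≠ 0) (hw : w ^ 2 = aeval x f * aeval z g) {third : Prop} (hE : HasEmb x z f third)
    {r : ℕ} (hm : third → r = 0) (hA : A ∈ FF2 x z) {ω : VF K → VF K → K} (hω : ω ∈ FKM K (r + 1))
    (h : ω dx dz * w ^ r = A) : A = 0 := by
  have key : ∀ {Y : LK} {Φ : K →ₐ[ℂ] LK}, IsEmb x z Y Φ → ∀ {d k b : ℤ},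
      ord (Dt Y) = (d : WithTop ℤ) → ord (Φ w) = (k : WithTop ℤ) → b ≤ r * k - (r + 1) * d →
      (b : WithTop ℤ) ≤ ord (Φ A) := by
    intro Y Φ hΦ d k b hd hk hb
    have hR := fkm_push c hΦ.2 hω
    rw [hΦ.1, mem_R] at hR
    have e : Φ A = Φ (ω dx dz) * (Φ w) ^ r := by rw [← h, map_mul, map_pow]
    rw [e]
    refine dir_lower hR (dir_pow (r + 1) hd) (dir_pow r hk) ?_
    push_cast
    exact hb
  refine core_zero c.tb hA ?_ ∅ (by simp) ?_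
  · intro ξ
    rcases hE.fin ξ with ⟨hξ, Φ, hΦ⟩ | ⟨hξ, Φ, hΦ⟩ | ⟨ht, hξ, Φ, hΦ⟩
    · refine ⟨1, one_pos, Φ, hΦ, ?_⟩
      have := key hΦ (dir_Dt1 ξ) (dir_w0 hf hg hw hξ one_pos hΦ) (b := 0) (by simp)
      refine lt_of_lt_of_le ?_ this
      exact_mod_cast (by norm_num : (-1 : ℤ) < 0)
    · refine ⟨2, two_pos, Φ, hΦ, ?_⟩
      have := key hΦ (dir_Dt2 ξ) (dir_w1 hf hg hw hξ hΦ) (b := -1) (by simp)
      refine lt_of_lt_of_le ?_ this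
      exact_mod_cast (by norm_num : (-2 : ℤ) < -1)
    · refine ⟨2, two_pos, Φ, hΦ, ?_⟩
      have hm1 := hm ht
      have := key hΦ (dir_Dt2 ξ) (dir_w0 hf hg hw hξ two_pos hΦ) (b := -1) (by rw [hm1]; norm_num)
      refine lt_of_lt_of_le ?_ this
      exact_mod_cast (by norm_num : (-2 : ℤ) < -1)
  · obtain ⟨Φ, hΦ⟩ := hE.inf
    refine ⟨Φ, hΦ, ?_⟩
    have := key hΦ ord_Dt_inv_tau (dir_wi hf hg hw hΦ) (b := 2) (by linarith)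
    refine lt_of_lt_of_le ?_ this
    simp only [Finset.card_empty, Nat.cast_zero, neg_zero]
    exact_mod_cast (by norm_num : (0 : ℤ) < 2)

/-- **1-forms without `w`.**  `ω(∂x) = A ∈ ℂ(x, z)` implies `A = 0`.
Proof (`core_zero`, `S = ∅`; `fk1_push`): `ord Φ(A) + ord Dt(Y) ≥ 0`: `≥ 0` at `ξ + τ`, `≥ -1 > -2` at
`ξ + τ²`, `≥ 2` at `∞`. -/
theorem one_form_zero0 {x z : K} {dx dz : VF K} (c : Coord x z dx dz) {f : ℂ[X]} {third : Prop}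
    (hE : HasEmb x z f third) {ω : VF K → K} (hω : ω ∈ FK1 K) (hA : ω dx ∈ FF2 x z) : ω dx = 0 := by
  have key : ∀ {Y : LK} {Φ : K →ₐ[ℂ] LK}, IsEmb x z Y Φ → ∀ {d b : ℤ},
      ord (Dt Y) = (d : WithTop ℤ) → b ≤ - d → (b : WithTop ℤ) ≤ ord (Φ (ω dx)) := by
    intro Y Φ hΦ d b hd hb
    have hR := (fk1_push c hΦ.2 hω).1
    rw [hΦ.1, mem_R] at hR
    have := dir_lower (W := 1) (k := 0) (b := b) hR hd (by rw [ord_one]; rfl) (by linarith)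
    rwa [mul_one] at this
  refine core_zero c.tb hA ?_ ∅ (by simp) ?_
  · intro ξ
    rcases hE.fin ξ with ⟨hξ, Φ, hΦ⟩ | ⟨hξ, Φ, hΦ⟩ | ⟨ht, hξ, Φ, hΦ⟩
    · refine ⟨1, one_pos, Φ, hΦ, ?_⟩
      refine lt_of_lt_of_le ?_ (key hΦ (dir_Dt1 ξ) (b := 0) (by simp))
      exact_mod_cast (by norm_num : (-1 : ℤ) < 0)
    · refine ⟨2, two_pos, Φ, hΦ, ?_⟩
      refine lt_of_lt_of_le ?_ (key hΦ (dir_Dt2 ξ) (b := -1) (by simp))
      exact_mod_cast (by norm_num : (-2 : ℤ) < -1)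
    · refine ⟨2, two_pos, Φ, hΦ, ?_⟩
      refine lt_of_lt_of_le ?_ (key hΦ (dir_Dt2 ξ) (b := -1) (by simp))
      exact_mod_cast (by norm_num : (-2 : ℤ) < -1)
  · obtain ⟨Φ, hΦ⟩ := hE.inf
    refine ⟨Φ, hΦ, ?_⟩
    refine lt_of_lt_of_le ?_ (key hΦ ord_Dt_inv_tau (b := 2) (by simp))
    simp only [Finset.card_empty, Nat.cast_zero, neg_zero]
    exact_mod_cast (by norm_num : (0 : ℤ) < 2)

private theorem dir_ord_con (a : κ) : 0 ≤ ord (con a) := con_mem_R a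

/-- a factor of a constant by an element of order `0` is integral -/
private theorem dir_int {B W : LK} {a : κ} (h : B * W = con a) (hW : ord W = ((0 : ℤ) : WithTop ℤ)) :
    0 ≤ ord B := by
  have e := dir_ord_con a
  rw [← h, ord_mul, hW] at e
  simpa using e

/-- **1-forms with `w`.**  `ω = (A dx + C dz)/w` of the first kind with `A, C ∈ ℂ(x, z)` implies `C = 0`.
Proof.  Step 1 (`core_const` for `A`): `ord Φ(A) - ord Φ(w) + ord Dt(Y) ≥ 0` as in `two_form_const` with `m = 1`;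
so there is `a ∈ κ` with `Φ(A) = con a` for all embeddings.
Step 2 (`core_zero` for `C`, `S` = the four roots of `f` in `κ`, `Quartic.exists_roots`):
`Φ(A/w) Dd(Y) + Φ(C/w) ∈ R`.  `Y = ξ + τⁿ`, `f(ξ) ≠ 0`: `ord Φ(w) = 0`, so `Φ(A/w) ∈ R`, `Dd Y = con (δ ξ) ∈ R`,
hence `ord Φ(C) ≥ 0 > -n`.  `Y = ξ + τ²`, `f(ξ) = 0`: `δ ξ = 0` (`Quartic.δ_root`), so `Φ(C/w) ∈ R`,
`ord Φ(C) ≥ ord Φ(w) = 1 > 0`.  `Y = τ⁻¹`: `Dd Y = 0`, so `ord Φ(C) ≥ ord Φ(w) = -2 > -4`. -/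
theorem one_form_zero1 {x z w : K} {dx dz : VF K} (c : Coord x z dx dz) {f g : ℂ[X]} (hf : Quartic f)
    (hg : g ≠ 0) (hw : w ^ 2 = aeval x f * aeval z g) {third : Prop} (hE : HasEmb x z f third)
    {ω : VF K → K} (hω : ω ∈ FK1 K) (hA : ω dx * w ∈ FF2 x z) (hC : ω dz * w ∈ FF2 x z) :
    ω dz = 0 := by
  have key : ∀ {Y : LK} {Φ : K →ₐ[ℂ] LK}, IsEmb x z Y Φ → ∀ {d k b : ℤ},
      ord (Dt Y) = (d : WithTop ℤ) → ord (Φ w) = (k : WithTop ℤ) → b ≤ k - d →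
      (b : WithTop ℤ) ≤ ord (Φ (ω dx * w)) := by
    intro Y Φ hΦ d k b hd hk hb
    have hR := (fk1_push c hΦ.2 hω).1
    rw [hΦ.1, mem_R] at hR
    rw [map_mul]
    exact dir_lower hR hd hk hb
  obtain ⟨a, ha⟩ : ∃ a : κ, ∀ Φ : K →ₐ[ℂ] LK, Φ z = con s → Φ x ∉ con.range → Φ (ω dx * w) = con a := by
    refine core_const c.tb hA ?_ ?_
    · intro ξ
      rcases hE.fin ξ with ⟨hξ, Φ, hΦ⟩ | ⟨hξ, Φ, hΦ⟩ | ⟨ht, hξ, Φ, hΦ⟩
      · refine ⟨1, one_pos, Φ, hΦ, ?_⟩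
        refine lt_of_lt_of_le ?_
          (key hΦ (dir_Dt1 ξ) (dir_w0 hf hg hw hξ one_pos hΦ) (b := 0) (by simp))
        exact_mod_cast (by norm_num : (-1 : ℤ) < 0)
      · refine ⟨2, two_pos, Φ, hΦ, ?_⟩
        refine lt_of_lt_of_le ?_
          (key hΦ (dir_Dt2 ξ) (dir_w1 hf hg hw hξ hΦ) (b := 0) (by simp))
        exact_mod_cast (by norm_num : (-2 : ℤ) < 0)
      · refine ⟨2, two_pos, Φ, hΦ, ?_⟩
        refine lt_of_lt_of_le ?_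
          (key hΦ (dir_Dt2 ξ) (dir_w0 hf hg hw hξ two_pos hΦ) (b := -1) (by simp))
        exact_mod_cast (by norm_num : (-2 : ℤ) < -1)
    · obtain ⟨Φ, hΦ⟩ := hE.inf
      refine ⟨Φ, hΦ, ?_⟩
      have := key hΦ ord_Dt_inv_tau (dir_wi hf hg hw hΦ) (b := 0) (by simp)
      exact_mod_cast this
  -- the second relation
  have key2 : ∀ {Y : LK} {Φ : K →ₐ[ℂ] LK}, IsEmb x z Y Φ → ∀ {k : ℤ},
      0 ≤ ord (Φ (ω dx) * Dd Y) → ord (Φ w) = (k : WithTop ℤ) →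
      (k : WithTop ℤ) ≤ ord (Φ (ω dz * w)) := by
    intro Y Φ hΦ k h1 hk
    have hR := (fk1_push c hΦ.2 hω).2
    rw [hΦ.1] at hR
    have h2 : Φ (ω dz) ∈ R := by
      have e : Φ (ω dz) = (Φ (ω dx) * Dd Y + Φ (ω dz)) - Φ (ω dx) * Dd Y := by ring
      rw [e]
      exact R.sub_mem hR h1
    rw [map_mul]
    refine dir_lower (C := 1) (d := 0) (by rw [mul_one]; exact h2) (by rw [ord_one]; rfl) hk (by simp)
  have fin0 : ∀ {ξ : κ} {n : ℕ} {Φ : K →ₐ[ℂ] LK}, 0 < n → aeval ξ f ≠ 0 → IsEmb x z (pt ξ n) Φ →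
      ((0 : ℤ) : WithTop ℤ) ≤ ord (Φ (ω dz * w)) := by
    intro ξ n Φ hn hξ hΦ
    have hw0 := dir_w0 hf hg hw hξ hn hΦ
    have hB : 0 ≤ ord (Φ (ω dx)) := by
      refine dir_int (W := Φ w) (a := a) ?_ hw0
      rw [← map_mul]
      exact ha Φ hΦ.2 (by rw [hΦ.1]; exact pt_not_mem hn)
    refine key2 hΦ ?_ hw0
    rw [Dd_pt]
    exact R.mul_mem _ _ hB (con_mem_R _)
  have fin1 : ∀ {ξ : κ} {Φ : K →ₐ[ℂ] LK}, aeval ξ f = 0 → IsEmb x z (pt ξ 2) Φ →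
      ((1 : ℤ) : WithTop ℤ) ≤ ord (Φ (ω dz * w)) := by
    intro ξ Φ hξ hΦ
    refine key2 hΦ ?_ (dir_w1 hf hg hw hξ hΦ)
    rw [Dd_pt, hf.δ_root hξ, map_zero, mul_zero, ord_zero]
    exact le_top
  have hzero : ω dz * w = 0 := by
    obtain ⟨S, hS4, hSr⟩ := hf.exists_roots
    refine core_zero c.tb hC ?_ S ?_ ?_
    · intro ξ
      rcases hE.fin ξ with ⟨hξ, Φ, hΦ⟩ | ⟨hξ, Φ, hΦ⟩ | ⟨ht, hξ, Φ, hΦ⟩
      · refine ⟨1, one_pos, Φ, hΦ, lt_of_lt_of_le ?_ (fin0 one_pos hξ hΦ)⟩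
        exact_mod_cast (by norm_num : (-1 : ℤ) < 0)
      · refine ⟨2, two_pos, Φ, hΦ, lt_of_lt_of_le ?_ (fin1 hξ hΦ)⟩
        exact_mod_cast (by norm_num : (-2 : ℤ) < 1)
      · refine ⟨2, two_pos, Φ, hΦ, lt_of_lt_of_le ?_ (fin0 two_pos hξ hΦ)⟩
        exact_mod_cast (by norm_num : (-2 : ℤ) < 0)
    · intro ξ hξS
      have hξ := hSr ξ hξS
      rcases hE.fin ξ with ⟨hξ', _⟩ | ⟨_, Φ, hΦ⟩ | ⟨_, hξ', _⟩
      · exact absurd hξ hξ'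
      · refine ⟨2, two_pos, Φ, hΦ, lt_of_lt_of_le ?_ (fin1 hξ hΦ)⟩
        exact_mod_cast (by norm_num : (0 : ℤ) < 1)
      · exact absurd hξ hξ'
    · obtain ⟨Φ, hΦ⟩ := hE.inf
      refine ⟨Φ, hΦ, ?_⟩
      have := key2 hΦ (by rw [Dd_inv_tau, mul_zero, ord_zero]; exact le_top) (dir_wi hf hg hw hΦ)
      refine lt_of_lt_of_le ?_ this
      rw [hS4]
      exact_mod_cast (by norm_num : (-4 : ℤ) < -2)
  have hw' : w ≠ 0 := by
    intro h0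
    obtain ⟨Φ, hΦ⟩ := hE.inf
    have := dir_wi hf hg hw hΦ
    rw [h0, map_zero, ord_zero] at this
    exact WithTop.top_ne_coe this
  rcases mul_eq_zero.mp hzero with h | h
  · exact h
  · exact absurd h hw'

end Pool.Agent.K3G
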