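import Pool.Agent.K3G.Defs
import Pool.Agent.K3G.DerExt

/-!
# Derivations of a field with prescribed values on a transcendence basis
-/

set_option autoImplicit false

noncomputable section
namespace Pool.Agent.K3G

open TensorProduct

variable {K : Type*} [Field K] [Algebra ℂ K]

private theorem exists_der_etale {C A L : Type*} [Field C] [CommRing A] [Field L] [Algebra C A]
    [Algebra A L] [Algebra C L] [IsScalarTower C A L] [Algebra.FormallyEtale A L]
    (d : Derivation C A L) : ∃ D : Derivation C L L, ∀ x : A, D (algebraMap A L x) = d x := by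
  let e := KaehlerDifferential.tensorKaehlerEquivOfFormallyEtale C A L
  let φ : L ⊗[A] Ω[A⁄C] →ₗ[L] L := LinearMap.liftBaseChange L d.liftKaehlerDifferential
  let ψ : Ω[L⁄C] →ₗ[L] L := φ ∘ₗ e.symm.toLinearMap
  refine ⟨ψ.compDer (KaehlerDifferential.D C L), ?_⟩
  intro x
  have h1 : e.symm (KaehlerDifferential.D C L (algebraMap A L x)) =
      1 ⊗ₜ KaehlerDifferential.D C A x :=
    KaehlerDifferential.tensorKaehlerEquivOfFormallyEtale_symm_D_algebraMap C A L x
  change φ (e.symm (KaehlerDifferential.D C L (algebraMap A L x))) = d x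
  rw [h1]
  simp [φ]

/-- **Existence.** Derivations with prescribed values on a transcendence basis.
Proof: `A := MvPolynomial ι ℂ` acts on `K` by `aeval v` (injective); `K` is formally étale over `A`
(localisation `A → FractionRing A`, then an algebraic separable extension, `Algebra.FormallyEtale.comp`,
`Algebra.FormallyEtale.of_isSeparable`, `Algebra.FormallyEtale.of_isLocalization`), so
`MvPolynomial.mkDerivation` with values in `K` extends (`K3G.existsUnique_der` argument). -/
theorem exists_der_basis {ι : Type*} {v : ι → K} (hv : IsTranscendenceBasis ℂ v) (d : ι → K) :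
    ∃ D : Derivation ℂ K K, ∀ i, D (v i) = d i := by
  have hinj : Function.Injective (MvPolynomial.aeval v : MvPolynomial ι ℂ →ₐ[ℂ] K) :=
    algebraicIndependent_iff_injective_aeval.1 hv.1
  let _ : Algebra (MvPolynomial ι ℂ) K := (MvPolynomial.aeval v : MvPolynomial ι ℂ →ₐ[ℂ] K).toRingHom.toAlgebra
  have _ : IsScalarTower ℂ (MvPolynomial ι ℂ) K :=
    IsScalarTower.of_algebraMap_eq fun c => ((MvPolynomial.aeval v : MvPolynomial ι ℂ →ₐ[ℂ] K).commutes c).symm
  let _ : Algebra (FractionRing (MvPolynomial ι ℂ)) K := (IsFractionRing.lift hinj).toAlgebra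
  have _ : IsScalarTower (MvPolynomial ι ℂ) (FractionRing (MvPolynomial ι ℂ)) K :=
    IsScalarTower.of_algebraMap_eq fun a => (IsFractionRing.lift_algebraMap hinj a).symm
  have halg0 := hv.isAlgebraic_field
  have _ : Algebra.IsAlgebraic (FractionRing (MvPolynomial ι ℂ)) K := by
    constructor
    intro a
    have h0 : IsAlgebraic (IntermediateField.adjoin ℂ (Set.range v)) ((RingHom.id K) a) := halg0.isAlgebraic a
    refine IsAlgebraic.of_ringHom_of_comp_eq (R := FractionRing (MvPolynomial ι ℂ)) hv.1.aevalEquivField.toRingEquiv.toRingHom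
      (RingHom.id K) h0 ?_ ?_ ?_
    · exact hv.1.aevalEquivField.surjective
    · exact Function.injective_id
    · exact RingHom.ext fun a => (hv.1.aevalEquivField_apply_coe a)
  have _ : Algebra.FormallyEtale (FractionRing (MvPolynomial ι ℂ)) K := Algebra.FormallyEtale.of_isSeparable _ _
  have _ : Algebra.FormallyEtale (MvPolynomial ι ℂ) (FractionRing (MvPolynomial ι ℂ)) :=
    Algebra.FormallyEtale.of_isLocalization (nonZeroDivisors (MvPolynomial ι ℂ))
  have _ : Algebra.FormallyEtale (MvPolynomial ι ℂ) K :=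
    Algebra.FormallyEtale.comp _ (FractionRing (MvPolynomial ι ℂ)) _
  obtain ⟨D, hD⟩ := exists_der_etale (MvPolynomial.mkDerivation ℂ d : Derivation ℂ (MvPolynomial ι ℂ) K)
  refine ⟨D, fun i => ?_⟩
  have h1 := hD (MvPolynomial.X i)
  rw [MvPolynomial.mkDerivation_X] at h1
  rw [← h1]
  congr 1
  exact (MvPolynomial.aeval_X v i).symm

/-- **Constants.** An element killed by all `ℂ`-derivations is in `ℂ`.
Proof: otherwise it is transcendental over the algebraically closed field `ℂ`, hence part of a transcendence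
basis (`exists_isTranscendenceBasis_superset` or similar), and `exists_der_basis` gives a derivation with value `1`
at it. -/
theorem mem_const (A : K) (h : ∀ X : VF K, X A = 0) : ∃ c : ℂ, algebraMap ℂ K c = A := by
  by_cases hA : IsAlgebraic ℂ A
  · have h1 : IsIntegral ℂ A := hA.isIntegral
    have h2 : (minpoly ℂ A).degree = 1 :=
      IsAlgClosed.degree_eq_one_of_irreducible ℂ (minpoly.irreducible h1)
    exact minpoly.mem_range_of_degree_eq_one ℂ A h2
  · exfalso
    have hs : AlgebraicIndepOn ℂ id ({A} : Set K) := by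
      have h3 : Subsingleton ({A} : Set K) := inferInstance
      exact (algebraicIndependent_singleton_iff (⟨A, rfl⟩ : ({A} : Set K))).2 hA
    obtain ⟨t, hst, ht⟩ := exists_isTranscendenceBasis_superset hs
    obtain ⟨D, hD⟩ := exists_der_basis ht (fun _ => 1)
    have h1 := hD ⟨A, hst rfl⟩
    change D A = 1 at h1
    rw [h D] at h1
    exact zero_ne_one h1

/-- **Uniqueness of derivations along a map.** `D₁, D₂ : K → L` derivations over `Φ : K → L`
which agree at `x` and `z`; `K` algebraic over `ℂ(x, z)`.  Then `D₁ = D₂`.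
Proof: make `L` a `K`-module through `Φ` and use `K3G.der_ext` with `F = ℂ(x,z)`; on `F` use the induction
principle of `IntermediateField.adjoin` (`IntermediateField.adjoin_induction`), where the agreement at inverses follows
from the Leibniz rule. -/
theorem semi_der_ext {L : Type*} [Field L] [Algebra ℂ L] (Φ : K →ₐ[ℂ] L) {x z : K}
    (hb : IsTranscendenceBasis ℂ ![x, z]) (D₁ D₂ : K →ₗ[ℂ] L)
    (h₁ : ∀ a b, D₁ (a * b) = Φ a * D₁ b + Φ b * D₁ a)
    (h₂ : ∀ a b, D₂ (a * b) = Φ a * D₂ b + Φ b * D₂ a)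
    (hx : D₁ x = D₂ x) (hz : D₁ z = D₂ z) : D₁ = D₂ := by
  let _ : Module K L := Module.compHom L Φ.toRingHom
  let E₁ : Derivation ℂ K L := Derivation.mk' D₁ (fun a b => h₁ a b)
  let E₂ : Derivation ℂ K L := Derivation.mk' D₂ (fun a b => h₂ a b)
  have halg : Algebra.IsAlgebraic (IntermediateField.adjoin ℂ (Set.range ![x, z])) K := hb.isAlgebraic_field
  have _ : IsScalarTower (IntermediateField.adjoin ℂ (Set.range ![x, z])) K L := ⟨fun a b c => by
    change Φ ((a : K) * b) * c = Φ a * (Φ b * c)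
    rw [map_mul, mul_assoc]⟩
  have hag : ∀ a (ha : a ∈ IntermediateField.adjoin ℂ (Set.range ![x, z])), D₁ a = D₂ a := by
    intro a ha
    induction ha using IntermediateField.adjoin_induction with
    | mem y hy =>
      obtain ⟨i, rfl⟩ := hy
      fin_cases i
      · exact hx
      · exact hz
    | algebraMap c =>
      have e1 : E₁ (algebraMap ℂ K c) = 0 := E₁.map_algebraMap c
      have e2 : E₂ (algebraMap ℂ K c) = 0 := E₂.map_algebraMap c
      change E₁ (algebraMap ℂ K c) = E₂ (algebraMap ℂ K c)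
      rw [e1, e2]
    | add a b _ _ ha hb => rw [map_add, map_add, ha, hb]
    | inv a _ ha =>
      by_cases h0 : a = 0
      · simp [h0]
      · have e1 : D₁ (a * a⁻¹) = D₂ (a * a⁻¹) := by
          rw [mul_inv_cancel₀ h0]
          have e1 : E₁ 1 = 0 := E₁.map_one_eq_zero
          have e2 : E₂ 1 = 0 := E₂.map_one_eq_zero
          change E₁ 1 = E₂ 1
          rw [e1, e2]
        rw [h₁, h₂, ha] at e1
        have e2 := add_right_cancel e1
        exact mul_left_cancel₀ ((map_ne_zero Φ).2 h0) e2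
    | mul a b _ _ ha hb => rw [h₁, h₂, ha, hb]
  have hE : E₁ = E₂ := _root_.K3G.der_ext (F := IntermediateField.adjoin ℂ (Set.range ![x, z]))
    (fun a => hag a a.2)
  ext a
  exact congrArg (fun E : Derivation ℂ K L => E a) hE

/-- `x, z` is a transcendence basis of `K / ℂ` and `dx`, `dz` are the dual vector fields
(`∂/∂x` and `∂/∂z`) -/
structure Coord (x z : K) (dx dz : VF K) : Prop where
  tb : IsTranscendenceBasis ℂ ![x, z]
  xx : dx x = 1
  xz : dx z = 0
  zx : dz x = 0
  zz : dz z = 1

/-- swapping the coordinates -/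
theorem Coord.symm {x z : K} {dx dz : VF K} (c : Coord x z dx dz) : Coord z x dz dx := by
  refine ⟨?_, c.zz, c.zx, c.xz, c.xx⟩
  have h1 : (![z, x] : Fin 2 → K) = ![x, z] ∘ (Equiv.swap (0 : Fin 2) 1) := by
    funext i
    fin_cases i
    · simp
    · simp
  rw [h1]
  exact (isTranscendenceBasis_equiv (Equiv.swap (0 : Fin 2) 1)).2 c.tb

/-- dual vector fields exist -/
theorem exists_coord {x z : K} (hb : IsTranscendenceBasis ℂ ![x, z]) :
    ∃ dx dz : VF K, Coord x z dx dz := by
  obtain ⟨dx, hdx⟩ := exists_der_basis hb ![1, 0]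
  obtain ⟨dz, hdz⟩ := exists_der_basis hb ![0, 1]
  exact ⟨dx, dz, hb, hdx 0, hdx 1, hdz 0, hdz 1⟩

/-- every vector field is a combination of `∂/∂x`, `∂/∂z` (from `semi_der_ext` with `Φ = id`) -/
theorem Coord.eq_comb {x z : K} {dx dz : VF K} (c : Coord x z dx dz) (X : VF K) :
    X = X x • dx + X z • dz := by
  have h1 : (X : K →ₗ[ℂ] K) = ((X x • dx + X z • dz : VF K) : K →ₗ[ℂ] K) := by
    refine semi_der_ext (AlgHom.id ℂ K) c.tb _ _ (fun a b => ?_) (fun a b => ?_) ?_ ?_
    · exact X.leibniz a b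
    · exact (X x • dx + X z • dz : VF K).leibniz a b
    · change X x = X x * dx x + X z * dz x
      rw [c.xx, c.zx]
      ring
    · change X z = X x * dx z + X z * dz z
      rw [c.xz, c.zz]
      ring
  ext a
  exact congrArg (fun E : K →ₗ[ℂ] K => E a) h1

theorem Coord.apply {x z : K} {dx dz : VF K} (c : Coord x z dx dz) (X : VF K) (a : K) :
    X a = X x * dx a + X z * dz a :=
  congrArg (fun E : VF K => E a) (c.eq_comb X)

/-- if `∂A/∂x = ∂A/∂z = 0` then `A ∈ ℂ` -/
theorem Coord.mem_const {x z : K} {dx dz : VF K} (c : Coord x z dx dz) {A : K} (hx : dx A = 0)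
    (hz : dz A = 0) : ∃ a : ℂ, algebraMap ℂ K a = A := by
  refine K3G.mem_const A fun X => ?_
  rw [c.apply X A, hx, hz, mul_zero, mul_zero, add_zero]

private theorem reg1_top_apply {x z : K} {dx dz : VF K} (c : Coord x z dx dz) {ω : VF K → K}
    (h : ω ∈ Reg1 (⊤ : ValuationSubring K)) (X : VF K) : ω X = X x * ω dx + X z * ω dz := by
  induction h using AddSubgroup.closure_induction with
  | mem ω h =>
    obtain ⟨e, _, a, _, rfl⟩ := h
    change e * X a = X x * (e * dx a) + X z * (e * dz a)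
    rw [c.apply X a]
    ring
  | zero => simp
  | add ω ω' _ _ h h' =>
    rw [Pi.add_apply, Pi.add_apply, Pi.add_apply, h, h']
    ring
  | neg ω _ h =>
    rw [Pi.neg_apply, Pi.neg_apply, Pi.neg_apply, h]
    ring

/-- a form of the first kind is determined by its values on `∂/∂x`, `∂/∂z`.
Proof: `⊤` is a valuation ring containing `ℂ`; closure induction on `Reg1`. -/
theorem Coord.fk1_apply {x z : K} {dx dz : VF K} (c : Coord x z dx dz) {ω : VF K → K}
    (hω : ω ∈ FK1 K) (X : VF K) : ω X = X x * ω dx + X z * ω dz :=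
  reg1_top_apply c (hω ⊤ (fun _ => trivial)) X

private theorem regM_top_apply {x z : K} {dx dz : VF K} (c : Coord x z dx dz) {m : ℕ}
    {ω : VF K → VF K → K} (h : ω ∈ RegM (⊤ : ValuationSubring K) m) (X Y : VF K) :
    ω X Y = ω dx dz * (X x * Y z - X z * Y x) ^ m := by
  induction h using AddSubgroup.closure_induction with
  | mem ω h =>
    obtain ⟨e, _, a, b, _, _, rfl⟩ := h
    change e * ∏ i, (X (a i) * Y (b i) - X (b i) * Y (a i)) =
      (e * ∏ i, (dx (a i) * dz (b i) - dx (b i) * dz (a i))) * (X x * Y z - X z * Y x) ^ m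
    have h1 : ∀ i, X (a i) * Y (b i) - X (b i) * Y (a i) =
        (dx (a i) * dz (b i) - dx (b i) * dz (a i)) * (X x * Y z - X z * Y x) := by
      intro i
      rw [c.apply X (a i), c.apply X (b i), c.apply Y (a i), c.apply Y (b i)]
      ring
    rw [Finset.prod_congr rfl fun i _ => h1 i, Finset.prod_mul_distrib, Finset.prod_const, Finset.card_univ,
      Fintype.card_fin, mul_assoc]
  | zero => simp
  | add ω ω' _ _ h h' =>
    rw [Pi.add_apply, Pi.add_apply, Pi.add_apply, Pi.add_apply, h, h']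
    ring
  | neg ω _ h =>
    rw [Pi.neg_apply, Pi.neg_apply, Pi.neg_apply, Pi.neg_apply, h]
    ring

theorem Coord.fkm_apply {x z : K} {dx dz : VF K} (c : Coord x z dx dz) {m : ℕ}
    {ω : VF K → VF K → K} (hω : ω ∈ FKM K m) (X Y : VF K) :
    ω X Y = ω dx dz * (X x * Y z - X z * Y x) ^ m :=
  regM_top_apply c (hω ⊤ (fun _ => trivial)) X Y

/-- a one-form of the first kind with `ω(∂x) = ω(∂z) = 0` is zero -/
theorem Coord.fk1_eq_zero {x z : K} {dx dz : VF K} (c : Coord x z dx dz) {ω : VF K → K}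
    (hω : ω ∈ FK1 K) (h1 : ω dx = 0) (h2 : ω dz = 0) : ω = 0 := by
  funext X
  rw [c.fk1_apply hω X, h1, h2]
  simp

theorem Coord.fkm_ext {x z : K} {dx dz : VF K} (c : Coord x z dx dz) {m : ℕ}
    {ω ω' : VF K → VF K → K} (hω : ω ∈ FKM K m) (hω' : ω' ∈ FKM K m) (h : ω dx dz = ω' dx dz) :
    ω = ω' := by
  funext X Y
  rw [c.fkm_apply hω X Y, c.fkm_apply hω' X Y, h]

private theorem conj_eq_self {x z : K} {dx dz : VF K} (c : Coord x z dx dz) (σ : K ≃ₐ[ℂ] K)
    (hx : σ x = x) (hz : σ z = z) : conj σ dx = dx ∧ conj σ dz = dz := by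
  have hx' : σ.symm x = x := by rw [AlgEquiv.symm_apply_eq, hx]
  have hz' : σ.symm z = z := by rw [AlgEquiv.symm_apply_eq, hz]
  constructor
  · rw [c.eq_comb (conj σ dx), conj_apply, conj_apply, hx', hz', c.xx, c.xz, map_one, map_zero,
      one_smul, zero_smul, add_zero]
  · rw [c.eq_comb (conj σ dz), conj_apply, conj_apply, hx', hz', c.zx, c.zz, map_one, map_zero,
      one_smul, zero_smul, zero_add]

/-- action of automorphisms which fix `x` and `z` on the coefficient of a one-form -/
theorem Coord.conj_eq {x z : K} {dx dz : VF K} (c : Coord x z dx dz) (σ : K ≃ₐ[ℂ] K) (hx : σ x = x)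
    (hz : σ z = z) : conj σ dx = dx ∧ conj σ dz = dz ∧ conj σ.symm dx = dx ∧ conj σ.symm dz = dz := by
  have hx' : σ.symm x = x := by rw [AlgEquiv.symm_apply_eq, hx]
  have hz' : σ.symm z = z := by rw [AlgEquiv.symm_apply_eq, hz]
  have h1 := conj_eq_self c σ hx hz
  have h2 := conj_eq_self c σ.symm hx' hz'
  exact ⟨h1.1, h1.2, h2.1, h2.2⟩

theorem Coord.act1_dx {x z : K} {dx dz : VF K} (c : Coord x z dx dz) (σ : K ≃ₐ[ℂ] K) (hx : σ x = x)
    (hz : σ z = z) (ω : VF K → K) : act1 σ ω dx = σ (ω dx) ∧ act1 σ ω dz = σ (ω dz) := by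
  obtain ⟨_, _, h1, h2⟩ := c.conj_eq σ hx hz
  rw [act1, act1, h1, h2]
  exact ⟨rfl, rfl⟩

theorem Coord.actM_dxdz {x z : K} {dx dz : VF K} (c : Coord x z dx dz) (σ : K ≃ₐ[ℂ] K) (hx : σ x = x)
    (hz : σ z = z) (ω : VF K → VF K → K) : actM σ ω dx dz = σ (ω dx dz) := by
  obtain ⟨_, _, h1, h2⟩ := c.conj_eq σ hx hz
  rw [actM, h1, h2]

/-! ### Forms of the first kind are permuted by automorphisms -/

private theorem hasC_comap (σ : K ≃ₐ[ℂ] K) {O : ValuationSubring K} (hO : HasC O) :
    HasC (O.comap σ.toRingEquiv.toRingHom) := by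
  intro c
  change σ (algebraMap ℂ K c) ∈ O
  rw [σ.commutes]
  exact hO c

/-- Proof: `σ` maps a valuation ring `O` to `O.comap σ⁻¹` etc.; closure induction. -/
theorem act1_mem (σ : K ≃ₐ[ℂ] K) {ω : VF K → K} (h : ω ∈ FK1 K) : act1 σ ω ∈ FK1 K := by
  intro O hO
  have h1 : ω ∈ Reg1 (O.comap σ.toRingEquiv.toRingHom) := h _ (hasC_comap σ hO)
  clear h
  induction h1 using AddSubgroup.closure_induction with
  | mem ω h =>
    obtain ⟨e, he, a, ha, rfl⟩ := h
    refine AddSubgroup.subset_closure ⟨σ e, he, σ a, ha, ?_⟩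
    funext X
    simp [act1]
  | zero =>
    have h0 : act1 σ (0 : VF K → K) = 0 := by funext X; simp [act1]
    rw [h0]
    exact zero_mem _
  | add ω ω' _ _ h h' =>
    have h0 : act1 σ (ω + ω') = act1 σ ω + act1 σ ω' := by funext X; simp [act1]
    rw [h0]
    exact add_mem h h'
  | neg ω _ h =>
    have h0 : act1 σ (-ω) = -act1 σ ω := by funext X; simp [act1]
    rw [h0]
    exact neg_mem h

theorem actM_mem (σ : K ≃ₐ[ℂ] K) {m : ℕ} {ω : VF K → VF K → K} (h : ω ∈ FKM K m) :
    actM σ ω ∈ FKM K m := by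
  intro O hO
  have h1 : ω ∈ RegM (O.comap σ.toRingEquiv.toRingHom) m := h _ (hasC_comap σ hO)
  clear h
  induction h1 using AddSubgroup.closure_induction with
  | mem ω h =>
    obtain ⟨e, he, a, b, ha, hb, rfl⟩ := h
    refine AddSubgroup.subset_closure ⟨σ e, he, fun i => σ (a i), fun i => σ (b i), ha, hb, ?_⟩
    funext X Y
    simp [actM]
  | zero =>
    have h0 : actM σ (0 : VF K → VF K → K) = 0 := by funext X Y; simp [actM]
    rw [h0]
    exact zero_mem _
  | add ω ω' _ _ h h' =>
    have h0 : actM σ (ω + ω') = actM σ ω + actM σ ω' := by funext X Y; simp [actM]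
    rw [h0]
    exact add_mem h h'
  | neg ω _ h =>
    have h0 : actM σ (-ω) = -actM σ ω := by funext X Y; simp [actM]
    rw [h0]
    exact neg_mem h

end Pool.Agent.K3G
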