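import Pool.Agent.K3G.Core

/-!
# Existence of embeddings `K → κ((τ))`
-/

set_option autoImplicit false

noncomputable section
namespace Pool.Agent.K3G

variable {K : Type*} [Field K] [Algebra ℂ K]

/-- the embedding of `ℂ(x, z)` -/
private theorem emb_base {x z : K} (hb : AlgebraicIndependent ℂ ![x, z]) {Y : LK}
    (hY : Y ∉ con.range) :
    ∃ φ : IntermediateField.adjoin ℂ ({x, z} : Set K) →ₐ[ℂ] LK,
      (∀ h : x ∈ IntermediateField.adjoin ℂ ({x, z} : Set K), φ ⟨x, h⟩ = Y) ∧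
      (∀ h : z ∈ IntermediateField.adjoin ℂ ({x, z} : Set K), φ ⟨z, h⟩ = con s) := by
  have hr : Set.range ![x, z] = ({x, z} : Set K) := by
    ext a
    simp only [Set.mem_range, Fin.exists_fin_two, Matrix.cons_val_zero, Matrix.cons_val_one,
      Set.mem_insert_iff, Set.mem_singleton_iff, eq_comm]
  rw [← hr]
  have hY' := algInd_of_not_mem hY
  let ψ : FractionRing (MvPolynomial (Fin 2) ℂ) →ₐ[ℂ] LK :=
    IsFractionRing.liftAlgHom (g := MvPolynomial.aeval ![Y, con s]) hY'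
  have hψ : ∀ p : MvPolynomial (Fin 2) ℂ, ψ (algebraMap (MvPolynomial (Fin 2) ℂ) _ p) =
      MvPolynomial.aeval ![Y, con s] p := fun p =>
    IsFractionRing.lift_algebraMap (K := FractionRing (MvPolynomial (Fin 2) ℂ))
      (g := (MvPolynomial.aeval ![Y, con s] : MvPolynomial (Fin 2) ℂ →ₐ[ℂ] LK).toRingHom) hY' p
  let e := hb.aevalEquivField
  have he : ∀ (i : Fin 2) (h : ![x, z] i ∈ IntermediateField.adjoin ℂ (Set.range ![x, z])),
      e.symm ⟨![x, z] i, h⟩ = algebraMap (MvPolynomial (Fin 2) ℂ) _ (MvPolynomial.X i) := by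
    intro i h
    rw [AlgEquiv.symm_apply_eq]
    apply Subtype.ext
    simp [e]
  refine ⟨ψ.comp e.symm.toAlgHom, ?_, ?_⟩
  · intro h
    have h1 := he 0 h
    simp only [Matrix.cons_val_zero] at h1
    change ψ (e.symm ⟨x, h⟩) = Y
    rw [h1, hψ]
    simp
  · intro h
    have h1 := he 1 h
    simp only [Matrix.cons_val_one, Matrix.cons_val_zero] at h1
    change ψ (e.symm ⟨z, h⟩) = con s
    rw [h1, hψ]
    simp

/-- **Existence of embeddings.** `K` is generated over `ℂ` by `x, z` and a set `W` of elements whose squares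
are in `ℂ(x, z)`; `(Y, s)` algebraically independent.  If the images of these squares under
`ℂ(x,z) → LK, x ↦ Y, z ↦ s` are squares in `LK` then there is an embedding with `x ↦ Y, z ↦ s`.
Proof: `φ : ℂ(x,z) → LK` exists (fraction field of a polynomial ring, `IsTranscendenceBasis`/
`AlgebraicIndependent`); `K` is algebraic over `ℂ(x,z)`, so `φ` extends to `Φ' : K → AlgebraicClosure LK`
(`IsAlgClosed.lift`); `Φ'(w)² = φ(w²) = a²` with `a ∈ LK`, so `Φ'(w) = ± a ∈ LK`; the elements mapped into `LK`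
form a subfield that contains the generators. -/
theorem exists_emb {x z : K} (hb : IsTranscendenceBasis ℂ ![x, z]) (W : Set K)
    (hgen : IntermediateField.adjoin ℂ ({x, z} ∪ W : Set K) = ⊤) {Y : LK} (hY : Y ∉ con.range)
    (hW : ∀ w ∈ W, w ^ 2 ∈ IntermediateField.adjoin ℂ ({x, z} : Set K) ∧
      ∀ φ : IntermediateField.adjoin ℂ ({x, z} : Set K) →ₐ[ℂ] LK,
        (∀ h : x ∈ IntermediateField.adjoin ℂ ({x, z} : Set K), φ ⟨x, h⟩ = Y) →
        (∀ h : z ∈ IntermediateField.adjoin ℂ ({x, z} : Set K), φ ⟨z, h⟩ = con s) →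
        ∀ h : w ^ 2 ∈ IntermediateField.adjoin ℂ ({x, z} : Set K), IsSquare (φ ⟨w ^ 2, h⟩)) :
    ∃ Φ : K →ₐ[ℂ] LK, IsEmb x z Y Φ := by
  obtain ⟨φ, hφx, hφz⟩ := emb_base hb.1 hY
  have hr : Set.range ![x, z] = ({x, z} : Set K) := by
    ext a
    simp only [Set.mem_range, Fin.exists_fin_two, Matrix.cons_val_zero, Matrix.cons_val_one,
      Set.mem_insert_iff, Set.mem_singleton_iff, eq_comm]
  have hxF : x ∈ IntermediateField.adjoin ℂ ({x, z} : Set K) :=
    IntermediateField.subset_adjoin _ _ (by simp)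
  have hzF : z ∈ IntermediateField.adjoin ℂ ({x, z} : Set K) :=
    IntermediateField.subset_adjoin _ _ (by simp)
  haveI halg : Algebra.IsAlgebraic (IntermediateField.adjoin ℂ ({x, z} : Set K)) K := by
    have := hb.isAlgebraic_field
    rwa [hr] at this
  let L := AlgebraicClosure LK
  let i : LK →ₐ[ℂ] L := IsScalarTower.toAlgHom ℂ LK L
  letI algF : Algebra (IntermediateField.adjoin ℂ ({x, z} : Set K)) L := (i.comp φ).toRingHom.toAlgebra
  let Φ₀ : K →ₐ[IntermediateField.adjoin ℂ ({x, z} : Set K)] L := IsAlgClosed.lift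
  have hΦ₀ : ∀ a : IntermediateField.adjoin ℂ ({x, z} : Set K), Φ₀ (a : K) = i (φ a) := fun a =>
    Φ₀.commutes a
  let Φ₁ : K →ₐ[ℂ] L := { Φ₀.toRingHom with
    commutes' := by
      intro c
      have h1 := hΦ₀ (algebraMap ℂ _ c)
      rw [AlgHom.commutes, AlgHom.commutes] at h1
      exact h1 }
  have hΦ₁ : ∀ a : IntermediateField.adjoin ℂ ({x, z} : Set K), Φ₁ (a : K) = i (φ a) := hΦ₀
  have htop : (⊤ : IntermediateField ℂ K) ≤ i.fieldRange.comap Φ₁ := by
    rw [← hgen, IntermediateField.adjoin_le_iff]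
    intro a ha
    change Φ₁ a ∈ i.fieldRange
    rcases ha with ha | ha
    · have haF : a ∈ IntermediateField.adjoin ℂ ({x, z} : Set K) :=
        IntermediateField.subset_adjoin _ _ ha
      exact ⟨φ ⟨a, haF⟩, (hΦ₁ ⟨a, haF⟩).symm⟩
    · obtain ⟨hw2, hsq⟩ := hW a ha
      obtain ⟨b, hb'⟩ := hsq φ hφx hφz hw2
      have h1 : Φ₁ a ^ 2 = i b ^ 2 := by
        rw [← map_pow, ← map_pow]
        have h2 := hΦ₁ ⟨a ^ 2, hw2⟩
        rw [hb', ← pow_two] at h2
        exact h2
      rcases sq_eq_sq_iff_eq_or_eq_neg.mp h1 with h | h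
      · exact ⟨b, h.symm⟩
      · exact ⟨-b, by rw [h]; exact map_neg i b⟩
  have hi : Function.Injective i := i.toRingHom.injective
  let e := AlgEquiv.ofInjective i hi
  let Φ₂ : K →ₐ[ℂ] i.range := Φ₁.codRestrict i.range (fun a => htop (IntermediateField.mem_top (x := a)))
  let Φ : K →ₐ[ℂ] LK := e.symm.toAlgHom.comp Φ₂
  have hΦ : ∀ a : K, i (Φ a) = Φ₁ a := by
    intro a
    have h1 : e (e.symm (Φ₂ a)) = Φ₂ a := e.apply_symm_apply _
    exact congrArg Subtype.val h1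
  refine ⟨Φ, ?_, ?_⟩
  · apply hi
    rw [hΦ, ← hφx hxF]
    exact hΦ₁ ⟨x, hxF⟩
  · apply hi
    rw [hΦ, ← hφz hzF]
    exact hΦ₁ ⟨z, hzF⟩

end Pool.Agent.K3G
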