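import Pool.Agent.K3G.Final

/-!
# Existence of the function field of `S_b`
-/

set_option autoImplicit false

noncomputable section
namespace Pool.Agent.K3G

open Polynomial TripleBurger

namespace Exist

/-- polynomials in the two coordinates `x₀, x₂` -/
abbrev P2 : Type := MvPolynomial (Fin 2) ℂ

/-- polynomials in the `x_i` and `w_i` -/
abbrev P6 : Type := MvPolynomial (Fin 3 ⊕ Fin 3) ℂ

/-- the three coordinates as polynomials in `x₀, x₂` -/
def xx (μ : ℂ) : Fin 3 → P2 :=
  ![MvPolynomial.X 0, MvPolynomial.C μ⁻¹ * (MvPolynomial.X 0 * MvPolynomial.X 1), MvPolynomial.X 1]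

/-- the quartics as polynomials in `x₀, x₂` -/
def ff (b : Param) (i : Fin 3) : P2 := Polynomial.aeval (xx (b 4) i) (fpoly b i)

/-- the relations between the generators -/
structure Rel (b : Param) {R : Type} [CommRing R] [Algebra ℂ R] (x w : Fin 3 → R) : Prop where
  rel : x 0 * x 2 = algebraMap ℂ R (b 4) * x 1
  hw : ∀ i, w i ^ 2 = aeval (x (i + 1)) (fpoly b (i + 1)) * aeval (x (i + 2)) (fpoly b (i + 2))
  hww : ∀ i, w (i + 1) * w (i + 2) = aeval (x i) (fpoly b i) * w i

variable {b : Param}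

theorem aeval_xx (hb : b ∈ BaseSet) {R : Type} [CommRing R] [Algebra ℂ R] {x w : Fin 3 → R}
    (h : Rel b x w) (i : Fin 3) : MvPolynomial.aeval ![x 0, x 2] (xx (b 4) i) = x i := by
  have hμ : b 4 ≠ 0 := hb.2.2.1
  fin_cases i
  · simp [xx]
  · have h1 : algebraMap ℂ R (b 4)⁻¹ * algebraMap ℂ R (b 4) = 1 := by
      rw [← map_mul, inv_mul_cancel₀ hμ, map_one]
    have h2 := h.rel
    simp only [xx, Fin.mk_one, Matrix.cons_val_one, Matrix.cons_val_zero, map_mul,
      MvPolynomial.aeval_X, MvPolynomial.algHom_C]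
    rw [h2, ← mul_assoc, h1, one_mul]
  · simp [xx]

theorem aeval_ff (hb : b ∈ BaseSet) {R : Type} [CommRing R] [Algebra ℂ R] {x w : Fin 3 → R}
    (h : Rel b x w) (i : Fin 3) :
    MvPolynomial.aeval ![x 0, x 2] (ff b i) = Polynomial.aeval (x i) (fpoly b i) := by
  unfold ff
  rw [← Polynomial.aeval_algHom_apply, aeval_xx hb h]

theorem aev {σ : Type} (f : σ → ℂ) (P : MvPolynomial σ ℂ) :
    MvPolynomial.aeval f P = MvPolynomial.eval f P := rfl

theorem ff_ne (hb : b ∈ BaseSet) (i : Fin 3) : ff b i ≠ 0 := by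
  intro h0
  have h1 : MvPolynomial.eval (fun _ => (0 : ℂ)) (ff b i) = (fpoly b i).eval 0 := by
    have h2 : MvPolynomial.aeval (fun _ => (0 : ℂ)) (xx (b 4) i) = 0 := by
      fin_cases i <;> simp [xx]
    have h3 : MvPolynomial.aeval (fun _ => (0 : ℂ)) (ff b i) = Polynomial.aeval (0 : ℂ) (fpoly b i) := by
      unfold ff
      rw [← Polynomial.aeval_algHom_apply, h2]
    rw [aev] at h3
    rw [h3, Polynomial.coe_aeval_eq_eval]
  rw [h0, map_zero] at h1
  exact fpoly_zero hb i h1.symm

/-- normal form `p + ∑ qᵢ wᵢ` -/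
theorem normal_form (hb : b ∈ BaseSet) (P : P6) : ∃ (p : P2) (q : Fin 3 → P2),
    ∀ (R : Type) [CommRing R] [Algebra ℂ R] (x w : Fin 3 → R), Rel b x w →
      MvPolynomial.aeval (Sum.elim x w) P = MvPolynomial.aeval ![x 0, x 2] p +
        (MvPolynomial.aeval ![x 0, x 2] (q 0) * w 0 + MvPolynomial.aeval ![x 0, x 2] (q 1) * w 1 +
          MvPolynomial.aeval ![x 0, x 2] (q 2) * w 2) := by
  induction P using MvPolynomial.induction_on with
  | C a => exact ⟨MvPolynomial.C a, 0, fun R _ _ x w _ => by simp⟩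
  | add P Q hP hQ =>
    obtain ⟨p, q, h⟩ := hP
    obtain ⟨p', q', h'⟩ := hQ
    refine ⟨p + p', q + q', fun R _ _ x w hr => ?_⟩
    rw [map_add, h R x w hr, h' R x w hr]
    simp only [map_add, Pi.add_apply]
    ring
  | mul_X P n hP =>
    obtain ⟨p, q, h⟩ := hP
    rcases n with i | i
    · refine ⟨p * xx (b 4) i, fun j => q j * xx (b 4) i, fun R _ _ x w hr => ?_⟩
      rw [map_mul, h R x w hr, MvPolynomial.aeval_X, Sum.elim_inl]
      simp only [map_mul, aeval_xx hb hr]
      ring
    · fin_cases i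
      · refine ⟨q 0 * (ff b 1 * ff b 2), ![p, q 2 * ff b 1, q 1 * ff b 2],
          fun R _ _ x w hr => ?_⟩
        have e0 : w 0 ^ 2 = aeval (x 1) (fpoly b 1) * aeval (x 2) (fpoly b 2) := hr.hw 0
        have e1 : w 2 * w 0 = aeval (x 1) (fpoly b 1) * w 1 := hr.hww 1
        have e2 : w 0 * w 1 = aeval (x 2) (fpoly b 2) * w 2 := hr.hww 2
        rw [map_mul, h R x w hr, MvPolynomial.aeval_X, Sum.elim_inr]
        simp only [map_mul, Matrix.cons_val_zero, Matrix.cons_val_one, Matrix.cons_val, aeval_ff hb hr,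
          Fin.zero_eta]
        linear_combination (MvPolynomial.aeval ![x 0, x 2] (q 0)) * e0 +
          (MvPolynomial.aeval ![x 0, x 2] (q 2)) * e1 + (MvPolynomial.aeval ![x 0, x 2] (q 1)) * e2
      · refine ⟨q 1 * (ff b 2 * ff b 0), ![q 2 * ff b 0, p, q 0 * ff b 2],
          fun R _ _ x w hr => ?_⟩
        have e0 : w 1 ^ 2 = aeval (x 2) (fpoly b 2) * aeval (x 0) (fpoly b 0) := hr.hw 1
        have e1 : w 1 * w 2 = aeval (x 0) (fpoly b 0) * w 0 := hr.hww 0
        have e2 : w 0 * w 1 = aeval (x 2) (fpoly b 2) * w 2 := hr.hww 2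
        rw [map_mul, h R x w hr, MvPolynomial.aeval_X, Sum.elim_inr]
        simp only [map_mul, Matrix.cons_val_zero, Matrix.cons_val_one, Matrix.cons_val, aeval_ff hb hr,
          Fin.mk_one]
        linear_combination (MvPolynomial.aeval ![x 0, x 2] (q 1)) * e0 +
          (MvPolynomial.aeval ![x 0, x 2] (q 2)) * e1 + (MvPolynomial.aeval ![x 0, x 2] (q 0)) * e2
      · refine ⟨q 2 * (ff b 0 * ff b 1), ![q 1 * ff b 0, q 0 * ff b 1, p],
          fun R _ _ x w hr => ?_⟩
        have e0 : w 2 ^ 2 = aeval (x 0) (fpoly b 0) * aeval (x 1) (fpoly b 1) := hr.hw 2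
        have e1 : w 1 * w 2 = aeval (x 0) (fpoly b 0) * w 0 := hr.hww 0
        have e2 : w 2 * w 0 = aeval (x 1) (fpoly b 1) * w 1 := hr.hww 1
        rw [map_mul, h R x w hr, MvPolynomial.aeval_X, Sum.elim_inr]
        simp only [map_mul, Matrix.cons_val_zero, Matrix.cons_val_one, Matrix.cons_val, aeval_ff hb hr,
          Fin.reduceFinMk]
        linear_combination (MvPolynomial.aeval ![x 0, x 2] (q 2)) * e0 +
          (MvPolynomial.aeval ![x 0, x 2] (q 1)) * e1 + (MvPolynomial.aeval ![x 0, x 2] (q 0)) * e2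

/-! ### points of the chart -/

theorem cone_Y (p : Cone) (i : Fin 3) : p.Y i ^ 2 = quartic p.b i (p.W i) (p.X i) := p.2.2.2.1 i

theorem cone_rel (p : Cone) : p.X 0 * p.X 2 * p.W 1 = p.b 4 * p.X 1 * p.W 0 * p.W 2 := p.2.2.2.2

theorem chart_Y {p : Cone} (hp : p.b = b) (hW : ∀ i, p.W i = 1) (i : Fin 3) :
    p.Y i ^ 2 = Polynomial.aeval (p.X i) (fpoly b i) := by
  rw [cone_Y, hp, hW, quartic_eq, Polynomial.coe_aeval_eq_eval]

theorem rel_point {p : Cone} (hp : p.b = b) (hW : ∀ i, p.W i = 1) :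
    Rel b p.X (fun i => p.Y (i + 1) * p.Y (i + 2)) := by
  refine ⟨?_, fun i => ?_, fun i => ?_⟩
  · have h := cone_rel p
    rw [hW, hW, hW, hp] at h
    simpa using h
  · rw [mul_pow, chart_Y hp hW, chart_Y hp hW]
  · have e := chart_Y hp hW i
    have h3 : i + 1 + 2 = i := by fin_cases i <;> rfl
    have h4 : i + 2 + 1 = i := by fin_cases i <;> rfl
    have h5 : i + 1 + 1 = i + 2 := by fin_cases i <;> rfl
    have h6 : i + 2 + 2 = i + 1 := by fin_cases i <;> rfl
    simp only [h3, h4, h5, h6]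
    rw [← e]
    ring

/-- change the sign of one `Y_i` -/
def flip (p : Cone) (i : Fin 3) : Cone :=
  ⟨(p.b, p.W, p.X, Function.update p.Y i (-p.Y i)), p.2.1, p.2.2.1, by
    intro j
    by_cases hj : j = i
    · subst hj
      simp only [Function.update_self, neg_sq]
      exact p.2.2.2.1 j
    · simp only [Function.update_of_ne hj]
      exact p.2.2.2.1 j, p.2.2.2.2⟩

theorem flip_b (p : Cone) (i : Fin 3) : (flip p i).b = p.b := rfl
theorem flip_W (p : Cone) (i : Fin 3) : (flip p i).W = p.W := rfl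
theorem flip_X (p : Cone) (i : Fin 3) : (flip p i).X = p.X := rfl
theorem flip_Y (p : Cone) (i : Fin 3) : (flip p i).Y = Function.update p.Y i (-p.Y i) := rfl

theorem vanish_iff (hb : b ∈ BaseSet) (P : P6) (p : P2) (q : Fin 3 → P2)
    (h : ∀ (R : Type) [CommRing R] [Algebra ℂ R] (x w : Fin 3 → R), Rel b x w →
      MvPolynomial.aeval (Sum.elim x w) P = MvPolynomial.aeval ![x 0, x 2] p +
        (MvPolynomial.aeval ![x 0, x 2] (q 0) * w 0 + MvPolynomial.aeval ![x 0, x 2] (q 1) * w 1 +
          MvPolynomial.aeval ![x 0, x 2] (q 2) * w 2))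
    (hv : ∀ p : Cone, p.b = b → (∀ i, p.W i = 1) →
      MvPolynomial.eval (Sum.elim p.X (fun i => p.Y (i + 1) * p.Y (i + 2))) P = 0) :
    p = 0 ∧ ∀ i, q i = 0 := by
  have key : ∀ z : Cone, z.b = b → (∀ i, z.W i = 1) →
      MvPolynomial.eval ![z.X 0, z.X 2] p +
        (MvPolynomial.eval ![z.X 0, z.X 2] (q 0) * (z.Y 1 * z.Y 2) +
          MvPolynomial.eval ![z.X 0, z.X 2] (q 1) * (z.Y 2 * z.Y 0) +
          MvPolynomial.eval ![z.X 0, z.X 2] (q 2) * (z.Y 0 * z.Y 1)) = 0 := by
    intro z hz hW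
    have h1 := h ℂ z.X (fun i => z.Y (i + 1) * z.Y (i + 2)) (rel_point hz hW)
    simp only [aev] at h1
    rw [hv z hz hW] at h1
    exact h1.symm
  have all : ∀ a c : ℂ, MvPolynomial.eval ![a, c] p = 0 ∧
      ∀ i, MvPolynomial.eval ![a, c] (q i ^ 2 * (ff b (i + 1) * ff b (i + 2))) = 0 := by
    intro a c
    obtain ⟨z, hz, hW, h0, h2⟩ := exists_point hb a c
    have k := key z hz hW
    have k0 := key (flip z 0) hz hW
    have k1 := key (flip z 1) hz hW
    have k2 := key (flip z 2) hz hW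
    simp only [flip_X, flip_Y] at k0 k1 k2
    have u01 : (1 : Fin 3) ≠ 0 := by decide
    have u02 : (2 : Fin 3) ≠ 0 := by decide
    have u10 : (0 : Fin 3) ≠ 1 := by decide
    have u12 : (2 : Fin 3) ≠ 1 := by decide
    have u20 : (0 : Fin 3) ≠ 2 := by decide
    have u21 : (1 : Fin 3) ≠ 2 := by decide
    simp only [Function.update_self, Function.update_of_ne u01, Function.update_of_ne u02] at k0
    simp only [Function.update_self, Function.update_of_ne u10, Function.update_of_ne u12] at k1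
    simp only [Function.update_self, Function.update_of_ne u20, Function.update_of_ne u21] at k2
    have hr := rel_point hz hW
    have e : ∀ i, MvPolynomial.eval ![z.X 0, z.X 2] (ff b i) = z.Y i ^ 2 := by
      intro i
      have := aeval_ff hb hr i
      rw [aev] at this
      rw [this, chart_Y hz hW]
    rw [← h0, ← h2]
    refine ⟨by linear_combination (k + k0 + k1 + k2) / 4, fun i => ?_⟩
    rw [map_mul, map_mul, map_pow, e, e]
    fin_cases i
    · have t : MvPolynomial.eval ![z.X 0, z.X 2] (q 0) * (z.Y 1 * z.Y 2) = 0 := by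
        linear_combination (k + k0 - k1 - k2) / 4
      show MvPolynomial.eval ![z.X 0, z.X 2] (q 0) ^ 2 * (z.Y 1 ^ 2 * z.Y 2 ^ 2) = 0
      linear_combination (MvPolynomial.eval ![z.X 0, z.X 2] (q 0) * (z.Y 1 * z.Y 2)) * t
    · have t : MvPolynomial.eval ![z.X 0, z.X 2] (q 1) * (z.Y 2 * z.Y 0) = 0 := by
        linear_combination (k - k0 + k1 - k2) / 4
      show MvPolynomial.eval ![z.X 0, z.X 2] (q 1) ^ 2 * (z.Y 2 ^ 2 * z.Y 0 ^ 2) = 0
      linear_combination (MvPolynomial.eval ![z.X 0, z.X 2] (q 1) * (z.Y 2 * z.Y 0)) * t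
    · have t : MvPolynomial.eval ![z.X 0, z.X 2] (q 2) * (z.Y 0 * z.Y 1) = 0 := by
        linear_combination (k - k0 - k1 + k2) / 4
      show MvPolynomial.eval ![z.X 0, z.X 2] (q 2) ^ 2 * (z.Y 0 ^ 2 * z.Y 1 ^ 2) = 0
      linear_combination (MvPolynomial.eval ![z.X 0, z.X 2] (q 2) * (z.Y 0 * z.Y 1)) * t
  have hvec : ∀ v : Fin 2 → ℂ, ![v 0, v 1] = v := by
    intro v
    funext j
    fin_cases j <;> rfl
  constructor
  · apply MvPolynomial.funext
    intro v
    rw [map_zero, ← hvec v]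
    exact (all _ _).1
  · intro i
    have h1 : q i ^ 2 * (ff b (i + 1) * ff b (i + 2)) = 0 := by
      apply MvPolynomial.funext
      intro v
      rw [map_zero, ← hvec v]
      exact (all _ _).2 i
    rcases mul_eq_zero.1 h1 with h2 | h2
    · exact pow_eq_zero_iff (two_ne_zero) |>.1 h2
    · rcases mul_eq_zero.1 h2 with h3 | h3
      · exact absurd h3 (ff_ne hb _)
      · exact absurd h3 (ff_ne hb _)

/-! ### the field -/

theorem aeval_mem_F {K : Type} [Field K] [Algebra ℂ K] (D : BurgerData K) (p : P2) :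
    MvPolynomial.aeval ![D.x 0, D.x 2] p ∈ D.F := by
  induction p using MvPolynomial.induction_on with
  | C a => rw [MvPolynomial.algHom_C]; exact D.F.algebraMap_mem a
  | add p q hp hq => rw [map_add]; exact add_mem hp hq
  | mul_X p n hp =>
    rw [map_mul, MvPolynomial.aeval_X]
    refine mul_mem hp ?_
    fin_cases n
    · exact D.x_mem 0
    · exact D.x_mem 2

theorem σ_aeval {K : Type} [Field K] [Algebra ℂ K] (D : BurgerData K) (i : Fin 3) (p : P2) :
    D.σ i (MvPolynomial.aeval ![D.x 0, D.x 2] p) = MvPolynomial.aeval ![D.x 0, D.x 2] p := by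
  induction p using MvPolynomial.induction_on with
  | C a => rw [MvPolynomial.algHom_C]; exact (D.σ i).commutes a
  | add p q hp hq => rw [map_add, map_add, hp, hq]
  | mul_X p n hp =>
    rw [map_mul, map_mul, hp, MvPolynomial.aeval_X]
    congr 1
    fin_cases n
    · exact D.σ_x i 0
    · exact D.σ_x i 2

theorem indep {K : Type} [Field K] [Algebra ℂ K] (D : BurgerData K) (p : P2) (q : Fin 3 → P2)
    (h : MvPolynomial.aeval ![D.x 0, D.x 2] p + (MvPolynomial.aeval ![D.x 0, D.x 2] (q 0) * D.w 0 +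
      MvPolynomial.aeval ![D.x 0, D.x 2] (q 1) * D.w 1 +
      MvPolynomial.aeval ![D.x 0, D.x 2] (q 2) * D.w 2) = 0) : p = 0 ∧ ∀ i, q i = 0 := by
  have inj : Function.Injective (MvPolynomial.aeval (R := ℂ) ![D.x 0, D.x 2]) := D.tb.1
  have s0 := congrArg (D.σ 0) h
  have s1 := congrArg (D.σ 1) h
  have s2 := congrArg (D.σ 2) h
  have v01 : D.σ 0 (D.w 1) = -D.w 1 := D.σ_w_of_ne (by decide)
  have v02 : D.σ 0 (D.w 2) = -D.w 2 := D.σ_w_of_ne (by decide)
  have v10 : D.σ 1 (D.w 0) = -D.w 0 := D.σ_w_of_ne (by decide)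
  have v12 : D.σ 1 (D.w 2) = -D.w 2 := D.σ_w_of_ne (by decide)
  have v20 : D.σ 2 (D.w 0) = -D.w 0 := D.σ_w_of_ne (by decide)
  have v21 : D.σ 2 (D.w 1) = -D.w 1 := D.σ_w_of_ne (by decide)
  simp only [map_add, map_mul, map_zero, σ_aeval, D.σ_w_self, v01, v02] at s0
  simp only [map_add, map_mul, map_zero, σ_aeval, D.σ_w_self, v10, v12] at s1
  simp only [map_add, map_mul, map_zero, σ_aeval, D.σ_w_self, v20, v21] at s2
  have h2 : (2 : K) ≠ 0 := by
    have : (2 : K) = algebraMap ℂ K 2 := (map_ofNat (algebraMap ℂ K) 2).symm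
    rw [this]
    exact (map_ne_zero (algebraMap ℂ K)).2 two_ne_zero
  have a0 : MvPolynomial.aeval ![D.x 0, D.x 2] p +
      MvPolynomial.aeval ![D.x 0, D.x 2] (q 0) * D.w 0 = 0 := by
    apply mul_left_cancel₀ h2
    linear_combination h + s0
  have a1 : MvPolynomial.aeval ![D.x 0, D.x 2] p +
      MvPolynomial.aeval ![D.x 0, D.x 2] (q 1) * D.w 1 = 0 := by
    apply mul_left_cancel₀ h2
    linear_combination h + s1
  have a2 : MvPolynomial.aeval ![D.x 0, D.x 2] p +
      MvPolynomial.aeval ![D.x 0, D.x 2] (q 2) * D.w 2 = 0 := by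
    apply mul_left_cancel₀ h2
    linear_combination h + s2
  have b0 : MvPolynomial.aeval ![D.x 0, D.x 2] (q 0) = 0 := by
    by_contra hne
    apply D.w_not_mem 0
    have e : D.w 0 = -MvPolynomial.aeval ![D.x 0, D.x 2] p /
        MvPolynomial.aeval ![D.x 0, D.x 2] (q 0) := by
      rw [eq_div_iff hne]
      linear_combination a0
    rw [e]
    exact div_mem (neg_mem (aeval_mem_F D p)) (aeval_mem_F D _)
  have bp : MvPolynomial.aeval ![D.x 0, D.x 2] p = 0 := by
    rw [b0, zero_mul, add_zero] at a0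
    exact a0
  have b1 : MvPolynomial.aeval ![D.x 0, D.x 2] (q 1) = 0 := by
    rw [bp, zero_add] at a1
    exact (mul_eq_zero.1 a1).resolve_right (D.w_ne 1)
  have b2 : MvPolynomial.aeval ![D.x 0, D.x 2] (q 2) = 0 := by
    rw [bp, zero_add] at a2
    exact (mul_eq_zero.1 a2).resolve_right (D.w_ne 2)
  refine ⟨inj (bp.trans (map_zero _).symm), fun i => ?_⟩
  fin_cases i
  · exact inj (b0.trans (map_zero _).symm)
  · exact inj (b1.trans (map_zero _).symm)
  · exact inj (b2.trans (map_zero _).symm)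

/-- the big algebraically closed field -/
abbrev Om : Type := AlgebraicClosure (FractionRing P2)

instance instAlgOm : Algebra.IsAlgebraic P2 Om :=
  (IsFractionRing.comap_isAlgebraic_iff (A := P2) (K := FractionRing P2) (C := Om)).2 inferInstance

instance instFaithfulOm : FaithfulSMul P2 Om := by
  rw [faithfulSMul_iff_algebraMap_injective, IsScalarTower.algebraMap_eq P2 (FractionRing P2) Om]
  exact (algebraMap (FractionRing P2) Om).injective.comp (IsFractionRing.injective P2 (FractionRing P2))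

theorem tb_Om : IsTranscendenceBasis ℂ (algebraMap P2 Om ∘ (MvPolynomial.X (R := ℂ) (σ := Fin 2))) :=
  (IsTranscendenceBasis.mvPolynomial (Fin 2) ℂ).algebraMap_comp

end Exist

open Exist

/-- **Existence of the function field.**
Proof: `Ω` = algebraic closure of `FractionRing (MvPolynomial (Fin 2) ℂ)`, `x₀, x₂` the two variables,
`x₁ = x₀ x₂/μ`, `y_i` square roots of `f_i(x_i)`, `w i = y_{i+1} y_{i+2}`, `K = ℂ(x, w)`.  By the relations every
polynomial in `x, w` is (both in `K` and as a function on the chart) of the form `p + Σ qᵢ w i` with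
`p, qᵢ ∈ ℂ[x₀, x₂]` (induction on the polynomial).  In `K` it is zero iff `p = qᵢ = 0` (`BurgerData.w_not_mem`; `1, w i` are
linearly independent over `ℂ(x₀,x₂)`: apply the `σ i`); as a function on the chart it is zero iff `p = qᵢ = 0` too: change
the signs of the `y_i` to see that `p = 0` and `qᵢ w i = 0` at all points, and `w i ≠ 0` off a curve. -/
theorem exists_functionField {b : Param} (hb : b ∈ BaseSet) :
    ∃ (K : Type) (_ : Field K) (_ : Algebra ℂ K) (x w : Fin 3 → K), IsFunctionField b K x w := by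
  let ξ : Fin 3 → Om := fun i => algebraMap P2 Om (xx (b 4) i)
  have hy : ∀ i, ∃ y : Om, y ^ 2 = Polynomial.aeval (ξ i) (fpoly b i) := fun i =>
    IsAlgClosed.exists_pow_nat_eq _ two_pos
  choose y hy using hy
  let ω : Fin 3 → Om := fun i => y (i + 1) * y (i + 2)
  let K : IntermediateField ℂ Om := IntermediateField.adjoin ℂ (Set.range ξ ∪ Set.range ω)
  have hx : ∀ i, ξ i ∈ K := fun i =>
    IntermediateField.subset_adjoin ℂ _ (Or.inl ⟨i, rfl⟩)
  have hw : ∀ i, ω i ∈ K := fun i =>
    IntermediateField.subset_adjoin ℂ _ (Or.inr ⟨i, rfl⟩)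
  let x : Fin 3 → K := fun i => ⟨ξ i, hx i⟩
  let w : Fin 3 → K := fun i => ⟨ω i, hw i⟩
  have hμ : b 4 ≠ 0 := hb.2.2.1
  have vinj : Function.Injective (K.val) := K.val.injective
  have vx : ∀ i, K.val (x i) = ξ i := fun i => rfl
  have vw : ∀ i, K.val (w i) = ω i := fun i => rfl
  have va : ∀ i, K.val (Polynomial.aeval (x i) (fpoly b i)) = y i ^ 2 := by
    intro i
    rw [← Polynomial.aeval_algHom_apply, vx, hy]
  have hrel : Rel b x w := by
    refine ⟨?_, fun i => ?_, fun i => ?_⟩
    · apply vinj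
      rw [map_mul, map_mul, vx, vx, vx, AlgHom.commutes]
      show algebraMap P2 Om (xx (b 4) 0) * algebraMap P2 Om (xx (b 4) 2) =
        algebraMap ℂ Om (b 4) * algebraMap P2 Om (xx (b 4) 1)
      rw [IsScalarTower.algebraMap_apply ℂ P2 Om, ← map_mul, ← map_mul]
      congr 1
      simp only [xx, Matrix.cons_val_zero, Matrix.cons_val_one, Matrix.cons_val,
        MvPolynomial.algebraMap_eq]
      rw [← mul_assoc, ← map_mul, mul_inv_cancel₀ hμ, map_one, one_mul]
    · apply vinj
      rw [map_mul, map_pow, va, va, vw]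
      show (y (i + 1) * y (i + 2)) ^ 2 = _
      ring
    · apply vinj
      have h3 : i + 1 + 2 = i := by fin_cases i <;> rfl
      have h4 : i + 2 + 1 = i := by fin_cases i <;> rfl
      have h5 : i + 1 + 1 = i + 2 := by fin_cases i <;> rfl
      have h6 : i + 2 + 2 = i + 1 := by fin_cases i <;> rfl
      rw [map_mul, map_mul, va, vw, vw, vw]
      show (y (i + 1 + 1) * y (i + 1 + 2)) * (y (i + 2 + 1) * y (i + 2 + 2)) =
        y i ^ 2 * (y (i + 1) * y (i + 2))
      rw [h3, h4, h5, h6]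
      ring
  have hgen : IntermediateField.adjoin ℂ (Set.range x ∪ Set.range w) = ⊤ := by
    apply IntermediateField.lift_injective K
    rw [IntermediateField.lift_adjoin, IntermediateField.lift_top, Set.image_union,
      ← Set.range_comp, ← Set.range_comp]
    rfl
  have htb : IsTranscendenceBasis ℂ ![x 0, x 2] := by
    apply IsTranscendenceBasis.of_comp K.val vinj
    convert tb_Om using 1
    funext j
    fin_cases j
    · show ξ 0 = algebraMap P2 Om (MvPolynomial.X 0)
      simp [ξ, xx]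
    · show ξ 2 = algebraMap P2 Om (MvPolynomial.X 1)
      simp [ξ, xx]
  let D : BurgerData K :=
    { f := fpoly b
      x := x
      w := w
      μ := b 4
      μ_ne := hμ
      quartic := fpoly_quartic hb
      f_zero := fpoly_zero hb
      rel := hrel.rel
      tb := htb
      hw := hrel.hw
      hww := hrel.hww
      gen := hgen }
  refine ⟨K, inferInstance, inferInstance, x, w, hgen, fun P => ?_⟩
  obtain ⟨p, q, h⟩ := normal_form hb P
  constructor
  · intro h0
    rw [h K x w hrel] at h0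
    obtain ⟨hp, hq⟩ := indep D p q h0
    intro z hz hW
    have h1 := h ℂ z.X (fun i => z.Y (i + 1) * z.Y (i + 2)) (rel_point hz hW)
    rw [hp, hq 0, hq 1, hq 2] at h1
    simp only [map_zero, zero_mul, add_zero] at h1
    exact h1
  · intro h0
    obtain ⟨hp, hq⟩ := vanish_iff hb P p q h h0
    rw [h K x w hrel, hp, hq 0, hq 1, hq 2]
    simp

end Pool.Agent.K3G
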