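import Pool.Agent.K3G.GenType
import Pool.Agent.helper10.K3B.Def

/-!
# The function field of the surface `S_b`

`S_b = D_b / (-1)`, `D_b = {x₀ x₂ = μ x₁} ⊂ E₀ × E₁ × E₂`.  The rational functions on `S_b` are the rational
functions in `x_i` and `y_i y_j` on the affine chart `W_i = 1` of `D_b`.
-/

set_option autoImplicit false

noncomputable section
namespace Pool.Agent.K3G

open Polynomial TripleBurger

/-- the quartic polynomial of `E_i` -/
def fpoly (b : Param) (i : Fin 3) : ℂ[X] := ∏ j : Fin 4, (X - C (root b i j))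

theorem quartic_eq (b : Param) (i : Fin 3) (a : ℂ) : quartic b i 1 a = (fpoly b i).eval a := by
  rw [quartic, fpoly, Polynomial.eval_prod]
  refine Finset.prod_congr rfl fun j _ => ?_
  simp

theorem fpoly_quartic {b : Param} (hb : b ∈ BaseSet) (i : Fin 3) : Quartic (fpoly b i) where
  deg := by
    rw [fpoly, Polynomial.natDegree_finsetProd_X_sub_C_eq_card]
    simp
  sep := by
    rw [fpoly, Polynomial.separable_prod_X_sub_C_iff]
    exact hb.1 i

theorem fpoly_zero {b : Param} (hb : b ∈ BaseSet) (i : Fin 3) : (fpoly b i).eval 0 ≠ 0 := by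
  rw [fpoly, Polynomial.eval_prod, Finset.prod_ne_zero_iff]
  intro j _
  simpa using hb.2.1 i j

/-- `K`, generated over `ℂ` by `x i` and `w i` (`w i = y_{i+1} y_{i+2}`), is the function field of `S_b`: a
polynomial in the `x i` and `w i` is zero in `K` if and only if it vanishes, as a function of `x_i` and `y_{i+1} y_{i+2}`,
at all points of the affine chart `W_i = 1` of the fibre over `b`. -/
structure IsFunctionField (b : Param) (K : Type*) [Field K] [Algebra ℂ K] (x w : Fin 3 → K) : Prop where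
  gen : IntermediateField.adjoin ℂ (Set.range x ∪ Set.range w) = ⊤
  zero_iff : ∀ P : MvPolynomial (Fin 3 ⊕ Fin 3) ℂ, MvPolynomial.aeval (Sum.elim x w) P = 0 ↔
    ∀ p : Cone, p.b = b → (∀ i, p.W i = 1) →
      MvPolynomial.eval (Sum.elim p.X (fun i => p.Y (i + 1) * p.Y (i + 2))) P = 0

/-- Points of the chart: any `a c : ℂ` are the coordinates `x₀, x₂` of a point (choose square roots of the values of
the quartics; the signs of the `y_i` are arbitrary). -/
theorem exists_point {b : Param} (hb : b ∈ BaseSet) (a c : ℂ) :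
    ∃ p : Cone, p.b = b ∧ (∀ i, p.W i = 1) ∧ p.X 0 = a ∧ p.X 2 = c := by
  have hsq : ∀ z : ℂ, ∃ y : ℂ, y ^ 2 = z := fun z => IsAlgClosed.exists_pow_nat_eq z two_pos
  choose r hr using hsq
  have hμ : b 4 ≠ 0 := hb.2.2.1
  refine ⟨⟨(b, fun _ => 1, ![a, a * c / b 4, c],
    fun i => r (quartic b i 1 ((![a, a * c / b 4, c] : Fin 3 → ℂ) i))), hb, ?_, ?_, ?_⟩,
    rfl, fun _ => rfl, rfl, rfl⟩
  · intro i
    exact Or.inl one_ne_zero
  · intro i
    exact hr _
  · change a * c * 1 = b 4 * (a * c / b 4) * 1 * 1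
    field_simp

section

variable {b : Param} {K : Type*} [Field K] [Algebra ℂ K] {x w : Fin 3 → K}

private theorem eval_aeval_fin {σ : Type*} (s : σ → ℂ) (q : MvPolynomial σ ℂ) (f : ℂ[X]) :
    MvPolynomial.eval s (Polynomial.aeval q f) = f.eval (MvPolynomial.eval s q) := by
  have h := Polynomial.aeval_algHom_apply (MvPolynomial.aeval s : MvPolynomial σ ℂ →ₐ[ℂ] ℂ) q f
  rw [MvPolynomial.aeval_eq_eval] at h
  rw [← Polynomial.coe_aeval_eq_eval]
  exact h.symm

private theorem aeval_aeval_fin {σ : Type*} (s : σ → K) (q : MvPolynomial σ ℂ) (f : ℂ[X]) :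
    MvPolynomial.aeval s (Polynomial.aeval q f) = Polynomial.aeval (MvPolynomial.aeval s q) f :=
  (Polynomial.aeval_algHom_apply (MvPolynomial.aeval s : MvPolynomial σ ℂ →ₐ[ℂ] K) q f).symm

private theorem chart_sq {p : Cone} (hp : p.b = b) (hW : ∀ i, p.W i = 1) (i : Fin 3) :
    p.Y i ^ 2 = (fpoly b i).eval (p.X i) := by
  have h := p.2.2.2.1 i
  have h1 : p.Y i ^ 2 = quartic p.b i (p.W i) (p.X i) := h
  rw [h1, hp, hW i, quartic_eq]

private theorem chart_rel {p : Cone} (hp : p.b = b) (hW : ∀ i, p.W i = 1) :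
    p.X 0 * p.X 2 = b 4 * p.X 1 := by
  have h := p.2.2.2.2
  have h1 : p.X 0 * p.X 2 * p.W 1 = p.b 4 * p.X 1 * p.W 0 * p.W 2 := h
  rw [hp, hW, hW, hW, mul_one, mul_one, mul_one] at h1
  exact h1

private theorem rel_fin (h : IsFunctionField b K x w) : x 0 * x 2 = algebraMap ℂ K (b 4) * x 1 := by
  have h1 := (h.zero_iff (MvPolynomial.X (Sum.inl 0) * MvPolynomial.X (Sum.inl 2) -
    MvPolynomial.C (b 4) * MvPolynomial.X (Sum.inl 1))).2 (by
      intro p hp hW
      simp only [map_sub, map_mul, MvPolynomial.eval_X, MvPolynomial.eval_C, Sum.elim_inl]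
      rw [chart_rel hp hW, sub_self])
  simp only [map_sub, map_mul, MvPolynomial.aeval_X, MvPolynomial.aeval_C, Sum.elim_inl] at h1
  exact sub_eq_zero.1 h1

private theorem hw_fin (h : IsFunctionField b K x w) (i : Fin 3) :
    w i ^ 2 = aeval (x (i + 1)) (fpoly b (i + 1)) * aeval (x (i + 2)) (fpoly b (i + 2)) := by
  have h1 := (h.zero_iff (MvPolynomial.X (Sum.inr i) ^ 2 -
    Polynomial.aeval (MvPolynomial.X (Sum.inl (i + 1)) : MvPolynomial (Fin 3 ⊕ Fin 3) ℂ) (fpoly b (i + 1)) *
    Polynomial.aeval (MvPolynomial.X (Sum.inl (i + 2)) : MvPolynomial (Fin 3 ⊕ Fin 3) ℂ)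
      (fpoly b (i + 2)))).2 (by
      intro p hp hW
      simp only [map_sub, map_mul, map_pow, eval_aeval_fin, MvPolynomial.eval_X, Sum.elim_inl,
        Sum.elim_inr]
      rw [← chart_sq hp hW, ← chart_sq hp hW]
      ring)
  simp only [map_sub, map_mul, map_pow, aeval_aeval_fin, MvPolynomial.aeval_X, Sum.elim_inl,
    Sum.elim_inr] at h1
  exact sub_eq_zero.1 h1

private theorem hww_fin (h : IsFunctionField b K x w) (i : Fin 3) :
    w (i + 1) * w (i + 2) = aeval (x i) (fpoly b i) * w i := by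
  have h1 := (h.zero_iff (MvPolynomial.X (Sum.inr (i + 1)) * MvPolynomial.X (Sum.inr (i + 2)) -
    Polynomial.aeval (MvPolynomial.X (Sum.inl i) : MvPolynomial (Fin 3 ⊕ Fin 3) ℂ) (fpoly b i) *
    MvPolynomial.X (Sum.inr i))).2 (by
      intro p hp hW
      simp only [map_sub, map_mul, eval_aeval_fin, MvPolynomial.eval_X, Sum.elim_inl,
        Sum.elim_inr]
      rw [← chart_sq hp hW]
      have e1 : i + 1 + 1 = i + 2 := by fin_cases i <;> rfl
      have e2 : i + 1 + 2 = i := by fin_cases i <;> rfl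
      have e3 : i + 2 + 1 = i := by fin_cases i <;> rfl
      have e4 : i + 2 + 2 = i + 1 := by fin_cases i <;> rfl
      rw [e1, e2, e3, e4]
      ring)
  simp only [map_sub, map_mul, aeval_aeval_fin, MvPolynomial.aeval_X, Sum.elim_inl,
    Sum.elim_inr] at h1
  exact sub_eq_zero.1 h1

private theorem algInd_fin (hb : b ∈ BaseSet) (h : IsFunctionField b K x w) :
    AlgebraicIndependent ℂ ![x 0, x 2] := by
  rw [algebraicIndependent_iff]
  intro P hP
  have h1 := (h.zero_iff (MvPolynomial.rename ![Sum.inl 0, Sum.inl 2] P)).1 (by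
    rw [MvPolynomial.aeval_rename]
    have h2 : (Sum.elim x w) ∘ ![Sum.inl 0, Sum.inl 2] = ![x 0, x 2] := by
      funext j
      fin_cases j <;> rfl
    rw [h2]
    exact hP)
  apply MvPolynomial.funext
  intro v
  obtain ⟨p, hp, hW, h0, h2⟩ := exists_point hb (v 0) (v 1)
  have h3 := h1 p hp hW
  rw [MvPolynomial.eval_rename] at h3
  have h4 : (Sum.elim p.X (fun i => p.Y (i + 1) * p.Y (i + 2))) ∘ ![Sum.inl 0, Sum.inl 2] = v := by
    funext j
    fin_cases j
    · exact h0
    · exact h2
  rw [h4] at h3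
  rw [h3, map_zero]

open scoped IntermediateField.algebraAdjoinAdjoin in
private theorem tb_fin (hb : b ∈ BaseSet) (h : IsFunctionField b K x w) :
    IsTranscendenceBasis ℂ ![x 0, x 2] := by
  rw [(algInd_fin hb h).isTranscendenceBasis_iff_isAlgebraic]
  set S : Set K := Set.range ![x 0, x 2] with hS
  have hx0 : x 0 ∈ IntermediateField.adjoin ℂ S := IntermediateField.subset_adjoin ℂ S ⟨0, rfl⟩
  have hx2 : x 2 ∈ IntermediateField.adjoin ℂ S := IntermediateField.subset_adjoin ℂ S ⟨1, rfl⟩
  have hμ : algebraMap ℂ K (b 4) ≠ 0 := by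
    rw [Ne, map_eq_zero]
    exact hb.2.2.1
  have hx1 : x 1 ∈ IntermediateField.adjoin ℂ S := by
    have h1 : x 1 = (algebraMap ℂ K (b 4))⁻¹ * (x 0 * x 2) := by
      rw [rel_fin h, inv_mul_cancel_left₀ hμ]
    rw [h1]
    exact mul_mem (inv_mem (IntermediateField.algebraMap_mem _ _)) (mul_mem hx0 hx2)
  have hx : ∀ i, x i ∈ IntermediateField.adjoin ℂ S := by
    intro i
    fin_cases i
    · exact hx0
    · exact hx1
    · exact hx2
  have hf : ∀ i (f : ℂ[X]), aeval (x i) f ∈ IntermediateField.adjoin ℂ S := by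
    intro i f
    have h1 : Algebra.adjoin ℂ {x i} ≤ (IntermediateField.adjoin ℂ S).toSubalgebra :=
      Algebra.adjoin_le (Set.singleton_subset_iff.2 (hx i))
    exact h1 (Polynomial.aeval_mem_adjoin_singleton ℂ (x i))
  have hw2 : ∀ i, w i ^ 2 ∈ IntermediateField.adjoin ℂ S := by
    intro i
    rw [hw_fin h i]
    exact mul_mem (hf _ _) (hf _ _)
  have halgx : ∀ a ∈ IntermediateField.adjoin ℂ S, IsAlgebraic (IntermediateField.adjoin ℂ S) a := by
    intro a ha
    exact isAlgebraic_algebraMap (⟨a, ha⟩ : IntermediateField.adjoin ℂ S)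
  have htop : (algebraicClosure (IntermediateField.adjoin ℂ S) K).restrictScalars ℂ = ⊤ := by
    rw [eq_top_iff, ← h.gen, IntermediateField.adjoin_le_iff]
    rintro a (⟨i, rfl⟩ | ⟨i, rfl⟩)
    · exact mem_algebraicClosure_iff.2 (halgx _ (hx i))
    · exact mem_algebraicClosure_iff.2 (IsAlgebraic.of_pow two_pos (halgx _ (hw2 i)))
  have halg : Algebra.IsAlgebraic (IntermediateField.adjoin ℂ S) K := by
    refine ⟨fun a => ?_⟩
    have h1 : a ∈ (algebraicClosure (IntermediateField.adjoin ℂ S) K).restrictScalars ℂ := by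
      rw [htop]
      exact IntermediateField.mem_top
    exact mem_algebraicClosure_iff.1 h1
  exact Algebra.IsAlgebraic.trans (Algebra.adjoin ℂ S) (IntermediateField.adjoin ℂ S) K

end

/-- the relations of `BurgerData` hold since they hold at all points; `x 0, x 2` are algebraically independent
since all `(a, c) ∈ ℂ²` occur; `K` is algebraic over `ℂ(x 0, x 2)` since it is generated by algebraic elements -/
theorem exists_burgerData {b : Param} (hb : b ∈ BaseSet) {K : Type*} [Field K] [Algebra ℂ K]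
    {x w : Fin 3 → K} (h : IsFunctionField b K x w) : Nonempty (BurgerData K) :=
  ⟨{ f := fpoly b
     x := x
     w := w
     μ := b 4
     μ_ne := hb.2.2.1
     quartic := fpoly_quartic hb
     f_zero := fpoly_zero hb
     rel := rel_fin h
     tb := tb_fin hb h
     hw := hw_fin h
     hww := hww_fin h
     gen := h.gen }⟩

/-- the same with the given generators -/
theorem exists_burgerData' {b : Param} (hb : b ∈ BaseSet) {K : Type*} [Field K] [Algebra ℂ K]
    {x w : Fin 3 → K} (h : IsFunctionField b K x w) : ∃ D : BurgerData K, D.x = x ∧ D.w = w :=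
  ⟨{ f := fpoly b
     x := x
     w := w
     μ := b 4
     μ_ne := hb.2.2.1
     quartic := fpoly_quartic hb
     f_zero := fpoly_zero hb
     rel := rel_fin h
     tb := tb_fin hb h
     hw := hw_fin h
     hww := hww_fin h
     gen := h.gen }, rfl, rfl⟩

/-- **The surfaces `S_b` are (birationally) triple K3 burgers.** -/
theorem isTripleK3BurgerField_of {b : Param} (hb : b ∈ BaseSet) {K : Type*} [Field K] [Algebra ℂ K]
    {x w : Fin 3 → K} (h : IsFunctionField b K x w) : IsTripleK3BurgerField K := by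
  obtain ⟨D⟩ := exists_burgerData hb h
  exact D.isTripleK3BurgerField

end Pool.Agent.K3G
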