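import Pool.Agent.K3G.BurgerForms

/-!
# The biquadratic field of a triple K3 burger is of general type
-/

set_option autoImplicit false

noncomputable section
namespace Pool.Agent.K3G

open Polynomial

/-! ### auxiliary lemmas -/

private theorem gt_aeval (f : ℂ[X]) (Y : LK) :
    aeval Y f = (f.map (algebraMap ℂ κ)).eval₂ con Y := by
  rw [eval₂_map, aeval_def, show algebraMap ℂ LK = con.comp (algebraMap ℂ κ) from
    RingHom.ext fun c => (con_algebraMap c).symm]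

private theorem gt_pos_add {a b : LK} (ha : 0 < ord a) (hb : 0 < ord b) : 0 < ord (a + b) :=
  lt_of_lt_of_le (lt_min ha hb) (ord_add a b)

private theorem gt_pos_sum {ι : Type*} (S : Finset ι) (g : ι → LK) (h : ∀ i ∈ S, 0 < ord (g i)) :
    0 < ord (∑ i ∈ S, g i) := by
  refine Finset.sum_induction _ (fun a => 0 < ord a) (fun a b => gt_pos_add) ?_ h
  rw [ord_zero]
  exact WithTop.coe_lt_top 0

private theorem gt_mul_pos {a b : LK} (ha : a ∈ R) (hb : 0 < ord b) : 0 < ord (a * b) := by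
  rw [ord_mul]
  exact lt_of_lt_of_le hb (le_add_of_nonneg_left (mem_R.1 ha))

private theorem gt_mem_of_near {r : LK} {ρ : κ} (hr : 0 < ord (r - con ρ)) : r ∈ R := by
  have h1 : (r - con ρ) + con ρ ∈ R := R.add_mem _ _ (mem_R.2 hr.le) (con_mem_R ρ)
  simpa using h1

/-- monomials in a unit with transcendental residue and a non-unit are linearly independent over `ℂ`. -/
theorem linInd_monomials {r v : LK} {ρ : κ} (hr : 0 < ord (r - con ρ)) (hρ : Transcendental ℂ ρ)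
    {k : ℕ} (hk : 0 < k) (hv : ord v = k) :
    LinearIndependent ℂ (fun p : ℕ × ℕ => r ^ p.1 * v ^ p.2) := by
  classical
  rw [linearIndependent_iff']
  intro S g hg
  by_contra hcon
  push Not at hcon
  obtain ⟨i₀, hi₀, hgi₀⟩ := hcon
  have hrR := gt_mem_of_near hr
  have hv0 : v ≠ 0 := by
    rintro rfl
    rw [ord_zero] at hv
    exact absurd hv.symm (by exact_mod_cast WithTop.coe_ne_top (a := (k : ℤ)))
  have hvpos : 0 < ord v := by
    rw [hv]; exact_mod_cast hk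
  -- restrict to the support
  set T := S.filter (fun p => g p ≠ 0) with hT
  have hTne : T.Nonempty := ⟨i₀, Finset.mem_filter.2 ⟨hi₀, hgi₀⟩⟩
  have hgT : ∑ p ∈ T, g p • (r ^ p.1 * v ^ p.2) = 0 := by
    rw [← hg]
    refine Finset.sum_subset (Finset.filter_subset _ _) fun p hp hpT => ?_
    have : g p = 0 := by
      by_contra h
      exact hpT (Finset.mem_filter.2 ⟨hp, h⟩)
    rw [this, zero_smul]
  obtain ⟨q, hqT, hqmin⟩ := Finset.exists_min_image T (fun p => p.2) hTne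
  -- divide by `v ^ q.2`
  have hdiv : ∑ p ∈ T, g p • (r ^ p.1 * v ^ (p.2 - q.2)) = 0 := by
    have e : v ^ q.2 * ∑ p ∈ T, g p • (r ^ p.1 * v ^ (p.2 - q.2)) = 0 := by
      rw [Finset.mul_sum, ← hgT]
      refine Finset.sum_congr rfl fun p hp => ?_
      rw [mul_smul_comm]
      congr 1
      rw [mul_left_comm, ← pow_add, Nat.add_sub_cancel' (hqmin p hp)]
    exact (mul_eq_zero.1 e).resolve_left (pow_ne_zero _ hv0)
  rw [← Finset.sum_filter_add_sum_filter_not T (fun p => p.2 = q.2)] at hdiv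
  -- the polynomial
  set P : ℂ[X] := ∑ p ∈ T.filter (fun p => p.2 = q.2), C (g p) * X ^ p.1 with hP
  have hP0 : P ≠ 0 := by
    intro h
    have h1 : P.coeff q.1 = g q := by
      rw [hP, finsetSum_coeff, Finset.sum_eq_single q]
      · rw [coeff_C_mul, coeff_X_pow, if_pos rfl, mul_one]
      · intro p hp hpq
        rw [coeff_C_mul, coeff_X_pow, if_neg, mul_zero]
        intro h2
        exact hpq (Prod.ext h2.symm (Finset.mem_filter.1 hp).2)
      · intro hq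
        exact absurd (show q ∈ T.filter (fun p => p.2 = q.2) from Finset.mem_filter.2 ⟨hqT, rfl⟩) hq
    rw [h, coeff_zero] at h1
    exact (Finset.mem_filter.1 hqT).2 h1.symm
  have hPr : aeval r P = ∑ p ∈ T.filter (fun p => p.2 = q.2), g p • (r ^ p.1 * v ^ (p.2 - q.2)) := by
    rw [hP, map_sum]
    refine Finset.sum_congr rfl fun p hp => ?_
    rw [(Finset.mem_filter.1 hp).2, Nat.sub_self, pow_zero, mul_one, map_mul, aeval_C, map_pow,
      aeval_X, Algebra.smul_def]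
  have hord : ord (aeval r P) = 0 := by
    rw [gt_aeval]
    refine ord_eval_of_ne hr ?_
    rw [eval_map, ← aeval_def]
    exact fun h => hP0 ((transcendental_iff.1 hρ) P h)
  have hrest : 0 < ord (∑ p ∈ T.filter (fun p => ¬ p.2 = q.2), g p • (r ^ p.1 * v ^ (p.2 - q.2))) := by
    refine gt_pos_sum _ _ fun p hp => ?_
    have h1 := Finset.mem_filter.1 hp
    have h2 : q.2 < p.2 := lt_of_le_of_ne (hqmin p h1.1) (Ne.symm h1.2)
    obtain ⟨j, hj⟩ : ∃ j, p.2 - q.2 = j + 1 := ⟨p.2 - q.2 - 1, by omega⟩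
    rw [Algebra.smul_def, ← con_algebraMap, hj, pow_succ]
    rw [show con (algebraMap ℂ κ (g p)) * (r ^ p.1 * (v ^ j * v))
      = (con (algebraMap ℂ κ (g p)) * (r ^ p.1 * v ^ j)) * v by ring]
    refine gt_mul_pos ?_ hvpos
    exact R.mul_mem _ _ (con_mem_R _) (R.mul_mem _ _ (R.toSubring.pow_mem hrR _)
      (R.toSubring.pow_mem (mem_R.2 hvpos.le) _))
  rw [← hPr] at hdiv
  have h3 : aeval r P = -(∑ p ∈ T.filter (fun p => ¬ p.2 = q.2), g p • (r ^ p.1 * v ^ (p.2 - q.2))) :=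
    eq_neg_of_add_eq_zero_left hdiv
  rw [h3, ord_neg] at hord
  rw [hord] at hrest
  exact lt_irrefl _ hrest

/-- residue of the value of a polynomial at a non-unit -/
private theorem gt_res_zero (f : ℂ[X]) {Y : LK} (hY : 0 < ord Y) :
    0 < ord (aeval Y f - con (algebraMap ℂ κ (f.eval 0))) := by
  have h := divX_mul_X_add f
  have e : aeval Y f - con (algebraMap ℂ κ (f.eval 0)) = aeval Y f.divX * Y := by
    conv_lhs => rw [← h]
    rw [map_add, map_mul, aeval_X, aeval_C, con_algebraMap, eval_add, eval_mul, eval_X, eval_C,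
      mul_zero, zero_add, add_sub_cancel_right]
  rw [e]
  refine gt_mul_pos ?_ hY
  have hYR : Y ∈ R := mem_R.2 hY.le
  rw [aeval_eq_sum_range]
  refine R.toSubring.sum_mem fun i _ => ?_
  rw [Algebra.smul_def, ← con_algebraMap]
  exact R.mul_mem _ _ (con_mem_R _) (R.toSubring.pow_mem hYR i)

/-- residue of a quotient -/
private theorem gt_res_div {A B : LK} {a b : κ} (hA : 0 < ord (A - con a)) (hB : 0 < ord (B - con b))
    (hb : b ≠ 0) : 0 < ord (A / B - con (a / b)) := by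
  have hBo : ord B = 0 := by
    rw [show B = con b + (B - con b) by ring, ord_add_eq, ord_con hb]
    rw [ord_con hb]; exact hB
  have hB0 : B ≠ 0 := by
    rintro rfl
    rw [ord_zero] at hBo
    exact WithTop.top_ne_zero hBo
  have hcb : con b ≠ 0 := (map_ne_zero_iff con con.injective).2 hb
  have hinv : B⁻¹ ∈ R := by
    rw [mem_R, ord_inv (k := 0) (by rw [hBo]; rfl)]
    exact le_refl _
  have e : A / B - con (a / b) = B⁻¹ * ((A - con a) - con (a / b) * (B - con b)) := by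
    rw [map_div₀]
    field_simp
    ring
  rw [e]
  refine gt_mul_pos hinv ?_
  rw [sub_eq_add_neg]
  refine gt_pos_add hA ?_
  rw [ord_neg]
  exact gt_mul_pos (con_mem_R _) hB

namespace BurgerData

variable {K : Type*} [Field K] [Algebra ℂ K] (D : BurgerData K)

/-- the squares of the ratios `α 0 / α 1`, `α 2 / α 1` -/
def R0 : K := D.x 2 ^ 2 * aeval (D.x 0) (D.f 0) / aeval (D.x 1) (D.f 1)
def R2 : K := D.x 0 ^ 2 * aeval (D.x 2) (D.f 2) / aeval (D.x 1) (D.f 1)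

/-- the derivative of the relation `x 0 x 2 = μ x 1` -/
theorem gt_rel (X : VF K) :
    algebraMap ℂ K D.μ * X (D.x 1) = D.x 0 * X (D.x 2) + D.x 2 * X (D.x 0) := by
  have h := congrArg X D.rel
  rw [Derivation.leibniz, Derivation.leibniz, Derivation.map_algebraMap, smul_zero, add_zero,
    smul_eq_mul, smul_eq_mul, smul_eq_mul] at h
  exact h.symm

/-- `(α 0)² = (R0 / μ²) (α 1)²`, `(α 2)² = (R2 / μ²) (α 1)²` as functions on pairs of vector fields: from
`μ dx₁ = x₂ dx₀ + x₀ dx₂`; `w 0 = y₁y₂`, `w 1 = y₂y₀`, `w 2 = y₀y₁`. -/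
theorem α_sq_zero (X Y : VF K) : D.α 0 X Y ^ 2 = (algebraMap ℂ K D.μ ^ 2)⁻¹ * D.R0 * D.α 1 X Y ^ 2 := by
  have hμ : algebraMap ℂ K D.μ ≠ 0 := by
    rw [Ne, map_eq_zero]; exact D.μ_ne
  have w0 : D.w 0 ^ 2 = aeval (D.x 1) (D.f 1) * aeval (D.x 2) (D.f 2) := D.hw 0
  have w1 : D.w 1 ^ 2 = aeval (D.x 2) (D.f 2) * aeval (D.x 0) (D.f 0) := D.hw 1
  have f0 := D.aeval_f_ne 0
  have f1 := D.aeval_f_ne 1
  have f2 := D.aeval_f_ne 2
  have hX := D.gt_rel X
  have hY := D.gt_rel Y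
  have hΔ : algebraMap ℂ K D.μ * (X (D.x 1) * Y (D.x 2) - X (D.x 2) * Y (D.x 1)) =
      -(D.x 2 * (X (D.x 2) * Y (D.x 0) - X (D.x 0) * Y (D.x 2))) := by
    linear_combination Y (D.x 2) * hX - X (D.x 2) * hY
  have a0 : D.α 0 X Y = (D.w 0)⁻¹ * (X (D.x 1) * Y (D.x 2) - X (D.x 2) * Y (D.x 1)) := rfl
  have a1 : D.α 1 X Y = (D.w 1)⁻¹ * (X (D.x 2) * Y (D.x 0) - X (D.x 0) * Y (D.x 2)) := rfl
  rw [a0, a1, mul_pow, mul_pow, inv_pow, inv_pow, w0, w1, R0]
  generalize aeval (D.x 0) (D.f 0) = F0 at *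
  generalize aeval (D.x 1) (D.f 1) = F1 at *
  generalize aeval (D.x 2) (D.f 2) = F2 at *
  generalize algebraMap ℂ K D.μ = M at *
  have hΔ2 := congrArg (· ^ 2) hΔ
  simp only [mul_pow, neg_sq] at hΔ2
  field_simp
  linear_combination hΔ2
theorem α_sq_two (X Y : VF K) : D.α 2 X Y ^ 2 = (algebraMap ℂ K D.μ ^ 2)⁻¹ * D.R2 * D.α 1 X Y ^ 2 := by
  have hμ : algebraMap ℂ K D.μ ≠ 0 := by
    rw [Ne, map_eq_zero]; exact D.μ_ne
  have w2 : D.w 2 ^ 2 = aeval (D.x 0) (D.f 0) * aeval (D.x 1) (D.f 1) := D.hw 2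
  have w1 : D.w 1 ^ 2 = aeval (D.x 2) (D.f 2) * aeval (D.x 0) (D.f 0) := D.hw 1
  have f0 := D.aeval_f_ne 0
  have f1 := D.aeval_f_ne 1
  have f2 := D.aeval_f_ne 2
  have hX := D.gt_rel X
  have hY := D.gt_rel Y
  have hΔ : algebraMap ℂ K D.μ * (X (D.x 0) * Y (D.x 1) - X (D.x 1) * Y (D.x 0)) =
      -(D.x 0 * (X (D.x 2) * Y (D.x 0) - X (D.x 0) * Y (D.x 2))) := by
    linear_combination X (D.x 0) * hY - Y (D.x 0) * hX
  have a2 : D.α 2 X Y = (D.w 2)⁻¹ * (X (D.x 0) * Y (D.x 1) - X (D.x 1) * Y (D.x 0)) := rfl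
  have a1 : D.α 1 X Y = (D.w 1)⁻¹ * (X (D.x 2) * Y (D.x 0) - X (D.x 0) * Y (D.x 2)) := rfl
  rw [a2, a1, mul_pow, mul_pow, inv_pow, inv_pow, w2, w1, R2]
  generalize aeval (D.x 0) (D.f 0) = F0 at *
  generalize aeval (D.x 1) (D.f 1) = F1 at *
  generalize aeval (D.x 2) (D.f 2) = F2 at *
  generalize algebraMap ℂ K D.μ = M at *
  have hΔ2 := congrArg (· ^ 2) hΔ
  simp only [mul_pow, neg_sq] at hΔ2
  field_simp
  linear_combination hΔ2

/-- embeddings with `x 0 ↦ τⁿ`, `x 2 ↦ s` -/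
private theorem gt_emb : ∃ (n : ℕ) (Φ : K →ₐ[ℂ] LK), 0 < n ∧ Φ (D.x 0) = tau ^ n ∧
    Φ (D.x 2) = con s := by
  have hE : HasEmb (D.x 0) (D.x 2) (D.f 0) True := D.hasEmb' 1
  have hpt : ∀ n, pt 0 n = tau ^ n := fun n => by rw [pt, map_zero, zero_add]
  rcases hE.fin 0 with ⟨-, Φ, hΦ⟩ | ⟨-, Φ, hΦ⟩ | ⟨-, -, Φ, hΦ⟩
  · exact ⟨1, Φ, one_pos, by rw [hΦ.1, hpt], hΦ.2⟩
  · exact ⟨2, Φ, two_pos, by rw [hΦ.1, hpt], hΦ.2⟩
  · exact ⟨2, Φ, two_pos, by rw [hΦ.1, hpt], hΦ.2⟩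

theorem linInd_R : LinearIndependent ℂ (fun p : ℕ × ℕ => D.R0 ^ p.1 * D.R2 ^ p.2) := by
  obtain ⟨n, Φ, hn, h0, h2⟩ := D.gt_emb
  have hμ' : algebraMap ℂ κ D.μ ≠ 0 := by
    rw [Ne, map_eq_zero_iff _ (algebraMap ℂ κ).injective]
    exact D.μ_ne
  -- the image of `x 1`
  have h1 : Φ (D.x 1) = con ((algebraMap ℂ κ D.μ)⁻¹ * s) * tau ^ n := by
    have h := congrArg Φ D.rel
    rw [map_mul, map_mul, h0, h2, AlgHom.commutes, ← con_algebraMap] at h
    rw [map_mul, map_inv₀]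
    have hc : con (algebraMap ℂ κ D.μ) ≠ 0 := (map_ne_zero_iff con con.injective).2 hμ'
    field_simp
    rw [mul_comm (Φ (D.x 1)), ← h]
    ring
  have htau : 0 < ord (tau ^ n) := by
    rw [ord_pow, ord_tau, nsmul_one]
    exact_mod_cast hn
  have hx1 : 0 < ord (Φ (D.x 1)) := by
    rw [h1]
    exact gt_mul_pos (con_mem_R _) htau
  set a1 : κ := algebraMap ℂ κ ((D.f 1).eval 0) with ha1
  set a0 : κ := algebraMap ℂ κ ((D.f 0).eval 0) with ha0
  have ha1' : a1 ≠ 0 := by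
    rw [ha1, Ne, map_eq_zero_iff _ (algebraMap ℂ κ).injective]
    exact D.f_zero 1
  have ha0' : a0 ≠ 0 := by
    rw [ha0, Ne, map_eq_zero_iff _ (algebraMap ℂ κ).injective]
    exact D.f_zero 0
  have hf1 : 0 < ord (aeval (Φ (D.x 1)) (D.f 1) - con a1) := gt_res_zero _ hx1
  have hf0 : 0 < ord (aeval (Φ (D.x 0)) (D.f 0) - con a0) := gt_res_zero _ (by rw [h0]; exact htau)
  have hR0 : Φ D.R0 = con s ^ 2 * aeval (Φ (D.x 0)) (D.f 0) / aeval (Φ (D.x 1)) (D.f 1) := by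
    rw [R0, map_div₀, map_mul, map_pow, h2, ← Polynomial.aeval_algHom_apply,
      ← Polynomial.aeval_algHom_apply]
  have hR2 : Φ D.R2 = (tau ^ n) ^ 2 * con (aeval s (D.f 2)) / aeval (Φ (D.x 1)) (D.f 1) := by
    rw [R2, map_div₀, map_mul, map_pow, h0, ← Polynomial.aeval_algHom_apply,
      ← Polynomial.aeval_algHom_apply, h2, aeval_con]
  have hof1 : ord (aeval (Φ (D.x 1)) (D.f 1)) = 0 := by
    refine (D.quartic 1).ord_of_ne (η := 0) (by rw [map_zero, sub_zero]; exact hx1) ?_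
    rw [← coeff_zero_eq_aeval_zero', coeff_zero_eq_eval_zero]
    exact ha1'
  -- residue of `Φ R0`
  have hres : 0 < ord (Φ D.R0 - con (s ^ 2 * a0 / a1)) := by
    rw [hR0]
    refine gt_res_div ?_ hf1 ha1'
    rw [map_mul, map_pow, ← mul_sub]
    exact gt_mul_pos (R.toSubring.pow_mem (con_mem_R _) 2) hf0
  have htr : Transcendental ℂ (s ^ 2 * a0 / a1) := by
    intro halg
    have h3 : IsAlgebraic ℂ (s ^ 2) := by
      have e : s ^ 2 = (s ^ 2 * a0 / a1) * algebraMap ℂ κ ((D.f 1).eval 0 / (D.f 0).eval 0) := by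
        rw [map_div₀, ← ha1, ← ha0]
        field_simp
      rw [e]
      exact halg.mul (isAlgebraic_algebraMap _)
    exact s_transcendental (h3.of_pow two_pos)
  have hv : ord (Φ D.R2) = ((2 * n : ℕ) : WithTop ℤ) := by
    have hB : aeval (Φ (D.x 1)) (D.f 1) ≠ 0 := by
      intro h
      rw [h, ord_zero] at hof1
      exact WithTop.top_ne_zero hof1
    rw [hR2, div_eq_mul_inv, ord_mul, ord_mul, ord_inv (k := 0) (by rw [hof1]; rfl),
      ord_con (aeval_s_ne_zero (D.f_ne 2)), ← pow_mul, ord_pow, ord_tau, nsmul_one]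
    simp
    ring
  have key := linInd_monomials hres htr (k := 2 * n) (by omega) hv
  refine LinearIndependent.of_comp Φ.toLinearMap ?_
  have e : (Φ.toLinearMap ∘ fun p : ℕ × ℕ => D.R0 ^ p.1 * D.R2 ^ p.2)
      = fun p => (Φ D.R0) ^ p.1 * (Φ D.R2) ^ p.2 := by
    funext p
    simp
  rw [e]
  exact key

/-- the monomials of degree `m` in the `α i` -/
def gtF (m : ℕ) (p : ℕ × ℕ) : VF K → VF K → K :=
  fun X Y => D.α 0 X Y ^ (2 * p.1) * D.α 2 X Y ^ (2 * p.2) * D.α 1 X Y ^ (m - (2 * p.1 + 2 * p.2))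

theorem gtF_mem {m : ℕ} {p : ℕ × ℕ} (h : 2 * p.1 + 2 * p.2 ≤ m) : D.gtF m p ∈ FKM K m := by
  obtain ⟨a, b⟩ := p
  obtain ⟨r, rfl⟩ := Nat.exists_eq_add_of_le h
  have key := prod_mem_FKM (m := 2 * a + 2 * b + r)
    (ω := fun i => if (i : ℕ) < 2 * a then D.α 0 else
      if (i : ℕ) < 2 * a + 2 * b then D.α 2 else D.α 1) (fun i => by
        split_ifs
        · exact D.α_locGen 0
        · exact D.α_locGen 2
        · exact D.α_locGen 1)
  have e : (fun X Y => ∏ i : Fin (2 * a + 2 * b + r), (if (i : ℕ) < 2 * a then D.α 0 else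
      if (i : ℕ) < 2 * a + 2 * b then D.α 2 else D.α 1) X Y) =
      D.gtF (2 * a + 2 * b + r) (a, b) := by
    funext X Y
    rw [Fin.prod_univ_eq_prod_range (fun i : ℕ => (if i < 2 * a then D.α 0 else
      if i < 2 * a + 2 * b then D.α 2 else D.α 1) X Y) (2 * a + 2 * b + r)]
    rw [Finset.prod_range_add, Finset.prod_range_add]
    simp only [gtF]
    rw [Nat.add_sub_cancel_left]
    refine congrArg₂ (· * ·) (congrArg₂ (· * ·) ?_ ?_) ?_
    · rw [Finset.prod_congr rfl (g := fun _ => D.α 0 X Y), Finset.prod_const, Finset.card_range]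
      intro i hi
      rw [if_pos (Finset.mem_range.1 hi)]
    · rw [Finset.prod_congr rfl (g := fun _ => D.α 2 X Y), Finset.prod_const, Finset.card_range]
      intro i hi
      have hi := Finset.mem_range.1 hi
      rw [if_neg (by omega), if_pos (by omega)]
    · rw [Finset.prod_congr rfl (g := fun _ => D.α 1 X Y), Finset.prod_const, Finset.card_range]
      intro i hi
      rw [if_neg (by omega), if_neg (by omega)]
  rw [← e]
  exact key

theorem gtF_eq {m : ℕ} {p : ℕ × ℕ} (h : 2 * p.1 + 2 * p.2 ≤ m) (X Y : VF K) :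
    D.gtF m p X Y = ((D.μ ^ 2)⁻¹) ^ (p.1 + p.2) • (D.R0 ^ p.1 * D.R2 ^ p.2) * D.α 1 X Y ^ m := by
  obtain ⟨a, b⟩ := p
  obtain ⟨r, rfl⟩ := Nat.exists_eq_add_of_le h
  simp only [gtF]
  rw [Nat.add_sub_cancel_left, pow_mul, pow_mul, D.α_sq_zero, D.α_sq_two, Algebra.smul_def,
    map_pow, map_inv₀, map_pow]
  generalize (algebraMap ℂ K D.μ ^ 2)⁻¹ = c
  ring

theorem gt_α_ne : ∃ X Y : VF K, D.α 1 X Y ≠ 0 := by
  by_contra h
  push Not at h
  refine D.α_linInd.ne_zero 1 ?_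
  funext X Y
  exact h X Y

include D in
/-- **General type.**  For `2a + 2b ≤ m` the form `(α 0)^{2a} (α 2)^{2b} (α 1)^{m-2a-2b}` is `m`-canonical of the
first kind (`prod_mem_FKM`), and these are linearly independent (evaluate at the dual vector fields of `x 0, x 2`,
divide by `(α 1)^m`).  Their number is at least `(m/2+1)(m/2+2)/2 ≥ m²/8`. -/
theorem generalType : GeneralType K := by
  refine ⟨1 / 16, by norm_num, fun m _ => ⟨(m / 4 + 1) * (m / 4 + 1), ?_, ?_⟩⟩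
  · have h : m ≤ 4 * (m / 4 + 1) := by omega
    have h' : (m : ℝ) ≤ 4 * ((m / 4 : ℕ) + 1 : ℝ) := by exact_mod_cast h
    push_cast
    nlinarith [(Nat.cast_nonneg m : (0 : ℝ) ≤ m)]
  · obtain ⟨X, Y, hXY⟩ := D.gt_α_ne
    have hle : ∀ p : Fin (m / 4 + 1) × Fin (m / 4 + 1), 2 * (p.1 : ℕ) + 2 * (p.2 : ℕ) ≤ m := by
      rintro ⟨⟨a, ha⟩, ⟨b, hb⟩⟩
      change 2 * a + 2 * b ≤ m
      omega
    have hlin : LinearIndependent ℂ (fun p : Fin (m / 4 + 1) × Fin (m / 4 + 1) =>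
        (⟨D.gtF m (p.1, p.2), D.gtF_mem (hle p)⟩ : FKM K m)) := by
      rw [Fintype.linearIndependent_iff]
      intro g hg
      have hinj : Function.Injective
          (fun p : Fin (m / 4 + 1) × Fin (m / 4 + 1) => ((p.1 : ℕ), (p.2 : ℕ))) := by
        rintro ⟨a, b⟩ ⟨a', b'⟩ h
        simp only [Prod.mk.injEq] at h
        exact Prod.ext (Fin.ext h.1) (Fin.ext h.2)
      have hR := Fintype.linearIndependent_iff.1 (D.linInd_R.comp _ hinj)
        (fun p => g p * ((D.μ ^ 2)⁻¹) ^ ((p.1 : ℕ) + (p.2 : ℕ))) (by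
          have e := congrArg (fun ω : FKM K m => ω.1 X Y) hg
          simp only [Submodule.coe_sum, Finset.sum_apply, Submodule.coe_smul, Pi.smul_apply] at e
          have e' : (∑ p : Fin (m / 4 + 1) × Fin (m / 4 + 1),
              (g p * ((D.μ ^ 2)⁻¹) ^ ((p.1 : ℕ) + (p.2 : ℕ))) •
                (D.R0 ^ (p.1 : ℕ) * D.R2 ^ (p.2 : ℕ))) * D.α 1 X Y ^ m = 0 := by
            rw [Finset.sum_mul]
            refine Eq.trans (Finset.sum_congr rfl fun p _ => ?_) e
            rw [D.gtF_eq (hle p) X Y]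
            rw [smul_mul_assoc, smul_mul_assoc, smul_smul]
          exact (mul_eq_zero.1 e').resolve_right (pow_ne_zero _ hXY))
      intro p
      exact (mul_eq_zero.1 (hR p)).resolve_right
        (pow_ne_zero _ (inv_ne_zero (pow_ne_zero _ D.μ_ne)))
    have h := hlin.cardinal_lift_le_rank
    simpa [Cardinal.mk_fintype] using h

include D in
/-- **Main theorem of the geometry half** -/
theorem isTripleK3BurgerField : IsTripleK3BurgerField K where
  toIsSurfaceField := D.isSurfaceField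
  q := D.fk1_eq_bot
  pg := D.finrank_fkm_one
  gt := D.generalType
  inv := ⟨D.σ, D.σ_ne_one, D.σ_mul_self, D.σ_comm, D.isK3_fixed, D.isInternal⟩

end BurgerData

end Pool.Agent.K3G
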