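import Pool.Agent.K3G.Ord
import Pool.Agent.K3G.Dual

/-!
# The forms `dx ∧ dz / √(f(x) g(z))` are of the first kind
-/

set_option autoImplicit false

noncomputable section
namespace Pool.Agent.K3G

open Polynomial

variable {K : Type*} [Field K] [Algebra ℂ K]

/-- the 2-form `da ∧ db` -/
def wedge (a b : K) : VF K → VF K → K := fun X Y => X a * Y b - X b * Y a

/-- locally (at every valuation ring containing `ℂ`) of the form `c da ∧ db` with `a, b, c` regular -/
def LocGen (ω : VF K → VF K → K) : Prop :=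
  ∀ O : ValuationSubring K, HasC O → ∃ c ∈ O, ∃ a ∈ O, ∃ b ∈ O,
    ω = fun X Y => c * (X a * Y b - X b * Y a)

/-- products of `m` such forms are `m`-canonical forms of the first kind -/
theorem prod_mem_FKM {m : ℕ} {ω : Fin m → VF K → VF K → K} (h : ∀ i, LocGen (ω i)) :
    (fun X Y => ∏ i, ω i X Y) ∈ FKM K m := by
  intro O hO
  choose c hc a ha b hb hω using fun i => h i O hO
  refine AddSubgroup.subset_closure ⟨∏ i, c i, O.toSubring.prod_mem fun i _ => hc i, a, b, ha, hb, ?_⟩
  funext X Y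
  rw [← Finset.prod_mul_distrib]
  refine Finset.prod_congr rfl fun i _ => ?_
  rw [hω i]

theorem pow_mem_FKM {ω : VF K → VF K → K} (h : LocGen ω) (m : ℕ) :
    (fun X Y => ω X Y ^ m) ∈ FKM K m := by
  have h1 := prod_mem_FKM (m := m) (ω := fun _ => ω) (fun _ => h)
  simpa using h1

theorem mem_FKM_one {ω : VF K → VF K → K} (h : LocGen ω) : ω ∈ FKM K 1 := by
  have h1 := pow_mem_FKM h 1
  simpa using h1

/-- local structure of `dx/√f(x)` at `O`, unramified type: `dx = e dx₁`, `f(x) = e² u`, `x₁ ∈ O`,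
`u = P(x₁)` a unit -/
def TypeU (O : ValuationSubring K) (f : ℂ[X]) (x : K) : Prop :=
  ∃ (x₁ e : K) (P : ℂ[X]), x₁ ∈ O ∧ e ≠ 0 ∧ (∀ X : VF K, X x = e * X x₁) ∧
    aeval x f = e ^ 2 * aeval x₁ P ∧ aeval x₁ P ∈ O ∧ (aeval x₁ P)⁻¹ ∈ O

/-- ramified type: `x ∈ O`, `f(x)` is in the maximal ideal, `e = f'(x)⁻¹` a unit, `dx = e d(f(x))` -/
def TypeR (O : ValuationSubring K) (f : ℂ[X]) (x : K) : Prop :=
  ∃ e : K, aeval x f ∈ O ∧ e ∈ O ∧ ∀ X : VF K, X x = e * X (aeval x f)

private theorem lowerA_aeval_mem {O : ValuationSubring K} (hO : HasC O) {y : K} (hy : y ∈ O)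
    (P : ℂ[X]) : aeval y P ∈ O := by
  rw [aeval_eq_sum_range]
  refine O.toSubring.sum_mem fun i _ => ?_
  rw [Algebra.smul_def]
  exact O.mul_mem _ _ (hO _) (O.toSubring.pow_mem hy i)

omit [Algebra ℂ K] in
/-- in the maximal ideal iff the inverse is not in `O` -/
private theorem lowerA_lt {O : ValuationSubring K} {y : K} (hy : y⁻¹ ∉ O) : O.valuation y < 1 := by
  by_contra h
  apply hy
  rw [← O.valuation_le_one_iff, map_inv₀]
  rw [not_lt] at h
  exact inv_le_one_of_one_le₀ h

omit [Algebra ℂ K] in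
private theorem lowerA_inv_mem {O : ValuationSubring K} {y : K} (hy : O.valuation y = 1) :
    y⁻¹ ∈ O := by
  rw [← O.valuation_le_one_iff, map_inv₀, hy, inv_one]

omit [Algebra ℂ K] in
/-- a sum of a unit and an element of the maximal ideal is a unit -/
private theorem lowerA_unit_add {O : ValuationSubring K} {y z : K} (hy : O.valuation y = 1)
    (hz : O.valuation z < 1) : O.valuation (y + z) = 1 := by
  rw [Valuation.map_add_eq_of_lt_left] <;> rw [hy]
  exact hz

omit [Algebra ℂ K] in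
/-- valuation rings are integrally closed -/
private theorem lowerA_sqrt {O : ValuationSubring K} {t : K} (h : t ^ 2 ∈ O) : t ∈ O := by
  rw [← O.valuation_le_one_iff, map_pow] at h
  rw [← O.valuation_le_one_iff]
  by_contra hc
  rw [not_le] at hc
  exact absurd h (not_le.2 (one_lt_pow₀ hc two_ne_zero))

private theorem lowerA_der_aeval (X : VF K) (y : K) (P : ℂ[X]) :
    X (aeval y P) = aeval y (derivative P) * X y := by
  rw [← smul_eq_mul, ← Derivation.map_aeval]

omit [Algebra ℂ K] in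
private theorem lowerA_two (O : ValuationSubring K) : (2 : K) ∈ O := by
  rw [← one_add_one_eq_two]
  exact O.add_mem _ _ O.one_mem O.one_mem

/-- Proof: if `x ∈ O`: `f(x) ∈ O`; if it is a unit take `x₁ = x, e = 1`; otherwise, since `a f + b f' = 1` for
polynomials `a, b` (`f` separable), `f'(x)` is a unit and `d f(x) = f'(x) dx`: type R.
If `x ∉ O`: `x₁ = x⁻¹ ∈ O` is in the maximal ideal, `e = - x²`, `P = reverse`-type polynomial
`f̃(T) = T⁴ f(1/T)` (`Polynomial.reflect 4 f`), `f̃(x₁) ≡ leading coefficient ≠ 0`. -/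
theorem typeU_or_typeR {f : ℂ[X]} (hf : Quartic f) {x : K} (hx : aeval x f ≠ 0)
    (O : ValuationSubring K) (hO : HasC O) : TypeU O f x ∨ TypeR O f x := by
  by_cases hxO : x ∈ O
  · have hfO : aeval x f ∈ O := lowerA_aeval_mem hO hxO f
    by_cases hinv : (aeval x f)⁻¹ ∈ O
    · left
      exact ⟨x, 1, f, hxO, one_ne_zero, fun X => by rw [one_mul], by rw [one_pow, one_mul], hfO, hinv⟩
    · right
      have hlt := lowerA_lt hinv
      obtain ⟨a, b, hab⟩ := hf.sep
      have h1 : aeval x a * aeval x f + aeval x b * aeval x (derivative f) = 1 := by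
        rw [← map_mul, ← map_mul, ← map_add, hab, map_one]
      have h2 : (aeval x (derivative f))⁻¹ ∈ O := by
        by_contra hc
        have hlt2 := lowerA_lt hc
        have h3 : O.valuation (1 : K) < 1 := by
          rw [← h1]
          refine Valuation.map_add_lt _ ?_ ?_
          · rw [map_mul]
            exact lt_of_le_of_lt (mul_le_of_le_one_left'
              ((O.valuation_le_one_iff _).2 (lowerA_aeval_mem hO hxO a))) hlt
          · rw [map_mul]
            exact lt_of_le_of_lt (mul_le_of_le_one_left'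
              ((O.valuation_le_one_iff _).2 (lowerA_aeval_mem hO hxO b))) hlt2
        rw [map_one] at h3
        exact lt_irrefl _ h3
      have h0 : aeval x (derivative f) ≠ 0 := by
        intro h0
        rw [h0, mul_zero, add_zero] at h1
        apply hinv
        rw [← eq_inv_of_mul_eq_one_left h1]
        exact lowerA_aeval_mem hO hxO a
      refine ⟨(aeval x (derivative f))⁻¹, hfO, h2, fun X => ?_⟩
      rw [lowerA_der_aeval, inv_mul_cancel_left₀ h0]
  · left
    have hx0 : x ≠ 0 := by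
      rintro rfl
      exact hxO O.zero_mem
    have hiO : x⁻¹ ∈ O := (O.mem_or_inv_mem x).resolve_left hxO
    have hlt : O.valuation x⁻¹ < 1 := lowerA_lt (by rwa [inv_inv])
    have hu : O.valuation (aeval x⁻¹ (reflect 4 f)) = 1 := by
      have e1 : aeval x⁻¹ (reflect 4 f) = algebraMap ℂ K f.leadingCoeff
          + x⁻¹ * aeval x⁻¹ (divX (reflect 4 f)) := by
        conv_lhs => rw [← divX_mul_X_add (reflect 4 f)]
        rw [map_add, map_mul, aeval_X, aeval_C, coeff_reflect, add_comm, mul_comm x⁻¹]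
        congr 2
        rw [leadingCoeff, hf.deg]
        congr 1
      rw [e1]
      have hlc : f.leadingCoeff ≠ 0 := leadingCoeff_ne_zero.2 hf.sep.ne_zero
      refine lowerA_unit_add ?_ ?_
      · refine le_antisymm ((O.valuation_le_one_iff _).2 (hO _)) ?_
        have h3 := (O.valuation_le_one_iff _).2 (hO (f.leadingCoeff)⁻¹)
        rw [map_inv₀, map_inv₀] at h3
        have h4 : O.valuation (algebraMap ℂ K f.leadingCoeff) ≠ 0 := by
          rw [Valuation.ne_zero_iff]
          exact (map_ne_zero_iff _ (algebraMap ℂ K).injective).2 hlc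
        exact (inv_le_one₀ (zero_lt_iff.2 h4)).1 h3
      · rw [map_mul]
        exact lt_of_le_of_lt (mul_le_of_le_one_right'
          ((O.valuation_le_one_iff _).2 (lowerA_aeval_mem hO hiO _))) hlt
    refine ⟨x⁻¹, -x ^ 2, reflect 4 f, hiO, neg_ne_zero.2 (pow_ne_zero 2 hx0), fun X => ?_, ?_, 
      lowerA_aeval_mem hO hiO _, lowerA_inv_mem hu⟩
    · rw [Derivation.leibniz_inv, smul_eq_mul]
      field_simp
    · have hinvx : Invertible x := invertibleOfNonzero hx0
      have h5 := eval₂_reflect_mul_pow (algebraMap ℂ K) x 4 f (le_of_eq hf.deg)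
      rw [← aeval_def, ← aeval_def, invOf_eq_inv] at h5
      rw [← h5]
      ring

/-- **dx ∧ dz / w is of the first kind** (`w² = f(x) g(z)`).  Four cases.
UU: `w₁ = w/(e e')`, `w₁² = u u'` unit, `dx ∧ dz / w = w₁⁻¹ dx₁ ∧ dz₁`.
RU (`f(x) = x₁`, `dx = e dx₁`; `g(z) = e'² u'`, `u' = P(z₁)`, `dz = e' dz₁`): `t = w/e' ∈ O` as `t² = x₁ u'`
(`O` is integrally closed: `t² ∈ O → t ∈ O`); `x₁ = t²/u'`, `du'` is a multiple of `dz₁`, so
`dx₁ ∧ dz₁ = (2t/u') dt ∧ dz₁` and `dx ∧ dz / w = (2e/u') dt ∧ dz₁`.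
UR: symmetric.
RR: `w² = x₁ z₁`; if `z₁/x₁ ∈ O` put `t = w/x₁ ∈ O` (`t² = z₁/x₁`), `z₁ = x₁ t²`, `dz₁ = t² dx₁ + 2 x₁ t dt`,
`w = x₁ t`: `dx ∧ dz / w = 2 e e' dx₁ ∧ dt`; otherwise `x₁/z₁ ∈ O`, symmetric. -/
theorem locGen_quartic {x z w : K} {f g : ℂ[X]} (hf : Quartic f) (hg : Quartic g)
    (hw : w ^ 2 = aeval x f * aeval z g) (hw0 : w ≠ 0) :
    LocGen (fun X Y => w⁻¹ * (X x * Y z - X z * Y x)) := by
  intro O hO
  have hfx : aeval x f ≠ 0 := by
    intro h
    rw [h, zero_mul] at hw
    exact hw0 (pow_eq_zero_iff two_ne_zero |>.1 hw)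
  have hgz : aeval z g ≠ 0 := by
    intro h
    rw [h, mul_zero] at hw
    exact hw0 (pow_eq_zero_iff two_ne_zero |>.1 hw)
  rcases typeU_or_typeR hf hfx O hO with hx | hx <;> rcases typeU_or_typeR hg hgz O hO with hz | hz
  · -- UU
    obtain ⟨x₁, e, P, hx1, he, hdx, hfe, hPO, hPi⟩ := hx
    obtain ⟨z₁, e', Q, hz1, he', hdz, hge, hQO, hQi⟩ := hz
    have hc : e * e' * w⁻¹ ∈ O := by
      apply lowerA_sqrt
      have h1 : (e * e' * w⁻¹) ^ 2 = (aeval x₁ P)⁻¹ * (aeval z₁ Q)⁻¹ := by
        have hu : aeval x₁ P ≠ 0 := by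
          intro h; rw [h, mul_zero] at hfe; exact hfx hfe
        have hu' : aeval z₁ Q ≠ 0 := by
          intro h; rw [h, mul_zero] at hge; exact hgz hge
        rw [mul_pow, inv_pow, hw, hfe, hge]
        field_simp
      rw [h1]
      exact O.mul_mem _ _ hPi hQi
    refine ⟨e * e' * w⁻¹, hc, x₁, hx1, z₁, hz1, ?_⟩
    funext X Y
    rw [hdx X, hdx Y, hdz X, hdz Y]
    ring
  · -- UR
    obtain ⟨x₁, e, P, hx1, he, hdx, hfe, hPO, hPi⟩ := hx
    obtain ⟨e', hz1, he', hdz⟩ := hz
    have hu : aeval x₁ P ≠ 0 := by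
      intro h; rw [h, mul_zero] at hfe; exact hfx hfe
    have ht2 : (w * e⁻¹) ^ 2 = aeval x₁ P * aeval z g := by
      rw [mul_pow, hw, hfe]
      field_simp
    have ht : w * e⁻¹ ∈ O := by
      apply lowerA_sqrt
      rw [ht2]
      exact O.mul_mem _ _ hPO hz1
    have hwt : w = (w * e⁻¹) * e := by field_simp
    set t := w * e⁻¹ with htdef
    have ht0 : t ≠ 0 := by
      intro h; rw [h, zero_mul] at hwt; exact hw0 hwt
    have hz1t : ∀ X : VF K, X (aeval z g) = (aeval x₁ P)⁻¹ *
        (2 * t * X t - aeval z g * (aeval x₁ (derivative P) * X x₁)) := by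
      intro X
      have h1 := congrArg X ht2
      rw [Derivation.leibniz, pow_two, Derivation.leibniz, lowerA_der_aeval X x₁] at h1
      simp only [smul_eq_mul] at h1
      rw [eq_inv_mul_iff_mul_eq₀ hu]
      linear_combination -h1
    refine ⟨2 * e' * (aeval x₁ P)⁻¹, O.mul_mem _ _ (O.mul_mem _ _ (lowerA_two O) he') hPi,
      x₁, hx1, t, ht, ?_⟩
    funext X Y
    rw [hdx X, hdx Y, hdz X, hdz Y, hz1t X, hz1t Y, hwt]
    field_simp
    ring
  · -- RU
    obtain ⟨e, hx1, he, hdx⟩ := hx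
    obtain ⟨z₁, e', Q, hz1, he', hdz, hge, hQO, hQi⟩ := hz
    have hu : aeval z₁ Q ≠ 0 := by
      intro h; rw [h, mul_zero] at hge; exact hgz hge
    have ht2 : (w * e'⁻¹) ^ 2 = aeval z₁ Q * aeval x f := by
      rw [mul_pow, hw, hge]
      field_simp
    have ht : w * e'⁻¹ ∈ O := by
      apply lowerA_sqrt
      rw [ht2]
      exact O.mul_mem _ _ hQO hx1
    have hwt : w = (w * e'⁻¹) * e' := by field_simp
    set t := w * e'⁻¹ with htdef
    have ht0 : t ≠ 0 := by
      intro h; rw [h, zero_mul] at hwt; exact hw0 hwt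
    have hx1t : ∀ X : VF K, X (aeval x f) = (aeval z₁ Q)⁻¹ *
        (2 * t * X t - aeval x f * (aeval z₁ (derivative Q) * X z₁)) := by
      intro X
      have h1 := congrArg X ht2
      rw [Derivation.leibniz, pow_two, Derivation.leibniz, lowerA_der_aeval X z₁] at h1
      simp only [smul_eq_mul] at h1
      rw [eq_inv_mul_iff_mul_eq₀ hu]
      linear_combination -h1
    refine ⟨2 * e * (aeval z₁ Q)⁻¹, O.mul_mem _ _ (O.mul_mem _ _ (lowerA_two O) he) hQi,
      t, ht, z₁, hz1, ?_⟩
    funext X Y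
    rw [hdx X, hdx Y, hdz X, hdz Y, hx1t X, hx1t Y, hwt]
    field_simp
    ring
  · -- RR
    obtain ⟨e, hx1, he, hdx⟩ := hx
    obtain ⟨e', hz1, he', hdz⟩ := hz
    rcases O.mem_or_inv_mem (aeval z g / aeval x f) with hq | hq
    · have ht2 : (w * (aeval x f)⁻¹) ^ 2 = aeval z g / aeval x f := by
        rw [mul_pow, hw]
        field_simp
      have ht : w * (aeval x f)⁻¹ ∈ O := by
        apply lowerA_sqrt
        rw [ht2]
        exact hq
      have hwt : w = aeval x f * (w * (aeval x f)⁻¹) := by field_simp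
      set t := w * (aeval x f)⁻¹ with htdef
      have ht0 : t ≠ 0 := by
        intro h; rw [h, mul_zero] at hwt; exact hw0 hwt
      have hz : aeval z g = aeval x f * t ^ 2 := by
        rw [ht2]; field_simp
      have hz1t : ∀ X : VF K, X (aeval z g) = t ^ 2 * X (aeval x f) + 2 * aeval x f * t * X t := by
        intro X
        have h1 := congrArg X hz
        rw [Derivation.leibniz, pow_two, Derivation.leibniz] at h1
        simp only [smul_eq_mul] at h1
        rw [h1]
        ring
      refine ⟨2 * e * e', O.mul_mem _ _ (O.mul_mem _ _ (lowerA_two O) he) he',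
        aeval x f, hx1, t, ht, ?_⟩
      funext X Y
      rw [hdx X, hdx Y, hdz X, hdz Y, hz1t X, hz1t Y, hwt]
      field_simp
      ring
    · have hq' : aeval x f / aeval z g ∈ O := by rwa [inv_div] at hq
      have ht2 : (w * (aeval z g)⁻¹) ^ 2 = aeval x f / aeval z g := by
        rw [mul_pow, hw]
        field_simp
      have ht : w * (aeval z g)⁻¹ ∈ O := by
        apply lowerA_sqrt
        rw [ht2]
        exact hq'
      have hwt : w = aeval z g * (w * (aeval z g)⁻¹) := by field_simp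
      set t := w * (aeval z g)⁻¹ with htdef
      have ht0 : t ≠ 0 := by
        intro h; rw [h, mul_zero] at hwt; exact hw0 hwt
      have hx : aeval x f = aeval z g * t ^ 2 := by
        rw [ht2]; field_simp
      have hx1t : ∀ X : VF K, X (aeval x f) = t ^ 2 * X (aeval z g) + 2 * aeval z g * t * X t := by
        intro X
        have h1 := congrArg X hx
        rw [Derivation.leibniz, pow_two, Derivation.leibniz] at h1
        simp only [smul_eq_mul] at h1
        rw [h1]
        ring
      refine ⟨2 * e * e', O.mul_mem _ _ (O.mul_mem _ _ (lowerA_two O) he) he',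
        t, ht, aeval z g, hz1, ?_⟩
      funext X Y
      rw [hdx X, hdx Y, hdz X, hdz Y, hx1t X, hx1t Y, hwt]
      field_simp
      ring

end Pool.Agent.K3G
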