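import Pool.Agent.K3G.Defs

/-!
# Quadratic extensions inside `K / ℂ`
-/

set_option autoImplicit false

noncomputable section
namespace Pool.Agent.K3G

variable {K : Type*} [Field K] [Algebra ℂ K]

private theorem quad_top (E : IntermediateField ℂ K) {w : K}
    (hgen : E ⊔ IntermediateField.adjoin ℂ {w} = ⊤) (a : K) :
    a ∈ IntermediateField.adjoin E {w} := by
  have h1 : E ≤ (IntermediateField.adjoin E {w}).restrictScalars ℂ := by
    intro x hx
    rw [IntermediateField.mem_restrictScalars]
    exact (IntermediateField.adjoin E {w}).algebraMap_mem ⟨x, hx⟩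
  have h2 : IntermediateField.adjoin ℂ {w} ≤
      (IntermediateField.adjoin E {w}).restrictScalars ℂ := by
    rw [IntermediateField.adjoin_le_iff]
    intro x hx
    rw [Set.mem_singleton_iff] at hx
    subst hx
    exact IntermediateField.mem_adjoin_simple_self E x
  have h3 : (⊤ : IntermediateField ℂ K) ≤
      (IntermediateField.adjoin E {w}).restrictScalars ℂ := by
    rw [← hgen]; exact sup_le h1 h2
  exact h3 IntermediateField.mem_top

private theorem quad_root (E : IntermediateField ℂ K) {w : K} (hw2 : w ^ 2 ∈ E) :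
    Polynomial.aeval w (Polynomial.X ^ 2 - Polynomial.C (⟨w ^ 2, hw2⟩ : E)) = 0 := by
  simp

private theorem quad_int (E : IntermediateField ℂ K) {w : K} (hw2 : w ^ 2 ∈ E) :
    IsIntegral E w :=
  ⟨_, Polynomial.monic_X_pow_sub_C (⟨w ^ 2, hw2⟩ : E) (by norm_num : (2 : ℕ) ≠ 0), by
    simp⟩

private theorem quad_adjoin (E : IntermediateField ℂ K) {w : K} (hw2 : w ^ 2 ∈ E)
    (hgen : E ⊔ IntermediateField.adjoin ℂ {w} = ⊤) (a : K) :
    a ∈ Algebra.adjoin E {w} := by
  rw [← IntermediateField.adjoin_simple_toSubalgebra_of_isAlgebraic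
    (quad_int E hw2).isAlgebraic]
  exact quad_top E hgen a

/-- `K = E(w)`, `w ∉ E`, `w² ∈ E`: every element is `p + q w` with `p, q ∈ E` -/
theorem quad_decomp (E : IntermediateField ℂ K) {w : K} (hw2 : w ^ 2 ∈ E)
    (hgen : E ⊔ IntermediateField.adjoin ℂ {w} = ⊤) (a : K) :
    ∃ p ∈ E, ∃ q ∈ E, a = p + q * w := by
  have hmon : (Polynomial.X ^ 2 - Polynomial.C (⟨w ^ 2, hw2⟩ : E)).Monic :=
    Polynomial.monic_X_pow_sub_C _ (by norm_num)
  have hroot := quad_root E hw2
  have ha' := quad_adjoin E hw2 hgen a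
  rw [Algebra.adjoin_singleton_eq_range_aeval] at ha'
  obtain ⟨f, hf⟩ := ha'
  have hf' : Polynomial.aeval w f = a := hf
  set g := Polynomial.X ^ 2 - Polynomial.C (⟨w ^ 2, hw2⟩ : E) with hg
  have hdeg : (f %ₘ g).natDegree ≤ 1 := by
    have h1 := Polynomial.natDegree_modByMonic_lt f hmon (by
      intro h
      have h4 : g.natDegree = 2 := Polynomial.natDegree_X_pow_sub_C
      rw [h] at h4
      simp at h4)
    have h4 : g.natDegree = 2 := Polynomial.natDegree_X_pow_sub_C
    omega
  obtain ⟨u, v, huv⟩ := Polynomial.exists_eq_X_add_C_of_natDegree_le_one hdeg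
  have h5 : Polynomial.aeval w (f %ₘ g) = a := by
    have h6 := congrArg (Polynomial.aeval w) (Polynomial.modByMonic_add_div f g)
    rw [map_add, map_mul, hroot, zero_mul, add_zero, hf'] at h6
    exact h6
  rw [huv] at h5
  refine ⟨v, v.2, u, u.2, ?_⟩
  rw [← h5, map_add, map_mul, Polynomial.aeval_C, Polynomial.aeval_C, Polynomial.aeval_X,
    add_comm]
  rfl

/-- the conjugation of a quadratic extension -/
theorem exists_quad_aut (E : IntermediateField ℂ K) {w : K} (hw : w ∉ E) (hw2 : w ^ 2 ∈ E)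
    (hgen : E ⊔ IntermediateField.adjoin ℂ {w} = ⊤) :
    ∃ σ : K ≃ₐ[ℂ] K, σ w = -w ∧ (∀ a, σ a = a ↔ a ∈ E) ∧ σ * σ = 1 := by
  have hw0 : w ≠ 0 := fun h => hw (h ▸ zero_mem E)
  have : CharZero K := charZero_of_injective_algebraMap (algebraMap ℂ K).injective
  set c : E := ⟨w ^ 2, hw2⟩ with hc
  have hc0 : c ≠ 0 := by
    intro h
    have : (w ^ 2 : K) = 0 := congrArg Subtype.val h
    exact hw0 (pow_eq_zero_iff (by norm_num) |>.mp this)
  have hcmap : algebraMap E K c = w ^ 2 := rfl
  have hsp : Polynomial.IsSplittingField E K (Polynomial.X ^ 2 - Polynomial.C c) := by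
    refine ⟨?_, ?_⟩
    · have e : (Polynomial.X ^ 2 - Polynomial.C c).map (algebraMap E K) =
          (Polynomial.X - Polynomial.C w) * (Polynomial.X - Polynomial.C (-w)) := by
        simp only [Polynomial.map_sub, Polynomial.map_pow, Polynomial.map_X, Polynomial.map_C,
          hcmap, map_neg, map_pow]
        ring
      rw [e]
      exact (Polynomial.Splits.X_sub_C w).mul (Polynomial.Splits.X_sub_C (-w))
    · rw [eq_top_iff]
      intro a _
      refine Algebra.adjoin_mono ?_ (quad_adjoin E hw2 hgen a)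
      intro x hx
      rw [Set.mem_singleton_iff] at hx
      subst hx
      rw [Polynomial.mem_rootSet]
      refine ⟨(Polynomial.monic_X_pow_sub_C c (by norm_num)).ne_zero, quad_root E hw2⟩
  have hgal : IsGalois E K := IsGalois.of_separable_splitting_field
    (p := Polynomial.X ^ 2 - Polynomial.C c)
    (Polynomial.separable_X_pow_sub_C c (by norm_num) hc0)
  have hfd : FiniteDimensional E K :=
    Polynomial.IsSplittingField.finiteDimensional K (Polynomial.X ^ 2 - Polynomial.C c)
  have hex : ∃ f : K ≃ₐ[E] K, f w ≠ w := by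
    by_contra hcon
    push Not at hcon
    obtain ⟨y, hy⟩ := (IsGalois.mem_range_algebraMap_iff_fixed (F := E) w).mpr hcon
    exact hw (hy ▸ y.2)
  obtain ⟨f, hf⟩ := hex
  have hfE : ∀ y : K, y ∈ E → f y = y := fun y hy => f.commutes ⟨y, hy⟩
  have hfw : f w = -w := by
    have h1 : f w ^ 2 = w ^ 2 := by rw [← map_pow]; exact hfE _ hw2
    rcases sq_eq_sq_iff_eq_or_eq_neg.mp h1 with h | h
    · exact absurd h hf
    · exact h
  refine ⟨f.restrictScalars ℂ, hfw, ?_, ?_⟩
  · intro a
    constructor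
    · intro h
      obtain ⟨p, hp, q, hq, rfl⟩ := quad_decomp E hw2 hgen a
      have h1 : f (p + q * w) = p + q * w := h
      rw [map_add, map_mul, hfE p hp, hfE q hq, hfw] at h1
      have h2 : q * w = 0 := by
        have h3 : (2 : K) * (q * w) = 0 := by linear_combination -h1
        exact (mul_eq_zero.mp h3).resolve_left two_ne_zero
      rw [h2, add_zero]
      exact hp
    · intro h
      exact hfE a h
  · ext a
    obtain ⟨p, hp, q, hq, rfl⟩ := quad_decomp E hw2 hgen a
    change f (f (p + q * w)) = p + q * w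
    rw [map_add, map_mul, hfE p hp, hfE q hq, hfw, map_add, map_mul, map_neg, hfE p hp,
      hfE q hq, hfw, neg_neg]

theorem mem_fixedField_zpowers (σ : K ≃ₐ[ℂ] K) (a : K) :
    a ∈ IntermediateField.fixedField (Subgroup.zpowers σ) ↔ σ a = a := by
  rw [IntermediateField.mem_fixedField_iff]
  constructor
  · intro h
    exact h σ (Subgroup.mem_zpowers σ)
  · intro h f hf
    have h1 : Subgroup.zpowers σ ≤ MulAction.stabilizer (K ≃ₐ[ℂ] K) a := by
      rw [Subgroup.zpowers_le]
      exact h
    exact h1 hf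

/-- the fixed field of the conjugation is `E` -/
theorem fixedField_zpowers (σ : K ≃ₐ[ℂ] K) (E : IntermediateField ℂ K)
    (h : ∀ a, σ a = a ↔ a ∈ E) :
    IntermediateField.fixedField (Subgroup.zpowers σ) = E := by
  ext a
  rw [mem_fixedField_zpowers]
  exact h a

/-- two automorphisms that agree on generators are equal -/
theorem aut_ext {S : Set K} (hS : IntermediateField.adjoin ℂ S = ⊤) {σ τ : K ≃ₐ[ℂ] K}
    (h : ∀ a ∈ S, σ a = τ a) : σ = τ := by
  have h1 : IntermediateField.adjoin ℂ S ≤
      IntermediateField.fixedField (Subgroup.zpowers (τ⁻¹ * σ)) := by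
    rw [IntermediateField.adjoin_le_iff]
    intro a ha
    change a ∈ IntermediateField.fixedField (Subgroup.zpowers (τ⁻¹ * σ))
    rw [mem_fixedField_zpowers, AlgEquiv.mul_apply, h a ha]
    exact τ.symm_apply_apply a
  rw [hS] at h1
  ext a
  have h2 : a ∈ IntermediateField.fixedField (Subgroup.zpowers (τ⁻¹ * σ)) :=
    h1 IntermediateField.mem_top
  rw [mem_fixedField_zpowers, AlgEquiv.mul_apply] at h2
  have h3 := congrArg τ h2
  have h4 : τ (τ⁻¹ (σ a)) = σ a := τ.apply_symm_apply (σ a)
  rw [h4] at h3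
  exact h3

end Pool.Agent.K3G
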