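import Pool.Agent.K3G.Direction
import Pool.Agent.K3G.Lower
import Pool.Agent.K3G.Quad
import Pool.Agent.K3G.Emb
import Pool.Agent.K3G.Sq

/-!
# The field `ℂ(x, z)(√(f(x) g(z)))` is the function field of a K3 surface (of Kummer type)
-/

set_option autoImplicit false

noncomputable section
namespace Pool.Agent.K3G

open Polynomial

variable {K : Type*} [Field K] [Algebra ℂ K]

/-- an embedding of `ℂ(x,z)(w)` exists as soon as `f(Y)` is a square -/
private theorem k3f_emb {x z w : K} (hb : IsTranscendenceBasis ℂ ![x, z]) {f g : ℂ[X]}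
    (hw : w ^ 2 = aeval x f * aeval z g)
    (hgen : IntermediateField.adjoin ℂ ({x, z, w} : Set K) = ⊤) {Y : LK} (hY : Y ∉ con.range)
    (hsq : IsSquare (aeval Y f)) : ∃ Φ : K →ₐ[ℂ] LK, IsEmb x z Y Φ := by
  refine exists_emb hb {w} ?_ hY ?_
  · have e : ({x, z} ∪ {w} : Set K) = {x, z, w} := by
      ext a
      simp only [Set.mem_union, Set.mem_insert_iff, Set.mem_singleton_iff]
      tauto
    rw [e, hgen]
  · intro w' hw'
    have hw'' : w' = w := hw'
    subst hw''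
    have hxm : x ∈ IntermediateField.adjoin ℂ ({x, z} : Set K) :=
      IntermediateField.subset_adjoin _ _ (by simp)
    have hzm : z ∈ IntermediateField.adjoin ℂ ({x, z} : Set K) :=
      IntermediateField.subset_adjoin _ _ (by simp)
    have ex : ∀ (u : K) (hu : u ∈ IntermediateField.adjoin ℂ ({x, z} : Set K)) (p : ℂ[X]),
        ((aeval (⟨u, hu⟩ : IntermediateField.adjoin ℂ ({x, z} : Set K)) p :
          IntermediateField.adjoin ℂ ({x, z} : Set K)) : K) = aeval u p := by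
      intro u hu p
      exact (Polynomial.aeval_algHom_apply
        (IntermediateField.adjoin ℂ ({x, z} : Set K)).val ⟨u, hu⟩ p).symm
    refine ⟨?_, ?_⟩
    · rw [hw, ← ex x hxm f, ← ex z hzm g]
      exact mul_mem (Subtype.prop _) (Subtype.prop _)
    · intro φ hφx hφz h
      have e : (⟨w' ^ 2, h⟩ : IntermediateField.adjoin ℂ ({x, z} : Set K)) =
          aeval (⟨x, hxm⟩ : IntermediateField.adjoin ℂ ({x, z} : Set K)) f *
          aeval (⟨z, hzm⟩ : IntermediateField.adjoin ℂ ({x, z} : Set K)) g := by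
        apply Subtype.ext
        rw [MulMemClass.coe_mul, ex, ex]
        exact hw
      rw [e, map_mul, ← Polynomial.aeval_algHom_apply, ← Polynomial.aeval_algHom_apply, hφx, hφz,
        aeval_con]
      exact hsq.mul (isSquare_con _)

/-- Embeddings for `K = ℂ(x,z)(w)`, by `exists_emb` with `W = {w}`: `f(Y) g(s)` is a square since `g(s) ∈ κ`
is and `ord f(Y)` is `0` (`Y = ξ + τ`, `f(ξ) ≠ 0`), `2` (`Y = ξ + τ²`, `f(ξ) = 0`), `-4` (`Y = τ⁻¹`). -/
theorem hasEmb_quad {x z w : K} (hb : IsTranscendenceBasis ℂ ![x, z]) {f g : ℂ[X]} (hf : Quartic f)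
    (hw : w ^ 2 = aeval x f * aeval z g)
    (hgen : IntermediateField.adjoin ℂ ({x, z, w} : Set K) = ⊤) : HasEmb x z f False := by
  refine ⟨?_, ?_⟩
  · intro ξ
    by_cases hξ : aeval ξ f = 0
    · refine Or.inr (Or.inl ⟨hξ, ?_⟩)
      refine k3f_emb hb hw hgen (pt_not_mem two_pos) (isSquare_of_ord (k := 1) ?_)
      rw [hf.ord_of_root two_pos ord_pt_sub hξ]; rfl
    · refine Or.inl ⟨hξ, ?_⟩
      refine k3f_emb hb hw hgen (pt_not_mem one_pos) (isSquare_of_ord (k := 0) ?_)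
      rw [hf.ord_of_ne (η := ξ) (by rw [ord_pt_sub]; exact_mod_cast one_pos) hξ]; rfl
  · refine k3f_emb hb hw hgen inv_tau_not_mem (isSquare_of_ord (k := -2) ?_)
    rw [hf.ord_of_neg one_pos ord_inv_tau]; rfl

/-- `w` is not in `ℂ(x, z)`.  Proof: `φ : ℂ(x,z) → LK` with `x ↦ ξ + τ`, `f(ξ) = 0`, `z ↦ s` (`exists_emb` for the
field `ℂ(x,z)`, `W = ∅`): `φ(w²)` has order `1`, not a square. -/
theorem w_not_mem {x z w : K} (hb : IsTranscendenceBasis ℂ ![x, z]) {f g : ℂ[X]} (hf : Quartic f)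
    (hg : g ≠ 0) (hw : w ^ 2 = aeval x f * aeval z g) : w ∉ FF2 x z := by
  intro hwm
  have hxm : x ∈ FF2 x z := IntermediateField.subset_adjoin _ _ (by simp)
  have hzm : z ∈ FF2 x z := IntermediateField.subset_adjoin _ _ (by simp)
  have hind : AlgebraicIndependent ℂ
      ![(⟨x, hxm⟩ : FF2 x z), (⟨z, hzm⟩ : FF2 x z)] := by
    refine AlgebraicIndependent.of_comp (FF2 x z).val ?_
    have e : (FF2 x z).val ∘ ![(⟨x, hxm⟩ : FF2 x z), (⟨z, hzm⟩ : FF2 x z)] = ![x, z] := by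
      funext i
      fin_cases i <;> rfl
    rw [e]
    exact hb.1
  have hb' : IsTranscendenceBasis ℂ ![(⟨x, hxm⟩ : FF2 x z), (⟨z, hzm⟩ : FF2 x z)] := by
    refine hind.isTranscendenceBasis_of_lift_trdeg_le_of_finite ?_
    have h1 : Algebra.trdeg ℂ (FF2 x z) ≤ Algebra.trdeg ℂ K :=
      trdeg_le_of_injective (FF2 x z).val (FF2 x z).val.injective
    have h2 := hb.lift_cardinalMk_eq_trdeg
    calc Cardinal.lift (Algebra.trdeg ℂ (FF2 x z)) ≤ Cardinal.lift (Algebra.trdeg ℂ K) :=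
          Cardinal.lift_le.2 h1
      _ = _ := h2.symm
  have hgen' : IntermediateField.adjoin ℂ
      (({⟨x, hxm⟩, ⟨z, hzm⟩} : Set (FF2 x z)) ∪ ∅) = ⊤ := by
    apply IntermediateField.lift_injective (FF2 x z)
    rw [IntermediateField.lift_adjoin, IntermediateField.lift_top, Set.union_empty,
      Set.image_pair]
  obtain ⟨S, hS4, hSr⟩ := hf.exists_roots
  obtain ⟨ξ, hξS⟩ : S.Nonempty := by
    rw [← Finset.card_pos, hS4]; norm_num
  have hξ := hSr ξ hξS
  obtain ⟨Φ, hΦ⟩ := exists_emb hb' ∅ hgen' (pt_not_mem (ξ := ξ) one_pos) (by simp)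
  have ex : ∀ (u : K) (hu : u ∈ FF2 x z) (p : ℂ[X]),
      ((aeval (⟨u, hu⟩ : FF2 x z) p : FF2 x z) : K) = aeval u p := by
    intro u hu p
    exact (Polynomial.aeval_algHom_apply (FF2 x z).val ⟨u, hu⟩ p).symm
  have e : (⟨w, hwm⟩ : FF2 x z) ^ 2 = aeval (⟨x, hxm⟩ : FF2 x z) f * aeval (⟨z, hzm⟩ : FF2 x z) g := by
    apply Subtype.ext
    rw [MulMemClass.coe_mul, ex, ex]
    exact hw
  have e2 : (Φ ⟨w, hwm⟩) ^ 2 = aeval (pt ξ 1) f * con (aeval s g) := by
    rw [← map_pow, e, map_mul, ← Polynomial.aeval_algHom_apply, ← Polynomial.aeval_algHom_apply,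
      hΦ.1, hΦ.2, aeval_con]
  refine not_isSquare_of_ord (a := (Φ ⟨w, hwm⟩) ^ 2) (k := 0) ?_ ⟨_, pow_two _⟩
  rw [e2, ord_mul, hf.ord_of_root one_pos ord_pt_sub hξ, ord_con (aeval_s_ne_zero hg), add_zero]
  rfl

/-- finitely generated, of transcendence degree 2 -/
theorem isSurfaceField_of {x z : K} (hb : IsTranscendenceBasis ℂ ![x, z]) (S : Finset K)
    (hgen : IntermediateField.adjoin ℂ (S : Set K) = ⊤) : IsSurfaceField K := by
  refine ⟨⟨S, hgen⟩, ?_⟩
  have h2 := hb.lift_cardinalMk_eq_trdeg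
  have h3 : Cardinal.mk (Fin (Nat.succ 0).succ) = 2 := by
    rw [Cardinal.mk_fin]; rfl
  rw [h3, Cardinal.lift_id', Cardinal.lift_ofNat] at h2
  exact h2.symm

/-- the conjugation is the identity exactly on `E`, is an involution, and changes the sign of `w` -/
private structure K3fConj (x z w : K) (σ : K ≃ₐ[ℂ] K) : Prop where
  w : σ w = -w
  fix : ∀ a, σ a = a ↔ a ∈ FF2 x z
  inv : ∀ a, σ (σ a) = a

private theorem k3f_conj {x z w : K} (hb : IsTranscendenceBasis ℂ ![x, z]) {f g : ℂ[X]} (hf : Quartic f)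
    (hg : g ≠ 0) (hw : w ^ 2 = aeval x f * aeval z g)
    (hgen : IntermediateField.adjoin ℂ ({x, z, w} : Set K) = ⊤) : ∃ σ, K3fConj x z w σ := by
  have hxm : x ∈ FF2 x z := IntermediateField.subset_adjoin _ _ (by simp)
  have hzm : z ∈ FF2 x z := IntermediateField.subset_adjoin _ _ (by simp)
  have ex : ∀ (u : K) (hu : u ∈ FF2 x z) (p : ℂ[X]),
      ((aeval (⟨u, hu⟩ : FF2 x z) p : FF2 x z) : K) = aeval u p := by
    intro u hu p
    exact (Polynomial.aeval_algHom_apply (FF2 x z).val ⟨u, hu⟩ p).symm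
  have hw2 : w ^ 2 ∈ FF2 x z := by
    rw [hw, ← ex x hxm f, ← ex z hzm g]
    exact mul_mem (Subtype.prop _) (Subtype.prop _)
  have hgen' : FF2 x z ⊔ IntermediateField.adjoin ℂ {w} = ⊤ := by
    rw [← IntermediateField.adjoin_union, ← hgen]
    congr 1
    ext a
    simp only [Set.mem_union, Set.mem_insert_iff, Set.mem_singleton_iff]
    tauto
  obtain ⟨σ, h1, h2, h3⟩ := exists_quad_aut (FF2 x z) (w_not_mem hb hf hg hw) hw2 hgen'
  exact ⟨σ, h1, h2, fun a => by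
    have := congrArg (fun τ : K ≃ₐ[ℂ] K => τ a) h3
    exact this⟩

private theorem k3f_swap (x z : K) : FF2 z x = FF2 x z := by
  rw [FF2, FF2, Set.pair_comm]

/-- the irregularity is `0` -/
private theorem k3f_q {x z w : K} (hb : IsTranscendenceBasis ℂ ![x, z]) {f g : ℂ[X]} (hf : Quartic f)
    (hg : Quartic g) (hw : w ^ 2 = aeval x f * aeval z g)
    (hgen : IntermediateField.adjoin ℂ ({x, z, w} : Set K) = ⊤) : FK1 K = ⊥ := by
  have hf0 : f ≠ 0 := hf.sep.ne_zero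
  have hg0 : g ≠ 0 := hg.sep.ne_zero
  obtain ⟨dx, dz, c⟩ := exists_coord hb
  obtain ⟨σ, hσ⟩ := k3f_conj hb hf hg0 hw hgen
  have hw' : w ^ 2 = aeval z g * aeval x f := by rw [hw, mul_comm]
  have hgen' : IntermediateField.adjoin ℂ ({z, x, w} : Set K) = ⊤ := by
    rw [← hgen, Set.insert_comm]
  have hE := hasEmb_quad hb hf hw hgen
  have hE' := hasEmb_quad c.symm.tb hg hw' hgen'
  have hxm : x ∈ FF2 x z := IntermediateField.subset_adjoin _ _ (by simp)
  have hzm : z ∈ FF2 x z := IntermediateField.subset_adjoin _ _ (by simp)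
  have hσx : σ x = x := (hσ.fix x).2 hxm
  have hσz : σ z = z := (hσ.fix z).2 hzm
  rw [eq_bot_iff]
  intro ω hω
  rw [Submodule.mem_bot]
  have hact := act1_mem σ hω
  obtain ⟨e1, e2⟩ := c.act1_dx σ hσx hσz ω
  -- the invariant part
  have hp : ω + act1 σ ω ∈ FK1 K := add_mem hω hact
  have hp0 : ω + act1 σ ω = 0 := by
    refine c.fk1_eq_zero hp ?_ ?_
    · refine one_form_zero0 c hE hp ?_
      rw [← hσ.fix, Pi.add_apply, e1, map_add, hσ.inv, add_comm]
    · refine one_form_zero0 c.symm hE' hp ?_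
      rw [k3f_swap, ← hσ.fix, Pi.add_apply, e2, map_add, hσ.inv, add_comm]
  -- the anti-invariant part
  have hm : ω - act1 σ ω ∈ FK1 K := sub_mem hω hact
  have hA : (ω - act1 σ ω) dx * w ∈ FF2 x z := by
    rw [← hσ.fix, Pi.sub_apply, e1, map_mul, map_sub, hσ.inv, hσ.w]
    ring
  have hC : (ω - act1 σ ω) dz * w ∈ FF2 x z := by
    rw [← hσ.fix, Pi.sub_apply, e2, map_mul, map_sub, hσ.inv, hσ.w]
    ring
  have hm0 : ω - act1 σ ω = 0 := by
    refine c.fk1_eq_zero hm ?_ ?_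
    · exact one_form_zero1 c.symm hg hf0 hw' hE' hm (by rw [k3f_swap]; exact hC)
        (by rw [k3f_swap]; exact hA)
    · exact one_form_zero1 c hf hg0 hw hE hm hA hC
  have h2 : (2 : ℂ) • ω = 0 := by
    have : (2 : ℂ) • ω = (ω + act1 σ ω) + (ω - act1 σ ω) := by
      rw [two_smul]; abel
    rw [this, hp0, hm0, add_zero]
  exact (smul_eq_zero.1 h2).resolve_left two_ne_zero

/-- the plurigenera are `1` -/
private theorem k3f_P {x z w : K} (hb : IsTranscendenceBasis ℂ ![x, z]) {f g : ℂ[X]} (hf : Quartic f)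
    (hg : Quartic g) (hw : w ^ 2 = aeval x f * aeval z g)
    (hgen : IntermediateField.adjoin ℂ ({x, z, w} : Set K) = ⊤) {m : ℕ} (hm1 : 1 ≤ m) :
    Module.finrank ℂ (FKM K m) = 1 := by
  have hf0 : f ≠ 0 := hf.sep.ne_zero
  have hg0 : g ≠ 0 := hg.sep.ne_zero
  obtain ⟨dx, dz, c⟩ := exists_coord hb
  obtain ⟨σ, hσ⟩ := k3f_conj hb hf hg0 hw hgen
  have hw' : w ^ 2 = aeval z g * aeval x f := by rw [hw, mul_comm]
  have hgen' : IntermediateField.adjoin ℂ ({z, x, w} : Set K) = ⊤ := by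
    rw [← hgen, Set.insert_comm]
  have hE := hasEmb_quad hb hf hw hgen
  have hE' := hasEmb_quad c.symm.tb hg hw' hgen'
  have hxm : x ∈ FF2 x z := IntermediateField.subset_adjoin _ _ (by simp)
  have hzm : z ∈ FF2 x z := IntermediateField.subset_adjoin _ _ (by simp)
  have hσx : σ x = x := (hσ.fix x).2 hxm
  have hσz : σ z = z := (hσ.fix z).2 hzm
  have hwm := w_not_mem hb hf hg0 hw
  have hw0 : w ≠ 0 := by
    intro h0
    apply hwm
    rw [h0]
    exact zero_mem _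
  have hwp : w ^ m ≠ 0 := pow_ne_zero m hw0
  -- the generator
  have hα := pow_mem_FKM (locGen_quartic hf hg hw hw0) m
  set α : VF K → VF K → K := fun X Y => (w⁻¹ * (X x * Y z - X z * Y x)) ^ m with hαdef
  have hαv : α dx dz = w⁻¹ ^ m := by
    rw [hαdef]
    simp only [c.xx, c.xz, c.zx, c.zz]
    ring
  have hα0 : (⟨α, hα⟩ : FKM K m) ≠ 0 := by
    intro h0
    have h1 : α = 0 := congrArg Subtype.val h0
    have h2 : α dx dz = 0 := by rw [h1]; rfl
    rw [hαv] at h2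
    exact pow_ne_zero m (inv_ne_zero hw0) h2
  refine (finrank_eq_one_iff_of_nonzero' (⟨α, hα⟩ : FKM K m) hα0).2 ?_
  rintro ⟨ω, hω⟩
  have hact := actM_mem σ hω
  have e1 := c.actM_dxdz σ hσx hσz ω
  -- the two parts
  have hp : ω + ((-1 : ℂ) ^ m) • actM σ ω ∈ FKM K m := add_mem hω ((FKM K m).smul_mem _ hact)
  have hm : ω - ((-1 : ℂ) ^ m) • actM σ ω ∈ FKM K m := sub_mem hω ((FKM K m).smul_mem _ hact)
  have hsm : ∀ u : K, ((-1 : ℂ) ^ m) • u = (-1 : K) ^ m * u := by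
    intro u
    rw [Algebra.smul_def, map_pow, map_neg, map_one]
  have vp : (ω + ((-1 : ℂ) ^ m) • actM σ ω) dx dz = ω dx dz + (-1 : K) ^ m * σ (ω dx dz) := by
    simp only [Pi.add_apply, Pi.smul_apply]
    rw [e1, hsm]
  have vm : (ω - ((-1 : ℂ) ^ m) • actM σ ω) dx dz = ω dx dz - (-1 : K) ^ m * σ (ω dx dz) := by
    simp only [Pi.sub_apply, Pi.smul_apply]
    rw [e1, hsm]
  have hsq : ((-1 : K) ^ m) * ((-1 : K) ^ m) = 1 := by
    rw [← mul_pow]; simp
  have hA : (ω + ((-1 : ℂ) ^ m) • actM σ ω) dx dz * w ^ m ∈ FF2 x z := by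
    rw [← hσ.fix, vp, map_mul, map_add, map_mul, hσ.inv, map_pow, map_pow, map_neg, map_one, hσ.w,
      neg_pow w m]
    linear_combination (ω dx dz * w ^ m) * hsq
  have hx0 := two_form_const c hf hg0 hw hE (m := m) (fun h => h.elim) hA hp rfl
  have hA' : (ω + ((-1 : ℂ) ^ m) • actM σ ω) dz dx * w ^ m =
      (-1 : K) ^ m * ((ω + ((-1 : ℂ) ^ m) • actM σ ω) dx dz * w ^ m) := by
    rw [c.fkm_apply hp dz dx, c.xx, c.xz, c.zx, c.zz]
    ring
  have hneg : ((-1 : K) ^ m) ∈ FF2 x z := pow_mem (neg_mem (one_mem _)) m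
  have hz0 := two_form_const c.symm hg hf0 hw' hE' (m := m) (fun h => h.elim)
    (A := (ω + ((-1 : ℂ) ^ m) • actM σ ω) dz dx * w ^ m)
    (by rw [k3f_swap, hA']; exact mul_mem hneg hA) hp rfl
  have hz1 : dz ((ω + ((-1 : ℂ) ^ m) • actM σ ω) dx dz * w ^ m) = 0 := by
    rw [hA', Derivation.leibniz, Derivation.leibniz_pow, map_neg, Derivation.map_one_eq_zero] at hz0
    simp only [neg_zero, mul_zero, smul_zero, add_zero, smul_eq_mul] at hz0
    exact (mul_eq_zero.1 hz0).resolve_left (pow_ne_zero m (neg_ne_zero.2 one_ne_zero))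
  obtain ⟨a, ha⟩ := c.mem_const hx0 hz1
  -- the other part vanishes
  obtain ⟨r, rfl⟩ : ∃ r, m = r + 1 := ⟨m - 1, by omega⟩
  have hB : (ω - ((-1 : ℂ) ^ (r + 1)) • actM σ ω) dx dz * w ^ r ∈ FF2 x z := by
    rw [← hσ.fix, vm, map_mul, map_sub, map_mul, hσ.inv, map_pow, map_pow, map_neg, map_one, hσ.w,
      neg_pow w r]
    have hsr : ((-1 : K) ^ r) * ((-1 : K) ^ r) = 1 := by
      rw [← mul_pow]; simp
    rw [pow_succ (-1 : K) r]
    linear_combination (ω dx dz * w ^ r) * hsr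
  have hB0 := two_form_zero c hf hg0 hw hE (r := r) (fun h => h.elim) hB hm rfl
  have hB1 : (ω - ((-1 : ℂ) ^ (r + 1)) • actM σ ω) dx dz = 0 :=
    (mul_eq_zero.1 hB0).resolve_right (pow_ne_zero r hw0)
  -- conclusion
  have hG : 2 * ω dx dz * w ^ (r + 1) = algebraMap ℂ K a := by
    rw [ha, vp]
    rw [vm] at hB1
    linear_combination (w ^ (r + 1)) * hB1
  refine ⟨a / 2, Subtype.ext ?_⟩
  refine c.fkm_ext ((FKM K (r + 1)).smul_mem _ hα) hω ?_
  have h2 : (2 : K) ≠ 0 := by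
    have h3 : (algebraMap ℂ K 2) ≠ 0 := by
      rw [Ne, map_eq_zero_iff _ (algebraMap ℂ K).injective]
      exact two_ne_zero
    rwa [map_ofNat] at h3
  have e3 : ((a / 2) • α) dx dz = algebraMap ℂ K (a / 2) * w⁻¹ ^ (r + 1) := by
    simp only [Pi.smul_apply]
    rw [hαv, Algebra.smul_def]
  change ((a / 2) • α) dx dz = ω dx dz
  rw [e3, map_div₀, ← hG, map_ofNat, inv_pow]
  field_simp

/-- **The K3 field.**
* `q = 0`: let `ω ∈ FK1 K`, `σ` the conjugation `w ↦ -w` over `ℂ(x,z)` (`exists_quad_aut`).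
  `ω₊ = (ω + σω)/2`, `ω₋ = (ω - σω)/2` are of the first kind (`act1_mem`), `ω₊(∂x), ω₊(∂z) ∈ ℂ(x,z)`,
  `ω₋(∂x) w, ω₋(∂z) w ∈ ℂ(x,z)` (`Coord.act1_dx`).  `one_form_zero0`, `one_form_zero1` in both directions
  (`Coord.symm`, `w² = g(z) f(x)`) give `ω₊ = 0 = ω₋`.
* `P m = 1`: `α = w⁻¹ dx ∧ dz` (`locGen_quartic`), `αᵐ ∈ FKM` (`pow_mem_FKM`), non-zero.  Let `ω ∈ FKM K m`,
  `G = ω(∂x, ∂z)`, `ω± = (ω ± (-1)^m σω)/2`: `ω₊(∂x,∂z) wᵐ ∈ ℂ(x,z)`, so by `two_form_const` in both directions and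
  `Coord.mem_const` it is a constant `a` and `ω₊ = a αᵐ` (`Coord.fkm_ext`); `ω₋(∂x,∂z) w^{m-1} ∈ ℂ(x,z)`, so
  `ω₋ = 0` by `two_form_zero`. -/
theorem isK3Field_of {x z w : K} (hb : IsTranscendenceBasis ℂ ![x, z]) {f g : ℂ[X]} (hf : Quartic f)
    (hg : Quartic g) (hw : w ^ 2 = aeval x f * aeval z g)
    (hgen : IntermediateField.adjoin ℂ ({x, z, w} : Set K) = ⊤) : IsK3Field K := by
  classical
  refine ⟨isSurfaceField_of hb {x, z, w} (by simpa using hgen), k3f_q hb hf hg hw hgen, ?_⟩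
  intro m hm
  exact k3f_P hb hf hg hw hgen hm

end Pool.Agent.K3G
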