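import Pool.Agent.K3G.Laurent

/-!
# Orders of values of polynomials, test points, quartics
-/

set_option autoImplicit false

noncomputable section
namespace Pool.Agent.K3G

open Polynomial

/-! ### auxiliary lemmas -/

private theorem ordA_con_nonneg (c : κ) : 0 ≤ ord (con c) := mem_R.1 (con_mem_R c)

private theorem ordA_mem_of_near {Y : LK} {η : κ} (h : 0 ≤ ord (Y - con η)) : Y ∈ R := by
  have h1 : (Y - con η) + con η ∈ R := R.add_mem _ _ (mem_R.2 h) (con_mem_R η)
  simpa using h1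

private theorem ordA_eval_mem {Y : LK} (hY : Y ∈ R) (P : κ[X]) : P.eval₂ con Y ∈ R := by
  rw [eval₂_eq_sum, Polynomial.sum_def]
  exact R.toSubring.sum_mem fun i _ => R.mul_mem _ _ (con_mem_R _) (R.toSubring.pow_mem hY i)

private theorem ordA_factor (P : κ[X]) (Y : LK) (η : κ) :
    P.eval₂ con Y = con (P.eval η) + (Y - con η) * (P /ₘ (X - C η)).eval₂ con Y := by
  have h := modByMonic_add_div P (X - C η)
  rw [modByMonic_X_sub_C_eq_C_eval] at h
  conv_lhs => rw [← h]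
  simp [eval₂_add, eval₂_mul, eval₂_sub]

private theorem ordA_pos_of_le {Y : LK} {η : κ} {n : ℕ} (hn : 0 < n)
    (hY : (n : WithTop ℤ) ≤ ord (Y - con η)) : 0 < ord (Y - con η) :=
  lt_of_lt_of_le (by exact_mod_cast hn) hY

private theorem ordA_prod (m : Multiset κ) (Y : LK) (n : ℕ)
    (h : ∀ a : κ, ord (Y - con a) = ((-n : ℤ) : WithTop ℤ)) :
    ord ((m.map fun a => Y - con a).prod) = ((-(n * m.card) : ℤ) : WithTop ℤ) := by
  induction m using Multiset.induction_on with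
  | empty => simp
  | cons a m ih =>
    rw [Multiset.map_cons, Multiset.prod_cons, ord_mul, ih, h a, ← WithTop.coe_add]
    congr 1
    push_cast [Multiset.card_cons]
    ring

private theorem ordA_eval_prod (P : κ[X]) (Y : LK) :
    P.eval₂ con Y = con P.leadingCoeff * (P.roots.map fun a => Y - con a).prod := by
  conv_lhs => rw [(IsAlgClosed.splits P).eq_prod_roots]
  rw [eval₂_mul, eval₂_C, ← coe_eval₂RingHom, map_multiset_prod, Multiset.map_map]
  congr 2
  refine Multiset.map_congr rfl fun a _ => ?_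
  simp

private theorem ordA_aeval (f : ℂ[X]) (Y : LK) :
    aeval Y f = (f.map (algebraMap ℂ κ)).eval₂ con Y := by
  rw [eval₂_map, aeval_def]
  exact congrArg (fun g : ℂ →+* LK => f.eval₂ g Y) (RingHom.ext fun c => (con_algebraMap c).symm)

private theorem ordA_aeval_eq_eval (f : ℂ[X]) (η : κ) :
    aeval η f = (f.map (algebraMap ℂ κ)).eval η := by
  rw [eval_map, aeval_def]

/-! ### orders of values -/

/-- `P(Y)` for `Y ≡ η`, `P(η) ≠ 0` -/
theorem ord_eval_of_ne {P : κ[X]} {Y : LK} {η : κ} (hY : 0 < ord (Y - con η)) (h : P.eval η ≠ 0) :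
    ord (P.eval₂ con Y) = 0 := by
  have hR := ordA_mem_of_near hY.le
  rw [ordA_factor P Y η, ord_add_eq, ord_con h]
  rw [ord_con h, ord_mul]
  exact lt_of_lt_of_le hY (le_add_of_nonneg_right (mem_R.1 (ordA_eval_mem hR _)))

/-- `P(Y)` for `Y ≡ η mod τⁿ`, `P(η) = 0` (write `P = (X - η) Q`) -/
theorem le_ord_eval_of_root {P : κ[X]} {Y : LK} {η : κ} {n : ℕ} (hn : 0 < n)
    (hY : (n : WithTop ℤ) ≤ ord (Y - con η)) (h : P.eval η = 0) :
    (n : WithTop ℤ) ≤ ord (P.eval₂ con Y) := by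
  have hR := ordA_mem_of_near (ordA_pos_of_le hn hY).le
  rw [ordA_factor P Y η, h, map_zero, zero_add, ord_mul]
  exact le_trans hY (le_add_of_nonneg_right (mem_R.1 (ordA_eval_mem hR _)))

/-- `P(Y)` for `Y - η` of order `n` and a simple root `η` -/
theorem ord_eval_of_simple {P : κ[X]} {Y : LK} {η : κ} {n : ℕ} (hn : 0 < n)
    (hY : ord (Y - con η) = n) (h : P.eval η = 0) (h' : P.derivative.eval η ≠ 0) :
    ord (P.eval₂ con Y) = n := by
  have h0 : 0 < ord (Y - con η) := ordA_pos_of_le hn hY.ge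
  have hq : (X - C η) * (P /ₘ (X - C η)) = P := mul_divByMonic_eq_iff_isRoot.2 h
  have hd : (P /ₘ (X - C η)).eval η ≠ 0 := by
    intro hc
    apply h'
    rw [← hq, derivative_mul]
    simp [hc]
  rw [ordA_factor P Y η, h, map_zero, zero_add, ord_mul, ord_eval_of_ne h0 hd, hY, add_zero]

/-- `P(Y)` for `Y` of order `-n < 0` -/
theorem ord_eval_neg {P : κ[X]} {Y : LK} {n : ℕ} (hn : 0 < n) (hY : ord Y = ((-n : ℤ) : WithTop ℤ))
    (hP : P ≠ 0) : ord (P.eval₂ con Y) = ((-(n * P.natDegree) : ℤ) : WithTop ℤ) := by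
  have h1 : ∀ a : κ, ord (Y - con a) = ((-n : ℤ) : WithTop ℤ) := by
    intro a
    rw [sub_eq_add_neg, ord_add_eq, hY]
    rw [ord_neg, hY]
    refine lt_of_lt_of_le ?_ (ordA_con_nonneg a)
    rw [← WithTop.coe_zero, WithTop.coe_lt_coe]
    omega
  rw [ordA_eval_prod, ord_mul, ord_con (leadingCoeff_ne_zero.2 hP), zero_add, ordA_prod _ _ n h1,
    ← (IsAlgClosed.splits P).natDegree_eq_card_roots]

/-- `κ` is algebraically closed in `LK`: a polynomial over `κ` has no zero outside `κ`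
(it is a product of linear factors) -/
theorem eval₂_ne_zero {P : κ[X]} {Y : LK} (hY : Y ∉ con.range) (hP : P ≠ 0) :
    P.eval₂ con Y ≠ 0 := by
  rw [ordA_eval_prod]
  refine mul_ne_zero ?_ ?_
  · rw [Ne, map_eq_zero_iff con con.injective]
    exact leadingCoeff_ne_zero.2 hP
  · intro h
    obtain ⟨a, -, ha⟩ := Multiset.mem_map.1 (Multiset.prod_eq_zero_iff.1 h)
    exact hY ⟨a, (sub_eq_zero.1 ha).symm⟩

/-- the point `ξ` with ramification `n` -/
def pt (ξ : κ) (n : ℕ) : LK := con ξ + tau ^ n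

private theorem ordA_tau_pow (n : ℕ) : ord (tau ^ n) = n := by
  rw [ord_pow, ord_tau, nsmul_one]

private theorem ordA_con_or (c : κ) : ord (con c) = ⊤ ∨ ord (con c) = 0 := by
  by_cases h : c = 0
  · left; rw [h, map_zero, ord_zero]
  · right; exact ord_con h

theorem ord_pt_sub {ξ : κ} {n : ℕ} : ord (pt ξ n - con ξ) = n := by
  rw [pt, add_sub_cancel_left, ordA_tau_pow]

theorem pt_not_mem {ξ : κ} {n : ℕ} (hn : 0 < n) : pt ξ n ∉ con.range := by
  rintro ⟨c, hc⟩
  have h1 : ord (con (c - ξ)) = n := by rw [map_sub, hc, ord_pt_sub]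
  rcases ordA_con_or (c - ξ) with h | h
  · rw [h1] at h; exact absurd h (by exact_mod_cast WithTop.coe_ne_top (a := (n : ℤ)))
  · rw [h1] at h
    have : (n : ℤ) = 0 := by exact_mod_cast h
    omega

theorem ord_inv_tau : ord tau⁻¹ = ((-1 : ℤ) : WithTop ℤ) := ord_inv (k := 1) (by simp)

theorem inv_tau_not_mem : tau⁻¹ ∉ con.range := by
  rintro ⟨c, hc⟩
  have h1 : ord (con c) = ((-1 : ℤ) : WithTop ℤ) := by rw [hc, ord_inv_tau]
  rcases ordA_con_or c with h | h
  · rw [h1] at h; exact absurd h WithTop.coe_ne_top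
  · rw [h1] at h
    have : (-1 : ℤ) = 0 := by exact_mod_cast h
    omega

theorem Dt_pt {ξ : κ} {n : ℕ} (hn : 0 < n) : Dt (pt ξ n) = (n : LK) * tau ^ (n - 1) := by
  rw [pt, map_add, Dt_con, zero_add, Derivation.leibniz_pow, Dt_tau, smul_eq_mul, mul_one,
    nsmul_eq_mul]

theorem ord_Dt_pt {ξ : κ} {n : ℕ} (hn : 0 < n) : ord (Dt (pt ξ n)) = ((n - 1 : ℕ) : WithTop ℤ) := by
  have h0 : (n : κ) ≠ 0 := by exact_mod_cast hn.ne'
  rw [Dt_pt hn, ord_mul, ordA_tau_pow, ← map_natCast con n, ord_con h0, zero_add]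

theorem Dd_pt {ξ : κ} {n : ℕ} : Dd (pt ξ n) = con (δ ξ) := by
  rw [pt, map_add, Dd_con, Derivation.leibniz_pow, Dd_tau, smul_zero, smul_zero, add_zero]

theorem Dt_inv_tau : Dt tau⁻¹ = -(tau⁻¹) ^ 2 := by
  rw [Derivation.leibniz_inv, Dt_tau, smul_eq_mul, mul_one]

theorem ord_Dt_inv_tau : ord (Dt tau⁻¹) = ((-2 : ℤ) : WithTop ℤ) := by
  rw [Dt_inv_tau, ord_neg, ord_pow, ord_inv_tau]
  rfl

theorem Dd_inv_tau : Dd tau⁻¹ = 0 := by
  rw [Derivation.leibniz_inv, Dd_tau, smul_zero]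

/-- a pair `(Y, s)` with `Y ∉ κ` is algebraically independent over `ℂ` -/
theorem algInd_of_not_mem {Y : LK} (hY : Y ∉ con.range) : AlgebraicIndependent ℂ ![Y, con s] := by
  rw [algebraicIndependent_iff]
  intro p hp
  have hs : Function.Injective (MvPolynomial.aeval (R := ℂ) (fun _ : Fin 1 => s)) :=
    (algebraicIndependent_unique_type_iff.2 s_transcendental)
  let φ : MvPolynomial (Fin 2) ℂ →+* LK :=
    (Polynomial.eval₂RingHom con Y).comp
      ((Polynomial.mapRingHom (MvPolynomial.aeval (R := ℂ) (fun _ : Fin 1 => s)).toRingHom).comp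
        (MvPolynomial.finSuccEquiv ℂ 1).toRingEquiv.toRingHom)
  have h1 : (MvPolynomial.aeval (R := ℂ) ![Y, con s]).toRingHom = φ := by
    apply MvPolynomial.ringHom_ext
    · intro c
      simp [φ, MvPolynomial.finSuccEquiv_apply, con_algebraMap]
    · intro i
      refine Fin.cases ?_ (fun j => ?_) i
      · simp [φ, MvPolynomial.finSuccEquiv_X_zero]
      · have hj : j = 0 := Subsingleton.elim _ _
        subst hj
        have e1 : MvPolynomial.finSuccEquiv ℂ 1 (MvPolynomial.X 1)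
            = Polynomial.C (MvPolynomial.X 0) := MvPolynomial.finSuccEquiv_X_succ (j := 0)
        simp [φ, e1]
  have h2 : φ p = 0 := by rw [← h1]; exact hp
  have h3 : Polynomial.map (MvPolynomial.aeval (R := ℂ) (fun _ : Fin 1 => s)).toRingHom
      (MvPolynomial.finSuccEquiv ℂ 1 p) = 0 := by
    by_contra hc
    exact eval₂_ne_zero hY hc h2
  have h4 : MvPolynomial.finSuccEquiv ℂ 1 p = 0 :=
    (Polynomial.map_eq_zero_iff (f := (MvPolynomial.aeval (R := ℂ)
      (fun _ : Fin 1 => s)).toRingHom) hs).1 h3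
  simpa using h4

/-- quartics with simple roots -/
structure Quartic (f : ℂ[X]) : Prop where
  deg : f.natDegree = 4
  sep : f.Separable

/-- roots in `κ` of a complex quartic: they are in `ℂ`, killed by `δ`, four in number, and simple -/
theorem Quartic.root_mem {f : ℂ[X]} (hf : Quartic f) {ξ : κ} (h : aeval ξ f = 0) :
    ∃ a : ℂ, algebraMap ℂ κ a = ξ := by
  have hf0 : f ≠ 0 := hf.sep.ne_zero
  rw [(IsAlgClosed.splits f).eq_prod_roots, map_mul, aeval_C, map_multiset_prod,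
    Multiset.map_map] at h
  rcases mul_eq_zero.1 h with h | h
  · exact absurd ((map_eq_zero_iff _ (algebraMap ℂ κ).injective).1 h) (leadingCoeff_ne_zero.2 hf0)
  · obtain ⟨a, -, ha⟩ := Multiset.mem_map.1 (Multiset.prod_eq_zero_iff.1 h)
    refine ⟨a, ?_⟩
    simp only [Function.comp_apply, map_sub, aeval_X, aeval_C] at ha
    exact (sub_eq_zero.1 ha).symm
theorem Quartic.δ_root {f : ℂ[X]} (hf : Quartic f) {ξ : κ} (h : aeval ξ f = 0) : δ ξ = 0 := by
  obtain ⟨a, rfl⟩ := hf.root_mem h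
  exact δ_algebraMap a
theorem Quartic.exists_roots {f : ℂ[X]} (hf : Quartic f) :
    ∃ S : Finset κ, S.card = 4 ∧ ∀ ξ ∈ S, aeval ξ f = 0 := by
  classical
  refine ⟨f.roots.toFinset.map ⟨algebraMap ℂ κ, (algebraMap ℂ κ).injective⟩, ?_, ?_⟩
  · rw [Finset.card_map, Multiset.toFinset_card_of_nodup (nodup_roots hf.sep),
      ← (IsAlgClosed.splits f).natDegree_eq_card_roots, hf.deg]
  · intro ξ hξ
    obtain ⟨a, ha, rfl⟩ := Finset.mem_map.1 hξ
    have h1 : f.eval a = 0 := (mem_roots'.1 (Multiset.mem_toFinset.1 ha)).2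
    simp only [Function.Embedding.coeFn_mk]
    rw [aeval_algebraMap_apply, coe_aeval_eq_eval, h1, map_zero]
/-- `f(Y)` for `Y ≡ η`, `f(η) ≠ 0` -/
theorem Quartic.ord_of_ne {f : ℂ[X]} (hf : Quartic f) {Y : LK} {η : κ} (hY : 0 < ord (Y - con η))
    (h : aeval η f ≠ 0) : ord (aeval Y f) = 0 := by
  rw [ordA_aeval]
  exact ord_eval_of_ne hY (by rw [← ordA_aeval_eq_eval]; exact h)
/-- `f(Y)` at a simple root -/
theorem Quartic.ord_of_root {f : ℂ[X]} (hf : Quartic f) {Y : LK} {η : κ} {n : ℕ} (hn : 0 < n)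
    (hY : ord (Y - con η) = n) (h : aeval η f = 0) : ord (aeval Y f) = n := by
  rw [ordA_aeval]
  refine ord_eval_of_simple hn hY (by rw [← ordA_aeval_eq_eval]; exact h) ?_
  rw [derivative_map, eval_map, ← aeval_def]
  exact hf.sep.aeval_derivative_ne_zero h
/-- `f(Y)` for `Y` of order `-n` -/
theorem Quartic.ord_of_neg {f : ℂ[X]} (hf : Quartic f) {Y : LK} {n : ℕ} (hn : 0 < n)
    (hY : ord Y = ((-n : ℤ) : WithTop ℤ)) : ord (aeval Y f) = ((-(4 * n) : ℤ) : WithTop ℤ) := by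
  rw [ordA_aeval, ord_eval_neg hn hY ((Polynomial.map_ne_zero_iff (algebraMap ℂ κ).injective).2
    hf.sep.ne_zero), natDegree_map, hf.deg]
  congr 1
  push_cast
  ring
theorem aeval_con (f : ℂ[X]) (c : κ) : aeval (con c) f = con (aeval c f) := by
  rw [ordA_aeval, ordA_aeval_eq_eval, eval₂_at_apply]
/-- `g(s) ≠ 0` for `g ≠ 0` -/
theorem aeval_s_ne_zero {g : ℂ[X]} (hg : g ≠ 0) : aeval s g ≠ 0 :=
  fun h => hg ((transcendental_iff.1 s_transcendental) g h)

end Pool.Agent.K3G
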