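import Pool.Agent.helper10.K3B.Decomp

/-!
# Sanity checks for `MultDecomp` (not a hand-in)

The structure `MultDecomp p Z` is inhabited
* for every space `S` over a point, and
* for the identity map of every space `B` (fibres: one point).
-/

set_option autoImplicit false

namespace TripleBurger.Sanity

open CategoryTheory TopologicalSpace Opposite TripleBurger

noncomputable section

section
variable {S B : Type} [TopologicalSpace S] [TopologicalSpace B] (p : S → B)

theorem resR_self (j : ℕ) {U : Opens B} (h : U ≤ U) (s : RSec p j U) : resR p j h s = s := by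
  have h1 : (homOfLE h).op = 𝟙 (op U) := rfl
  show ((Rsheaf p j).obj.map (homOfLE h).op).hom s = s
  rw [h1, CategoryTheory.Functor.map_id]
  rfl

theorem resR_comp (j : ℕ) {U V W : Opens B} (h : V ≤ U) (h' : W ≤ V) (s : RSec p j U) :
    resR p j (h'.trans h) s = resR p j h' (resR p j h s) := by
  have h1 : (homOfLE (h'.trans h)).op = (homOfLE h).op ≫ (homOfLE h').op := rfl
  show ((Rsheaf p j).obj.map (homOfLE (h'.trans h)).op).hom s = _
  rw [h1, CategoryTheory.Functor.map_comp]
  rfl

theorem isCup_zero_left {X : Type} [TopologicalSpace X] {m n : ℕ} {b : H X n} {e : H X (m + n)}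
    (h : IsCup (0 : H X m) b e) : e = 0 := by
  rw [isCup_iff] at h
  rw [← h, map_zero]
  rfl

theorem isCup_zero_right {X : Type} [TopologicalSpace X] {m n : ℕ} {a : H X m} {e : H X (m + n)}
    (h : IsCup a (0 : H X n) e) : e = 0 := by
  rw [isCup_iff] at h
  rw [← h, map_zero]

end

/-! ### a space over a point -/

section point
variable {S : Type} [TopologicalSpace S] (p : S → Unit)

theorem edge_bijective (n : ℕ) (V : Opens Unit) : Function.Bijective (edge p n V) := by
  constructor
  · intro a a' h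
    have h1 : edge p n V (a - a') = 0 := by rw [edge_sub, h, sub_self]
    rw [edge_eq_zero_iff] at h1
    by_cases hV : () ∈ V
    · obtain ⟨V', hV', hb, h2⟩ := h1 () hV
      have h3 : V' = V := le_antisymm hV' (fun x _ => by cases x; exact hb)
      subst h3
      exact sub_eq_zero.1 ((resH_id p n (Set.Subset.refl _) (a - a')).symm.trans h2)
    · have hE : IsEmpty ↥(p ⁻¹' (V : Set Unit)) := ⟨fun x => hV (by have := x.2; exact this)⟩
      obtain ⟨c, rfl⟩ := H.mk_surjective a
      obtain ⟨c', rfl⟩ := H.mk_surjective a'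
      rw [H.mk_eq]
      exact LocZero.mem_coboundaries (fun x => (hE.false x).elim)
  · intro s
    by_cases hV : () ∈ V
    · obtain ⟨V', hV', hb, c, hc⟩ := exists_edge_locally p n V s () hV
      have h3 : V' = V := le_antisymm hV' (fun x _ => by cases x; exact hb)
      subst h3
      rw [resR_self] at hc
      exact ⟨c, hc⟩
    · refine ⟨0, ?_⟩
      rw [edge_eq, map_zero]
      refine (R_eq_zero_of_locally p n V s fun b hb => ?_).symm
      cases b
      exact absurd hb hV

/-- **the decomposition of a space over a point** -/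
def overPoint (Z : Opens Unit) : MultDecomp p Z where
  W V n i := if i = n then Set.univ else {0}
  subspace V n i := by
    split_ifs
    · exact ⟨⊤, rfl⟩
    · exact ⟨⊥, rfl⟩
  internal V _ n a := by
    refine ⟨fun i => if (i : ℕ) = n then a else 0, ⟨fun i => ?_, ?_⟩, ?_⟩
    · beta_reduce
      split_ifs with h
      · trivial
      · rfl
    · rw [Finset.sum_eq_single (Fin.last n)]
      · rw [if_pos (Fin.val_last n)]
      · intro i _ hi
        rw [if_neg]
        intro h
        exact hi (Fin.ext (h.trans (Fin.val_last n).symm))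
      · intro h
        exact absurd (Finset.mem_univ _) h
    · rintro f ⟨hf, hs⟩
      have h0 : ∀ i : Fin (n + 1), (i : ℕ) ≠ n → f i = 0 := by
        intro i hi
        have := hf i
        rw [if_neg hi] at this
        exact this
      have h1 : f (Fin.last n) = a := by
        rw [← hs, Finset.sum_eq_single (Fin.last n)]
        · intro i _ hi
          exact h0 i fun h => hi (Fin.ext (h.trans (Fin.val_last n).symm))
        · intro h
          exact absurd (Finset.mem_univ _) h
      funext i
      beta_reduce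
      split_ifs with h
      · rw [← h1]
        congr 1
        exact Fin.ext (h.trans (Fin.val_last n).symm)
      · exact h0 i h
  res {V U} h _ n i a ha := by
    split_ifs at ha ⊢ with hi
    · trivial
    · have ha' : a = 0 := ha
      rw [ha', map_zero]
      rfl
  cup V _ m n i j a ha b hb e he := by
    split_ifs at ha with hi
    · split_ifs at hb with hj
      · rw [if_pos (by rw [hi, hj])]
        trivial
      · have hb' : b = 0 := hb
        subst hb'
        rw [isCup_zero_right he]
        split_ifs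
        · trivial
        · rfl
    · have ha' : a = 0 := ha
      subst ha'
      rw [isCup_zero_left he]
      split_ifs
      · trivial
      · rfl
  edge_lt V _ n i hi a ha := by
    rw [if_neg hi.ne] at ha
    have ha' : a = 0 := ha
    rw [ha', edge_eq, map_zero]
  edge_bij V _ n s := by
    obtain ⟨a, ha⟩ := (edge_bijective p n V).2 s
    refine ⟨a, ⟨?_, ha⟩, ?_⟩
    · rw [if_pos rfl]
      trivial
    · rintro b ⟨_, hb⟩
      exact (edge_bijective p n V).1 (hb.trans ha.symm)

end point

/-! ### the identity map -/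

section ident
variable {X : Type} [TopologicalSpace X]

/-- cone construction: near the point `x` a cocycle of positive degree is a coboundary -/
theorem cone {k : ℕ} (c : Cochain X (k + 1)) (x : X) (v : Fin (k + 2) → X)
    (h : coboundary (k + 1) c (Fin.cons x v) = 0) :
    c v = coboundary k (fun w => c (Fin.cons x w)) v := by
  have h1 : coboundary (k + 1) c (Fin.cons x v)
      = c v - coboundary k (fun w => c (Fin.cons x w)) v := by
    show (∑ i : Fin (k + 3), (-1) ^ (i : ℕ) * c (fun j => (Fin.cons x v : Fin (k + 3) → X) (i.succAbove j)))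
      = c v - ∑ i : Fin (k + 2), (-1) ^ (i : ℕ) * c (Fin.cons x (fun j => v (i.succAbove j)))
    rw [Fin.sum_univ_succ, sub_eq_add_neg, ← Finset.sum_neg_distrib]
    congr 1
    · rw [Fin.val_zero, pow_zero, one_mul]
      congr 1
    · refine Finset.sum_congr rfl fun i _ => ?_
      rw [Fin.val_succ, pow_succ]
      have h2 : (fun j => (Fin.cons x v : Fin (k + 3) → X) (i.succ.succAbove j))
          = (Fin.cons x (fun j => v (i.succAbove j)) : Fin (k + 2) → X) := by
        funext j
        refine Fin.cases ?_ (fun j => ?_) j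
        · rw [Fin.succ_succAbove_zero, Fin.cons_zero, Fin.cons_zero]
        · rw [Fin.succ_succAbove_succ, Fin.cons_succ, Fin.cons_succ]
      rw [h2]
      ring
  rw [h1] at h
  exact sub_eq_zero.1 h

variable {B : Type} [TopologicalSpace B]

theorem locally_zero (k : ℕ) (V : Opens B) (a : HV (fun x : B => x) V (k + 1)) (b : B) (hb : b ∈ V) :
    ∃ (V' : Opens B) (hV' : V' ≤ V), b ∈ V' ∧ resH (fun x : B => x) (k + 1) hV' a = 0 := by
  obtain ⟨c, rfl⟩ := H.mk_surjective a
  obtain ⟨O, hO, hbO, h1⟩ := (mem_cocycles c.1).1 c.2 ⟨b, hb⟩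
  rw [isOpen_induced_iff] at hO
  obtain ⟨O', hO', rfl⟩ := hO
  let V' : Opens B := ⟨O', hO'⟩ ⊓ V
  refine ⟨V', inf_le_right, ⟨hbO, hb⟩, ?_⟩
  refine (H.mk_eq_zero _).2 (mem_coboundaries_succ.2 ⟨fun w => c.1 (Fin.cons ⟨b, hb⟩
    (fun i => ⟨(w i).1, (w i).2.2⟩)), fun x => ⟨Set.univ, isOpen_univ, trivial, fun v _ => ?_⟩⟩)
  have h2 := cone c.1 ⟨b, hb⟩ (fun i => ⟨(v i).1, (v i).2.2⟩) (h1 _ fun i => by
    refine Fin.cases ?_ (fun j => ?_) i
    · exact hbO
    · exact (v j).2.1)
  rw [Cochain.sub_apply, sub_eq_zero]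
  exact h2

/-- sections of `R^j id_* ℚ`, `j > 0` -/
theorem sec_zero (k : ℕ) (V : Opens B) (s : RSec (fun x : B => x) (k + 1) V) : s = 0 := by
  refine R_eq_zero_of_locally _ _ _ s fun b hb => ?_
  obtain ⟨V', hV', hb', c, hc⟩ := exists_edge_locally _ _ V s b hb
  obtain ⟨V'', hV'', hb'', h⟩ := locally_zero k V' c b hb'
  refine ⟨V'', hV''.trans hV', hb'', ?_⟩
  have h1 := edge_res (fun x : B => x) (k + 1) hV'' c
  rw [h, edge_eq, map_zero, hc] at h1
  rw [resR_comp (fun x : B => x) (k + 1) hV' hV'' s]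
  exact h1.symm

theorem tup0 {X : Type} (v : Fin (0 + 1) → X) : v = fun _ => v 0 :=
  funext fun i => congrArg v (Fin.ext (by omega))

/-- two classes of degree `0` which are equal near every point are equal -/
theorem eq_of_locally (V : Opens B) (a a' : HV (fun x : B => x) V 0)
    (h : ∀ b ∈ V, ∃ (V' : Opens B) (hV' : V' ≤ V), b ∈ V' ∧
      resH (fun x : B => x) 0 hV' a = resH (fun x : B => x) 0 hV' a') : a = a' := by
  obtain ⟨c, rfl⟩ := H.mk_surjective a
  obtain ⟨c', rfl⟩ := H.mk_surjective a'
  refine (H.mk_eq _ _).2 ?_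
  have h1 : c.1 - c'.1 = 0 := by
    funext v
    obtain ⟨V', hV', hb, h2⟩ := h (v 0).1 (v 0).2
    have h3 : LocZero ((pullZ (Set.inclusion (Set.preimage_mono (f := fun x : B => x) hV'))
        (continuous_inclusion _) 0 c).1 - (pullZ (Set.inclusion (Set.preimage_mono (f := fun x : B => x) hV'))
        (continuous_inclusion _) 0 c').1) := (H.mk_eq _ _).1 h2
    obtain ⟨O, _, hO, h4⟩ := h3 ⟨(v 0).1, hb⟩
    have h5 := h4 (fun _ => ⟨(v 0).1, hb⟩) (fun _ => hO)
    have h6 := tup0 v
    rw [h6]
    exact h5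
  rw [h1]
  exact Submodule.zero_mem _

theorem edge_zero_injective (V : Opens B) : Function.Injective (edge (fun x : B => x) 0 V) := by
  intro a a' h
  have h1 : edge (fun x : B => x) 0 V (a - a') = 0 := by rw [edge_sub, h, sub_self]
  rw [edge_eq_zero_iff] at h1
  refine sub_eq_zero.1 (eq_of_locally V (a - a') 0 fun b hb => ?_)
  obtain ⟨V', hV', hb', h2⟩ := h1 b hb
  exact ⟨V', hV', hb', by rw [h2, map_zero]⟩

theorem edge_zero_surjective (V : Opens B) : Function.Surjective (edge (fun x : B => x) 0 V) := by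
  intro s
  have h0 := fun b : V => exists_edge_locally (fun x : B => x) 0 V s b.1 b.2
  choose U hU hbU a ha using h0
  choose c hc using fun b : V => H.mk_surjective (a b)
  -- the local functions agree on overlaps
  have hag : ∀ (b b' : V) (x : B) (hx : x ∈ U b) (hx' : x ∈ U b'),
      (c b).1 (fun _ => ⟨x, hx⟩) = (c b').1 (fun _ => ⟨x, hx'⟩) := by
    intro b b' x hx hx'
    let W : Opens B := U b ⊓ U b'
    have h1 : resH (fun x : B => x) 0 (inf_le_left : W ≤ U b) (a b)
        = resH (fun x : B => x) 0 (inf_le_right : W ≤ U b') (a b') := by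
      apply edge_zero_injective W
      rw [edge_res, edge_res, ha, ha, ← resR_comp, ← resR_comp]
    rw [← hc, ← hc] at h1
    have h2 : LocZero ((pullZ (Set.inclusion (Set.preimage_mono (f := fun x : B => x)
        (inf_le_left : W ≤ U b))) (continuous_inclusion _) 0 (c b)).1
        - (pullZ (Set.inclusion (Set.preimage_mono (f := fun x : B => x)
        (inf_le_right : W ≤ U b'))) (continuous_inclusion _) 0 (c b')).1) := (H.mk_eq _ _).1 h1
    obtain ⟨O, _, hO, h4⟩ := h2 ⟨x, hx, hx'⟩
    exact sub_eq_zero.1 (h4 (fun _ => ⟨x, hx, hx'⟩) (fun _ => hO))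
  let g : Cochain ↥((fun x : B => x) ⁻¹' (V : Set B)) 0 := fun v =>
    (c ⟨(v 0).1, (v 0).2⟩).1 (fun _ => ⟨(v 0).1, hbU ⟨(v 0).1, (v 0).2⟩⟩)
  have hg : ∀ (b : V) (x : B) (hx : x ∈ U b) (hxV : x ∈ V), g (fun _ => ⟨x, hxV⟩) = (c b).1 (fun _ => ⟨x, hx⟩) :=
    fun b x hx hxV => hag _ _ x _ _
  have hgz : LocZero (coboundary 0 g) := by
    intro y
    have hy : y.1 ∈ V := y.2
    obtain ⟨O, hO, hyO, h4⟩ := (mem_cocycles (c ⟨y.1, hy⟩).1).1 (c ⟨y.1, hy⟩).2 ⟨y.1, hbU ⟨y.1, hy⟩⟩
    rw [isOpen_induced_iff] at hO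
    obtain ⟨O', hO', rfl⟩ := hO
    refine ⟨Subtype.val ⁻¹' (O' ∩ U ⟨y.1, hy⟩), (hO'.inter (U ⟨y.1, hy⟩).isOpen).preimage
      continuous_subtype_val, ⟨hyO, hbU ⟨y.1, hy⟩⟩, fun v hv => ?_⟩
    have h5 := h4 (fun i => ⟨(v i).1, (hv i).2⟩) (fun i => (hv i).1)
    refine Eq.trans ?_ h5
    show (∑ i : Fin (0 + 2), (-1) ^ (i : ℕ) * g (fun j => v (i.succAbove j)))
      = ∑ i : Fin (0 + 2), (-1) ^ (i : ℕ) * (c ⟨y.1, hy⟩).1 (fun j => ⟨(v (i.succAbove j)).1, (hv (i.succAbove j)).2⟩)
    refine Finset.sum_congr rfl fun i _ => ?_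
    congr 1
    have h6 := tup0 (fun j => v (i.succAbove j))
    have h7 := tup0 (fun j : Fin (0 + 1) => (⟨(v (i.succAbove j)).1, (hv (i.succAbove j)).2⟩ :
      ↥((fun x : B => x) ⁻¹' (U ⟨y.1, hy⟩ : Set B))))
    rw [h6, h7]
    exact hg ⟨y.1, hy⟩ (v (i.succAbove 0)).1 (hv (i.succAbove 0)).2 (v (i.succAbove 0)).2
  refine ⟨H.mk ⟨g, hgz⟩, ?_⟩
  rw [← sub_eq_zero]
  refine R_eq_zero_of_locally _ _ _ _ fun b hb => ⟨U ⟨b, hb⟩, hU ⟨b, hb⟩, hbU ⟨b, hb⟩, ?_⟩
  rw [map_sub, ← edge_res, ← ha ⟨b, hb⟩, sub_eq_zero]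
  congr 1
  rw [← hc]
  refine (H.mk_eq _ _).2 ?_
  have h1 : (pullZ (Set.inclusion (Set.preimage_mono (f := fun x : B => x) (hU ⟨b, hb⟩)))
      (continuous_inclusion _) 0 ⟨g, hgz⟩).1 - (c ⟨b, hb⟩).1 = 0 := by
    funext v
    have h6 := tup0 v
    rw [h6]
    exact sub_eq_zero.2 (hg ⟨b, hb⟩ (v 0).1 (v 0).2 (hU ⟨b, hb⟩ (v 0).2))
  rw [h1]
  exact Submodule.zero_mem _

/-- **the decomposition of the identity map** -/
def ofId (Z : Opens B) : MultDecomp (fun x : B => x) Z where
  W V n i := if i = 0 then Set.univ else {0}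
  subspace V n i := by
    split_ifs
    · exact ⟨⊤, rfl⟩
    · exact ⟨⊥, rfl⟩
  internal V _ n a := by
    refine ⟨fun i => if (i : ℕ) = 0 then a else 0, ⟨fun i => ?_, ?_⟩, ?_⟩
    · beta_reduce
      split_ifs with h
      · trivial
      · rfl
    · rw [Finset.sum_eq_single (0 : Fin (n + 1))]
      · rw [if_pos (Fin.val_zero _)]
      · intro i _ hi
        rw [if_neg]
        intro h
        exact hi (Fin.ext h)
      · intro h
        exact absurd (Finset.mem_univ _) h
    · rintro f ⟨hf, hs⟩
      have h0 : ∀ i : Fin (n + 1), (i : ℕ) ≠ 0 → f i = 0 := by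
        intro i hi
        have := hf i
        rw [if_neg hi] at this
        exact this
      have h1 : f 0 = a := by
        rw [← hs, Finset.sum_eq_single (0 : Fin (n + 1))]
        · intro i _ hi
          exact h0 i fun h => hi (Fin.ext h)
        · intro h
          exact absurd (Finset.mem_univ _) h
      funext i
      beta_reduce
      split_ifs with h
      · rw [← h1]
        congr 1
        exact Fin.ext h
      · exact h0 i h
  res {V U} h _ n i a ha := by
    split_ifs at ha ⊢ with hi
    · trivial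
    · have ha' : a = 0 := ha
      rw [ha', map_zero]
      rfl
  cup V _ m n i j a ha b hb e he := by
    split_ifs at ha with hi
    · split_ifs at hb with hj
      · rw [if_pos (by rw [hi, hj])]
        trivial
      · have hb' : b = 0 := hb
        subst hb'
        rw [isCup_zero_right he]
        split_ifs
        · trivial
        · rfl
    · have ha' : a = 0 := ha
      subst ha'
      rw [isCup_zero_left he]
      split_ifs
      · trivial
      · rfl
  edge_lt V _ n i hi a ha := by
    obtain ⟨k, rfl⟩ : ∃ k, n = k + 1 := ⟨n - 1, by omega⟩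
    exact sec_zero k V _
  edge_bij V _ n s := by
    rcases n with _ | k
    · obtain ⟨a, ha⟩ := edge_zero_surjective V s
      refine ⟨a, ⟨?_, ha⟩, ?_⟩
      · rw [if_pos rfl]
        trivial
      · rintro b ⟨_, hb⟩
        exact edge_zero_injective V (hb.trans ha.symm)
    · refine ⟨0, ⟨?_, ?_⟩, ?_⟩
      · rw [if_neg (Nat.succ_ne_zero k)]
        rfl
      · rw [sec_zero k V s]
        exact sec_zero k V _
      · rintro b ⟨hb, _⟩
        rw [if_neg (Nat.succ_ne_zero k)] at hb
        exact hb

end ident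

end

end TripleBurger.Sanity
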