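import Pool.Agent.helper10.K3B.Def

/-!
# The equations of `D_b`, tangent vectors and the differentials `η_i` (definitions)

`D_b ⊂ E₀ × E₁ × E₂` is given in the space `V9 = ℂ⁹` of homogeneous coordinates `(W, X, Y)` (outside
`W_i = X_i = 0`) by four equations.  Derivatives are directional derivatives (`HasDir`); tangent vectors are the
directions in which the derivatives of the four equations vanish (`IsTan`), and `IsSmoothAt p` says that the
differentials of the four equations are linearly independent at `p` (Jacobian criterion; `9 - 4 - 3 = 2`).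
-/

set_option autoImplicit false

noncomputable section
namespace Pool.Agent.K3G

open TripleBurger

/-- the space `ℂ⁹` of the homogeneous coordinates `(W, X, Y)` -/
abbrev V9 : Type := (Fin 3 → ℂ) × (Fin 3 → ℂ) × (Fin 3 → ℂ)

/-- the equation of `E_i` -/
def eqC (b : Param) (p : V9) (i : Fin 3) : ℂ := p.2.2 i ^ 2 - quartic b i (p.1 i) (p.2.1 i)

/-- the relation -/
def eqR (b : Param) (p : V9) : ℂ := p.2.1 0 * p.2.1 2 * p.1 1 - b 4 * p.2.1 1 * p.1 0 * p.1 2

/-- the four equations of `D_b` in homogeneous coordinates -/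
def eqs (b : Param) (p : V9) : (Fin 3 → ℂ) × ℂ := (eqC b p, eqR b p)

/-- the homogeneous coordinates of a point -/
def coord (p : Cone) : V9 := (p.W, p.X, p.Y)

/-- the point `p + ε u` -/
def line (p : Cone) (u : V9) (ε : ℂ) : V9 :=
  (fun i => p.W i + ε * u.1 i, fun i => p.X i + ε * u.2.1 i, fun i => p.Y i + ε * u.2.2 i)

/-- the derivative of `f` at `p` in the direction `u` is `c` -/
def HasDir (f : V9 → ℂ) (p : Cone) (u : V9) (c : ℂ) : Prop := HasDerivAt (fun ε : ℂ => f (line p u ε)) c 0

/-- the derivatives of the four equations at `p` in the direction `u` are `τ i`, `ρ` -/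
def HasDirs (p : Cone) (u : V9) (τ : Fin 3 → ℂ) (ρ : ℂ) : Prop :=
  (∀ i, HasDir (fun q => eqC p.b q i) p u (τ i)) ∧ HasDir (eqR p.b) p u ρ

/-- `u` is tangent to the cone over `D_b` at `p` -/
def IsTan (p : Cone) (u : V9) : Prop := HasDirs p u (fun _ => 0) 0

/-- the differentials of the four equations are linearly independent at `p` -/
def IsSmoothAt (p : Cone) : Prop := ∀ τ ρ, ∃ u, HasDirs p u τ ρ

/-- `X - r_j W` -/
def lin (b : Param) (i : Fin 3) (W X : ℂ) (j : Fin 4) : ℂ := X - root b i j * W

/-- the partial derivative of the quartic form by `W` -/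
def qW (b : Param) (i : Fin 3) (W X : ℂ) : ℂ :=
  ∑ j : Fin 4, -root b i j * ∏ k ∈ Finset.univ.erase j, lin b i W X k

/-- the partial derivative of the quartic form by `X` -/
def qX (b : Param) (i : Fin 3) (W X : ℂ) : ℂ :=
  ∑ j : Fin 4, ∏ k ∈ Finset.univ.erase j, lin b i W X k

/-- `t` is the value of the regular differential `η_i = dx_i / y_i` of `E_i` (`x_i = X_i / W_i`,
`y_i = Y_i / W_i²`) at the tangent vector `u`: `y_i η_i = dx_i`, `f_i'(x_i) η_i = 2 dy_i`, and the same in the chart
`X_i ≠ 0` -/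
def IsEta (p : Cone) (i : Fin 3) (u : V9) (t : ℂ) : Prop :=
  p.Y i * t = p.W i * u.2.1 i - p.X i * u.1 i ∧
  qX p.b i (p.W i) (p.X i) * t = 2 * (p.W i * u.2.2 i - 2 * p.Y i * u.1 i) ∧
  qW p.b i (p.W i) (p.X i) * t = -(2 * (p.X i * u.2.2 i - 2 * p.Y i * u.2.1 i))

end Pool.Agent.K3G
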